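import Pool.Agent.U262.SW.D
import Pool.Agent.Y981.L2X.Ends

/-!
Strict half planes, generic directions, and disjoint pairs of self-avoiding paths with given ends.
-/

set_option autoImplicit false

namespace Pool.Agent.U262.SW

open Pool.Agent.TH795.EP Pool.Agent.TH795.EP2 Pool.Agent.TH795.SE2 Pool.Agent.TH262.SawL H981 Finset
open Pool.Agent.Y981.L2 (path_ge path_zero' disp_reps one_le_q shorten)

variable {α β : ℝ}

/-- the opposite step -/
def opp : St → St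
  | St.E => St.W
  | St.W => St.E
  | St.N => St.S
  | St.S => St.N

theorem opp_x (s : St) : (opp s).x = -s.x := by cases s <;> simp [opp]
theorem opp_y (s : St) : (opp s).y = -s.y := by cases s <;> simp [opp]

/-- the intermediate points are strictly in the half plane -/
def SsH (α β : ℝ) (w : List St) : Prop := ∀ k, 0 < k → k < w.length → hh α β (path w k) < 0

noncomputable def ssH (α β : ℝ) (m : ℕ) (x y : ℤ) : ℕ :=
  (fs (fun w => (Saw w ∧ dx w = x ∧ dy w = y) ∧ SsH α β w) m).card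

theorem exists_step (hne : α ≠ 0 ∨ β ≠ 0) : ∃ s : St, hh α β (s.x, s.y) < 0 := by
  by_contra hcon
  push Not at hcon
  have h1 := hcon St.E
  have h2 := hcon St.W
  have h3 := hcon St.N
  have h4 := hcon St.S
  simp only [hh, St.x_E, St.y_E, St.x_W, St.y_W, St.x_N, St.y_N, St.x_S, St.y_S] at h1 h2 h3 h4
  push_cast at h1 h2 h3 h4
  rcases hne with h | h
  · exact h (by linarith)
  · exact h (by linarith)

theorem la_le_ssH {s : St} (hs : hh α β (s.x, s.y) < 0) (m : ℕ) {x y : ℤ}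
    (hxy : hh α β (x, y) = 0) (hz : (x, y) ≠ (0, 0)) : laH α β m x y ≤ ssH α β (m + 2) x y := by
  unfold laH ssH
  apply card_le_of_decode (fun v => (v.drop 1).take m)
  intro w hw
  rw [mem_fs] at hw
  obtain ⟨⟨⟨h1, h2, h3⟩, h4⟩, h5⟩ := hw
  obtain ⟨v, hv⟩ : ∃ v, v = s :: (w ++ [opp s]) := ⟨_, rfl⟩
  have hvl : v.length = m + 2 := by
    rw [hv, List.length_cons, List.length_append, h5]; rfl
  have hp : ∀ k, k ≤ m → path v (k + 1) = (s.x + (path w k).1, s.y + (path w k).2) := by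
    intro k hk
    rw [hv, path_cons_succ, path_append_left (by omega)]
  have hdx : dx v = x := by
    rw [hv, dx_cons, dx_append, dx_cons, dx_nil, opp_x, h2]; ring
  have hdy : dy v = y := by
    rw [hv, dy_cons, dy_append, dy_cons, dy_nil, opp_y, h3]; ring
  have hend : path v (m + 2) = (x, y) := by
    rw [← hvl, path_len, hdx, hdy]
  have hlow : ∀ k, 0 < k → k < m + 2 → hh α β (path v k) < 0 := by
    intro k hk hk2
    obtain ⟨l, rfl⟩ : ∃ l, k = l + 1 := ⟨k - 1, by omega⟩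
    rw [hp l (by omega)]
    have e : hh α β (s.x + (path w l).1, s.y + (path w l).2) =
        hh α β (s.x, s.y) + hh α β (path w l) := by
      unfold hh; push_cast; ring
    rw [e]
    have := h4 l
    linarith
  refine ⟨v, mem_fs.2 ⟨⟨⟨?_, hdx, hdy⟩, ?_⟩, hvl⟩, ?_⟩
  · rw [saw_iff']
    intro i j hij hj
    rw [hvl] at hj
    intro he
    rcases Nat.eq_or_lt_of_le hj with hj2 | hj2
    · subst hj2
      rw [hend] at he
      rcases Nat.eq_zero_or_pos i with hi | hi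
      · subst hi
        rw [path_zero'] at he
        exact hz he.symm
      · have := hlow i hi hij
        rw [he, hxy] at this
        exact lt_irrefl _ this
    · rcases Nat.eq_zero_or_pos i with hi | hi
      · subst hi
        have := hlow j (by omega) hj2
        rw [← he, path_zero', hh_zero] at this
        exact lt_irrefl _ this
      · obtain ⟨i', rfl⟩ : ∃ i', i = i' + 1 := ⟨i - 1, by omega⟩
        obtain ⟨j', rfl⟩ : ∃ j', j = j' + 1 := ⟨j - 1, by omega⟩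
        rw [hp i' (by omega), hp j' (by omega)] at he
        obtain ⟨e1, e2⟩ := Prod.mk.inj he
        exact saw_iff'.1 h1 i' j' (by omega) (by omega) (Prod.ext (by omega) (by omega))
  · intro k hk hk2
    exact hlow k hk (by omega)
  · rw [hv, List.drop_succ_cons, List.drop_zero, List.take_left' h5]

/-- **Arches over any chord.** -/
theorem a_le_ssH : ∃ K : ℝ, 0 ≤ K ∧ ∀ n : ℕ, 2 ≤ n → ∀ m ≤ n, ∀ α β : ℝ, (α ≠ 0 ∨ β ≠ 0) →
    ∀ x y : ℤ, hh α β (x, y) = 0 → (x, y) ≠ (0, 0) → |x| + |y| < m →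
    (a m x y : ℝ) ≤ q n K * ssH α β m x y := by
  obtain ⟨K1, hK1, h1⟩ := shorten
  obtain ⟨K2, hK2, h2⟩ := a_le_laH
  refine ⟨K1 + K2, by positivity, ?_⟩
  intro n hn m hm α β hne x y hxy hz hlt
  obtain ⟨s, hs⟩ := exists_step hne
  have hm2 : 2 ≤ m := by
    have h3 := abs_nonneg x
    have h4 := abs_nonneg y
    by_contra hcon
    apply hz
    have h5 : |x| = 0 := by omega
    have h6 : |y| = 0 := by omega
    exact Prod.ext (abs_eq_zero.1 h5) (abs_eq_zero.1 h6)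
  have g1 := h1 n hn m hm x y hz hlt
  have g2 := h2 n hn (m - 2) (by omega) α β hne x y (by rw [← hh_mk]; exact hxy.le) hz
  have g3 := la_le_ssH hs (m - 2) hxy hz
  rw [Nat.sub_add_cancel hm2] at g3
  have g3' : (laH α β (m - 2) x y : ℝ) ≤ ssH α β m x y := by exact_mod_cast g3
  have p1 := q_pos n K1
  have p2 := q_pos n K2
  calc (a m x y : ℝ) ≤ q n K1 * a (m - 2) x y := g1
    _ ≤ q n K1 * (q n K2 * laH α β (m - 2) x y) := by gcongr
    _ ≤ q n K1 * (q n K2 * ssH α β m x y) := by gcongr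
    _ = (q n K1 * q n K2) * ssH α β m x y := by ring
    _ = _ := by rw [q_mul]

/-! ### generic separating directions -/

/-- the two points lie on one ray from the origin -/
def SameRay (x y : ℤ × ℤ) : Prop := x.1 * y.2 = x.2 * y.1 ∧ 0 < x.1 * y.1 + x.2 * y.2

theorem sq_pos_of_ne {p : ℤ × ℤ} (hp : p ≠ (0, 0)) : (0 : ℝ) < (p.1 : ℝ) ^ 2 + (p.2 : ℝ) ^ 2 := by
  by_contra hcon
  push Not at hcon
  have h1 := sq_nonneg (p.1 : ℝ)
  have h2 := sq_nonneg (p.2 : ℝ)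
  have h3 : (p.1 : ℝ) ^ 2 = 0 := by linarith
  have h4 : (p.2 : ℝ) ^ 2 = 0 := by linarith
  apply hp
  have h5 : (p.1 : ℝ) = 0 := by simpa using h3
  have h6 : (p.2 : ℝ) = 0 := by simpa using h4
  exact Prod.ext (by exact_mod_cast h5) (by exact_mod_cast h6)

open Filter Topology in
theorem exists_sep {x y : ℤ × ℤ} (hx : x ≠ (0, 0)) (hy : y ≠ (0, 0)) (hns : ¬ SameRay x y)
    (N : ℕ) : ∃ α β : ℝ, (α ≠ 0 ∨ β ≠ 0) ∧ 0 ≤ hh α β x ∧ hh α β y ≤ 0 ∧
      ∀ p : ℤ × ℤ, |p.1| ≤ N → |p.2| ≤ N → hh α β p = 0 → p = (0, 0) := by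
  have hx2 := sq_pos_of_ne hx
  have hy2 := sq_pos_of_ne hy
  obtain ⟨r, hr⟩ : ∃ r, r = Real.sqrt ((x.1 : ℝ) ^ 2 + (x.2 : ℝ) ^ 2) := ⟨_, rfl⟩
  obtain ⟨s, hs⟩ : ∃ s, s = Real.sqrt ((y.1 : ℝ) ^ 2 + (y.2 : ℝ) ^ 2) := ⟨_, rfl⟩
  have hr0 : 0 < r := by rw [hr]; exact Real.sqrt_pos.2 hx2
  have hs0 : 0 < s := by rw [hs]; exact Real.sqrt_pos.2 hy2
  have hr2 : r ^ 2 = (x.1 : ℝ) ^ 2 + (x.2 : ℝ) ^ 2 := by rw [hr]; exact Real.sq_sqrt hx2.le
  have hs2 : s ^ 2 = (y.1 : ℝ) ^ 2 + (y.2 : ℝ) ^ 2 := by rw [hs]; exact Real.sq_sqrt hy2.le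
  have hlt : (x.1 : ℝ) * y.1 + (x.2 : ℝ) * y.2 < r * s := by
    by_contra hcon
    push Not at hcon
    have h1 : 0 < r * s := mul_pos hr0 hs0
    have h2 : (r * s) ^ 2 ≤ ((x.1 : ℝ) * y.1 + (x.2 : ℝ) * y.2) ^ 2 :=
      pow_le_pow_left₀ h1.le hcon 2
    have h3 : (r * s) ^ 2 = ((x.1 : ℝ) * y.1 + (x.2 : ℝ) * y.2) ^ 2 +
        ((x.1 : ℝ) * y.2 - (x.2 : ℝ) * y.1) ^ 2 := by
      rw [mul_pow, hr2, hs2]; ring
    have h4 : ((x.1 : ℝ) * y.2 - (x.2 : ℝ) * y.1) ^ 2 = 0 := by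
      have := sq_nonneg ((x.1 : ℝ) * y.2 - (x.2 : ℝ) * y.1)
      linarith
    have h5 : (x.1 : ℝ) * y.2 - (x.2 : ℝ) * y.1 = 0 := by simpa using h4
    apply hns
    refine ⟨?_, ?_⟩
    · have : (x.1 : ℝ) * y.2 = (x.2 : ℝ) * y.1 := by linarith
      exact_mod_cast this
    · have : (0 : ℝ) < (x.1 : ℝ) * y.1 + (x.2 : ℝ) * y.2 := by linarith
      exact_mod_cast this
  obtain ⟨a0, ha0⟩ : ∃ a0 : ℝ, a0 = x.1 * s - y.1 * r := ⟨_, rfl⟩
  obtain ⟨b0, hb0⟩ : ∃ b0 : ℝ, b0 = x.2 * s - y.2 * r := ⟨_, rfl⟩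
  have hhx : 0 < hh a0 b0 x := by
    have : hh a0 b0 x = r * (r * s - ((x.1 : ℝ) * y.1 + (x.2 : ℝ) * y.2)) := by
      unfold hh
      rw [ha0, hb0]
      calc (x.1 * s - y.1 * r) * (x.1 : ℝ) + (x.2 * s - y.2 * r) * (x.2 : ℝ)
          = s * ((x.1 : ℝ) ^ 2 + (x.2 : ℝ) ^ 2) - r * ((x.1 : ℝ) * y.1 + (x.2 : ℝ) * y.2) := by ring
        _ = _ := by rw [← hr2]; ring
    rw [this]
    exact mul_pos hr0 (by linarith)
  have hhy : hh a0 b0 y < 0 := by
    have : hh a0 b0 y = -(s * (r * s - ((x.1 : ℝ) * y.1 + (x.2 : ℝ) * y.2))) := by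
      unfold hh
      rw [ha0, hb0]
      calc (x.1 * s - y.1 * r) * (y.1 : ℝ) + (x.2 * s - y.2 * r) * (y.2 : ℝ)
          = s * ((x.1 : ℝ) * y.1 + (x.2 : ℝ) * y.2) - r * ((y.1 : ℝ) ^ 2 + (y.2 : ℝ) ^ 2) := by ring
        _ = _ := by rw [← hs2]; ring
    rw [this]
    have := mul_pos hs0 (by linarith : 0 < r * s - ((x.1 : ℝ) * y.1 + (x.2 : ℝ) * y.2))
    linarith
  have hab : 0 < a0 ^ 2 + b0 ^ 2 := by
    by_contra hcon
    push Not at hcon
    have h1 := sq_nonneg a0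
    have h2 := sq_nonneg b0
    have h3 : a0 = 0 := by
      have : a0 ^ 2 = 0 := by linarith
      simpa using this
    have h4 : b0 = 0 := by
      have : b0 ^ 2 = 0 := by linarith
      simpa using this
    rw [h3, h4] at hhx
    unfold hh at hhx
    simp at hhx
  have e1 := lin_pos (B := -b0 * x.1 + a0 * x.2) hhx
  have e2 := lin_pos (A := -hh a0 b0 y) (B := -(-b0 * y.1 + a0 * y.2)) (by linarith)
  have e3 : ∀ᶠ ε in 𝓝[>] (0 : ℝ), ∀ p ∈ (Finset.Icc (-(N : ℤ)) N ×ˢ Finset.Icc (-(N : ℤ)) N),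
      p ≠ (0, 0) → hh a0 b0 p + ε * (-b0 * p.1 + a0 * p.2) ≠ 0 := by
    rw [Finset.eventually_all]
    intro p _
    by_cases hp : p = (0, 0)
    · exact Eventually.of_forall fun ε h => absurd hp h
    · have : ∀ᶠ ε in 𝓝[>] (0 : ℝ), hh a0 b0 p + ε * (-b0 * p.1 + a0 * p.2) ≠ 0 := by
        apply lin_ne
        by_contra hcon
        push Not at hcon
        obtain ⟨c1, c2⟩ := hcon
        have h1 := sq_pos_of_ne hp
        have h2 := mul_pos hab h1
        have h3 : (a0 ^ 2 + b0 ^ 2) * ((p.1 : ℝ) ^ 2 + (p.2 : ℝ) ^ 2) =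
            (hh a0 b0 p) ^ 2 + (-b0 * p.1 + a0 * p.2) ^ 2 := by
          unfold hh; ring
        rw [h3, c1, c2] at h2
        norm_num at h2
      filter_upwards [this] with ε hε _
      exact hε
  obtain ⟨ε, h1, h2, h3⟩ := (e1.and (e2.and e3)).exists
  have key : ∀ p : ℤ × ℤ, hh (a0 - ε * b0) (b0 + ε * a0) p =
      hh a0 b0 p + ε * (-b0 * p.1 + a0 * p.2) := by
    intro p; unfold hh; ring
  refine ⟨a0 - ε * b0, b0 + ε * a0, ?_, ?_, ?_, ?_⟩
  · by_contra hcon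
    push Not at hcon
    have h4 := key x
    rw [hcon.1, hcon.2] at h4
    rw [← h4] at h1
    unfold hh at h1
    simp at h1
  · rw [key]; exact h1.le
  · rw [key]; linarith
  · intro p hp1 hp2 hp
    by_contra hne
    rw [key] at hp
    exact h3 p (by
      rw [Finset.mem_product, Finset.mem_Icc, Finset.mem_Icc]
      exact ⟨abs_le.1 hp1, abs_le.1 hp2⟩) hne hp

/-! ### disjoint pairs -/

open Pool.Agent.Y981.L2X

/-- words on two sides give disjoint pairs of walks -/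
theorem mul_le_prP (n m : ℕ) (x y : ℤ × ℤ) (PA PB : List St → Prop)
    (hdis : ∀ w w' : List St, w.length = n → w'.length = m → Saw w → Saw w' →
      (dx w = x.1 ∧ dy w = x.2) → (dx w' = y.1 ∧ dy w' = y.2) → PA w → PB w' →
      ∀ i ≤ n, ∀ j ≤ m, i ≠ 0 → path w i ≠ path w' j) :
    (fs (fun w => (Saw w ∧ dx w = x.1 ∧ dy w = x.2) ∧ PA w) n).card *
      (fs (fun w => (Saw w ∧ dx w = y.1 ∧ dy w = y.2) ∧ PB w) m).card ≤ UE.pr n m x y := by
  classical
  rw [← Finset.card_product]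
  have e : ∀ S : Finset (List St × List St), S.card = Nat.card S := by
    intro S
    rw [Nat.card_eq_fintype_card, Fintype.card_coe]
  rw [e]
  unfold UE.pr
  have := UE.finite_pr n m x y
  refine Nat.card_le_card_of_injective (fun q => ⟨(ew n q.1.1, ew m q.1.2), ?_⟩) ?_
  · obtain ⟨⟨w, w'⟩, hq⟩ := q
    rw [Finset.mem_product, mem_fs, mem_fs] at hq
    obtain ⟨⟨⟨⟨h1, h2⟩, h3⟩, h4⟩, ⟨⟨h1', h2'⟩, h3'⟩, h4'⟩ := hq
    simp only at h1 h2 h3 h4 h1' h2' h3' h4' ⊢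
    refine ⟨⟨ew_saw n h4 h1, ew_saw m h4' h1', ?_⟩, ?_, ?_⟩
    · intro i j hi hij
      refine hdis w w' h4 h4' h1 h1' h2 h2' h3 h3' i (by have := i.2; omega) j
        (by have := j.2; omega) ?_ hij
      intro h0
      exact hi (Fin.ext (by simpa using h0))
    · rw [ew_last n h4]; exact Prod.ext h2.1 h2.2
    · rw [ew_last m h4']; exact Prod.ext h2'.1 h2'.2
  · rintro ⟨⟨w, w'⟩, hq⟩ ⟨⟨v, v'⟩, hq'⟩ he
    rw [Finset.mem_product, mem_fs, mem_fs] at hq hq'
    have h3 := congrArg Subtype.val he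
    simp only [Prod.mk.injEq] at h3
    obtain ⟨h4, h5⟩ := h3
    have h6 := ew_injOn n hq.1.2 hq'.1.2 h4
    have h7 := ew_injOn m hq.2.2 hq'.2.2 h5
    simp only at h6 h7
    subst h6 h7
    rfl

theorem ne_of_ax {n : ℕ} (hn : 1 ≤ n) {x : ℤ × ℤ} (h : 0 < UE.ax n x) : x ≠ (0, 0) := by
  intro h0
  rw [h0, UE.ax_zero hn] at h
  exact absurd h (lt_irrefl _)

/-- not on the same ray, or different and both lengths not minimal -/
def Cond (n m : ℕ) (x y : ℤ × ℤ) : Prop :=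
  ¬ SameRay x y ∨ (x ≠ y ∧ |x.1| + |x.2| < n ∧ |y.1| + |y.2| < m)

theorem laH_neg_mul_le {n m : ℕ} {x y : ℤ × ℤ} {α β : ℝ}
    (hg : ∀ p : ℤ × ℤ, |p.1| ≤ ((n + m : ℕ) : ℤ) → |p.2| ≤ ((n + m : ℕ) : ℤ) → hh α β p = 0 →
      p = (0, 0)) :
    laH (-α) (-β) n x.1 x.2 * laH α β m y.1 y.2 ≤ UE.pr n m x y := by
  unfold laH
  apply mul_le_prP
  intro w w' hl hl' hw hw' _ _ hA hB i hi j hj hi0 he
  have h1 := hA i
  have h2 := hB j
  rw [← he] at h2
  have h3 : hh (-α) (-β) (path w i) = -hh α β (path w i) := by unfold hh; ring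
  rw [h3] at h1
  have hb := path_box w i
  rw [hl] at hb
  have h4 := hg (path w i) (by have := hb.1; push_cast; omega) (by have := hb.2; push_cast; omega)
    (by linarith)
  refine saw_iff'.1 hw 0 i (by omega) (by omega) ?_
  rw [path_zero', h4]

theorem ssH_neg_mul_le {n m : ℕ} {x y : ℤ × ℤ} {α β : ℝ} (hx : x ≠ (0, 0)) (hxy : x ≠ y)
    (hhx : hh α β x = 0) (hhy : hh α β y = 0) :
    ssH (-α) (-β) n x.1 x.2 * ssH α β m y.1 y.2 ≤ UE.pr n m x y := by
  unfold ssH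
  apply mul_le_prP
  intro w w' hl hl' hw hw' hdx hdy hA hB i hi j hj hi0 he
  have hneg : ∀ p : ℤ × ℤ, hh (-α) (-β) p = -hh α β p := by intro p; unfold hh; ring
  have hwend : path w n = x := by
    rw [← hl, path_len]; exact Prod.ext hdx.1 hdx.2
  have hwend' : path w' m = y := by
    rw [← hl', path_len]; exact Prod.ext hdy.1 hdy.2
  have hBle : hh α β (path w' j) ≤ 0 := by
    rcases Nat.eq_zero_or_pos j with h | h
    · subst h; rw [path_zero', hh_zero]
    · rcases Nat.eq_or_lt_of_le hj with h' | h'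
      · rw [h', hwend', hhy]
      · exact (hB j h (by omega)).le
  rcases Nat.eq_or_lt_of_le hi with h | h
  · subst h
    rw [hwend] at he
    rcases Nat.eq_zero_or_pos j with h | h
    · subst h; rw [path_zero'] at he; exact hx he
    · rcases Nat.eq_or_lt_of_le hj with h' | h'
      · rw [h', hwend'] at he; exact hxy he
      · have := hB j h (by omega)
        rw [← he, hhx] at this
        exact lt_irrefl _ this
  · have := hA i (by omega) (by omega)
    rw [hneg, he] at this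
    linarith

theorem ends' : ∃ K : ℝ, 0 ≤ K ∧ ∀ n m : ℕ, 2 ≤ n → 2 ≤ m → ∀ x y : ℤ × ℤ, Cond n m x y →
    (UE.ax n x : ℝ) * UE.ax m y ≤
      Real.exp (K * (Real.log n ^ 2 + Real.log m ^ 2)) * UE.pr n m x y := by
  obtain ⟨K1, hK1, h1⟩ := a_le_laH
  obtain ⟨K2, hK2, h2⟩ := a_le_ssH
  refine ⟨K1 + K2, by positivity, fun n m hn hm x y hc => ?_⟩
  have hln : 0 ≤ Real.log (n : ℝ) ^ 2 := pow_nonneg (Real.log_natCast_nonneg n) 2
  have hlm : 0 ≤ Real.log (m : ℝ) ^ 2 := pow_nonneg (Real.log_natCast_nonneg m) 2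
  rcases eq_or_ne x (0, 0) with hx0 | hx0
  · subst hx0
    rw [UE.ax_zero (by omega)]
    simp only [Nat.cast_zero, zero_mul]
    positivity
  rcases eq_or_ne y (0, 0) with hy0 | hy0
  · subst hy0
    rw [UE.ax_zero (by omega)]
    simp only [Nat.cast_zero, mul_zero]
    positivity
  have fin : ∀ (K : ℝ), 0 ≤ K → K ≤ K1 + K2 → ∀ A B : ℝ, 0 ≤ A → 0 ≤ B →
      (UE.ax n x : ℝ) ≤ q n K * A → (UE.ax m y : ℝ) ≤ q m K * B → A * B ≤ UE.pr n m x y →
      (UE.ax n x : ℝ) * UE.ax m y ≤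
        Real.exp ((K1 + K2) * (Real.log n ^ 2 + Real.log m ^ 2)) * UE.pr n m x y := by
    intro K hK hKle A B hA hB g1 g2 g3
    have p1 := q_pos n K
    have p2 := q_pos m K
    calc (UE.ax n x : ℝ) * UE.ax m y ≤ (q n K * A) * (q m K * B) := by gcongr
      _ = (q n K * q m K) * (A * B) := by ring
      _ ≤ Real.exp ((K1 + K2) * (Real.log n ^ 2 + Real.log m ^ 2)) * UE.pr n m x y := by
          have e : q n K * q m K ≤ Real.exp ((K1 + K2) * (Real.log n ^ 2 + Real.log m ^ 2)) := by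
            unfold q
            rw [← Real.exp_add]
            apply Real.exp_le_exp.2
            nlinarith [mul_le_mul_of_nonneg_right hKle (add_nonneg hln hlm)]
          have := mul_nonneg hA hB
          gcongr
  by_cases hsr : SameRay x y
  · obtain ⟨hne, hlx, hly⟩ : x ≠ y ∧ |x.1| + |x.2| < n ∧ |y.1| + |y.2| < m := by
      rcases hc with h | h
      · exact absurd hsr h
      · exact h
    -- the line through the two points
    obtain ⟨α, hα⟩ : ∃ α : ℝ, α = x.2 := ⟨_, rfl⟩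
    obtain ⟨β, hβ⟩ : ∃ β : ℝ, β = -x.1 := ⟨_, rfl⟩
    have hab : α ≠ 0 ∨ β ≠ 0 := by
      by_contra hcon
      push Not at hcon
      apply hx0
      rw [hα, hβ] at hcon
      exact Prod.ext (by have := neg_eq_zero.1 hcon.2; exact_mod_cast this)
        (by have := hcon.1; exact_mod_cast this)
    have hhx : hh α β x = 0 := by unfold hh; rw [hα, hβ]; ring
    have hhy : hh α β y = 0 := by
      unfold hh
      rw [hα, hβ]
      have : (x.1 : ℝ) * y.2 = (x.2 : ℝ) * y.1 := by exact_mod_cast hsr.1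
      linarith
    have hab' : -α ≠ 0 ∨ -β ≠ 0 := by
      rcases hab with h | h
      · exact Or.inl (neg_ne_zero.2 h)
      · exact Or.inr (neg_ne_zero.2 h)
    have hhx' : hh (-α) (-β) (x.1, x.2) = 0 := by
      have : hh (-α) (-β) (x.1, x.2) = -hh α β x := by unfold hh; ring
      rw [this, hhx, neg_zero]
    have g1 := h2 n hn n le_rfl (-α) (-β) hab' x.1 x.2 hhx' hx0 hlx
    have g2 := h2 m hm m le_rfl α β hab y.1 y.2 hhy hy0 hly
    rw [← UE.ax_eq] at g1 g2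
    refine fin K2 hK2 (by linarith) _ _ (Nat.cast_nonneg _) (Nat.cast_nonneg _) g1 g2 ?_
    exact_mod_cast ssH_neg_mul_le hx0 hne hhx hhy
  · obtain ⟨α, β, hab, hx, hy, hg⟩ := exists_sep hx0 hy0 hsr (n + m)
    have hab' : -α ≠ 0 ∨ -β ≠ 0 := by
      rcases hab with h | h
      · exact Or.inl (neg_ne_zero.2 h)
      · exact Or.inr (neg_ne_zero.2 h)
    have g1 := h1 n hn n le_rfl (-α) (-β) hab' x.1 x.2 (by unfold hh at hx; linarith) hx0
    have g2 := h1 m hm m le_rfl α β hab y.1 y.2 (by unfold hh at hy; linarith) hy0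
    rw [← UE.ax_eq] at g1 g2
    refine fin K1 hK1 (by linarith) _ _ (Nat.cast_nonneg _) (Nat.cast_nonneg _) g1 g2 ?_
    exact_mod_cast laH_neg_mul_le hg

end Pool.Agent.U262.SW
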