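import Pool.Agent.U262.SW.Z2

/-!
Walks with a prescribed end point and a prescribed point at a given time.
-/

set_option autoImplicit false

namespace Pool.Agent.U262.SW

open Pool.Agent.TH795.EP Pool.Agent.TH795.EP2 Pool.Agent.TH795.SE2 Pool.Agent.TH262.SawL H981 Finset
open Pool.Agent.Y981.L2

variable {α β : ℝ}

/-- the words with `n + m` steps which are at `-x` after `n` steps and end at `y - x` -/
noncomputable def md (n m : ℕ) (x y : ℤ × ℤ) : ℕ :=
  (fs (fun w => Saw w ∧ H981.path w n = (-x.1, -x.2) ∧ dx w = y.1 - x.1 ∧ dy w = y.2 - x.2)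
    (n + m)).card

/-- words on two sides give words through the point -/
theorem mul_le_md (n m : ℕ) (x y : ℤ × ℤ) (PA PB : List St → Prop)
    (hdis : ∀ w w' : List St, w.length = n → w'.length = m → Saw w → Saw w' →
      (dx w = x.1 ∧ dy w = x.2) → (dx w' = y.1 ∧ dy w' = y.2) → PA w → PB w' →
      ∀ i ≤ n, ∀ j ≤ m, i ≠ 0 → path w i ≠ path w' j) :
    (fs (fun w => (Saw w ∧ dx w = x.1 ∧ dy w = x.2) ∧ PA w) n).card *
      (fs (fun w => (Saw w ∧ dx w = y.1 ∧ dy w = y.2) ∧ PB w) m).card ≤ md n m x y := by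
  classical
  rw [← Finset.card_product]
  unfold md
  apply card_le_of_decode (fun f => (rv (f.take n), f.drop n))
  rintro ⟨w, w'⟩ hq
  rw [Finset.mem_product, mem_fs, mem_fs] at hq
  obtain ⟨⟨⟨⟨h1, h2⟩, h3⟩, h4⟩, ⟨⟨h1', h2'⟩, h3'⟩, h4'⟩ := hq
  simp only at h1 h2 h3 h4 h1' h2' h3' h4'
  have hd := hdis w w' h4 h4' h1 h1' h2 h2' h3 h3'
  have hl : (rv w).length = n := by rw [length_rv, h4]
  have p1 : ∀ k ≤ n, path (rv w ++ w') k =
      ((path w (n - k)).1 - x.1, (path w (n - k)).2 - x.2) := by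
    intro k hk
    rw [path_append_left (by omega), path_rv, h4, h2.1, h2.2]
  have p2 : ∀ k, path (rv w ++ w') (n + k) = (-x.1 + (path w' k).1, -x.2 + (path w' k).2) := by
    intro k
    have := path_append_right (rv w) w' k
    rw [hl, dx_rv, dy_rv, h2.1, h2.2] at this
    exact this
  refine ⟨rv w ++ w', ?_, ?_⟩
  · rw [mem_fs]
    refine ⟨⟨?_, ?_, ?_, ?_⟩, by rw [List.length_append, hl, h4']⟩
    · rw [saw_iff']
      intro i j hij hj he
      rw [List.length_append, hl, h4'] at hj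
      rcases Nat.le_total j n with h | h
      · rw [p1 _ h, p1 _ (by omega)] at he
        obtain ⟨e1, e2⟩ := Prod.mk.inj he
        exact saw_iff'.1 h1 (n - j) (n - i) (by omega) (by omega)
          (Prod.ext (by omega) (by omega))
      · obtain ⟨k, rfl⟩ : ∃ k, j = n + k := ⟨j - n, by omega⟩
        rw [p2] at he
        rcases Nat.lt_or_ge i n with h' | h'
        · rw [p1 _ h'.le] at he
          obtain ⟨e1, e2⟩ := Prod.mk.inj he
          exact hd (n - i) (by omega) k (by omega) (by omega) (Prod.ext (by omega) (by omega))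
        · obtain ⟨l, rfl⟩ : ∃ k, i = n + k := ⟨i - n, by omega⟩
          rw [p2] at he
          obtain ⟨e1, e2⟩ := Prod.mk.inj he
          exact saw_iff'.1 h1' l k (by omega) (by omega) (Prod.ext (by omega) (by omega))
    · have := p2 0
      rw [add_zero, path_zero'] at this
      rw [this]
      ext
      · simp only; ring
      · simp only; ring
    · rw [dx_append, dx_rv, h2.1, h2'.1]; ring
    · rw [dy_append, dy_rv, h2.2, h2'.2]; ring
  · rw [← hl, List.take_left, List.drop_left, rv_rv]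

theorem a_zero' {n : ℕ} (hn : 1 ≤ n) : a n 0 0 = 0 := by
  unfold a
  rw [Finset.card_eq_zero]
  by_contra hne
  obtain ⟨w, hw⟩ := Finset.nonempty_iff_ne_empty.2 hne
  rw [mem_fs] at hw
  have := saw_nil_of hw.1.1 hw.1.2.1 hw.1.2.2
  rw [this] at hw
  simp at hw
  omega

theorem laH_mid_le {n m : ℕ} {x y : ℤ × ℤ} {α β : ℝ}
    (hg : ∀ p : ℤ × ℤ, |p.1| ≤ ((n + m : ℕ) : ℤ) → |p.2| ≤ ((n + m : ℕ) : ℤ) → hh α β p = 0 →
      p = (0, 0)) :
    laH (-α) (-β) n x.1 x.2 * laH α β m y.1 y.2 ≤ md n m x y := by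
  unfold laH
  apply mul_le_md
  intro w w' hl hl' hw hw' _ _ hA hB i hi j hj hi0 he
  have h1 := hA i
  have h2 := hB j
  rw [← he] at h2
  have h3 : hh (-α) (-β) (path w i) = -hh α β (path w i) := by unfold hh; ring
  rw [h3] at h1
  have hb := path_box w i
  rw [hl] at hb
  have h4 := hg (path w i) (by have := hb.1; push_cast; omega) (by have := hb.2; push_cast; omega)
    (by linarith)
  refine saw_iff'.1 hw 0 i (by omega) (by omega) ?_
  rw [path_zero', h4]

theorem ssH_mid_le {n m : ℕ} {x y : ℤ × ℤ} {α β : ℝ} (hx : x ≠ (0, 0)) (hxy : x ≠ y)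
    (hhx : hh α β x = 0) (hhy : hh α β y = 0) :
    ssH (-α) (-β) n x.1 x.2 * ssH α β m y.1 y.2 ≤ md n m x y := by
  unfold ssH
  apply mul_le_md
  intro w w' hl hl' hw hw' hdx hdy hA hB i hi j hj hi0 he
  have hneg : ∀ p : ℤ × ℤ, hh (-α) (-β) p = -hh α β p := by intro p; unfold hh; ring
  have hwend : path w n = x := by
    rw [← hl, path_len]; exact Prod.ext hdx.1 hdx.2
  have hwend' : path w' m = y := by
    rw [← hl', path_len]; exact Prod.ext hdy.1 hdy.2
  have hBle : hh α β (path w' j) ≤ 0 := by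
    rcases Nat.eq_zero_or_pos j with h | h
    · subst h; rw [path_zero', hh_zero]
    · rcases Nat.eq_or_lt_of_le hj with h' | h'
      · rw [h', hwend', hhy]
      · exact (hB j h (by omega)).le
  rcases Nat.eq_or_lt_of_le hi with h | h
  · subst h
    rw [hwend] at he
    rcases Nat.eq_zero_or_pos j with h | h
    · subst h; rw [path_zero'] at he; exact hx he
    · rcases Nat.eq_or_lt_of_le hj with h' | h'
      · rw [h', hwend'] at he; exact hxy he
      · have := hB j h (by omega)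
        rw [← he, hhx] at this
        exact lt_irrefl _ this
  · have := hA i (by omega) (by omega)
    rw [hneg, he] at this
    linarith

theorem mid_low' : ∃ K : ℝ, 0 ≤ K ∧ ∀ n m : ℕ, 2 ≤ n → 2 ≤ m → ∀ x y : ℤ × ℤ, Cond n m x y →
    (a n x.1 x.2 : ℝ) * a m y.1 y.2 ≤
      Real.exp (K * (Real.log n ^ 2 + Real.log m ^ 2)) * md n m x y := by
  obtain ⟨K1, hK1, h1⟩ := a_le_laH
  obtain ⟨K2, hK2, h2⟩ := a_le_ssH
  refine ⟨K1 + K2, by positivity, fun n m hn hm x y hc => ?_⟩
  have hln : 0 ≤ Real.log (n : ℝ) ^ 2 := pow_nonneg (Real.log_natCast_nonneg n) 2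
  have hlm : 0 ≤ Real.log (m : ℝ) ^ 2 := pow_nonneg (Real.log_natCast_nonneg m) 2
  rcases eq_or_ne x (0, 0) with hx0 | hx0
  · subst hx0
    rw [a_zero' (by omega)]
    simp only [Nat.cast_zero, zero_mul]
    positivity
  rcases eq_or_ne y (0, 0) with hy0 | hy0
  · subst hy0
    rw [a_zero' (by omega)]
    simp only [Nat.cast_zero, mul_zero]
    positivity
  have fin : ∀ (K : ℝ), 0 ≤ K → K ≤ K1 + K2 → ∀ A B : ℝ, 0 ≤ A → 0 ≤ B →
      (a n x.1 x.2 : ℝ) ≤ q n K * A → (a m y.1 y.2 : ℝ) ≤ q m K * B → A * B ≤ md n m x y →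
      (a n x.1 x.2 : ℝ) * a m y.1 y.2 ≤
        Real.exp ((K1 + K2) * (Real.log n ^ 2 + Real.log m ^ 2)) * md n m x y := by
    intro K hK hKle A B hA hB g1 g2 g3
    have p1 := q_pos n K
    have p2 := q_pos m K
    calc (a n x.1 x.2 : ℝ) * a m y.1 y.2 ≤ (q n K * A) * (q m K * B) := by gcongr
      _ = (q n K * q m K) * (A * B) := by ring
      _ ≤ Real.exp ((K1 + K2) * (Real.log n ^ 2 + Real.log m ^ 2)) * md n m x y := by
          have e : q n K * q m K ≤ Real.exp ((K1 + K2) * (Real.log n ^ 2 + Real.log m ^ 2)) := by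
            unfold q
            rw [← Real.exp_add]
            apply Real.exp_le_exp.2
            nlinarith [mul_le_mul_of_nonneg_right hKle (add_nonneg hln hlm)]
          have := mul_nonneg hA hB
          gcongr
  by_cases hsr : SameRay x y
  · obtain ⟨hne, hlx, hly⟩ : x ≠ y ∧ |x.1| + |x.2| < n ∧ |y.1| + |y.2| < m := by
      rcases hc with h | h
      · exact absurd hsr h
      · exact h
    -- the line through the two points
    obtain ⟨α, hα⟩ : ∃ α : ℝ, α = x.2 := ⟨_, rfl⟩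
    obtain ⟨β, hβ⟩ : ∃ β : ℝ, β = -x.1 := ⟨_, rfl⟩
    have hab : α ≠ 0 ∨ β ≠ 0 := by
      by_contra hcon
      push Not at hcon
      apply hx0
      rw [hα, hβ] at hcon
      exact Prod.ext (by have := neg_eq_zero.1 hcon.2; exact_mod_cast this)
        (by have := hcon.1; exact_mod_cast this)
    have hhx : hh α β x = 0 := by unfold hh; rw [hα, hβ]; ring
    have hhy : hh α β y = 0 := by
      unfold hh
      rw [hα, hβ]
      have : (x.1 : ℝ) * y.2 = (x.2 : ℝ) * y.1 := by exact_mod_cast hsr.1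
      linarith
    have hab' : -α ≠ 0 ∨ -β ≠ 0 := by
      rcases hab with h | h
      · exact Or.inl (neg_ne_zero.2 h)
      · exact Or.inr (neg_ne_zero.2 h)
    have hhx' : hh (-α) (-β) (x.1, x.2) = 0 := by
      have : hh (-α) (-β) (x.1, x.2) = -hh α β x := by unfold hh; ring
      rw [this, hhx, neg_zero]
    have g1 := h2 n hn n le_rfl (-α) (-β) hab' x.1 x.2 hhx' hx0 hlx
    have g2 := h2 m hm m le_rfl α β hab y.1 y.2 hhy hy0 hly
    refine fin K2 hK2 (by linarith) _ _ (Nat.cast_nonneg _) (Nat.cast_nonneg _) g1 g2 ?_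
    exact_mod_cast ssH_mid_le hx0 hne hhx hhy
  · obtain ⟨α, β, hab, hx, hy, hg⟩ := exists_sep hx0 hy0 hsr (n + m)
    have hab' : -α ≠ 0 ∨ -β ≠ 0 := by
      rcases hab with h | h
      · exact Or.inl (neg_ne_zero.2 h)
      · exact Or.inr (neg_ne_zero.2 h)
    have g1 := h1 n hn n le_rfl (-α) (-β) hab' x.1 x.2 (by unfold hh at hx; linarith) hx0
    have g2 := h1 m hm m le_rfl α β hab y.1 y.2 (by unfold hh at hy; linarith) hy0
    refine fin K1 hK1 (by linarith) _ _ (Nat.cast_nonneg _) (Nat.cast_nonneg _) g1 g2 ?_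
    exact_mod_cast laH_mid_le hg

end Pool.Agent.U262.SW
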