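import Pool.Agent.U262.SW.V

/-!
Visited sites and differences of visited sites.
-/

set_option autoImplicit false

namespace Pool.Agent.U262.SW

open Pool.Agent.TH795.EP Pool.Agent.TH795.EP2 Pool.Agent.TH795.SE2 Pool.Agent.TH262.SawL H981 Finset
open Pool.Agent.Y981.L2

theorem dia_abs {v : ℝ × ℝ} : (|v.1|, |v.2|) ∈ Dia ↔ v ∈ Dia := by
  unfold Dia
  simp only [Set.mem_setOf_eq, abs_abs]

theorem rate_abs_le {v : ℝ × ℝ} (hv : v ∈ Dia) : Rate (|v.1|, |v.2|) ≤ Rate v := by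
  apply ciSup_le
  intro h
  obtain ⟨s, hs⟩ : ∃ s : ℝ, (s = 1 ∨ s = -1) ∧ s * v.1 = |v.1| := by
    rcases abs_cases v.1 with ⟨h1, _⟩ | ⟨h1, _⟩
    · exact ⟨1, Or.inl rfl, by rw [h1]; ring⟩
    · exact ⟨-1, Or.inr rfl, by rw [h1]; ring⟩
  obtain ⟨t, ht⟩ : ∃ t : ℝ, (t = 1 ∨ t = -1) ∧ t * v.2 = |v.2| := by
    rcases abs_cases v.2 with ⟨h1, _⟩ | ⟨h1, _⟩
    · exact ⟨1, Or.inl rfl, by rw [h1]; ring⟩
    · exact ⟨-1, Or.inr rfl, by rw [h1]; ring⟩
  have g1 := le_rate hv (s * h.1, t * h.2)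
  simp only at g1
  have e1 : Lam (s * h.1, t * h.2) = Lam h := by
    have e2 : Lam (s * h.1, t * h.2) = Lam (h.1, t * h.2) := by
      rcases hs.1 with h1 | h1
      · rw [h1, one_mul]
      · have := Lam_sg (h.1, t * h.2)
        simp only at this
        rw [h1, neg_one_mul, this]
    rw [e2]
    rcases ht.1 with h1 | h1
    · rw [h1, one_mul]
    · have := Lam_ng h
      rw [h1, neg_one_mul, this]
  rw [e1] at g1
  have e3 : h.1 * |v.1| + h.2 * |v.2| = s * h.1 * v.1 + t * h.2 * v.2 := by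
    rw [← hs.2, ← ht.2]; ring
  simp only
  rw [e3]
  exact g1

theorem rate_le_abs {v : ℝ × ℝ} (hv : v ∈ Dia) : Rate v ≤ Rate (|v.1|, |v.2|) := by
  apply ciSup_le
  intro h
  have g1 := le_rate (dia_abs.2 hv) (|h.1|, |h.2|)
  simp only at g1
  have e1 : Lam (|h.1|, |h.2|) = Lam h := by
    have e2 : Lam (|h.1|, |h.2|) = Lam (h.1, |h.2|) := by
      rcases abs_cases h.1 with ⟨h1, _⟩ | ⟨h1, _⟩
      · rw [h1]
      · have := Lam_sg (h.1, |h.2|)
        simp only at this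
        rw [h1, this]
    rw [e2]
    rcases abs_cases h.2 with ⟨h1, _⟩ | ⟨h1, _⟩
    · rw [h1]
    · have := Lam_ng h
      rw [h1, this]
  rw [e1] at g1
  have g2 : h.1 * v.1 ≤ |h.1| * |v.1| := by rw [← abs_mul]; exact le_abs_self _
  have g3 : h.2 * v.2 ≤ |h.2| * |v.2| := by rw [← abs_mul]; exact le_abs_self _
  linarith

theorem rate_abs {v : ℝ × ℝ} (hv : v ∈ Dia) : Rate (|v.1|, |v.2|) = Rate v :=
  le_antisymm (rate_abs_le hv) (rate_le_abs hv)

theorem mem_dia {n : ℕ} (hn : 1 ≤ n) {x y : ℤ} (h : |x| + |y| ≤ n) :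
    ((x : ℝ) / n, (y : ℝ) / n) ∈ Dia := by
  unfold Dia
  simp only [Set.mem_setOf_eq]
  have hn0 : (0 : ℝ) < n := by exact_mod_cast hn
  rw [abs_div, abs_div, abs_of_pos hn0, ← add_div, div_le_one hn0]
  exact_mod_cast h

theorem rate_div_abs {n : ℕ} (hn : 1 ≤ n) {x y : ℤ} (h : |x| + |y| ≤ n) :
    Rate (((|x| : ℤ) : ℝ) / n, ((|y| : ℤ) : ℝ) / n) = Rate ((x : ℝ) / n, (y : ℝ) / n) := by
  have hn0 : (0 : ℝ) < n := by exact_mod_cast hn
  have := rate_abs (mem_dia hn h)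
  simp only at this
  rw [abs_div, abs_div, abs_of_pos hn0] at this
  rw [← this]
  push_cast
  rfl

theorem rate_nonneg {n : ℕ} (hn : 1 ≤ n) {x y : ℤ} (h : |x| + |y| ≤ n) :
    0 ≤ Rate ((x : ℝ) / n, (y : ℝ) / n) := by
  have hn0 : (0 : ℝ) < n := by exact_mod_cast hn
  have h0 : Rate (0, 0) = 0 := R_zero
  rw [← rate_div_abs hn h, ← h0]
  apply rate_mono
  · exact le_rfl
  · simp only; positivity
  · exact le_rfl
  · simp only; positivity
  · apply mem_dia hn
    rwa [abs_abs, abs_abs]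

/-! ### the words -/

/-- the word visits `(x, y)` -/
def Vs (x y : ℤ) (w : List St) : Prop := ∃ k ≤ w.length, H981.path w k = (x, y)

/-- `(x, y)` is a difference of two visited sites, in their order -/
def Ds (x y : ℤ) (w : List St) : Prop := ∃ i j, i ≤ j ∧ j ≤ w.length ∧
  (H981.path w j).1 - (H981.path w i).1 = x ∧ (H981.path w j).2 - (H981.path w i).2 = y

/-- numbers of words -/
noncomputable def vs (n : ℕ) (x y : ℤ) : ℕ := (fs (fun w => Saw w ∧ Vs x y w) n).card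
noncomputable def ds (n : ℕ) (x y : ℤ) : ℕ := (fs (fun w => Saw w ∧ Ds x y w) n).card

theorem vs_ds {x y : ℤ} {w : List St} (h : Vs x y w) : Ds x y w := by
  obtain ⟨k, hk, he⟩ := h
  refine ⟨0, k, Nat.zero_le _, hk, ?_, ?_⟩
  · rw [he, path_zero']; simp
  · rw [he, path_zero']; simp

theorem vs_le_ds (n : ℕ) (x y : ℤ) : vs n x y ≤ ds n x y := by
  unfold vs ds
  apply Finset.card_le_card
  intro w hw
  rw [mem_fs] at hw ⊢
  exact ⟨⟨hw.1.1, vs_ds hw.1.2⟩, hw.2⟩

theorem a_le_vs (n : ℕ) (x y : ℤ) : a n x y ≤ vs n x y := by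
  unfold a vs
  apply Finset.card_le_card
  intro w hw
  rw [mem_fs] at hw ⊢
  refine ⟨⟨hw.1.1, w.length, le_rfl, ?_⟩, hw.2⟩
  rw [path_len, hw.1.2.1, hw.1.2.2]

theorem ds_var {x y : ℤ} {w : List St} (h : Ds x y w) : Var 1 |x| |y| w := by
  obtain ⟨i, j, hij, hj, h1, h2⟩ := h
  refine ⟨fun k => if k = 0 then i else j, ?_, ?_, ?_, ?_⟩
  · intro k l hkl
    simp only
    split_ifs with g1 g2 g2
    · exact le_rfl
    · exact hij
    · omega
    · exact le_rfl
  · intro k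
    simp only
    split_ifs
    · omega
    · exact hj
  · simp [h1]
  · simp [h2]

theorem ds_le_vr (n : ℕ) (x y : ℤ) : ds n x y ≤ vr 1 n |x| |y| := by
  unfold ds vr
  apply Finset.card_le_card
  intro w hw
  rw [mem_fs] at hw ⊢
  exact ⟨⟨hw.1.1, ds_var hw.1.2⟩, hw.2⟩

theorem ds_up : ∃ K : ℝ, 0 ≤ K ∧ ∀ n : ℕ, 2 ≤ n → ∀ x y : ℤ, (x, y) ≠ (0, 0) → |x| + |y| ≤ n →
    (ds n x y : ℝ) ≤ q n K * (c n * Real.exp (-(n * Rate ((x : ℝ) / n, (y : ℝ) / n)))) := by
  obtain ⟨K1, hK1, h1⟩ := vr_le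
  obtain ⟨K2, hK2, h2⟩ := sum_a_le_rate
  refine ⟨3 * K1 + K2, by positivity, ?_⟩
  intro n hn x y hxy hle
  have g1 : (ds n x y : ℝ) ≤ vr 1 n |x| |y| := by exact_mod_cast ds_le_vr n x y
  have g2 := h1 n hn 1 |x| |y|
  have g3 := h2 n hn |x| |y| (abs_nonneg _) (abs_nonneg _) (by
    intro h
    apply hxy
    obtain ⟨e1, e2⟩ := Prod.mk.inj h
    rw [abs_eq_zero.1 e1, abs_eq_zero.1 e2])
  rw [rate_div_abs (by omega) hle] at g3
  have e : q n (K1 * ((1 : ℕ) + 2)) = q n (3 * K1) := by congr 1; push_cast; ring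
  rw [e] at g2
  calc (ds n x y : ℝ) ≤ _ := g1
    _ ≤ _ := g2
    _ ≤ q n (3 * K1) * (q n K2 *
        (c n * Real.exp (-(n * Rate ((x : ℝ) / n, (y : ℝ) / n))))) :=
        mul_le_mul_of_nonneg_left g3 (q_pos _ _).le
    _ = _ := by rw [← mul_assoc, q_mul]

/-! ### one more step -/

theorem la_le_vs {n : ℕ} (hn : 1 ≤ n) {x y : ℤ} (hxy : (x, y) ≠ (0, 0)) :
    laH (x : ℝ) (y : ℝ) (n - 1) (-x) (-y) ≤ vs n x y := by
  have hne : (x : ℝ) ≠ 0 ∨ (y : ℝ) ≠ 0 := by
    by_contra hcon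
    push Not at hcon
    apply hxy
    obtain ⟨h1, h2⟩ := hcon
    have e1 : x = 0 := by exact_mod_cast h1
    have e2 : y = 0 := by exact_mod_cast h2
    rw [e1, e2]
  obtain ⟨s, hs⟩ := exists_step hne
  unfold laH vs
  apply card_le_of_decode (fun f => (rv f).drop 1)
  intro w hw
  rw [mem_fs] at hw
  obtain ⟨⟨⟨h1, hx, hy⟩, h2⟩, hl⟩ := hw
  obtain ⟨t, ht⟩ : ∃ t, t = s :: w := ⟨_, rfl⟩
  have htl : t.length = n := by rw [ht, List.length_cons, hl]; omega
  have p0 : H981.path t 0 = (0, 0) := path_zero' _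
  have p1 : ∀ k, H981.path t (k + 1) = (s.x + (H981.path w k).1, s.y + (H981.path w k).2) := by
    intro k
    have := path_append_right [s] w k
    rw [show ([s] : List St).length + k = k + 1 from Nat.add_comm 1 k] at this
    rw [ht]
    rw [show s :: w = [s] ++ w from rfl, this]
    simp [dx_cons, dy_cons]
  have hts : Saw t := by
    rw [saw_iff']
    intro i j hij hj he
    rw [htl] at hj
    rcases Nat.eq_zero_or_pos i with h0 | h0
    · subst h0
      obtain ⟨k, rfl⟩ : ∃ k, j = k + 1 := ⟨j - 1, by omega⟩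
      rw [p0, p1] at he
      have g1 := h2 k
      have g2 : hh (x : ℝ) (y : ℝ) (s.x + (H981.path w k).1, s.y + (H981.path w k).2) =
          hh (x : ℝ) (y : ℝ) (s.x, s.y) + hh (x : ℝ) (y : ℝ) (H981.path w k) := by
        unfold hh
        push_cast
        ring
      rw [← he, hh_zero] at g2
      linarith
    · obtain ⟨k, rfl⟩ : ∃ k, j = k + 1 := ⟨j - 1, by omega⟩
      obtain ⟨l, rfl⟩ : ∃ k, i = k + 1 := ⟨i - 1, by omega⟩
      rw [p1, p1] at he
      obtain ⟨e1, e2⟩ := Prod.mk.inj he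
      exact saw_iff'.1 h1 l k (by omega) (by omega) (Prod.ext (by omega) (by omega))
  refine ⟨rv t, ?_, ?_⟩
  · rw [mem_fs]
    refine ⟨⟨saw_rv hts, n - 1, ?_, ?_⟩, by rw [length_rv, htl]⟩
    · rw [length_rv, htl]; omega
    · rw [path_rv, htl, show n - (n - 1) = 0 + 1 by omega, p1, path_zero']
      have e1 : dx t = s.x + -x := by rw [ht, dx_cons, hx]
      have e2 : dy t = s.y + -y := by rw [ht, dy_cons, hy]
      rw [e1, e2]
      ext
      · simp
      · simp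
  · rw [rv_rv, ht]
    simp

theorem vs_low : ∃ K : ℝ, 0 ≤ K ∧ ∀ n : ℕ, 2 ≤ n → ∀ x y : ℤ, (x, y) ≠ (0, 0) → |x| + |y| ≤ n →
    c n * Real.exp (-(n * Rate ((x : ℝ) / n, (y : ℝ) / n))) ≤ q n K * (vs n x y : ℝ) := by
  obtain ⟨K1, hK1, h1⟩ := ldp_words
  obtain ⟨K2, hK2, h2⟩ := a_le_laH
  obtain ⟨K3, hK3, h3⟩ := a_glue
  obtain ⟨K4, hK4, h4⟩ := shorten
  obtain ⟨K5, hK5, h5⟩ := near_low
  obtain ⟨K6, hK6, h6, -⟩ := exists_K
  refine ⟨K1 + K2 + 4 * K3 + 4 * K4 + K5 + K6 + 6, by positivity, ?_⟩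
  intro n hn x y hxy hle
  have hmu := mu_pos
  have hmu1 := one_le_mu
  have hn0 : (0 : ℝ) < n := by exact_mod_cast (by omega : 0 < n)
  have hn2 : (2 : ℝ) ≤ n := by exact_mod_cast hn
  have hc : (0 : ℝ) < c n := c_pos n
  -- the estimate for reachable points
  have reach : ∀ u v : ℤ, (u, v) ≠ (0, 0) → (u + v - n) % 2 = 0 → |u| + |v| ≤ n →
      c n * Real.exp (-(n * Rate ((u : ℝ) / n, (v : ℝ) / n))) ≤ q n K1 * (a n u v : ℝ) := by
    intro u v huv hpar huvn
    have g1 := h1 n hn u v huv hpar huvn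
    have g2 := (abs_le.1 g1).1
    have ha : (0 : ℝ) < a n u v := by
      exact_mod_cast Nat.pos_of_ne_zero (a_ne_zero huv hpar huvn)
    have hT : 0 < (a n u v : ℝ) / c n := div_pos ha hc
    have g3 : -(n * Rate ((u : ℝ) / n, (v : ℝ) / n)) ≤
        K1 * Real.log n ^ 2 + Real.log ((a n u v : ℝ) / c n) := by linarith
    have g4 := Real.exp_le_exp.2 g3
    rw [Real.exp_add, Real.exp_log hT] at g4
    have e : Real.exp (K1 * Real.log n ^ 2) = q n K1 := rfl
    rw [e] at g4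
    calc c n * Real.exp (-(n * Rate ((u : ℝ) / n, (v : ℝ) / n)))
        ≤ c n * (q n K1 * ((a n u v : ℝ) / c n)) := mul_le_mul_of_nonneg_left g4 hc.le
      _ = q n K1 * (a n u v : ℝ) := by field_simp
  have hV : (0 : ℝ) ≤ vs n x y := Nat.cast_nonneg _
  rcases Int.emod_two_eq_zero_or_one (x + y - n) with hpar | hpar
  · have g1 := reach x y hxy hpar hle
    have g2 : (a n x y : ℝ) ≤ vs n x y := by exact_mod_cast a_le_vs n x y
    calc _ ≤ q n K1 * (a n x y : ℝ) := g1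
      _ ≤ q n K1 * (vs n x y : ℝ) := mul_le_mul_of_nonneg_left g2 (q_pos _ _).le
      _ ≤ _ := mul_le_mul_of_nonneg_right (q_mono hn (by linarith)) hV
  -- wrong parity
  have hlt : |x| + |y| < n := by
    rcases lt_or_eq_of_le hle with h | h
    · exact h
    · exfalso
      rcases abs_choice x with h4 | h4 <;> rcases abs_choice y with h5 | h5 <;> omega
  have hA : (a (n - 1) x y : ℝ) ≤ q n K2 * (vs n x y : ℝ) := by
    have hne : (x : ℝ) ≠ 0 ∨ (y : ℝ) ≠ 0 := by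
      by_contra hcon
      push Not at hcon
      apply hxy
      obtain ⟨h1, h2⟩ := hcon
      have e1 : x = 0 := by exact_mod_cast h1
      have e2 : y = 0 := by exact_mod_cast h2
      rw [e1, e2]
    have g1 := h2 n hn (n - 1) (by omega) (x : ℝ) (y : ℝ) hne (-x) (-y) (by
      push_cast
      nlinarith [mul_self_nonneg (x : ℝ), mul_self_nonneg (y : ℝ)]) (by
      intro h
      apply hxy
      obtain ⟨e1, e2⟩ := Prod.mk.inj h
      rw [neg_eq_zero.1 e1, neg_eq_zero.1 e2])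
    rw [a_neg] at g1
    have g2 : (laH (x : ℝ) (y : ℝ) (n - 1) (-x) (-y) : ℝ) ≤ vs n x y := by
      exact_mod_cast la_le_vs (by omega) hxy
    exact g1.trans (mul_le_mul_of_nonneg_left g2 (q_pos _ _).le)
  -- the number of the walks with `n - 1` steps
  suffices hB : c n * Real.exp (-(n * Rate ((x : ℝ) / n, (y : ℝ) / n))) ≤
      q n (K1 + 4 * K3 + 4 * K4 + K5 + K6 + 6) * (a (n - 1) x y : ℝ) by
    calc _ ≤ q n (K1 + 4 * K3 + 4 * K4 + K5 + K6 + 6) * (a (n - 1) x y : ℝ) := hB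
      _ ≤ q n (K1 + 4 * K3 + 4 * K4 + K5 + K6 + 6) * (q n K2 * (vs n x y : ℝ)) :=
          mul_le_mul_of_nonneg_left hA (q_pos _ _).le
      _ = _ := by rw [← mul_assoc, q_mul]; congr 2; ring
  have hpa : (|x| + |y| - n) % 2 = 1 := by
    rcases abs_choice x with h4 | h4 <;> rcases abs_choice y with h5 | h5 <;> omega
  -- the estimate for nonnegative coordinates, one coordinate positive
  have main : ∀ X Y : ℤ, 1 ≤ X → 0 ≤ Y → X + Y < n → (X + Y - n) % 2 = 1 → ∀ r : ℝ,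
      (∀ X' Y' : ℤ, 0 ≤ X' → X' ≤ X → 0 ≤ Y' → Y' ≤ Y → (X', Y') ≠ (0, 0) →
        (X' + Y' - n) % 2 = 0 → c n * Real.exp (-(n * r)) ≤ q n K1 * (a n X' Y' : ℝ)) →
      0 ≤ r → c n * Real.exp (-(n * r)) ≤
        q n (K1 + 4 * K3 + 4 * K4 + K5 + K6 + 6) * (a (n - 1) X Y : ℝ) := by
    intro X Y hX hY hXY hp r hr hr0
    have hN : (0 : ℝ) ≤ a (n - 1) X Y := Nat.cast_nonneg _
    by_cases h0 : (X - 1, Y) = ((0, 0) : ℤ × ℤ)
    · obtain ⟨e1, e2⟩ := Prod.mk.inj h0
      have eX : X = 1 := by omega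
      rw [eX, e2]
      rw [eX, e2] at hp
      have ho : Odd (n - 1) := by
        rw [Nat.odd_iff]
        omega
      have g1 := (h5 n hn (n - 1) (by omega) (by omega)).1 ho
      have g2 := h6 n hn n le_rfl
      have g3 : Real.exp (-(n * r)) ≤ 1 := by
        rw [Real.exp_le_one_iff]
        have := mul_nonneg hn0.le hr0
        linarith
      have g4 : mu ≤ q n 6 := by
        have h2 := pow_le_q hn 2
        have : (3 : ℝ) * (2 : ℕ) = 6 := by norm_num
        rw [this] at h2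
        have h3 : (4 : ℝ) ≤ (n : ℝ) ^ 2 := by nlinarith
        exact mu_le_four.trans (h3.trans h2)
      have e : mu ^ n = mu * mu ^ (n - 1) := by rw [← pow_succ']; congr 1; omega
      calc c n * Real.exp (-(n * r)) ≤ (mu ^ n * q n K6) * 1 :=
            mul_le_mul g2 g3 (Real.exp_pos _).le (mul_nonneg (by positivity) (q_pos _ _).le)
        _ = mu * (mu ^ (n - 1) * q n (-K5)) * q n (K5 + K6) := by
            have e2 : q n K6 = q n (-K5) * q n (K5 + K6) := by rw [q_mul]; congr 1; ring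
            rw [e2, e]; ring
        _ ≤ q n 6 * (a (n - 1) 1 0 : ℝ) * q n (K5 + K6) := by
            apply mul_le_mul_of_nonneg_right _ (q_pos _ _).le
            exact mul_le_mul g4 g1 (mul_nonneg (by positivity) (q_pos _ _).le) (q_pos _ _).le
        _ = q n (6 + (K5 + K6)) * (a (n - 1) 1 0 : ℝ) := by rw [← q_mul n 6 (K5 + K6)]; ring
        _ ≤ _ := mul_le_mul_of_nonneg_right (q_mono hn (by linarith)) (Nat.cast_nonneg _)
    · have g1 := hr (X - 1) Y (by omega) (by omega) hY le_rfl h0 (by omega)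
      have g2 := h3 (2 * n) (by omega) n 1 (by omega) (X - 1) Y 1 0 (by
        intro h
        obtain ⟨e1, e2⟩ := Prod.mk.inj h
        omega)
      rw [show X - 1 + 1 = X by ring, add_zero] at g2
      have g3 : (1 : ℝ) ≤ a 1 1 0 := by
        exact_mod_cast ar_one.trans (ar_le_a_one 1)
      have g4 := h4 (2 * n) (by omega) (n + 1) (by omega) X Y (by
        intro h
        obtain ⟨e1, e2⟩ := Prod.mk.inj h
        omega) (by rw [abs_of_nonneg (by omega : 0 ≤ X), abs_of_nonneg hY]; push_cast; omega)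
      rw [show n + 1 - 2 = n - 1 by omega] at g4
      have b1 := q_two hn hK3
      have b2 := q_two hn hK4
      have hA0 : (0 : ℝ) ≤ a n (X - 1) Y := Nat.cast_nonneg _
      have g5 : (a n (X - 1) Y : ℝ) ≤ q n (4 * K3) * (q n (4 * K4) * a (n - 1) X Y) := by
        calc (a n (X - 1) Y : ℝ) ≤ (a n (X - 1) Y : ℝ) * a 1 1 0 := le_mul_of_one_le_right hA0 g3
          _ ≤ q (2 * n) K3 * a (n + 1) X Y := g2
          _ ≤ q n (4 * K3) * (q n (4 * K4) * a (n - 1) X Y) := by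
              apply mul_le_mul b1 _ (Nat.cast_nonneg _) (q_pos _ _).le
              exact g4.trans (mul_le_mul_of_nonneg_right b2 hN)
      calc _ ≤ q n K1 * (a n (X - 1) Y : ℝ) := g1
        _ ≤ q n K1 * (q n (4 * K3) * (q n (4 * K4) * a (n - 1) X Y)) :=
            mul_le_mul_of_nonneg_left g5 (q_pos _ _).le
        _ = q n (K1 + 4 * K3 + 4 * K4) * a (n - 1) X Y := by
            rw [← q_mul, ← q_mul]; ring
        _ ≤ _ := mul_le_mul_of_nonneg_right (q_mono hn (by linarith)) hN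
  have hab : a (n - 1) x y = a (n - 1) |x| |y| := (a_abs _ _ _).symm
  have hr0 := rate_nonneg (show 1 ≤ n by omega) hle
  -- comparison of the rates
  have comp : ∀ X' Y' : ℤ, 0 ≤ X' → X' ≤ |x| → 0 ≤ Y' → Y' ≤ |y| → (X', Y') ≠ (0, 0) →
      (X' + Y' - n) % 2 = 0 →
      c n * Real.exp (-(n * Rate ((x : ℝ) / n, (y : ℝ) / n))) ≤ q n K1 * (a n X' Y' : ℝ) := by
    intro X' Y' hX0 hX hY0 hY h0 hp
    have g1 := reach X' Y' h0 hp (by rw [abs_of_nonneg hX0, abs_of_nonneg hY0]; omega)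
    refine le_trans ?_ g1
    apply mul_le_mul_of_nonneg_left _ hc.le
    apply Real.exp_le_exp.2
    apply neg_le_neg
    apply mul_le_mul_of_nonneg_left _ hn0.le
    rw [← rate_div_abs (by omega) hle]
    have cX0 : (0 : ℝ) ≤ (X' : ℝ) := by exact_mod_cast hX0
    have cY0 : (0 : ℝ) ≤ (Y' : ℝ) := by exact_mod_cast hY0
    have cX : (X' : ℝ) ≤ ((|x| : ℤ) : ℝ) := by exact_mod_cast hX
    have cY : (Y' : ℝ) ≤ ((|y| : ℤ) : ℝ) := by exact_mod_cast hY
    apply rate_mono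
    · simp only; positivity
    · simp only; gcongr
    · simp only; positivity
    · simp only; gcongr
    · apply mem_dia (by omega)
      rwa [abs_abs, abs_abs]
  rcases lt_or_ge 0 |x| with hx | hx
  · rw [hab]
    exact main |x| |y| (by omega) (abs_nonneg _) hlt hpa _ comp hr0
  · have ex : |x| = 0 := le_antisymm hx (abs_nonneg _)
    have hy : 0 < |y| := by
      rcases lt_or_eq_of_le (abs_nonneg y) with h | h
      · exact h
      · exfalso
        apply hxy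
        rw [abs_eq_zero.1 ex, abs_eq_zero.1 h.symm]
    rw [hab, a_sw]
    refine main |y| |x| (by omega) (abs_nonneg _) (by omega) (by omega) _ ?_ hr0
    intro X' Y' b1 b2 b3 b4 b5 b6
    have := comp Y' X' b3 b4 b1 b2 (by
      intro h
      apply b5
      obtain ⟨e1, e2⟩ := Prod.mk.inj h
      rw [e1, e2]) (by omega)
    rwa [a_sw] at this

end Pool.Agent.U262.SW
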