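import Pool.Agent.U262.SW.M

/-!
Bridges in any direction: the lower bound.
-/

set_option autoImplicit false

namespace Pool.Agent.U262.SW

open Pool.Agent.TH795.EP Pool.Agent.TH795.EP2 Pool.Agent.TH795.SE2 Pool.Agent.TH262.SawL H981 Finset
open Pool.Agent.Y981.L2

variable {α β : ℝ}

open Filter Topology in
/-- a generic direction close to the given one -/
theorem exists_gen (hne : α ≠ 0 ∨ β ≠ 0) (R : ℕ) : ∃ α' β' : ℝ, Gen α' β' R ∧
    ∀ p : ℤ × ℤ, |p.1| ≤ R → |p.2| ≤ R → 0 ≤ hh α' β' p → 0 ≤ hh α β p := by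
  have hsq : 0 < α ^ 2 + β ^ 2 := by
    rcases hne with h | h
    · have := sq_nonneg β; have := pow_pos (abs_pos.2 h) 2; rw [sq_abs] at this; linarith
    · have := sq_nonneg α; have := pow_pos (abs_pos.2 h) 2; rw [sq_abs] at this; linarith
  have e5 : ∀ᶠ ε in 𝓝[>] (0 : ℝ), ∀ p ∈ (Finset.Icc (-(R : ℤ)) R ×ˢ Finset.Icc (-(R : ℤ)) R),
      (p ≠ (0, 0) → hh α β p + ε * (-β * p.1 + α * p.2) ≠ 0) ∧
      (hh α β p < 0 → hh α β p + ε * (-β * p.1 + α * p.2) < 0) := by
    rw [Finset.eventually_all]
    intro p _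
    have g1 : ∀ᶠ ε in 𝓝[>] (0 : ℝ), (p ≠ (0, 0) → hh α β p + ε * (-β * p.1 + α * p.2) ≠ 0) := by
      by_cases hp : p = (0, 0)
      · exact Eventually.of_forall fun ε h => absurd hp h
      · have h1 : hh α β p ≠ 0 ∨ (-β * p.1 + α * p.2 : ℝ) ≠ 0 := by
          by_contra hcon
          push Not at hcon
          obtain ⟨c1, c2⟩ := hcon
          unfold hh at c1
          apply hp
          have f1 : (α ^ 2 + β ^ 2) * (p.1 : ℝ) = 0 := by
            have : (α ^ 2 + β ^ 2) * (p.1 : ℝ) = α * (α * p.1 + β * p.2) - β * (-β * p.1 + α * p.2) := by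
              ring
            rw [this, c1, c2]; ring
          have f2 : (α ^ 2 + β ^ 2) * (p.2 : ℝ) = 0 := by
            have : (α ^ 2 + β ^ 2) * (p.2 : ℝ) = β * (α * p.1 + β * p.2) + α * (-β * p.1 + α * p.2) := by
              ring
            rw [this, c1, c2]; ring
          have f3 : (p.1 : ℝ) = 0 := by
            rcases mul_eq_zero.1 f1 with h | h
            · exact absurd h hsq.ne'
            · exact h
          have f4 : (p.2 : ℝ) = 0 := by
            rcases mul_eq_zero.1 f2 with h | h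
            · exact absurd h hsq.ne'
            · exact h
          exact Prod.ext (by exact_mod_cast f3) (by exact_mod_cast f4)
        filter_upwards [lin_ne h1] with ε hε _
        exact hε
    have g2 : ∀ᶠ ε in 𝓝[>] (0 : ℝ), (hh α β p < 0 →
        hh α β p + ε * (-β * p.1 + α * p.2) < 0) := by
      by_cases hp : hh α β p < 0
      · have hp' : 0 < -hh α β p := by linarith
        filter_upwards [lin_pos (B := -(-β * p.1 + α * p.2)) hp'] with ε hε _
        linarith
      · exact Eventually.of_forall fun ε h => absurd h hp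
    exact g1.and g2
  obtain ⟨ε, h5⟩ := e5.exists
  have e : ∀ p : ℤ × ℤ, hh (α - ε * β) (β + ε * α) p =
      hh α β p + ε * (-β * p.1 + α * p.2) := by
    intro p
    unfold hh; ring
  refine ⟨α - ε * β, β + ε * α, ?_, ?_⟩
  · intro p hp1 hp2 hp
    by_contra hcon
    exact (h5 p (by
      rw [Finset.mem_product, Finset.mem_Icc, Finset.mem_Icc]
      exact ⟨abs_le.1 hp1, abs_le.1 hp2⟩)).1 hcon (by rw [← e]; exact hp)
  · intro p hp1 hp2 hp
    by_contra hcon
    push Not at hcon
    have := (h5 p (by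
      rw [Finset.mem_product, Finset.mem_Icc, Finset.mem_Icc]
      exact ⟨abs_le.1 hp1, abs_le.1 hp2⟩)).2 hcon
    rw [← e] at this
    linarith

/-- an ascending step -/
theorem exists_up (hne : α ≠ 0 ∨ β ≠ 0) : ∃ s : St, 0 < hh α β (s.x, s.y) := by
  obtain ⟨s, hs⟩ := exists_step (α := -α) (β := -β) (by simpa using hne)
  refine ⟨s, ?_⟩
  unfold hh at hs ⊢
  simp only at hs ⊢
  linarith

theorem dx_rep (s : St) (n : ℕ) : dx (List.replicate n s) = n * s.x := by
  induction n with
  | zero => simp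
  | succ n ih => rw [List.replicate_succ, dx_cons, ih]; push_cast; ring

theorem dy_rep (s : St) (n : ℕ) : dy (List.replicate n s) = n * s.y := by
  induction n with
  | zero => simp
  | succ n ih => rw [List.replicate_succ, dy_cons, ih]; push_cast; ring

theorem path_rep (s : St) {n k : ℕ} (hk : k ≤ n) :
    H981.path (List.replicate n s) k = ((k : ℤ) * s.x, (k : ℤ) * s.y) := by
  unfold H981.path
  rw [List.take_replicate, min_eq_left hk, dx_rep, dy_rep]

theorem br_pos (hne : α ≠ 0 ∨ β ≠ 0) (n : ℕ) : 1 ≤ brH α β n := by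
  obtain ⟨s, hs⟩ := exists_up hne
  have hk : ∀ k ≤ n, hh α β (H981.path (List.replicate n s) k) = k * hh α β (s.x, s.y) := by
    intro k hk
    rw [path_rep s hk]
    unfold hh
    push_cast
    ring
  unfold brH
  apply Finset.card_pos.2
  refine ⟨List.replicate n s, ?_⟩
  rw [mem_fs]
  refine ⟨⟨?_, ?_⟩, List.length_replicate⟩
  · rw [saw_iff']
    intro i j hij hj he
    rw [List.length_replicate] at hj
    have h1 := hk i (by omega)
    have h2 := hk j hj
    rw [he, h2] at h1
    have h3 := mul_right_cancel₀ hs.ne' h1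
    have h4 : j = i := by exact_mod_cast h3
    omega
  · intro k hk0 hkn
    rw [List.length_replicate] at hkn
    have h1 := hk k hkn
    have h2 := hk n le_rfl
    have h3 := path_len (List.replicate n s)
    rw [List.length_replicate] at h3
    rw [h3] at h2
    rw [h1, h2]
    constructor
    · have : (0 : ℝ) < k := by exact_mod_cast hk0
      positivity
    · have : (k : ℝ) ≤ n := by exact_mod_cast hkn
      exact mul_le_mul_of_nonneg_right this hs.le

theorem br_mono (hne : α ≠ 0 ∨ β ≠ 0) {m n : ℕ} (h : m ≤ n) : brH α β m ≤ brH α β n := by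
  have h1 := br_mul (α := α) (β := β) m (n - m)
  have h2 := br_pos hne (n - m)
  rw [show m + (n - m) = n by omega] at h1
  exact (Nat.le_mul_of_pos_right _ h2).trans h1

/-- a bridge in a near direction and one more step -/
theorem br_near {α' β' : ℝ} {m : ℕ} (hne : α ≠ 0 ∨ β ≠ 0)
    (h : ∀ p : ℤ × ℤ, |p.1| ≤ (2 * m : ℕ) → |p.2| ≤ (2 * m : ℕ) → 0 ≤ hh α' β' p → 0 ≤ hh α β p) :
    brH α' β' m ≤ brH α β (m + 1) := by
  obtain ⟨s, hs⟩ := exists_up hne
  unfold brH
  apply Finset.card_le_card_of_injOn (fun w => s :: w)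
  · intro w hw
    rw [Finset.mem_coe, mem_fs] at hw
    obtain ⟨⟨hw, hb⟩, hl⟩ := hw
    have h1 : ∀ k, 0 ≤ hh α β (H981.path w k) := by
      intro k
      obtain ⟨b1, b2⟩ := path_box w k
      rw [hl] at b1 b2
      apply h _ (by push_cast; omega) (by push_cast; omega)
      rcases Nat.eq_zero_or_pos k with h0 | h0
      · subst h0; rw [path_zero', hh_zero]
      · rcases le_or_gt k w.length with h2 | h2
        · exact (hb k h0 h2).1.le
        · rw [path_ge h2.le, path_len]
          exact hb.end_nonneg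
    have h2 : ∀ k, k ≤ w.length → hh α β (H981.path w k) ≤ hh α β (dx w, dy w) := by
      intro k hk
      obtain ⟨b1, b2⟩ := path_box w k
      obtain ⟨b3, b4⟩ := path_box w w.length
      rw [path_len, hl] at b3 b4
      rw [hl] at b1 b2
      simp only at b3 b4
      have h3 : 0 ≤ hh α β ((dx w, dy w) - H981.path w k) := by
        apply h
        · simp only [Prod.fst_sub]
          push_cast
          rw [abs_le] at *
          constructor <;> linarith [b1.1, b1.2, b3.1, b3.2]
        · simp only [Prod.snd_sub]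
          push_cast
          rw [abs_le] at *
          constructor <;> linarith [b2.1, b2.2, b4.1, b4.2]
        · rw [hh_sub]
          linarith [hb.le_end hk]
      rw [hh_sub] at h3
      linarith
    have hp : ∀ k, hh α β (H981.path (s :: w) (k + 1)) =
        hh α β (s.x, s.y) + hh α β (H981.path w k) := by
      intro k
      have := hh_right (α := α) (β := β) [s] w k
      rw [List.length_singleton, add_comm 1 k] at this
      rw [← List.singleton_append, this]
      congr 2
      simp [dx_cons, dy_cons]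
    have hend : hh α β (dx (s :: w), dy (s :: w)) =
        hh α β (s.x, s.y) + hh α β (dx w, dy w) := by
      rw [dx_cons, dy_cons]
      exact hh_add (s.x, s.y) (dx w, dy w)
    rw [Finset.mem_coe, mem_fs]
    refine ⟨⟨?_, ?_⟩, by rw [List.length_cons, hl]⟩
    · rw [saw_iff']
      intro i j hij hj he
      rw [List.length_cons] at hj
      obtain ⟨j, rfl⟩ : ∃ j', j = j' + 1 := ⟨j - 1, by omega⟩
      rcases Nat.eq_zero_or_pos i with h0 | h0
      · subst h0
        rw [path_zero'] at he
        have h3 := hp j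
        rw [← he, hh_zero] at h3
        linarith [h1 j]
      · obtain ⟨i, rfl⟩ : ∃ i', i = i' + 1 := ⟨i - 1, by omega⟩
        have h3 : H981.path w i = H981.path w j := by
          have f1 := path_append_right [s] w i
          have f2 := path_append_right [s] w j
          rw [List.length_singleton, add_comm, List.singleton_append] at f1 f2
          rw [f1, f2] at he
          obtain ⟨e1, e2⟩ := Prod.mk.inj he
          exact Prod.ext (by omega) (by omega)
        exact saw_iff'.1 hw i j (by omega) (by omega) h3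
    · intro k hk hkl
      rw [List.length_cons] at hkl
      obtain ⟨k, rfl⟩ : ∃ k', k = k' + 1 := ⟨k - 1, by omega⟩
      rw [hp, hend]
      exact ⟨by linarith [h1 k], by linarith [h2 k (by omega)]⟩
  · intro w _ w' _ hww
    exact (List.cons.inj hww).2

/-- generic directions -/
theorem br_lower_gen : ∃ K : ℝ, 0 ≤ K ∧ ∀ N : ℕ, 2 ≤ N → ∀ α β : ℝ, Gen α β (2 * N) →
    mu ^ (2 * N) ≤ q N K * brH α β (2 * N) := by
  obtain ⟨K3, hK3, hPP⟩ := Pool.Agent.TH508.LT.sq_PP2
  refine ⟨K3 + 3, by positivity, ?_⟩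
  intro N hN α β hg
  have h1 := (hPP N hN).1
  have h2 : (ln N : ℝ) ≤ (2 * N) ^ 2 * brH α β (2 * N) := by
    exact_mod_cast ln_le_br (by omega) hg
  rw [ln_eq (by omega)] at h2
  have hN0 : (0 : ℝ) < N := by exact_mod_cast (by omega : 0 < N)
  have h3 : PP N ≤ N * brH α β (2 * N) := by
    have : 4 * (N : ℝ) * PP N ≤ 4 * N * (N * brH α β (2 * N)) := by
      calc 4 * (N : ℝ) * PP N ≤ (2 * N) ^ 2 * brH α β (2 * N) := h2
        _ = _ := by ring
    exact le_of_mul_le_mul_left this (by positivity)
  have h4 := pow_le_q hN 1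
  rw [pow_one, Nat.cast_one, mul_one] at h4
  have e : mu ^ (2 * N) = q N K3 * (mu ^ (2 * N) * Real.exp (-(K3 * Real.log N ^ 2))) := by
    unfold q
    rw [mul_left_comm, ← Real.exp_add]
    rw [add_neg_cancel, Real.exp_zero, mul_one]
  rw [e]
  have q3 := q_pos N K3
  calc q N K3 * (mu ^ (2 * N) * Real.exp (-(K3 * Real.log N ^ 2)))
      ≤ q N K3 * (N * brH α β (2 * N)) := by
        apply mul_le_mul_of_nonneg_left (h1.trans h3) q3.le
    _ ≤ q N K3 * (q N 3 * brH α β (2 * N)) := by
        gcongr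
    _ = _ := by rw [← mul_assoc, q_mul]

/-- **Bridges in any direction.** -/
theorem br_lower : ∃ K : ℝ, 0 ≤ K ∧ ∀ n : ℕ, 2 ≤ n → ∀ α β : ℝ, (α ≠ 0 ∨ β ≠ 0) →
    mu ^ n ≤ q n K * brH α β n := by
  obtain ⟨K, hK, hlow⟩ := br_lower_gen
  refine ⟨K + 42, by positivity, ?_⟩
  intro n hn α β hne
  have hmu := mu_pos
  have hmu1 := one_le_mu
  have hmu4 := mu_le_four
  have hb : (1 : ℝ) ≤ brH α β n := by exact_mod_cast br_pos hne n
  rcases le_or_gt n 4 with h4 | h4
  · have h1 : mu ^ n ≤ 2 ^ 8 := by
      calc mu ^ n ≤ mu ^ 4 := pow_le_pow_right₀ hmu1 h4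
        _ ≤ 4 ^ 4 := pow_le_pow_left₀ hmu.le hmu4 4
        _ = 2 ^ 8 := by norm_num
    have h2 : (2 : ℝ) ^ 8 ≤ q n (3 * 8) := by
      have := pow_le_q hn 8
      have h3 : (2 : ℝ) ^ 8 ≤ (n : ℝ) ^ 8 := by
        apply pow_le_pow_left₀ (by norm_num)
        exact_mod_cast hn
      exact_mod_cast h3.trans this
    have h3 : q n (3 * 8) ≤ q n (K + 42) := q_mono hn (by linarith)
    calc mu ^ n ≤ q n (K + 42) := (h1.trans h2).trans h3
      _ = q n (K + 42) * 1 := by ring
      _ ≤ _ := by gcongr; exact (q_pos _ _).le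
  · obtain ⟨N, hN⟩ : ∃ N, N = (n - 1) / 2 := ⟨_, rfl⟩
    have hN2 : 2 ≤ N := by omega
    obtain ⟨α', β', hg, hnear⟩ := exists_gen hne (2 * (2 * N))
    have hg' : Gen α' β' (2 * N) := by
      intro p h1 h2 h3
      exact hg p (by push_cast at *; omega) (by push_cast at *; omega) h3
    have h1 := hlow N hN2 α' β' hg'
    have h2 : (brH α' β' (2 * N) : ℝ) ≤ brH α β n := by
      exact_mod_cast (br_near hne hnear).trans (br_mono hne (by omega))
    have h3 : mu ^ n ≤ mu ^ (2 * N) * 16 := by
      have : mu ^ n = mu ^ (2 * N) * mu ^ (n - 2 * N) := by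
        rw [← pow_add]; congr 1; omega
      rw [this]
      have h5 : mu ^ (n - 2 * N) ≤ 16 := by
        calc mu ^ (n - 2 * N) ≤ mu ^ 2 := pow_le_pow_right₀ hmu1 (by omega)
          _ ≤ 4 ^ 2 := pow_le_pow_left₀ hmu.le hmu4 2
          _ = 16 := by norm_num
      gcongr
    have h6 : (16 : ℝ) ≤ q n 12 := by
      have h7 := pow_le_q hn 4
      have h8 : (2 : ℝ) ^ 4 ≤ (n : ℝ) ^ 4 := by
        apply pow_le_pow_left₀ (by norm_num)
        exact_mod_cast hn
      have h9 : q n (3 * (4 : ℕ)) = q n 12 := by norm_num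
      rw [h9] at h7
      linarith [show (2 : ℝ) ^ 4 = 16 by norm_num]
    have h10 : q N K ≤ q n K := by
      unfold q
      apply Real.exp_le_exp.2
      apply mul_le_mul_of_nonneg_left _ hK
      apply pow_le_pow_left₀ (Real.log_nonneg (by exact_mod_cast (by omega : 1 ≤ N)))
      exact Real.log_le_log (by exact_mod_cast (by omega : 0 < N)) (by exact_mod_cast (by omega))
    have hbn : (0 : ℝ) ≤ brH α β n := Nat.cast_nonneg _
    have hqn := q_pos n K
    calc mu ^ n ≤ mu ^ (2 * N) * 16 := h3
      _ ≤ (q N K * brH α' β' (2 * N)) * q n 12 := by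
          apply mul_le_mul h1 h6 (by norm_num)
          exact mul_nonneg (q_pos _ _).le (Nat.cast_nonneg _)
      _ ≤ (q n K * brH α β n) * q n 12 := by
          apply mul_le_mul_of_nonneg_right _ (q_pos _ _).le
          exact mul_le_mul h10 h2 (Nat.cast_nonneg _) hqn.le
      _ = (q n K * q n 12) * brH α β n := by ring
      _ ≤ q n (K + 42) * brH α β n := by
          rw [q_mul]
          exact mul_le_mul_of_nonneg_right (q_mono hn (by linarith)) hbn

end Pool.Agent.U262.SW
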