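import Pool.Agent.Y981.L2.HalfZ

/-!
Self-avoiding words in a half plane of arbitrary direction: the half plane is
`α x + β y ≤ 0` with real numbers `α`, `β`.  Definitions, cyclic shift at the farthest point.
-/

set_option autoImplicit false

namespace Pool.Agent.U262.SW

open Pool.Agent.TH795.EP Pool.Agent.TH795.EP2 Pool.Agent.TH795.SE2 Pool.Agent.TH262.SawL H981 Finset
open Pool.Agent.Y981.L2 (path_ge path_zero')

/-- the linear functional -/
def hh (α β : ℝ) (p : ℤ × ℤ) : ℝ := α * p.1 + β * p.2

/-- the word stays in the half plane `α x + β y ≤ 0` -/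
def LoH (α β : ℝ) (w : List St) : Prop := ∀ k, hh α β (path w k) ≤ 0

/-- number of self-avoiding words in the half plane with displacement `(x, y)` -/
noncomputable def laH (α β : ℝ) (m : ℕ) (x y : ℤ) : ℕ :=
  (fs (fun w => (Saw w ∧ dx w = x ∧ dy w = y) ∧ LoH α β w) m).card

variable {α β : ℝ}

theorem hh_add (p r : ℤ × ℤ) : hh α β (p.1 + r.1, p.2 + r.2) = hh α β p + hh α β r := by
  unfold hh; push_cast; ring

theorem hh_mk (x y : ℤ) : hh α β (x, y) = α * x + β * y := rfl

theorem hh_zero : hh α β (0, 0) = 0 := by simp [hh]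

theorem hh_drop (w : List St) (t k : ℕ) :
    hh α β (path w (t + k)) = hh α β (path w t) + hh α β (path (w.drop t) k) := by
  rw [path_drop, hh_add]

theorem hh_right (u v : List St) (k : ℕ) :
    hh α β (path (u ++ v) (u.length + k)) = hh α β (dx u, dy u) + hh α β (path v k) := by
  rw [path_append_right]
  exact hh_add (dx u, dy u) (path v k)

theorem hh_disp_add (u v : List St) :
    hh α β (dx (u ++ v), dy (u ++ v)) = hh α β (dx u, dy u) + hh α β (dx v, dy v) := by
  rw [dx_append, dy_append]
  exact hh_add (dx u, dy u) (dx v, dy v)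

/-- the farthest point -/
theorem exists_max (α β : ℝ) (w : List St) : ∃ t, t ≤ w.length ∧
    ∀ k, hh α β (path w k) ≤ hh α β (path w t) := by
  obtain ⟨t, ht, hmax⟩ : ∃ t ∈ range (w.length + 1), ∀ k ∈ range (w.length + 1),
      hh α β (path w k) ≤ hh α β (path w t) :=
    Finset.exists_max_image (range (w.length + 1)) (fun k => hh α β (path w k)) ⟨0, by simp⟩
  rw [Finset.mem_range] at ht
  refine ⟨t, by omega, fun k => ?_⟩
  rcases le_or_gt k w.length with h | h
  · exact hmax k (by rw [Finset.mem_range]; omega)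
  · rw [path_ge h.le]
    exact hmax _ (by rw [Finset.mem_range]; omega)

theorem exists_min (α β : ℝ) (w : List St) : ∃ t, t ≤ w.length ∧
    ∀ k, hh α β (path w t) ≤ hh α β (path w k) := by
  obtain ⟨t, ht, hmin⟩ : ∃ t ∈ range (w.length + 1), ∀ k ∈ range (w.length + 1),
      hh α β (path w t) ≤ hh α β (path w k) :=
    Finset.exists_min_image (range (w.length + 1)) (fun k => hh α β (path w k)) ⟨0, by simp⟩
  rw [Finset.mem_range] at ht
  refine ⟨t, by omega, fun k => ?_⟩
  rcases le_or_gt k w.length with h | h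
  · exact hmin k (by rw [Finset.mem_range]; omega)
  · rw [path_ge h.le]
    exact hmin _ (by rw [Finset.mem_range]; omega)

/-- the cyclic shift at the farthest point -/
theorem cyc_existsH (α β : ℝ) (w : List St) : ∃ t, t ≤ w.length ∧
    (∀ k, hh α β (path (w.drop t) k) ≤ 0) ∧
    ∀ k, hh α β (path (w.take t) k) ≤ hh α β (dx (w.take t), dy (w.take t)) := by
  obtain ⟨t, ht, hmax⟩ := exists_max α β w
  refine ⟨t, ht, fun k => ?_, fun k => ?_⟩
  · have h1 := hh_drop (α := α) (β := β) w t k
    have h2 := hmax (t + k)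
    linarith
  · have h1 : path w t = (dx (w.take t), dy (w.take t)) := rfl
    rw [← h1]
    rcases le_or_gt k t with h | h
    · rw [path_take h]
      exact hmax k
    · have h2 : (w.take t).length = t := by rw [List.length_take]; omega
      rw [path_ge (by omega : (w.take t).length ≤ k), h2, path_take le_rfl]

theorem lo_glueH {u v : List St} {i j : ℕ} (hi : i ≤ u.length)
    (hu : ∀ k, hh α β (path u k) ≤ 0) (hv : ∀ k, hh α β (path v k) ≤ hh α β (dx v, dy v))
    (huv : hh α β (dx u, dy u) + hh α β (dx v, dy v) ≤ 0)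
    (hx : dx (u.take i ++ v.drop j) = dx u + dx v)
    (hy : dy (u.take i ++ v.drop j) = dy u + dy v) : LoH α β (u.take i ++ v.drop j) := by
  have hlen : (u.take i).length = i := by rw [List.length_take]; omega
  intro k
  rcases le_or_gt k i with h1 | h1
  · rw [path_append_left (by omega), path_take h1]
    exact hu k
  · obtain ⟨l, rfl⟩ : ∃ l, k = i + l := ⟨k - i, by omega⟩
    have g := hh_right (α := α) (β := β) (u.take i) (v.drop j) l
    rw [hlen] at g
    rw [g]
    have g1 := hh_drop (α := α) (β := β) v j l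
    have g2 : path v j = (dx (v.take j), dy (v.take j)) := rfl
    have f2 : hh α β (dx v, dy v) = hh α β (dx (v.take j), dy (v.take j)) +
        hh α β (dx (v.drop j), dy (v.drop j)) := by
      rw [← hh_disp_add, List.take_append_drop]
    have f3 : hh α β (dx (u.take i), dy (u.take i)) + hh α β (dx (v.drop j), dy (v.drop j)) =
        hh α β (dx u, dy u) + hh α β (dx v, dy v) := by
      rw [← hh_disp_add, hx, hy]
      exact hh_add (dx u, dy u) (dx v, dy v)
    rw [g2] at g1
    have g3 := hv (j + l)
    linarith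

theorem cyc_cardH (m : ℕ) {x y : ℤ} (hy : hh α β (x, y) ≤ 0) :
    a m x y ≤ ∑ p ∈ (range (m + 1)).sigma (fun t => range (m - t + 1) ×ˢ range (t + 1)),
      laH α β (p.2.1 + (p.1 - p.2.2)) x y * (c (m - p.1 - p.2.1) * c p.2.2) := by
  classical
  unfold a laH c
  have e : ∀ p : (_ : ℕ) × (ℕ × ℕ),
      (fs (fun w => (Saw w ∧ dx w = x ∧ dy w = y) ∧ LoH α β w) (p.2.1 + (p.1 - p.2.2))).card *
        ((fs Saw (m - p.1 - p.2.1)).card * (fs Saw p.2.2).card) =
      (fs (fun w => (Saw w ∧ dx w = x ∧ dy w = y) ∧ LoH α β w) (p.2.1 + (p.1 - p.2.2)) ×ˢ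
        (fs Saw (m - p.1 - p.2.1) ×ˢ fs Saw p.2.2)).card := by
    intro p
    rw [Finset.card_product, Finset.card_product]
  simp only [e]
  rw [← Finset.card_sigma]
  apply card_le_of_decode (fun q => (q.2.2.2 ++ q.2.1.drop q.1.2.1) ++
    (q.2.1.take q.1.2.1 ++ q.2.2.1))
  intro w hw
  rw [mem_fs] at hw
  obtain ⟨⟨hw1, hwx, hwy⟩, hwl⟩ := hw
  obtain ⟨t, ht, hu, hv⟩ := cyc_existsH α β w
  have hsu : Saw (w.drop t) := hw1.subw (List.drop_suffix _ _).isInfix
  have hsv : Saw (w.take t) := hw1.subw (List.take_prefix _ _).isInfix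
  have hlu : (w.drop t).length = m - t := by rw [List.length_drop, hwl]
  have hlv : (w.take t).length = t := by rw [List.length_take]; omega
  have f1 : dx w = dx (w.take t) + dx (w.drop t) := by rw [← dx_append, List.take_append_drop]
  have f2 : dy w = dy (w.take t) + dy (w.drop t) := by rw [← dy_append, List.take_append_drop]
  have f3 : hh α β (dx (w.drop t), dy (w.drop t)) + hh α β (dx (w.take t), dy (w.take t)) ≤ 0 := by
    have h1 := hh_disp_add (α := α) (β := β) (w.take t) (w.drop t)
    rw [List.take_append_drop, hwx, hwy] at h1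
    linarith
  obtain ⟨i, j, hi, hj, h1, h2, h3⟩ := glue_exists hsu hsv
  have hlen : ((w.drop t).take i).length = i := by rw [List.length_take]; omega
  refine ⟨⟨⟨t, (i, j)⟩, ((w.drop t).take i ++ (w.take t).drop j, (w.drop t).drop i,
    (w.take t).take j)⟩, ?_, ?_⟩
  · rw [Finset.mem_sigma, Finset.mem_sigma, Finset.mem_product, Finset.mem_product,
      Finset.mem_product, mem_fs, mem_fs, mem_fs, Finset.mem_range, Finset.mem_range,
      Finset.mem_range]
    simp only
    refine ⟨⟨by omega, by omega, by omega⟩, ⟨⟨⟨h1, by omega, by omega⟩, ?_⟩, ?_⟩, ⟨?_, ?_⟩, ?_, ?_⟩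
    · exact lo_glueH hi hu hv f3 h2 h3
    · rw [List.length_append, hlen, List.length_drop, hlv]
    · exact hsu.subw (List.drop_suffix _ _).isInfix
    · rw [List.length_drop, hlu]
    · exact hsv.subw (List.take_prefix _ _).isInfix
    · rw [List.length_take]; omega
  · simp only
    have g1 : ((w.drop t).take i ++ (w.take t).drop j).take i = (w.drop t).take i := by
      have := List.take_left (l₁ := (w.drop t).take i) (l₂ := (w.take t).drop j)
      rwa [hlen] at this
    have g2 : ((w.drop t).take i ++ (w.take t).drop j).drop i = (w.take t).drop j := by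
      have := List.drop_left (l₁ := (w.drop t).take i) (l₂ := (w.take t).drop j)
      rwa [hlen] at this
    rw [g1, g2, List.take_append_drop, List.take_append_drop, List.take_append_drop]

theorem laH_le_a (m : ℕ) (x y : ℤ) : laH α β m x y ≤ a m x y := by
  unfold laH a
  apply Finset.card_le_card
  intro w hw
  rw [mem_fs] at hw ⊢
  exact ⟨hw.1.1, hw.2⟩

theorem exists_of_laH {m : ℕ} {x y : ℤ} (h : 0 < laH α β m x y) :
    ∃ w, Saw w ∧ dx w = x ∧ dy w = y ∧ w.length = m := by
  unfold laH at h
  obtain ⟨w, hw⟩ := Finset.card_pos.1 h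
  rw [mem_fs] at hw
  exact ⟨w, hw.1.1.1, hw.1.1.2.1, hw.1.1.2.2, hw.2⟩

/-! ### reversal -/

/-- the reversed path -/
def rv (t : List St) : List St := ng (sg t.reverse)

theorem length_rv (t : List St) : (rv t).length = t.length := by simp [rv]

theorem rv_rv (t : List St) : rv (rv t) = t := by
  have e1 : ∀ u : List St, ng (sg (ng (sg u))) = u := by
    intro u
    induction u with
    | nil => rfl
    | cons s u ih =>
      rw [sg_cons, ng_cons, sg_cons, ng_cons, ih]
      cases s <;> rfl
  unfold rv
  rw [sg_reverse, ng_reverse, e1, List.reverse_reverse]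

theorem dx_rv (t : List St) : dx (rv t) = -dx t := by
  unfold rv; rw [dx_ng, dx_sg, dx_reverse]

theorem dy_rv (t : List St) : dy (rv t) = -dy t := by
  unfold rv; rw [dy_ng, dy_sg, dy_reverse]

theorem path_rv (t : List St) (k : ℕ) :
    path (rv t) k = ((path t (t.length - k)).1 - dx t, (path t (t.length - k)).2 - dy t) := by
  have e : (rv t).take k = rv (t.drop (t.length - k)) := by
    unfold rv ng sg
    rw [← List.map_take, ← List.map_take, List.take_reverse]
  have f1 : dx t = dx (t.take (t.length - k)) + dx (t.drop (t.length - k)) := by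
    rw [← dx_append, List.take_append_drop]
  have f2 : dy t = dy (t.take (t.length - k)) + dy (t.drop (t.length - k)) := by
    rw [← dy_append, List.take_append_drop]
  unfold path
  rw [e, dx_rv, dy_rv]
  ext
  · simp only; omega
  · simp only; omega

theorem saw_rv {t : List St} (h : Saw t) : Saw (rv t) := by
  rw [saw_iff']
  intro i j hij hj
  rw [length_rv] at hj
  rw [path_rv t, path_rv t]
  intro he
  obtain ⟨h1, h2⟩ := Prod.mk.inj he
  exact saw_iff'.1 h (t.length - j) (t.length - i) (by omega) (by omega)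
    (Prod.ext (by omega) (by omega))

end Pool.Agent.U262.SW
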