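import Pool.Agent.U262.SW.A

/-!
Insertion of polygons in self-avoiding words of a half plane `α x + β y ≤ 0`, `0 < α < β`.
-/

set_option autoImplicit false

namespace Pool.Agent.U262.SW

open Pool.Agent.TH795.EP Pool.Agent.TH795.EP2 Pool.Agent.TH795.SE2 Pool.Agent.TH262.SawL H981 Finset
open Pool.Agent.Y981.L2 (path_ge path_zero' disp_reps path_snd_S)

variable {α β : ℝ}

/-- there is a horizontal edge whose left end is a lowest point -/
def BotH (α β : ℝ) (w : List St) : Prop :=
  ∃ (i : ℕ) (hi : i < w.length),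
    (w[i] = St.E ∧ ∀ k, hh α β (path w i) ≤ hh α β (path w k)) ∨
    (w[i] = St.W ∧ ∀ k, hh α β (path w (i + 1)) ≤ hh α β (path w k))

noncomputable def lbH (α β : ℝ) (m : ℕ) (x y : ℤ) : ℕ :=
  (fs (fun w => (Saw w ∧ dx w = x ∧ dy w = y) ∧ LoH α β w ∧ BotH α β w) m).card

theorem hh_pred {α β : ℝ} (x y : ℤ) : hh α β (x, y - 1) = hh α β (x, y) - β := by
  unfold hh; push_cast; ring

theorem hh_step {w : List St} {i : ℕ} (hi : i < w.length) :
    hh α β (path w (i + 1)) = hh α β (path w i) + (α * (w[i]).x + β * (w[i]).y) := by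
  obtain ⟨h1, h2⟩ := path_succ hi
  unfold hh
  rw [h1, h2]
  push_cast
  ring

theorem hh_S (v : List St) (k : ℕ) :
    hh α β (path (St.S :: v) (k + 1)) = hh α β (path v k) - β := by
  rw [path_snd_S]
  exact hh_pred _ _

theorem path_ge' {w : List St} {k : ℕ} (h : w.length ≤ k) : path w k = path w w.length := path_ge h

theorem saw_S_consH (hβ : 0 < β) {v : List St} (hv : Saw v) (hlo : LoH α β v) :
    Saw (St.S :: v) := by
  rw [saw_iff']
  intro i j hij hj
  obtain ⟨l, rfl⟩ : ∃ l, j = l + 1 := ⟨j - 1, by omega⟩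
  rw [List.length_cons] at hj
  rcases Nat.eq_zero_or_pos i with h | h
  · subst h
    rw [path_zero']
    intro he
    have h1 := congrArg (hh α β) he
    rw [hh_S, hh_zero] at h1
    have := hlo l
    linarith
  · obtain ⟨i', rfl⟩ : ∃ i', i = i' + 1 := ⟨i - 1, by omega⟩
    rw [path_snd_S, path_snd_S]
    intro he
    obtain ⟨h1, h2⟩ := Prod.mk.inj he
    exact saw_iff'.1 hv i' l (by omega) (by omega) (Prod.ext h1 (by omega))

theorem lo_S_consH (hβ : 0 < β) {v : List St} (hlo : LoH α β v) : LoH α β (St.S :: v) := by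
  intro k
  rcases Nat.eq_zero_or_pos k with h | h
  · subst h; rw [path_zero', hh_zero]
  · obtain ⟨l, rfl⟩ : ∃ l, k = l + 1 := ⟨k - 1, by omega⟩
    rw [hh_S]
    have := hlo l
    linarith

theorem bot_S_consH (hβ : 0 < β) {v : List St} (hlo : LoH α β v) (hb : BotH α β v) :
    BotH α β (St.S :: v) := by
  obtain ⟨i, hi, hs⟩ := hb
  have key : ∀ i : ℕ, (∀ k, hh α β (path v i) ≤ hh α β (path v k)) →
      ∀ k, hh α β (path (St.S :: v) (i + 1)) ≤ hh α β (path (St.S :: v) k) := by
    intro i hmin k
    rw [hh_S]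
    rcases Nat.eq_zero_or_pos k with h | h
    · subst h
      rw [path_zero', hh_zero]
      have := hlo i
      linarith
    · obtain ⟨l, rfl⟩ : ∃ l, k = l + 1 := ⟨k - 1, by omega⟩
      rw [hh_S]
      have := hmin l
      linarith
  refine ⟨i + 1, by rw [List.length_cons]; omega, ?_⟩
  rw [List.getElem_cons_succ]
  rcases hs with ⟨h1, h2⟩ | ⟨h1, h2⟩
  · exact Or.inl ⟨h1, key i h2⟩
  · exact Or.inr ⟨h1, key (i + 1) h2⟩

theorem repsH (hβ : 0 < β) {v : List St} (j : ℕ) (hv : Saw v) (hlo : LoH α β v) :
    Saw (List.replicate j St.S ++ v) ∧ LoH α β (List.replicate j St.S ++ v) ∧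
    (BotH α β v → BotH α β (List.replicate j St.S ++ v)) := by
  induction j with
  | zero => simpa using ⟨hv, hlo⟩
  | succ j ih =>
    rw [List.replicate_succ, List.cons_append]
    exact ⟨saw_S_consH hβ ih.1 ih.2.1, lo_S_consH hβ ih.2.1,
      fun hb => bot_S_consH hβ ih.2.1 (ih.2.2 hb)⟩

theorem lo_prefixH {u v : List St} (h : LoH α β (u ++ v)) : LoH α β u := by
  intro k
  rcases le_or_gt k u.length with h1 | h1
  · rw [← path_append_left (v := v) h1]; exact h k
  · rw [path_ge h1.le, ← path_append_left (v := v) le_rfl]; exact h _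

/-- no bottom edge: the last step goes down -/
theorem not_botH (hα : 0 < α) (hβ : 0 < β) {w : List St} (hw : Saw w) (h0 : 0 < w.length)
    (hlo : LoH α β w) (hb : ¬ BotH α β w) : w[w.length - 1] = St.S := by
  obtain ⟨i, hi, hmin⟩ := exists_min α β w
  unfold BotH at hb
  push Not at hb
  -- the step after `i` goes up, the step before `i` goes down
  have up : ∀ h : i < w.length, w[i] = St.N := by
    intro h
    have h1 := hh_step (α := α) (β := β) h
    have h2 := hmin (i + 1)
    cases hs : w[i] with
    | E =>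
      obtain ⟨k, hk⟩ := (hb i h).1 hs
      exact absurd (hmin k) (not_le.2 hk)
    | W => rw [hs] at h1; simp only [St.x_W, St.y_W] at h1; push_cast at h1; linarith
    | N => rfl
    | S => rw [hs] at h1; simp only [St.x_S, St.y_S] at h1; push_cast at h1; linarith
  have down : ∀ h : 0 < i, w[i - 1] = St.S := by
    intro h
    have hlt : i - 1 < w.length := by omega
    have h1 := hh_step (α := α) (β := β) hlt
    rw [Nat.sub_add_cancel h] at h1
    have h2 := hmin (i - 1)
    cases hs : w[i - 1] with
    | E => rw [hs] at h1; simp only [St.x_E, St.y_E] at h1; push_cast at h1; linarith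
    | W =>
      obtain ⟨k, hk⟩ := (hb (i - 1) hlt).2 hs
      rw [Nat.sub_add_cancel h] at hk
      exact absurd (hmin k) (not_le.2 hk)
    | N => rw [hs] at h1; simp only [St.x_N, St.y_N] at h1; push_cast at h1; linarith
    | S => rfl
  rcases Nat.eq_zero_or_pos i with h | h
  · exfalso
    have h1 := up (by omega)
    subst h
    have h2 := hh_step (α := α) (β := β) h0
    rw [h1, path_zero', hh_zero] at h2
    simp only [St.x_N, St.y_N] at h2
    push_cast at h2
    have h3 := hlo (0 + 1)
    linarith
  · rcases lt_or_ge i w.length with h2 | h2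
    · exfalso
      have u := up h2
      have d := down h
      have hlt : i - 1 < w.length := by omega
      have p1 := path_succ hlt
      rw [Nat.sub_add_cancel h, d] at p1
      have p2 := path_succ h2
      rw [u] at p2
      refine saw_iff'.1 hw (i - 1) (i + 1) (by omega) (by omega) (Prod.ext ?_ ?_)
      · simp at p1 p2; omega
      · simp at p1 p2; omega
    · have d := down h
      have : i = w.length := by omega
      subst this
      exact d

theorem tail_existsH (hα : 0 < α) (hβ : 0 < β) (m : ℕ) : ∀ w : List St, w.length = m → Saw w →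
    LoH α β w → ∃ j u, w = u ++ List.replicate j St.S ∧ (u = [] ∨ BotH α β u) := by
  induction m with
  | zero =>
    intro w hl _ _
    exact ⟨0, [], by simpa using List.length_eq_zero_iff.1 hl, Or.inl rfl⟩
  | succ m ih =>
    intro w hl hw hlo
    by_cases hb : BotH α β w
    · exact ⟨0, w, by simp, Or.inr hb⟩
    · have h := not_botH hα hβ hw (by omega) hlo hb
      have hne : w ≠ [] := by
        intro h0
        rw [h0] at hl
        simp at hl
      have hw1 : w.dropLast ++ [St.S] = w := by
        have h1 := List.dropLast_append_getLast hne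
        rw [List.getLast_eq_getElem, h] at h1
        exact h1
      obtain ⟨j, u, hu, hb'⟩ := ih w.dropLast (by rw [List.length_dropLast]; omega)
        (hw.subw (List.dropLast_prefix w).isInfix)
        (lo_prefixH (v := [St.S]) (by rw [hw1]; exact hlo))
      refine ⟨j + 1, u, ?_, hb'⟩
      rw [List.replicate_succ', ← List.append_assoc, ← hu, hw1]

theorem la_le_lbH (hα : 0 < α) (hβ : 0 < β) (m : ℕ) {x y : ℤ} (h : ¬ (x = 0 ∧ y = -m)) :
    laH α β m x y ≤ (m + 1) * lbH α β m x y := by
  classical
  unfold laH lbH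
  have e : (m + 1) * (fs (fun w => (Saw w ∧ dx w = x ∧ dy w = y) ∧ LoH α β w ∧ BotH α β w) m).card =
      (range (m + 1) ×ˢ
        fs (fun w => (Saw w ∧ dx w = x ∧ dy w = y) ∧ LoH α β w ∧ BotH α β w) m).card := by
    rw [Finset.card_product, Finset.card_range]
  rw [e]
  apply card_le_of_decode (fun q => q.2.drop q.1 ++ List.replicate q.1 St.S)
  intro w hw
  rw [mem_fs] at hw
  obtain ⟨⟨⟨hw1, hwx, hwy⟩, hlo⟩, hwl⟩ := hw
  obtain ⟨j, u, hu, hb⟩ := tail_existsH hα hβ m w hwl hw1 hlo
  have hj : u.length + j = m := by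
    rw [hu, List.length_append, List.length_replicate] at hwl
    exact hwl
  obtain ⟨hd1, hd2⟩ := disp_reps j
  have hdx : dx u = x := by
    rw [hu, dx_append, hd1] at hwx
    omega
  have hdy : dy u + -(j : ℤ) = y := by
    rw [hu, dy_append, hd2] at hwy
    exact hwy
  rcases hb with hb | hb
  · exfalso
    apply h
    subst hb
    rw [List.length_nil, zero_add] at hj
    simp only [dx_nil, dy_nil] at hdx hdy
    omega
  · have hsu : Saw u := hw1.subw (by rw [hu]; exact (List.prefix_append _ _).isInfix)
    have hlu : LoH α β u := lo_prefixH (v := List.replicate j St.S) (by rw [← hu]; exact hlo)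
    obtain ⟨r1, r2, r3⟩ := repsH hβ j hsu hlu
    refine ⟨(j, List.replicate j St.S ++ u), ?_, ?_⟩
    · rw [Finset.mem_product, mem_fs, Finset.mem_range]
      refine ⟨by omega, ⟨⟨r1, ?_, ?_⟩, r2, r3 hb⟩, ?_⟩
      · simp only
        rw [dx_append, hd1]; omega
      · simp only
        rw [dy_append, hd2]; omega
      · simp only [List.length_append, List.length_replicate]
        omega
    · simp only
      rw [hu]
      congr 1
      have := List.drop_left (l₁ := List.replicate j St.S) (l₂ := u)
      rwa [List.length_replicate] at this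

/-! ### insertion -/

/-- the oriented arch; `t` goes from the right end to the left end -/
def tv (s : St) (t : List St) : List St := if s = St.W then t else rv t

theorem length_tv (s : St) (t : List St) : (tv s t).length = t.length := by
  unfold tv; split_ifs
  · rfl
  · exact length_rv t

theorem saw_tv {s : St} {t : List St} (h : Saw t) : Saw (tv s t) := by
  unfold tv; split_ifs
  · exact h
  · exact saw_rv h

theorem dx_tv {s : St} {t : List St} (hs : s = St.E ∨ s = St.W) (h : dx t = -1) :
    dx (tv s t) = s.x := by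
  rcases hs with rfl | rfl
  · simp [tv, dx_rv, h]
  · simp [tv, h]

theorem dy_tv {s : St} {t : List St} (hs : s = St.E ∨ s = St.W) (h : dy t = 0) :
    dy (tv s t) = s.y := by
  rcases hs with rfl | rfl
  · simp [tv, dy_rv, h]
  · simp [tv, h]

/-- the inserted points are lower than the word -/
theorem tv_low (hαβ : α < β) {w : List St} {i : ℕ} (hi : i < w.length)
    (hs : (w[i] = St.E ∧ ∀ k, hh α β (path w i) ≤ hh α β (path w k)) ∨
      (w[i] = St.W ∧ ∀ k, hh α β (path w (i + 1)) ≤ hh α β (path w k)))
    {t : List St} (htx : dx t = -1) (hty : dy t = 0) (hlo : LoH α β t) (l k : ℕ) :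
    hh α β ((path w i).1 + (path (tv w[i] t) l).1, (path w i).2 - 1 + (path (tv w[i] t) l).2) <
      hh α β (path w k) := by
  have e : hh α β ((path w i).1 + (path (tv w[i] t) l).1,
      (path w i).2 - 1 + (path (tv w[i] t) l).2) =
      hh α β (path w i) - β + hh α β (path (tv w[i] t) l) := by
    unfold hh; push_cast; ring
  rw [e]
  rcases hs with ⟨h1, h2⟩ | ⟨h1, h2⟩
  · rw [h1]
    have e2 : tv St.E t = rv t := by simp [tv]
    rw [e2, path_rv, htx, hty]
    have h3 := hlo (t.length - l)
    have e3 : hh α β ((path t (t.length - l)).1 - -1, (path t (t.length - l)).2 - 0) =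
        hh α β (path t (t.length - l)) + α := by
      unfold hh; push_cast; ring
    rw [e3]
    have h4 := h2 k
    linarith
  · rw [h1]
    have e2 : tv St.W t = t := by simp [tv]
    rw [e2]
    have h3 := hlo l
    have h4 := h2 k
    have h5 := hh_step (α := α) (β := β) hi
    rw [h1] at h5
    simp only [St.x_W, St.y_W] at h5
    push_cast at h5
    linarith

theorem saw_ins' {w : List St} {i : ℕ} (hw : Saw w) (hi : i < w.length) {t' : List St}
    (ht : Saw t') (hx : dx t' = (w[i]).x) (hy : dy t' = (w[i]).y)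
    (hlow : ∀ l k, hh α β ((path w i).1 + (path t' l).1, (path w i).2 - 1 + (path t' l).2) <
      hh α β (path w k)) :
    Saw (ins w i t') := by
  rw [saw_iff']
  intro k l hkl hl
  rw [length_ins hi] at hl
  have hw' := saw_iff'.1 hw
  have ht' := saw_iff'.1 ht
  have cls : ∀ k, k ≤ w.length + t'.length + 1 → (k ≤ i) ∨ (∃ m, m ≤ t'.length ∧ k = i + (m + 1)) ∨
      ∃ m, k = i + (t'.length + (m + 1) + 1) ∧ i + 1 + m ≤ w.length := by
    intro k hk
    by_cases h1 : k ≤ i
    · left; exact h1
    · by_cases h2 : k ≤ i + (t'.length + 1)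
      · right; left
        exact ⟨k - i - 1, by omega, by omega⟩
      · right; right
        exact ⟨k - i - t'.length - 2, by omega, by omega⟩
  rcases cls k (by omega) with h1 | ⟨m1, hm1, h1⟩ | ⟨m1, h1, hm1⟩ <;>
    rcases cls l (by omega) with h2 | ⟨m2, hm2, h2⟩ | ⟨m2, h2, hm2⟩
  · rw [path_ins_left hi t' h1, path_ins_left hi t' h2]
    exact hw' k l hkl (by omega)
  · rw [h2, path_ins_left hi t' h1, path_ins_mid hi t' hm2]
    intro he
    have e2 := congrArg (hh α β) he
    have := hlow m2 k
    linarith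
  · rw [h2, path_ins_left hi t' h1, path_ins_right hi hx hy]
    exact hw' k _ (by omega) hm2
  · omega
  · rw [h1, h2, path_ins_mid hi t' hm1, path_ins_mid hi t' hm2]
    intro he
    have e1 := congrArg Prod.fst he
    have e2 := congrArg Prod.snd he
    simp only at e1 e2
    exact ht' m1 m2 (by omega) hm2 (Prod.ext (by omega) (by omega))
  · rw [h1, h2, path_ins_mid hi t' hm1, path_ins_right hi hx hy]
    intro he
    have e2 := congrArg (hh α β) he
    have := hlow m1 (i + 1 + m2)
    linarith
  · omega
  · omega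
  · rw [h1, h2, path_ins_right hi hx hy, path_ins_right hi hx hy]
    exact hw' _ _ (by omega) hm2

theorem lo_ins' {w : List St} {i : ℕ} (hi : i < w.length) {t' : List St}
    (hx : dx t' = (w[i]).x) (hy : dy t' = (w[i]).y) (hw : LoH α β w)
    (hlow : ∀ l k, hh α β ((path w i).1 + (path t' l).1, (path w i).2 - 1 + (path t' l).2) <
      hh α β (path w k)) : LoH α β (ins w i t') := by
  have key : ∀ k, k ≤ w.length + t'.length + 1 → hh α β (path (ins w i t') k) ≤ 0 := by
    intro k hk
    by_cases h1 : k ≤ i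
    · rw [path_ins_left hi t' h1]; exact hw k
    · by_cases h2 : k ≤ i + (t'.length + 1)
      · obtain ⟨l, rfl⟩ : ∃ l, k = i + (l + 1) := ⟨k - i - 1, by omega⟩
        rw [path_ins_mid hi t' (by omega)]
        have := hlow l 0
        have := hw 0
        linarith
      · obtain ⟨l, rfl⟩ : ∃ l, k = i + (t'.length + (l + 1) + 1) :=
          ⟨k - i - t'.length - 2, by omega⟩
        rw [path_ins_right hi hx hy]
        exact hw _
  intro k
  rcases le_or_gt k (w.length + t'.length + 1) with h | h
  · exact key k h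
  · rw [path_ge (by rw [length_ins hi]; omega)]
    exact key _ (by rw [length_ins hi])

theorem lb_mul_laH (hαβ : α < β) (m L : ℕ) (x y : ℤ) :
    lbH α β m x y * laH α β L (-1) 0 ≤ m * laH α β (m + L + 1) x y := by
  classical
  unfold lbH laH
  have e : m * (fs (fun w => (Saw w ∧ dx w = x ∧ dy w = y) ∧ LoH α β w) (m + L + 1)).card =
      (range m ×ˢ fs (fun w => (Saw w ∧ dx w = x ∧ dy w = y) ∧ LoH α β w) (m + L + 1)).card := by
    rw [Finset.card_product, Finset.card_range]
  rw [← Finset.card_product, e]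
  apply card_le_of_decode (fun q => (q.2.take q.1 ++
    ((if dx ((q.2.drop (q.1 + 1)).take L) = 1 then St.E else St.W) ::
      q.2.drop (q.1 + 1 + L + 1)),
    (if dx ((q.2.drop (q.1 + 1)).take L) = 1 then rv ((q.2.drop (q.1 + 1)).take L) else
      (q.2.drop (q.1 + 1)).take L)))
  rintro ⟨w, t⟩ h
  rw [Finset.mem_product, mem_fs, mem_fs] at h
  obtain ⟨⟨⟨⟨hw, hwx, hwy⟩, hlo, hbot⟩, hwl⟩, ⟨⟨ht, htx, hty⟩, htn⟩, htl⟩ := h
  simp only at hw hwx hwy hlo hbot hwl ht htx hty htn htl
  obtain ⟨i, hi, hs⟩ := hbot
  have hs' : w[i] = St.E ∨ w[i] = St.W := by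
    rcases hs with h | h
    · exact Or.inl h.1
    · exact Or.inr h.1
  have hx : dx (tv w[i] t) = (w[i]).x := dx_tv hs' htx
  have hy : dy (tv w[i] t) = (w[i]).y := dy_tv hs' hty
  have hlt : (tv w[i] t).length = L := by rw [length_tv, htl]
  have hd := disp_ins hi hx hy
  have hneg := tv_low hαβ hi hs htx hty htn
  refine ⟨(i, ins w i (tv w[i] t)), ?_, ?_⟩
  · rw [Finset.mem_product, mem_fs, Finset.mem_range]
    refine ⟨by omega, ⟨⟨saw_ins' hw hi (saw_tv ht) hx hy hneg, ?_, ?_⟩,
      lo_ins' hi hx hy hlo hneg⟩, ?_⟩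
    · rw [hd.1, hwx]
    · rw [hd.2, hwy]
    · simp only
      rw [length_ins hi, hlt, hwl]
  · simp only
    have hlen : (w.take i).length = i := by rw [List.length_take]; omega
    have g1 : (ins w i (tv w[i] t)).take i = w.take i := by
      unfold ins
      have := List.take_left (l₁ := w.take i)
        (l₂ := St.S :: (tv w[i] t ++ (St.N :: w.drop (i + 1))))
      rwa [hlen] at this
    have g2 : (ins w i (tv w[i] t)).drop (i + 1) = tv w[i] t ++ (St.N :: w.drop (i + 1)) := by
      unfold ins
      have := List.drop_left (l₁ := w.take i)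
        (l₂ := St.S :: (tv w[i] t ++ (St.N :: w.drop (i + 1))))
      rw [hlen] at this
      rw [← List.drop_drop, this, List.drop_succ_cons, List.drop_zero]
    have g3 : ((ins w i (tv w[i] t)).drop (i + 1)).take L = tv w[i] t := by
      rw [g2]
      have := List.take_left (l₁ := tv w[i] t) (l₂ := St.N :: w.drop (i + 1))
      rwa [hlt] at this
    have g4 : (ins w i (tv w[i] t)).drop (i + 1 + L + 1) = w.drop (i + 1) := by
      have := List.drop_left (l₁ := tv w[i] t) (l₂ := St.N :: w.drop (i + 1))
      rw [hlt] at this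
      rw [show i + 1 + L + 1 = (i + 1) + L + 1 by ring, ← List.drop_drop, ← List.drop_drop, g2,
        this, List.drop_succ_cons, List.drop_zero]
    rw [g1, g3, g4, hx]
    have hw2 : w.take i ++ (w[i] :: w.drop (i + 1)) = w := by
      rw [← List.drop_eq_getElem_cons hi, List.take_append_drop]
    rcases hs' with h | h
    · rw [h, St.x_E, if_pos rfl, if_pos rfl]
      rw [h] at hw2
      have : tv St.E t = rv t := by simp [tv]
      rw [hw2, this, rv_rv]
    · rw [h, St.x_W, if_neg (by norm_num), if_neg (by norm_num)]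
      rw [h] at hw2
      have : tv St.W t = t := by simp [tv]
      rw [hw2, this]

theorem lb_le_laH (m : ℕ) (x y : ℤ) : lbH α β m x y ≤ laH α β m x y := by
  unfold lbH laH
  apply Finset.card_le_card
  intro w hw
  rw [mem_fs] at hw ⊢
  exact ⟨⟨hw.1.1, hw.1.2.1⟩, hw.2⟩

/-- the word `W S^m E` -/
theorem one_le_lbH (hα : 0 < α) (hαβ : α < β) {m : ℕ} (hm : 1 ≤ m) :
    1 ≤ lbH α β (m + 2) 0 (-m) := by
  have hβ : 0 < β := hα.trans hαβ
  unfold lbH
  rw [Nat.succ_le_iff, Finset.card_pos]
  obtain ⟨hd1, hd2⟩ := disp_reps m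
  obtain ⟨v, hv⟩ : ∃ v, v = List.replicate m St.S ++ [St.E] := ⟨_, rfl⟩
  have hdxv : dx v = 1 := by rw [hv, dx_append, hd1]; simp
  have hdyv : dy v = -m := by rw [hv, dy_append, hd2]; simp
  have hlv : v.length = m + 1 := by rw [hv]; simp
  have htop : ∀ k ≤ m, path v k = (0, -(k : ℤ)) := by
    intro k hk
    rw [hv, path_append_left (by rw [List.length_replicate]; exact hk)]
    unfold path
    rw [List.take_replicate, min_eq_left hk, (disp_reps k).1, (disp_reps k).2]
  have hend : path v (m + 1) = (1, -(m : ℤ)) := by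
    rw [← hlv, path_len, hdxv, hdyv]
  have hcase : ∀ l, l ≤ m + 1 → (l ≤ m ∧ path (St.W :: v) (l + 1) = (-1, -(l : ℤ))) ∨
      (l = m + 1 ∧ path (St.W :: v) (l + 1) = (0, -(m : ℤ))) := by
    intro l hl
    rw [path_cons_succ, St.x_W, St.y_W]
    rcases Nat.lt_or_ge m l with h3 | h3
    · right
      obtain rfl : l = m + 1 := by omega
      rw [hend]
      refine ⟨rfl, ?_⟩
      norm_num
    · left
      rw [htop l h3]
      refine ⟨h3, ?_⟩
      norm_num
  have hlw : (St.W :: v).length = m + 2 := by rw [List.length_cons, hlv]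
  have hfar : ∀ k, ∃ l, path (St.W :: v) k = path (St.W :: v) l ∧ l ≤ m + 2 := by
    intro k
    rcases le_or_gt k (m + 2) with h | h
    · exact ⟨k, rfl, h⟩
    · exact ⟨m + 2, by rw [path_ge (by omega : (St.W :: v).length ≤ k), hlw], le_rfl⟩
  refine ⟨St.W :: v, mem_fs.2 ⟨⟨⟨?_, ?_, ?_⟩, ?_, ?_⟩, hlw⟩⟩
  · rw [saw_iff']
    intro i j hij hj
    rw [hlw] at hj
    obtain ⟨l, rfl⟩ : ∃ l, j = l + 1 := ⟨j - 1, by omega⟩
    rcases Nat.eq_zero_or_pos i with h | h
    · subst h
      rw [path_zero']
      rcases hcase l (by omega) with ⟨h1, h2⟩ | ⟨h1, h2⟩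
      · rw [h2]
        intro he
        have := congrArg Prod.fst he
        simp at this
      · rw [h2]
        intro he
        have := congrArg Prod.snd he
        simp only at this
        omega
    · obtain ⟨i', rfl⟩ : ∃ i', i = i' + 1 := ⟨i - 1, by omega⟩
      rcases hcase l (by omega) with ⟨h1, h2⟩ | ⟨h1, h2⟩ <;>
        rcases hcase i' (by omega) with ⟨h3, h4⟩ | ⟨h3, h4⟩
      · rw [h2, h4]
        intro he
        have := congrArg Prod.snd he
        simp only at this
        omega
      · omega
      · rw [h2, h4]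
        intro he
        have := congrArg Prod.fst he
        simp at this
      · omega
  · rw [dx_cons, hdxv, St.x_W]; norm_num
  · rw [dy_cons, hdyv, St.y_W]; ring
  · intro k
    obtain ⟨l, hl, hl2⟩ := hfar k
    rw [hl]
    rcases Nat.eq_zero_or_pos l with h | h
    · subst h; rw [path_zero', hh_zero]
    · obtain ⟨l', rfl⟩ : ∃ l', l = l' + 1 := ⟨l - 1, by omega⟩
      rcases hcase l' (by omega) with ⟨h1, h2⟩ | ⟨h1, h2⟩
      · rw [h2]
        unfold hh
        push_cast
        have : (0 : ℝ) ≤ β * l' := by positivity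
        linarith
      · rw [h2]
        unfold hh
        push_cast
        have : (0 : ℝ) ≤ β * m := by positivity
        linarith
  · refine ⟨m + 1, by omega, Or.inl ⟨?_, ?_⟩⟩
    · rw [List.getElem_cons_succ]
      simp [hv]
    · intro k
      obtain ⟨l, hl, hl2⟩ := hfar k
      rw [hl]
      rcases hcase m (by omega) with ⟨h1, h2⟩ | ⟨h1, h2⟩
      swap
      · omega
      rw [h2]
      have h0 : (0 : ℝ) ≤ β * m := by positivity
      rcases Nat.eq_zero_or_pos l with h | h
      · subst h; rw [path_zero', hh_zero]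
        unfold hh
        push_cast
        linarith
      · obtain ⟨l', rfl⟩ : ∃ l', l = l' + 1 := ⟨l - 1, by omega⟩
        rcases hcase l' (by omega) with ⟨h3, h4⟩ | ⟨h3, h4⟩
        · rw [h4]
          unfold hh
          push_cast
          have : β * l' ≤ β * m := by
            apply mul_le_mul_of_nonneg_left _ hβ.le
            exact_mod_cast h3
          linarith
        · rw [h4]
          unfold hh
          push_cast
          linarith

end Pool.Agent.U262.SW
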