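import Pool.Agent.U262.SW.B

/-!
Polygons rotated at the farthest point in a direction; lengthening of words of a half plane.
-/

set_option autoImplicit false

namespace Pool.Agent.U262.SW

open Pool.Agent.TH795.EP Pool.Agent.TH795.EP2 Pool.Agent.TH795.SE2 Pool.Agent.TH262.SawL H981 Finset
open Pool.Agent.Y981.L2 (path_ge path_zero' disp_reps one_le_q)

variable {α β : ℝ}

/-- the closed word `w E` started at time `t` -/
def cl (t : ℕ) (w : List St) : List St := w.drop t ++ (St.E :: w.take t)

theorem length_cl {t : ℕ} {w : List St} (ht : t ≤ w.length) : (cl t w).length = w.length + 1 := by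
  unfold cl
  rw [List.length_append, List.length_cons, List.length_drop, List.length_take]
  omega

/-- the index of `w` for the index `k` of `cl t w` -/
def ix (L t k : ℕ) : ℕ := if k ≤ L - t then t + k else k - (L - t + 1)

theorem path_cl {t : ℕ} {w : List St} (ht : t ≤ w.length) (hx : dx w = -1) (hy : dy w = 0)
    {k : ℕ} (hk : k ≤ w.length + 1) :
    path (cl t w) k = ((path w (ix w.length t k)).1 - (path w t).1,
      (path w (ix w.length t k)).2 - (path w t).2) := by
  have hl : (w.drop t).length = w.length - t := List.length_drop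
  unfold ix
  split_ifs with h
  · unfold cl
    rw [path_append_left (by omega)]
    have := path_drop w t k
    rw [this]
    ext
    · simp only; ring
    · simp only; ring
  · obtain ⟨l, rfl⟩ : ∃ l, k = (w.length - t) + (l + 1) := ⟨k - (w.length - t) - 1, by omega⟩
    have e : w.length - t + (l + 1) - (w.length - t + 1) = l := by omega
    rw [e]
    unfold cl
    have h1 := path_append_right (w.drop t) (St.E :: w.take t) (l + 1)
    rw [hl] at h1
    rw [h1, path_cons_succ, path_take (by omega), St.x_E, St.y_E]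
    have f1 : dx w = dx (w.take t) + dx (w.drop t) := by rw [← dx_append, List.take_append_drop]
    have f2 : dy w = dy (w.take t) + dy (w.drop t) := by rw [← dy_append, List.take_append_drop]
    have g : path w t = (dx (w.take t), dy (w.take t)) := rfl
    rw [g]
    ext
    · simp only; omega
    · simp only; omega

theorem ix_le {L t k : ℕ} (ht : t ≤ L) (hk : k ≤ L + 1) : ix L t k ≤ L := by
  unfold ix; split_ifs <;> omega

theorem ix_inj {L t k l : ℕ} (ht : t ≤ L) (hk : k ≤ L) (hl : l ≤ L) (h : ix L t k = ix L t l) :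
    k = l := by
  unfold ix at h; split_ifs at h <;> omega

theorem ix_inj' {L t k l : ℕ} (ht : t ≤ L) (hk : 1 ≤ k) (hl : 1 ≤ l) (hk' : k ≤ L + 1)
    (hl' : l ≤ L + 1) (h : ix L t k = ix L t l) : k = l := by
  unfold ix at h; split_ifs at h <;> omega

theorem path_inj {w : List St} (hw : Saw w) {i j : ℕ} (hi : i ≤ w.length) (hj : j ≤ w.length)
    (h : path w i = path w j) : i = j := by
  by_contra hne
  rcases Nat.lt_or_ge i j with h1 | h1
  · exact saw_iff'.1 hw i j h1 hj h
  · exact saw_iff'.1 hw j i (by omega) hi h.symm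

theorem cl_inj {t : ℕ} {w : List St} (hw : Saw w) (ht : t ≤ w.length) (hx : dx w = -1)
    (hy : dy w = 0) {k l : ℕ} (hk : k ≤ w.length + 1) (hl : l ≤ w.length + 1)
    (h : path (cl t w) k = path (cl t w) l) : ix w.length t k = ix w.length t l := by
  rw [path_cl ht hx hy hk, path_cl ht hx hy hl] at h
  obtain ⟨h1, h2⟩ := Prod.mk.inj h
  exact path_inj hw (ix_le ht hk) (ix_le ht hl) (Prod.ext (by omega) (by omega))

theorem T_lemma (hα : 0 < α) (hβ : 0 < β) {L : ℕ} (hL : 2 ≤ L) :
    a L (-1) 0 ≤ (L + 1) * (2 * laH α β L (-1) 0) := by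
  classical
  unfold a laH
  have e : (L + 1) * (2 * (fs (fun w => (Saw w ∧ dx w = -1 ∧ dy w = 0) ∧ LoH α β w) L).card) =
      (range (L + 1) ×ˢ ((univ : Finset Bool) ×ˢ
        fs (fun w => (Saw w ∧ dx w = -1 ∧ dy w = 0) ∧ LoH α β w) L)).card := by
    rw [Finset.card_product, Finset.card_product, Finset.card_range, Finset.card_univ,
      Fintype.card_bool]
  rw [e]
  apply card_le_of_decode (fun q =>
    (if q.2.1 = true then q.2.2 ++ [St.E] else St.W :: rv q.2.2).drop (q.1 + 1) ++
    (if q.2.1 = true then q.2.2 ++ [St.E] else St.W :: rv q.2.2).take q.1)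
  intro w hw
  rw [mem_fs] at hw
  obtain ⟨⟨hw, hx, hy⟩, hwl⟩ := hw
  obtain ⟨t, ht, hmax⟩ := exists_max α β w
  obtain ⟨r, hr⟩ : ∃ r, r = cl t w := ⟨_, rfl⟩
  have hlr : r.length = L + 1 := by rw [hr, length_cl ht, hwl]
  have hp : ∀ k, k ≤ L + 1 → path r k = ((path w (ix L t k)).1 - (path w t).1,
      (path w (ix L t k)).2 - (path w t).2) := by
    intro k hk
    rw [hr, ← hwl]
    exact path_cl ht hx hy (by omega)
  have hlow : ∀ k, k ≤ L + 1 → hh α β (path r k) ≤ 0 := by
    intro k hk
    rw [hp k hk]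
    have h1 := hmax (ix L t k)
    have e1 : hh α β ((path w (ix L t k)).1 - (path w t).1, (path w (ix L t k)).2 - (path w t).2) =
        hh α β (path w (ix L t k)) - hh α β (path w t) := by
      unfold hh; push_cast; ring
    rw [e1]
    linarith
  have hinj : ∀ k l, k ≤ L → l ≤ L → path r k = path r l → k = l := by
    intro k l hk hl h
    rw [hr] at h
    have := cl_inj hw ht hx hy (by omega : k ≤ w.length + 1) (by omega : l ≤ w.length + 1) h
    rw [hwl] at this
    exact ix_inj (by omega) hk hl this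
  have hinj' : ∀ k l, 1 ≤ k → 1 ≤ l → k ≤ L + 1 → l ≤ L + 1 → path r k = path r l → k = l := by
    intro k l h1 h2 hk hl h
    rw [hr] at h
    have := cl_inj hw ht hx hy (by omega : k ≤ w.length + 1) (by omega : l ≤ w.length + 1) h
    rw [hwl] at this
    exact ix_inj' (by omega) h1 h2 hk hl this
  have hend : path r (L + 1) = (0, 0) := by
    rw [hp (L + 1) le_rfl]
    have : ix L t (L + 1) = t := by
      unfold ix
      split_ifs <;> omega
    rw [this]
    simp
  have hdr : dx r = 0 ∧ dy r = 0 := by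
    have h1 := path_len r
    rw [hlr, hend] at h1
    exact ⟨(congrArg Prod.fst h1).symm, (congrArg Prod.snd h1).symm⟩
  -- the decoding
  have hs : L - t + 1 ≤ L + 1 := by omega
  have hld : (w.drop t).length = L - t := by rw [List.length_drop, hwl]
  have dec : r.drop (L - t + 1) ++ r.take (L - t) = w := by
    have g1 : r.take (L - t) = w.drop t := by
      rw [hr]
      unfold cl
      have := List.take_left (l₁ := w.drop t) (l₂ := St.E :: w.take t)
      rwa [hld] at this
    have g2 : r.drop (L - t + 1) = w.take t := by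
      rw [hr]
      unfold cl
      have := List.drop_left (l₁ := w.drop t) (l₂ := St.E :: w.take t)
      rw [hld] at this
      rw [← List.drop_drop, this, List.drop_succ_cons, List.drop_zero]
    rw [g1, g2, List.take_append_drop]
  have h0r : 0 < r.length := by omega
  have hLr : L < r.length := by omega
  by_cases hlast : r[L] = St.E
  · -- drop the last step
    have hru : r.take L ++ [St.E] = r := by
      rw [← hlast]
      have h1 : r.take L ++ r.drop L = r := List.take_append_drop L r
      rw [List.drop_eq_getElem_cons hLr, List.drop_of_length_le (by omega)] at h1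
      exact h1
    refine ⟨(L - t, (true, r.take L)), ?_, ?_⟩
    · rw [Finset.mem_product, Finset.mem_product, mem_fs, Finset.mem_range]
      have hpt : ∀ k, k ≤ L → path (r.take L) k = path r k := fun k hk => path_take hk
      have hlt : (r.take L).length = L := by rw [List.length_take]; omega
      have hd := hdr.1
      have hd2 := hdr.2
      rw [← hru, dx_append] at hd
      rw [← hru, dy_append] at hd2
      simp only [dx_cons, dx_nil, dy_cons, dy_nil, St.x_E, St.y_E] at hd hd2
      refine ⟨by omega, Finset.mem_univ _, ⟨⟨?_, by simp only; omega, by simp only; omega⟩, ?_⟩,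
        hlt⟩
      · rw [saw_iff']
        intro i j hij hj
        simp only at hj ⊢
        rw [hlt] at hj
        rw [hpt i (by omega), hpt j hj]
        intro he
        have := hinj i j (by omega) hj he
        omega
      · intro k
        simp only
        rcases le_or_gt k L with h | h
        · rw [hpt k h]; exact hlow k (by omega)
        · rw [path_ge (by omega : (r.take L).length ≤ k), hlt, hpt L le_rfl]
          exact hlow L (by omega)
    · simp only [if_true]
      rw [hru, dec]
  · -- the first step goes left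
    have h1L : path r 1 ≠ path r L := by
      intro he
      have := hinj 1 L (by omega) le_rfl he
      omega
    have hstep1 := path_succ h0r
    have hstepL := path_succ hLr
    rw [hend] at hstepL
    rw [path_zero'] at hstep1
    have l1 := hlow 1 (by omega)
    have l2 := hlow L (by omega)
    have hfirst : r[0] = St.W := by
      have e1 : path r 1 = ((r[0]).x, (r[0]).y) := by
        ext
        · have := hstep1.1; simp only [zero_add] at this; exact this
        · have := hstep1.2; simp only [zero_add] at this; exact this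
      have e2 : path r L = (-(r[L]).x, -(r[L]).y) := by
        ext
        · have := hstepL.1; simp only at this ⊢; omega
        · have := hstepL.2; simp only at this ⊢; omega
      rw [e1] at l1
      rw [e2] at l2
      rw [e1, e2] at h1L
      unfold hh at l1 l2
      simp only at l1 l2
      generalize r[0] = s0 at *
      generalize r[L] = s1 at *
      cases s0 with
      | E => exfalso; simp at l1; linarith
      | W => rfl
      | N => exfalso; simp at l1; linarith
      | S =>
        exfalso
        cases s1 with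
        | E => exact hlast rfl
        | W => simp at l2; linarith
        | N => exact h1L (by simp)
        | S => simp at l2; linarith
    have hru : St.W :: r.drop 1 = r := by
      have h1 := List.drop_eq_getElem_cons h0r
      rw [List.drop_zero, hfirst] at h1
      exact h1.symm
    have hld1 : (r.drop 1).length = L := by rw [List.length_drop]; omega
    have hd := hdr.1
    have hd2 := hdr.2
    rw [← hru, dx_cons] at hd
    rw [← hru, dy_cons] at hd2
    simp only [St.x_W, St.y_W] at hd hd2
    have hp1 : path r 1 = (-1, 0) := by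
      have h1 := path_cons_succ St.W (r.drop 1) 0
      rw [hru, path_zero'] at h1
      rw [h1]
      simp
    have hpd : ∀ k, k ≤ L → path (r.drop 1) k = ((path r (k + 1)).1 + 1, (path r (k + 1)).2) := by
      intro k _
      have h1 := path_cons_succ St.W (r.drop 1) k
      rw [hru] at h1
      rw [h1]
      ext
      · simp
      · simp
    have hsd : Saw (r.drop 1) := by
      rw [saw_iff']
      intro i j hij hj
      rw [hld1] at hj
      rw [hpd i (by omega), hpd j hj]
      intro he
      obtain ⟨h1, h2⟩ := Prod.mk.inj he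
      have := hinj' (i + 1) (j + 1) (by omega) (by omega) (by omega) (by omega)
        (Prod.ext (by omega) h2)
      omega
    refine ⟨(L - t, (false, rv (r.drop 1))), ?_, ?_⟩
    · rw [Finset.mem_product, Finset.mem_product, mem_fs, Finset.mem_range]
      refine ⟨by omega, Finset.mem_univ _, ⟨⟨saw_rv hsd, ?_, ?_⟩, ?_⟩, ?_⟩
      · simp only; rw [dx_rv]; omega
      · simp only; rw [dy_rv]; omega
      · intro k
        simp only
        rw [path_rv, hld1]
        rw [hpd (L - k) (by omega)]
        have e1 : hh α β ((path r (L - k + 1)).1 + 1 - dx (r.drop 1),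
            (path r (L - k + 1)).2 - dy (r.drop 1)) = hh α β (path r (L - k + 1)) := by
          have h1 : dx (r.drop 1) = 1 := by omega
          have h2 : dy (r.drop 1) = 0 := by omega
          rw [h1, h2]
          unfold hh; push_cast; ring
        simp only
        rw [e1]
        exact hlow _ (by omega)
      · simp only
        rw [length_rv, hld1]
    · simp only [Bool.false_eq_true, if_false]
      rw [rv_rv, hru, dec]

theorem one_le_laH_one (hα : 0 < α) : 1 ≤ laH α β 1 (-1) 0 := by
  unfold laH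
  rw [Nat.succ_le_iff, Finset.card_pos]
  refine ⟨[St.W], mem_fs.2 ⟨⟨⟨?_, by simp, by simp⟩, ?_⟩, by simp⟩⟩
  · rw [saw_iff']
    intro i j hij hj
    simp only [List.length_cons, List.length_nil] at hj
    obtain rfl : j = 1 := by omega
    obtain rfl : i = 0 := by omega
    simp [path]
  · intro k
    rcases Nat.eq_zero_or_pos k with h | h
    · subst h; simp [path, hh]
    · rw [path_ge (by simp; omega)]; simp [path, hh]; linarith

theorem ar_le_a (L : ℕ) : ar L ≤ a L (-1) 0 := by
  rw [a_sg]
  unfold ar a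
  apply Finset.card_le_card
  intro w hw
  rw [mem_fs] at hw ⊢
  exact ⟨⟨hw.1.1, hw.1.2.1, hw.1.2.2.1⟩, hw.2⟩

/-- enough loops -/
theorem hlowH (hα : 0 < α) (hβ : 0 < β) {n : ℕ} (hn : 2 ≤ n) {K : ℝ}
    (hlow : ∀ j : ℕ, 2 ≤ j → j ≤ n → mu ^ (2 * j) * q n (-K) ≤ ar (2 * j - 1)) :
    ∀ j : ℕ, 2 ≤ j → j ≤ n → mu ^ (2 * j) * q n (-(K + 9)) ≤ laH α β (2 * j - 1) (-1) 0 := by
  intro j hj hjn
  have h1 := hlow j hj hjn
  have h2 := ar_le_a (2 * j - 1)
  have h3 := T_lemma hα hβ (L := 2 * j - 1) (by omega)
  have h4 : (ar (2 * j - 1) : ℝ) ≤ (4 * j) * laH α β (2 * j - 1) (-1) 0 := by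
    have h5 : ar (2 * j - 1) ≤ (2 * j - 1 + 1) * (2 * laH α β (2 * j - 1) (-1) 0) := h2.trans h3
    rw [show 2 * j - 1 + 1 = 2 * j by omega] at h5
    have h6 : (ar (2 * j - 1) : ℝ) ≤ (2 * j) * (2 * laH α β (2 * j - 1) (-1) 0) := by
      exact_mod_cast h5
    linarith
  have hA : (0 : ℝ) ≤ laH α β (2 * j - 1) (-1) 0 := Nat.cast_nonneg _
  have hn0 : (2 : ℝ) ≤ n := by exact_mod_cast hn
  have h5 : (4 * j : ℝ) ≤ q n 9 := by
    have h7 := pow_le_q hn 3
    norm_num at h7
    refine le_trans ?_ h7
    have h8 : (j : ℝ) ≤ n := by exact_mod_cast hjn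
    nlinarith [sq_nonneg ((n : ℝ) - 2), mul_nonneg (by linarith : (0 : ℝ) ≤ (n : ℝ) - 2)
      (by positivity : (0 : ℝ) ≤ (n : ℝ))]
  have h6 : mu ^ (2 * j) * q n (-K) ≤ q n 9 * laH α β (2 * j - 1) (-1) 0 :=
    (h1.trans h4).trans (mul_le_mul_of_nonneg_right h5 hA)
  have h7 : q n (-(K + 9)) = q n (-K) * q n (-9) := by rw [q_mul]; congr 1; ring
  have h8 : q n 9 * q n (-9) = 1 := q_cancel n 9
  calc mu ^ (2 * j) * q n (-(K + 9)) = (mu ^ (2 * j) * q n (-K)) * q n (-9) := by
        rw [h7]; ring
    _ ≤ (q n 9 * laH α β (2 * j - 1) (-1) 0) * q n (-9) :=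
        mul_le_mul_of_nonneg_right h6 (q_pos _ _).le
    _ = (q n 9 * q n (-9)) * laH α β (2 * j - 1) (-1) 0 := by ring
    _ = _ := by rw [h8, one_mul]

theorem lb_lengthenH (hα : 0 < α) (hαβ : α < β) {n : ℕ} (hn : 2 ≤ n) {K : ℝ} (hK0 : 0 ≤ K)
    (hlow : ∀ j : ℕ, 2 ≤ j → j ≤ n → mu ^ (2 * j) * q n (-K) ≤ laH α β (2 * j - 1) (-1) 0)
    {m j : ℕ} (hmn : m + 2 * j ≤ n) (x y : ℤ) :
    (lbH α β m x y : ℝ) * mu ^ (2 * j) ≤ q n (K + 21) * laH α β (m + 2 * j) x y := by
  have hmu := mu_pos
  have hn0 : (2 : ℝ) ≤ n := by exact_mod_cast hn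
  have hmn' : (m : ℝ) ≤ n := by exact_mod_cast (by omega : m ≤ n)
  rcases Nat.eq_zero_or_pos j with h0 | h0
  · subst h0
    simp only [mul_zero, pow_zero, mul_one, add_zero]
    have h1 := one_le_q hn (by linarith : (0 : ℝ) ≤ K + 21)
    have h2 : (lbH α β m x y : ℝ) ≤ laH α β m x y := by exact_mod_cast lb_le_laH m x y
    have h3 : (0 : ℝ) ≤ laH α β m x y := Nat.cast_nonneg _
    nlinarith
  · rcases Nat.lt_or_ge j 2 with h1 | h1
    · obtain rfl : j = 1 := by omega
      have h2 := lb_mul_laH hαβ m 1 x y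
      have h3 := one_le_laH_one (β := β) hα
      have h4 : (lbH α β m x y : ℝ) ≤ m * laH α β (m + 2) x y := by
        have : lbH α β m x y ≤ m * laH α β (m + 2) x y := by
          calc lbH α β m x y = lbH α β m x y * 1 := (mul_one _).symm
            _ ≤ lbH α β m x y * laH α β 1 (-1) 0 := Nat.mul_le_mul_left _ h3
            _ ≤ _ := h2
        exact_mod_cast this
      have h5 : mu ^ 2 ≤ 16 := by
        have := mu_le_four
        nlinarith
      have h6 : (n : ℝ) ^ 7 ≤ q n (K + 21) := by
        have h7 := pow_le_q hn 7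
        norm_num at h7
        exact h7.trans (q_mono hn (by linarith))
      have hA : (0 : ℝ) ≤ laH α β (m + 2) x y := Nat.cast_nonneg _
      have h8 : (16 : ℝ) * m ≤ (n : ℝ) ^ 7 := by
        have h9 : (16 : ℝ) ≤ (n : ℝ) ^ 6 := by
          calc (16 : ℝ) ≤ 2 ^ 6 := by norm_num
            _ ≤ (n : ℝ) ^ 6 := pow_le_pow_left₀ (by norm_num) hn0 6
        calc (16 : ℝ) * m ≤ (n : ℝ) ^ 6 * n := mul_le_mul h9 hmn' (Nat.cast_nonneg _) (by positivity)
          _ = (n : ℝ) ^ 7 := by ring
      calc (lbH α β m x y : ℝ) * mu ^ (2 * 1) ≤ (m * laH α β (m + 2) x y) * 16 := by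
            rw [mul_one]
            exact mul_le_mul h4 h5 (by positivity) (by positivity)
        _ = (16 * m) * laH α β (m + 2) x y := by ring
        _ ≤ q n (K + 21) * laH α β (m + 2) x y := mul_le_mul_of_nonneg_right (h8.trans h6) hA
        _ = _ := by norm_num
    · have h2 := hlow j h1 (by omega)
      have h3 := lb_mul_laH hαβ m (2 * j - 1) x y
      rw [show m + (2 * j - 1) + 1 = m + 2 * j by omega] at h3
      have h4 : (lbH α β m x y : ℝ) * laH α β (2 * j - 1) (-1) 0 ≤ m * laH α β (m + 2 * j) x y := by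
        exact_mod_cast h3
      have hA : (0 : ℝ) ≤ laH α β (m + 2 * j) x y := Nat.cast_nonneg _
      have hA' : (0 : ℝ) ≤ lbH α β m x y := Nat.cast_nonneg _
      have hq := q_pos n K
      have h5 : (lbH α β m x y : ℝ) * (mu ^ (2 * j) * q n (-K)) ≤ m * laH α β (m + 2 * j) x y :=
        (mul_le_mul_of_nonneg_left h2 hA').trans h4
      have h6 : (m : ℝ) ≤ q n 9 := by
        have h7 := pow_le_q hn 3
        norm_num at h7
        refine le_trans ?_ h7
        nlinarith [sq_nonneg ((n : ℝ) - 1)]
      calc (lbH α β m x y : ℝ) * mu ^ (2 * j)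
          = ((lbH α β m x y : ℝ) * (mu ^ (2 * j) * q n (-K))) * q n K := by
            rw [show (lbH α β m x y : ℝ) * (mu ^ (2 * j) * q n (-K)) * q n K =
              (lbH α β m x y : ℝ) * mu ^ (2 * j) * (q n K * q n (-K)) by ring, q_cancel, mul_one]
        _ ≤ (m * laH α β (m + 2 * j) x y) * q n K := mul_le_mul_of_nonneg_right h5 hq.le
        _ ≤ (q n 9 * laH α β (m + 2 * j) x y) * q n K := by gcongr
        _ = (q n K * q n 9) * laH α β (m + 2 * j) x y := by ring
        _ = q n (K + 9) * laH α β (m + 2 * j) x y := by rw [q_mul]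
        _ ≤ _ := mul_le_mul_of_nonneg_right (q_mono hn (by linarith)) hA

theorem straight_card (m : ℕ) :
    (fs (fun w => Saw w ∧ dx w = 0 ∧ dy w = -(m : ℤ)) m).card ≤ 1 := by
  rw [Finset.card_le_one]
  have key : ∀ w ∈ fs (fun w => Saw w ∧ dx w = 0 ∧ dy w = -(m : ℤ)) m,
      w = List.replicate m St.S := by
    intro w hw
    rw [mem_fs] at hw
    obtain ⟨⟨-, -, h3⟩, h4⟩ := hw
    rw [List.eq_replicate_iff]
    refine ⟨h4, ?_⟩
    revert m
    induction w with
    | nil => intro m _ _ b hb; simp at hb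
    | cons s w ih =>
      intro m h4 h3 b hb
      rw [dy_cons] at h3
      rw [List.length_cons] at h4
      have h5 := abs_add_abs_le w
      have h6 := abs_nonneg (dx w)
      have h7 := neg_abs_le (dy w)
      have hsy : s = St.S := by
        cases s with
        | E => exfalso; rw [St.y_E] at h3; omega
        | W => exfalso; rw [St.y_W] at h3; omega
        | N => exfalso; rw [St.y_N] at h3; omega
        | S => rfl
      subst hsy
      rw [St.y_S] at h3
      rcases List.mem_cons.1 hb with hb | hb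
      · exact hb
      · exact ih (m - 1) (by omega) (by omega) b hb
  intro w hw w' hw'
  rw [key w hw, key w' hw']

theorem la_lengthenH (hα : 0 < α) (hαβ : α < β) {n : ℕ} (hn : 2 ≤ n) {K : ℝ} (hK0 : 0 ≤ K)
    (hlow : ∀ j : ℕ, 2 ≤ j → j ≤ n → mu ^ (2 * j) * q n (-K) ≤ laH α β (2 * j - 1) (-1) 0)
    {m j : ℕ} (hm : 1 ≤ m) (hmn : m + 2 * j ≤ n) (x y : ℤ) :
    (laH α β m x y : ℝ) * mu ^ (2 * j) ≤ q n (K + 42) * laH α β (m + 2 * j) x y := by
  have hβ : 0 < β := hα.trans hαβ
  have hmu := mu_pos
  have hn0 : (2 : ℝ) ≤ n := by exact_mod_cast hn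
  have hA : (0 : ℝ) ≤ laH α β (m + 2 * j) x y := Nat.cast_nonneg _
  have hQ21 : ∀ B : ℝ, 0 ≤ B → B ≤ (n : ℝ) ^ 7 → B * q n (K + 21) ≤ q n (K + 42) := by
    intro B hB hB'
    have h7 := pow_le_q hn 7
    norm_num at h7
    calc B * q n (K + 21) ≤ q n 21 * q n (K + 21) :=
          mul_le_mul_of_nonneg_right (hB'.trans h7) (q_pos _ _).le
      _ = q n (K + 42) := by rw [q_mul]; congr 1; ring
  by_cases hs : x = 0 ∧ y = -m
  · obtain ⟨rfl, rfl⟩ := hs
    rcases Nat.eq_zero_or_pos j with h0 | h0
    · subst h0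
      simp only [mul_zero, pow_zero, mul_one, add_zero] at hA ⊢
      have h1 := one_le_q hn (by linarith : (0 : ℝ) ≤ K + 42)
      nlinarith
    · have h1 : laH α β m 0 (-m) ≤ 1 := (laH_le_a m 0 (-m)).trans (straight_card m)
      have h2 := one_le_lbH hα hαβ hm
      have h3 := lb_lengthenH hα hαβ hn hK0 hlow (m := m + 2) (j := j - 1) (by omega) 0 (-(m : ℤ))
      rw [show m + 2 + 2 * (j - 1) = m + 2 * j by omega] at h3
      have h1' : (laH α β m 0 (-m) : ℝ) ≤ 1 := by exact_mod_cast h1
      have h2' : (1 : ℝ) ≤ lbH α β (m + 2) 0 (-m) := by exact_mod_cast h2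
      have h5 : mu ^ 2 ≤ 16 := by
        have := mu_le_four
        nlinarith
      have e : mu ^ (2 * j) = mu ^ 2 * mu ^ (2 * (j - 1)) := by
        rw [← pow_add]; congr 1; omega
      have hp : 0 < mu ^ (2 * (j - 1)) := pow_pos hmu _
      have h16 : (16 : ℝ) ≤ (n : ℝ) ^ 7 := by
        calc (16 : ℝ) ≤ 2 ^ 7 := by norm_num
          _ ≤ _ := pow_le_pow_left₀ (by norm_num) hn0 7
      calc (laH α β m 0 (-m) : ℝ) * mu ^ (2 * j) ≤ 1 * (16 * mu ^ (2 * (j - 1))) := by
            rw [e]
            exact mul_le_mul h1' (mul_le_mul_of_nonneg_right h5 hp.le) (by positivity) (by norm_num)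
        _ ≤ 16 * (lbH α β (m + 2) 0 (-m) * mu ^ (2 * (j - 1))) := by nlinarith
        _ ≤ 16 * (q n (K + 21) * laH α β (m + 2 * j) 0 (-m)) := by linarith
        _ = (16 * q n (K + 21)) * laH α β (m + 2 * j) 0 (-m) := by ring
        _ ≤ _ := mul_le_mul_of_nonneg_right (hQ21 16 (by norm_num) h16) hA
  · have h1 := la_le_lbH hα hβ m hs
    have h1' : (laH α β m x y : ℝ) ≤ (m + 1) * lbH α β m x y := by exact_mod_cast h1
    have h3 := lb_lengthenH hα hαβ hn hK0 hlow hmn x y
    have hp : 0 < mu ^ (2 * j) := pow_pos hmu _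
    have hm7 : (m : ℝ) + 1 ≤ (n : ℝ) ^ 7 := by
      have h4 : (m : ℝ) ≤ n := by exact_mod_cast (by omega : m ≤ n)
      have h5 : (1 : ℝ) ≤ (n : ℝ) ^ 6 := one_le_pow₀ (by linarith)
      have h6 : (2 : ℝ) ≤ (n : ℝ) ^ 6 := by
        calc (2 : ℝ) ≤ 2 ^ 6 := by norm_num
          _ ≤ _ := pow_le_pow_left₀ (by norm_num) hn0 6
      calc (m : ℝ) + 1 ≤ 2 * n := by linarith
        _ ≤ (n : ℝ) ^ 6 * n := mul_le_mul_of_nonneg_right h6 (by linarith)
        _ = _ := by ring
    calc (laH α β m x y : ℝ) * mu ^ (2 * j) ≤ ((m + 1) * lbH α β m x y) * mu ^ (2 * j) :=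
          mul_le_mul_of_nonneg_right h1' hp.le
      _ = (m + 1) * (lbH α β m x y * mu ^ (2 * j)) := by ring
      _ ≤ (m + 1) * (q n (K + 21) * laH α β (m + 2 * j) x y) :=
          mul_le_mul_of_nonneg_left h3 (by positivity)
      _ = ((m + 1) * q n (K + 21)) * laH α β (m + 2 * j) x y := by ring
      _ ≤ _ := mul_le_mul_of_nonneg_right (hQ21 _ (by positivity) hm7) hA

end Pool.Agent.U262.SW
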