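import Pool.Agent.U262.SW.C

/-!
Self-avoiding words in a half plane of any direction are as numerous as all words with the same
ends, up to a quasi-polynomial factor.
-/

set_option autoImplicit false

namespace Pool.Agent.U262.SW

open Pool.Agent.TH795.EP Pool.Agent.TH795.EP2 Pool.Agent.TH795.SE2 Pool.Agent.TH262.SawL H981 Finset
open Pool.Agent.Y981.L2 (path_ge path_zero' disp_reps one_le_q)

/-- **Walks in a half plane are as numerous as walks with the same ends**, up to a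
quasi-polynomial factor. -/
theorem a_le_laH0 : ∃ K : ℝ, 0 ≤ K ∧ ∀ n : ℕ, 2 ≤ n → ∀ m ≤ n, ∀ α β : ℝ, 0 < α → α < β →
    ∀ x y : ℤ, hh α β (x, y) ≤ 0 →
    (x, y) ≠ (0, 0) → (a m x y : ℝ) ≤ q n K * laH α β m x y := by
  obtain ⟨K, hK0, hup, hlow⟩ := exists_K
  refine ⟨3 * K + 75, by positivity, ?_⟩
  intro n hn m hm α β hα hαβ x y hy hz
  have hlow' := hlowH hα (hα.trans hαβ) hn (hlow n hn)
  have hmu := mu_pos
  rcases Nat.eq_zero_or_pos (a m x y) with h1 | h1
  · rw [h1]
    have := q_pos n (3 * K + 75)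
    simp only [Nat.cast_zero]
    positivity
  obtain ⟨w1, hw1, hx1, hy1, hl1⟩ := exists_of_a h1
  have p1 := parity w1
  have hcard : (a m x y : ℝ) ≤
      ∑ p ∈ (range (m + 1)).sigma (fun t => range (m - t + 1) ×ˢ range (t + 1)),
      (laH α β (p.2.1 + (p.1 - p.2.2)) x y : ℝ) * (c (m - p.1 - p.2.1) * c p.2.2) := by
    exact_mod_cast cyc_cardH m hy
  have hA : (0 : ℝ) ≤ laH α β m x y := Nat.cast_nonneg _
  have hterm : ∀ p ∈ (range (m + 1)).sigma (fun t => range (m - t + 1) ×ˢ range (t + 1)),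
      (laH α β (p.2.1 + (p.1 - p.2.2)) x y : ℝ) * (c (m - p.1 - p.2.1) * c p.2.2) ≤
        q n (3 * K + 51) * laH α β m x y := by
    intro p hp
    rw [Finset.mem_sigma, Finset.mem_product, Finset.mem_range, Finset.mem_range,
      Finset.mem_range] at hp
    obtain ⟨ht, hp1, hp2⟩ := hp
    rcases Nat.eq_zero_or_pos (laH α β (p.2.1 + (p.1 - p.2.2)) x y) with h3 | h3
    · rw [h3]
      have := q_pos n (3 * K + 51)
      simp only [Nat.cast_zero, zero_mul]
      positivity
    obtain ⟨w3, hw3, hx3, hy3, hl3⟩ := exists_of_laH h3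
    have p3 := parity w3
    have hm1 : 1 ≤ p.2.1 + (p.1 - p.2.2) := by
      by_contra hcon
      have : w3 = [] := List.length_eq_zero_iff.1 (by omega)
      subst this
      apply hz
      rw [← hx3, ← hy3]
      rfl
    obtain ⟨j, hj⟩ : ∃ j : ℕ, (m - p.1 - p.2.1) + p.2.2 = 2 * j := by
      refine ⟨((m - p.1 - p.2.1) + p.2.2) / 2, ?_⟩
      omega
    have e1 : (p.2.1 + (p.1 - p.2.2)) + 2 * j = m := by omega
    have e2 := hup n hn (m - p.1 - p.2.1) (by omega)
    have e3 := hup n hn p.2.2 (by omega)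
    have e4 := la_lengthenH hα hαβ hn (by linarith : (0:ℝ) ≤ K + 9) hlow' hm1
      (by omega : (p.2.1 + (p.1 - p.2.2)) + 2 * j ≤ n) x y
    rw [e1] at e4
    have g2 := q_pos n K
    calc (laH α β (p.2.1 + (p.1 - p.2.2)) x y : ℝ) * (c (m - p.1 - p.2.1) * c p.2.2)
        ≤ (laH α β (p.2.1 + (p.1 - p.2.2)) x y : ℝ) *
          ((mu ^ (m - p.1 - p.2.1) * q n K) * (mu ^ p.2.2 * q n K)) := by
          gcongr
      _ = ((laH α β (p.2.1 + (p.1 - p.2.2)) x y : ℝ) * (mu ^ (m - p.1 - p.2.1) * mu ^ p.2.2)) *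
          (q n K * q n K) := by ring
      _ = ((laH α β (p.2.1 + (p.1 - p.2.2)) x y : ℝ) * mu ^ (2 * j)) * q n (K + K) := by
          rw [← pow_add, hj, q_mul]
      _ ≤ (q n (K + 9 + 42) * laH α β m x y) * q n (K + K) :=
          mul_le_mul_of_nonneg_right e4 (q_pos _ _).le
      _ = (q n (K + 9 + 42) * q n (K + K)) * laH α β m x y := by ring
      _ = _ := by rw [q_mul]; congr 2; ring
  have hsum := Finset.sum_le_card_nsmul _ _ _ hterm
  have hcardS : ((range (m + 1)).sigma (fun t => range (m - t + 1) ×ˢ range (t + 1))).card ≤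
      n ^ 6 := by
    rw [Finset.card_sigma]
    have h1 : ∀ t ∈ range (m + 1), (range (m - t + 1) ×ˢ range (t + 1)).card ≤ (n + 1) * (n + 1) := by
      intro t ht
      rw [Finset.mem_range] at ht
      rw [Finset.card_product, Finset.card_range, Finset.card_range]
      exact Nat.mul_le_mul (by omega) (by omega)
    refine (Finset.sum_le_card_nsmul _ _ _ h1).trans ?_
    rw [Finset.card_range, smul_eq_mul]
    have h2 : n + 1 ≤ n ^ 2 := by nlinarith
    calc (m + 1) * ((n + 1) * (n + 1)) ≤ n ^ 2 * (n ^ 2 * n ^ 2) :=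
          Nat.mul_le_mul (by omega) (Nat.mul_le_mul h2 h2)
      _ = n ^ 6 := by ring
  rw [nsmul_eq_mul] at hsum
  have hnum : ((((range (m + 1)).sigma (fun t => range (m - t + 1) ×ˢ range (t + 1))).card : ℕ) : ℝ)
      ≤ q n 18 := by
    have h3 := pow_le_q hn 6
    norm_num at h3
    refine le_trans ?_ h3
    exact_mod_cast hcardS
  have hQ := q_pos n (3 * K + 51)
  calc (a m x y : ℝ) ≤ _ := hcard.trans hsum
    _ ≤ q n 18 * (q n (3 * K + 51) * laH α β m x y) :=
        mul_le_mul_of_nonneg_right hnum (by positivity)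
    _ = (q n 18 * q n (3 * K + 51)) * laH α β m x y := by ring
    _ = q n (18 + (3 * K + 51)) * laH α β m x y := by rw [q_mul]
    _ ≤ _ := mul_le_mul_of_nonneg_right (q_mono hn (by linarith)) hA


variable {α β : ℝ}

/-! ### symmetries -/

theorem path_sg' (w : List St) (k : ℕ) : path (sg w) k = (-(path w k).1, (path w k).2) := by
  unfold path sg
  rw [← List.map_take]
  exact Prod.ext (dx_sg _) (dy_sg _)

theorem path_ng' (w : List St) (k : ℕ) : path (ng w) k = ((path w k).1, -(path w k).2) := by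
  unfold path ng
  rw [← List.map_take]
  exact Prod.ext (dx_ng _) (dy_ng _)

theorem path_sw' (w : List St) (k : ℕ) : path (sw w) k = ((path w k).2, (path w k).1) := by
  unfold path sw
  rw [← List.map_take]
  exact Prod.ext (dx_sw _) (dy_sw _)

theorem laH_sg_le (m : ℕ) (x y : ℤ) : laH α β m x y ≤ laH (-α) β m (-x) y := by
  unfold laH
  apply card_le_of_decode sg
  intro w hw
  rw [mem_fs] at hw
  obtain ⟨⟨⟨h1, h2, h3⟩, h4⟩, h5⟩ := hw
  refine ⟨sg w, mem_fs.2 ⟨⟨⟨h1.sg, by rw [dx_sg, h2], by rw [dy_sg, h3]⟩, fun k => ?_⟩,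
    by rw [length_sg, h5]⟩, sg_sg w⟩
  rw [path_sg']
  have := h4 k
  unfold hh at this ⊢
  push_cast
  linarith

theorem laH_ng_le (m : ℕ) (x y : ℤ) : laH α β m x y ≤ laH α (-β) m x (-y) := by
  unfold laH
  apply card_le_of_decode ng
  intro w hw
  rw [mem_fs] at hw
  obtain ⟨⟨⟨h1, h2, h3⟩, h4⟩, h5⟩ := hw
  refine ⟨ng w, mem_fs.2 ⟨⟨⟨h1.ng, by rw [dx_ng, h2], by rw [dy_ng, h3]⟩, fun k => ?_⟩,
    by rw [length_ng, h5]⟩, ng_ng w⟩
  rw [path_ng']
  have := h4 k
  unfold hh at this ⊢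
  push_cast
  linarith

theorem laH_sw_le (m : ℕ) (x y : ℤ) : laH α β m x y ≤ laH β α m y x := by
  unfold laH
  apply card_le_of_decode sw
  intro w hw
  rw [mem_fs] at hw
  obtain ⟨⟨⟨h1, h2, h3⟩, h4⟩, h5⟩ := hw
  refine ⟨sw w, mem_fs.2 ⟨⟨⟨saw_sw h1, by rw [dx_sw, h3], by rw [dy_sw, h2]⟩, fun k => ?_⟩,
    by rw [length_sw, h5]⟩, sw_sw w⟩
  rw [path_sw']
  have := h4 k
  unfold hh at this ⊢
  push_cast
  linarith

/-- the inequality for given parameters -/
def Good (K : ℝ) (n m : ℕ) (α β : ℝ) : Prop :=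
  ∀ x y : ℤ, hh α β (x, y) ≤ 0 → (x, y) ≠ (0, 0) → (a m x y : ℝ) ≤ q n K * laH α β m x y

theorem Good.sg {K : ℝ} {n m : ℕ} (h : Good K n m α β) : Good K n m (-α) β := by
  intro x y hxy hz
  have h1 := h (-x) y (by unfold hh at hxy ⊢; push_cast at hxy ⊢; linarith)
    (by intro he; apply hz; obtain ⟨e1, e2⟩ := Prod.mk.inj he; exact Prod.ext (by omega) e2)
  rw [a_sg] at h1
  have h2 := laH_sg_le (α := α) (β := β) m (-x) y
  rw [neg_neg] at h2
  refine h1.trans (mul_le_mul_of_nonneg_left ?_ (q_pos _ _).le)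
  exact_mod_cast h2

theorem Good.ng {K : ℝ} {n m : ℕ} (h : Good K n m α β) : Good K n m α (-β) := by
  intro x y hxy hz
  have h1 := h x (-y) (by unfold hh at hxy ⊢; push_cast at hxy ⊢; linarith)
    (by intro he; apply hz; obtain ⟨e1, e2⟩ := Prod.mk.inj he; exact Prod.ext e1 (by omega))
  rw [a_ng] at h1
  have h2 := laH_ng_le (α := α) (β := β) m x (-y)
  rw [neg_neg] at h2
  refine h1.trans (mul_le_mul_of_nonneg_left ?_ (q_pos _ _).le)
  exact_mod_cast h2

theorem Good.sw {K : ℝ} {n m : ℕ} (h : Good K n m α β) : Good K n m β α := by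
  intro x y hxy hz
  have h1 := h y x (by unfold hh at hxy ⊢; push_cast at hxy ⊢; linarith)
    (by intro he; apply hz; obtain ⟨e1, e2⟩ := Prod.mk.inj he; exact Prod.ext e2 e1)
  rw [a_sw] at h1
  have h2 := laH_sw_le (α := α) (β := β) m y x
  refine h1.trans (mul_le_mul_of_nonneg_left ?_ (q_pos _ _).le)
  exact_mod_cast h2

theorem good_gen {K : ℝ} {n m : ℕ} (h0 : ∀ α β : ℝ, 0 < α → α < β → Good K n m α β)
    (hα : α ≠ 0) (hβ : β ≠ 0) (h1 : α ≠ β) (h2 : α ≠ -β) : Good K n m α β := by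
  have p1 : ∀ α β : ℝ, 0 < α → 0 < β → α ≠ β → Good K n m α β := by
    intro α β ha hb hab
    rcases lt_or_gt_of_ne hab with h | h
    · exact h0 α β ha h
    · exact (h0 β α hb h).sw
  have p2 : ∀ α β : ℝ, α ≠ 0 → 0 < β → α ≠ β → α ≠ -β → Good K n m α β := by
    intro α β ha hb hab hab'
    rcases lt_or_gt_of_ne ha with h | h
    · have := (p1 (-α) β (by linarith) hb (by intro he; apply hab'; linarith)).sg
      rwa [neg_neg] at this
    · exact p1 α β h hb hab
  rcases lt_or_gt_of_ne hβ with h | h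
  · have := (p2 α (-β) hα (by linarith) h2 (by rw [neg_neg]; exact h1)).ng
    rwa [neg_neg] at this
  · exact p2 α β hα h h1 h2

/-! ### perturbation of the direction -/

open Filter Topology in
theorem lin_ne {A B : ℝ} (h : A ≠ 0 ∨ B ≠ 0) : ∀ᶠ ε in 𝓝[>] (0 : ℝ), A + ε * B ≠ 0 := by
  by_cases hA : A = 0
  · subst hA
    have hB : B ≠ 0 := by
      rcases h with h | h
      · exact absurd rfl h
      · exact h
    filter_upwards [self_mem_nhdsWithin] with ε hε
    rw [zero_add]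
    exact mul_ne_zero (ne_of_gt hε) hB
  · have hc : Tendsto (fun ε : ℝ => A + ε * B) (𝓝[>] 0) (𝓝 (A + 0 * B)) := by
      apply Tendsto.mono_left _ nhdsWithin_le_nhds
      exact (continuous_const.add (continuous_id.mul continuous_const)).tendsto 0
    rw [zero_mul, add_zero] at hc
    exact hc.eventually_ne hA

open Filter Topology in
theorem lin_pos {A B : ℝ} (h : 0 < A) : ∀ᶠ ε in 𝓝[>] (0 : ℝ), 0 < A + ε * B := by
  have hc : Tendsto (fun ε : ℝ => A + ε * B) (𝓝[>] 0) (𝓝 (A + 0 * B)) := by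
    apply Tendsto.mono_left _ nhdsWithin_le_nhds
    exact (continuous_const.add (continuous_id.mul continuous_const)).tendsto 0
  rw [zero_mul, add_zero] at hc
  exact hc.eventually (lt_mem_nhds h)

open Filter Topology in
/-- a generic direction close to the given one -/
theorem exists_dir (hne : α ≠ 0 ∨ β ≠ 0) (m : ℕ) {x y : ℤ} (hxy : hh α β (x, y) ≤ 0) :
    ∃ α' β' : ℝ, α' ≠ 0 ∧ β' ≠ 0 ∧ α' ≠ β' ∧ α' ≠ -β' ∧ hh α' β' (x, y) ≤ 0 ∧
      ∀ p : ℤ × ℤ, |p.1| ≤ m → |p.2| ≤ m → hh α' β' p ≤ 0 → hh α β p ≤ 0 := by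
  obtain ⟨s, hs, hs2⟩ : ∃ s : ℝ, s ≠ 0 ∧ s * (-β * x + α * y) ≤ 0 := by
    rcases le_total (-β * x + α * y) 0 with h | h
    · exact ⟨1, one_ne_zero, by linarith⟩
    · exact ⟨-1, by norm_num, by linarith⟩
  have hsq : 0 < α ^ 2 + β ^ 2 := by
    rcases hne with h | h
    · have := sq_nonneg β; have := pow_pos (abs_pos.2 h) 2; rw [sq_abs] at this; linarith
    · have := sq_nonneg α; have := pow_pos (abs_pos.2 h) 2; rw [sq_abs] at this; linarith
  -- two quantities orthogonal to each other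
  have gen : ∀ A B : ℝ, A ^ 2 + (B / s) ^ 2 ≠ 0 → (A ≠ 0 ∨ B ≠ 0) := by
    intro A B h
    by_contra hcon
    push Not at hcon
    apply h
    rw [hcon.1, hcon.2]
    simp
  have e1 : ∀ᶠ ε in 𝓝[>] (0 : ℝ), α + ε * (-(s * β)) ≠ 0 := by
    apply lin_ne
    by_contra hcon
    push Not at hcon
    have h1 : β = 0 := by
      have := neg_eq_zero.1 hcon.2
      rcases mul_eq_zero.1 this with h | h
      · exact absurd h hs
      · exact h
    rw [hcon.1, h1] at hsq
    norm_num at hsq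
  have e2 : ∀ᶠ ε in 𝓝[>] (0 : ℝ), β + ε * (s * α) ≠ 0 := by
    apply lin_ne
    by_contra hcon
    push Not at hcon
    have h1 : α = 0 := by
      rcases mul_eq_zero.1 hcon.2 with h | h
      · exact absurd h hs
      · exact h
    rw [hcon.1, h1] at hsq
    norm_num at hsq
  have e3 : ∀ᶠ ε in 𝓝[>] (0 : ℝ), (α - β) + ε * (-(s * (α + β))) ≠ 0 := by
    apply lin_ne
    by_contra hcon
    push Not at hcon
    have h1 : α + β = 0 := by
      have := neg_eq_zero.1 hcon.2
      rcases mul_eq_zero.1 this with h | h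
      · exact absurd h hs
      · exact h
    have h2 : α = 0 := by linarith [hcon.1]
    have h3 : β = 0 := by linarith [hcon.1]
    rw [h2, h3] at hsq
    norm_num at hsq
  have e4 : ∀ᶠ ε in 𝓝[>] (0 : ℝ), (α + β) + ε * (s * (α - β)) ≠ 0 := by
    apply lin_ne
    by_contra hcon
    push Not at hcon
    have h1 : α - β = 0 := by
      rcases mul_eq_zero.1 hcon.2 with h | h
      · exact absurd h hs
      · exact h
    have h2 : α = 0 := by linarith [hcon.1]
    have h3 : β = 0 := by linarith [hcon.1]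
    rw [h2, h3] at hsq
    norm_num at hsq
  have e5 : ∀ᶠ ε in 𝓝[>] (0 : ℝ), ∀ p ∈ (Finset.Icc (-(m : ℤ)) m ×ˢ Finset.Icc (-(m : ℤ)) m),
      0 < hh α β p → 0 < hh α β p + ε * (s * (-β * p.1 + α * p.2)) := by
    rw [Finset.eventually_all]
    intro p _
    by_cases hp : 0 < hh α β p
    · filter_upwards [lin_pos (B := s * (-β * p.1 + α * p.2)) hp] with ε hε _
      exact hε
    · exact Eventually.of_forall fun ε h => absurd h hp
  obtain ⟨ε, h1, h2, h3, h4, h5, hε⟩ :=
    (e1.and (e2.and (e3.and (e4.and (e5.and self_mem_nhdsWithin))))).exists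
  have hε' : (0 : ℝ) < ε := hε
  refine ⟨α + ε * (-(s * β)), β + ε * (s * α), h1, h2, ?_, ?_, ?_, ?_⟩
  · intro he; apply h3; linarith
  · intro he; apply h4; linarith
  · have e : hh (α + ε * (-(s * β))) (β + ε * (s * α)) (x, y) =
        hh α β (x, y) + ε * (s * (-β * x + α * y)) := by
      unfold hh; ring
    rw [e]
    have := mul_nonneg_of_nonpos_of_nonpos (by linarith : -ε ≤ 0) hs2
    linarith
  · intro p hp1 hp2 hp
    by_contra hcon
    push Not at hcon
    have h6 := h5 p (by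
      rw [Finset.mem_product, Finset.mem_Icc, Finset.mem_Icc]
      exact ⟨abs_le.1 hp1, abs_le.1 hp2⟩) hcon
    have e : hh (α + ε * (-(s * β))) (β + ε * (s * α)) p =
        hh α β p + ε * (s * (-β * p.1 + α * p.2)) := by
      unfold hh; ring
    rw [e] at hp
    linarith

theorem path_box (w : List St) (k : ℕ) : |(path w k).1| ≤ w.length ∧ |(path w k).2| ≤ w.length := by
  have h1 := abs_add_abs_le (w.take k)
  have h2 : (w.take k).length ≤ w.length := by rw [List.length_take]; omega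
  have h3 := abs_nonneg (dx (w.take k))
  have h4 := abs_nonneg (dy (w.take k))
  unfold path
  constructor
  · simp only; omega
  · simp only; omega

/-- **Walks in a half plane of any direction are as numerous as walks with the same ends**, up to a
quasi-polynomial factor which does not depend on the direction. -/
theorem a_le_laH : ∃ K : ℝ, 0 ≤ K ∧ ∀ n : ℕ, 2 ≤ n → ∀ m ≤ n, ∀ α β : ℝ, (α ≠ 0 ∨ β ≠ 0) →
    ∀ x y : ℤ, α * x + β * y ≤ 0 → (x, y) ≠ (0, 0) →
    (a m x y : ℝ) ≤ q n K * laH α β m x y := by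
  obtain ⟨K, hK0, h⟩ := a_le_laH0
  refine ⟨K, hK0, ?_⟩
  intro n hn m hm α β hne x y hxy hz
  obtain ⟨α', β', h1, h2, h3, h4, h5, h6⟩ := exists_dir hne m (x := x) (y := y) hxy
  have g := good_gen (K := K) (n := n) (m := m)
    (fun α β ha hab x y hxy hz => h n hn m hm α β ha hab x y hxy hz) h1 h2 h3 h4 x y h5 hz
  refine g.trans (mul_le_mul_of_nonneg_left ?_ (q_pos _ _).le)
  have : laH α' β' m x y ≤ laH α β m x y := by
    unfold laH
    apply Finset.card_le_card
    intro w hw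
    rw [mem_fs] at hw ⊢
    obtain ⟨⟨hw1, hw2⟩, hwl⟩ := hw
    refine ⟨⟨hw1, fun k => ?_⟩, hwl⟩
    have hb := path_box w k
    rw [hwl] at hb
    exact h6 _ hb.1 hb.2 (hw2 k)
  exact_mod_cast this

end Pool.Agent.U262.SW
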