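import Pool.Agent.U262.SW.E

/-!
Shortest words strictly on one side of their chord.
-/

set_option autoImplicit false

namespace Pool.Agent.U262.SW

open Pool.Agent.TH795.EP Pool.Agent.TH795.EP2 Pool.Agent.TH795.SE2 Pool.Agent.TH262.SawL H981 Finset
open Pool.Agent.Y981.L2 (path_ge path_zero' disp_reps one_le_q)

variable {α β : ℝ}

/-- only right and up steps -/
def Mon (w : List St) : Prop := ∀ s ∈ w, s = St.E ∨ s = St.N

theorem sum_le (w : List St) : dx w + dy w ≤ w.length := by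
  have h1 := abs_add_abs_le w
  have h2 := le_abs_self (dx w)
  have h3 := le_abs_self (dy w)
  omega

theorem mon_of_eq {w : List St} (h : dx w + dy w = w.length) : Mon w := by
  induction w with
  | nil => intro s hs; simp at hs
  | cons s w ih =>
    rw [dx_cons, dy_cons, List.length_cons] at h
    have h1 := sum_le w
    push_cast at h
    have hs : s = St.E ∨ s = St.N := by
      cases s with
      | E => exact Or.inl rfl
      | N => exact Or.inr rfl
      | W => exfalso; rw [St.x_W, St.y_W] at h; omega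
      | S => exfalso; rw [St.x_S, St.y_S] at h; omega
    have h2 : s.x + s.y = 1 := by
      rcases hs with rfl | rfl
      · simp
      · simp
    intro t ht
    rcases List.mem_cons.1 ht with ht | ht
    · rw [ht]; exact hs
    · exact ih (by omega) t ht

theorem Mon.sub {w u : List St} (h : Mon w) (hu : ∀ s ∈ u, s ∈ w) : Mon u :=
  fun s hs => h s (hu s hs)

theorem Mon.nonneg {w : List St} (h : Mon w) : 0 ≤ dx w ∧ 0 ≤ dy w ∧ dx w + dy w = w.length := by
  induction w with
  | nil => simp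
  | cons s w ih =>
    obtain ⟨h1, h2, h3⟩ := ih (h.sub (fun t ht => List.mem_cons_of_mem _ ht))
    rw [dx_cons, dy_cons, List.length_cons]
    rcases h s List.mem_cons_self with rfl | rfl
    · rw [St.x_E, St.y_E]; push_cast; omega
    · rw [St.x_N, St.y_N]; push_cast; omega

theorem Mon.path {w : List St} (h : Mon w) (k : ℕ) :
    0 ≤ (H981.path w k).1 ∧ (H981.path w k).1 ≤ dx w ∧ 0 ≤ (H981.path w k).2 ∧ (H981.path w k).2 ≤ dy w := by
  have h1 := (h.sub (u := w.take k) (fun t ht => List.mem_of_mem_take ht)).nonneg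
  have h2 := (h.sub (u := w.drop k) (fun t ht => List.mem_of_mem_drop ht)).nonneg
  have f1 : dx w = dx (w.take k) + dx (w.drop k) := by rw [← dx_append, List.take_append_drop]
  have f2 : dy w = dy (w.take k) + dy (w.drop k) := by rw [← dy_append, List.take_append_drop]
  unfold H981.path
  simp only
  omega

theorem Mon.saw {w : List St} (h : Mon w) : Saw w := by
  rw [saw_iff']
  intro i j hij hj he
  have h1 := (h.sub (u := w.take i) (fun t ht => List.mem_of_mem_take ht)).nonneg.2.2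
  have h2 := (h.sub (u := w.take j) (fun t ht => List.mem_of_mem_take ht)).nonneg.2.2
  rw [List.length_take, min_eq_left (by omega)] at h1 h2
  unfold H981.path at he
  obtain ⟨e1, e2⟩ := Prod.mk.inj he
  omega

/-- two consecutive different steps -/
theorem exists_turn {w : List St} (h : Mon w) (hx : 1 ≤ dx w) (hy : 1 ≤ dy w) :
    ∃ u v, w = u ++ (St.E :: St.N :: v) ∨ w = u ++ (St.N :: St.E :: v) := by
  induction w with
  | nil => simp at hx
  | cons s w ih =>
    cases w with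
    | nil =>
      exfalso
      rw [dx_cons, dx_nil] at hx
      rw [dy_cons, dy_nil] at hy
      cases s <;> simp at hx hy
    | cons t w =>
      have hm : Mon (t :: w) := h.sub (fun t ht => List.mem_cons_of_mem _ ht)
      have hw := (hm.sub (u := w) (fun t ht => List.mem_cons_of_mem _ ht)).nonneg
      rcases h s List.mem_cons_self with rfl | rfl <;> rcases hm t List.mem_cons_self with rfl | rfl
      · obtain ⟨u, v, huv⟩ := ih hm (by rw [dx_cons, St.x_E]; omega)
          (by rw [dy_cons, St.y_E] at hy; omega)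
        rcases huv with huv | huv
        · exact ⟨St.E :: u, v, Or.inl (by rw [huv]; rfl)⟩
        · exact ⟨St.E :: u, v, Or.inr (by rw [huv]; rfl)⟩
      · exact ⟨[], w, Or.inl rfl⟩
      · exact ⟨[], w, Or.inr rfl⟩
      · obtain ⟨u, v, huv⟩ := ih hm (by rw [dx_cons, St.x_N] at hx; omega)
          (by rw [dy_cons, St.y_N]; omega)
        rcases huv with huv | huv
        · exact ⟨St.N :: u, v, Or.inl (by rw [huv]; rfl)⟩
        · exact ⟨St.N :: u, v, Or.inr (by rw [huv]; rfl)⟩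

theorem a_del {m : ℕ} {x y : ℤ} (hx : 1 ≤ x) (hy : 1 ≤ y) (hm : x + y = m) :
    a m x y ≤ (m + 1) * (2 * a (m - 2) (x - 1) (y - 1)) := by
  classical
  unfold a
  have e : (m + 1) * (2 * (fs (fun w => Saw w ∧ dx w = x - 1 ∧ dy w = y - 1) (m - 2)).card) =
      (range (m + 1) ×ˢ ((univ : Finset Bool) ×ˢ
        fs (fun w => Saw w ∧ dx w = x - 1 ∧ dy w = y - 1) (m - 2))).card := by
    rw [Finset.card_product, Finset.card_product, Finset.card_range, Finset.card_univ,
      Fintype.card_bool]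
  rw [e]
  apply card_le_of_decode (fun q => q.2.2.take q.1 ++
    ((if q.2.1 = true then [St.E, St.N] else [St.N, St.E]) ++ q.2.2.drop q.1))
  intro w hw
  rw [mem_fs] at hw
  obtain ⟨⟨hw, hwx, hwy⟩, hwl⟩ := hw
  have hmon : Mon w := mon_of_eq (by rw [hwx, hwy, hwl]; exact hm)
  obtain ⟨u, v, huv⟩ := exists_turn hmon (by omega) (by omega)
  have hsub : Mon (u ++ v) := by
    apply hmon.sub
    intro s hs
    rcases huv with huv | huv <;> rw [huv] <;>
    · rcases List.mem_append.1 hs with h | h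
      · exact List.mem_append_left _ h
      · exact List.mem_append_right _ (List.mem_cons_of_mem _ (List.mem_cons_of_mem _ h))
  have hnn := hsub.nonneg
  have hlen : (u ++ v).length = m - 2 ∧ dx (u ++ v) = x - 1 ∧ dy (u ++ v) = y - 1 ∧
      u.length ≤ m := by
    rcases huv with huv | huv <;>
    · rw [huv] at hwl hwx hwy
      rw [List.length_append, List.length_cons, List.length_cons] at hwl
      rw [dx_append, dx_cons, dx_cons] at hwx
      rw [dy_append, dy_cons, dy_cons] at hwy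
      simp only [St.x_E, St.x_N, St.y_E, St.y_N] at hwx hwy
      rw [List.length_append, dx_append, dy_append]
      omega
  have ht : (u ++ v).take u.length = u := List.take_left
  have hd : (u ++ v).drop u.length = v := List.drop_left
  rcases huv with huv | huv
  · refine ⟨(u.length, (true, u ++ v)), ?_, ?_⟩
    · rw [Finset.mem_product, Finset.mem_product, mem_fs, Finset.mem_range]
      exact ⟨by simp only; omega, Finset.mem_univ _, ⟨hsub.saw, hlen.2.1, hlen.2.2.1⟩, hlen.1⟩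
    · simp only [if_true]
      rw [ht, hd, huv]
      rfl
  · refine ⟨(u.length, (false, u ++ v)), ?_, ?_⟩
    · rw [Finset.mem_product, Finset.mem_product, mem_fs, Finset.mem_range]
      exact ⟨by simp only; omega, Finset.mem_univ _, ⟨hsub.saw, hlen.2.1, hlen.2.2.1⟩, hlen.1⟩
    · simp only [Bool.false_eq_true, if_false]
      rw [ht, hd, huv]
      rfl

/-- first step `E`, last step `N`, and the rest below its chord -/
theorem la_le_ss_mon {m : ℕ} {x y : ℤ} (hx : 1 ≤ x) (hy : 1 ≤ y) (hm : x + y = m) :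
    laH (-((y : ℝ) - 1)) ((x : ℝ) - 1) (m - 2) (x - 1) (y - 1) ≤ ssH (-(y : ℝ)) (x : ℝ) m x y := by
  unfold laH ssH
  apply card_le_of_decode (fun v => (v.drop 1).take (m - 2))
  intro w hw
  rw [mem_fs] at hw
  obtain ⟨⟨⟨h1, h2, h3⟩, h4⟩, h5⟩ := hw
  have hmon : Mon w := mon_of_eq (by rw [h2, h3, h5]; omega)
  obtain ⟨v, hv⟩ : ∃ v, v = St.E :: (w ++ [St.N]) := ⟨_, rfl⟩
  have hvl : v.length = m := by
    rw [hv, List.length_cons, List.length_append, h5]; simp only [List.length_cons, List.length_nil]; omega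
  have hvm : Mon v := by
    intro s hs
    rw [hv] at hs
    rcases List.mem_cons.1 hs with hs | hs
    · exact Or.inl hs
    · rcases List.mem_append.1 hs with hs | hs
      · exact hmon s hs
      · exact Or.inr (List.mem_singleton.1 hs)
  have hp : ∀ k, k ≤ m - 2 → H981.path v (k + 1) = (1 + (H981.path w k).1, (H981.path w k).2) := by
    intro k hk
    rw [hv, path_cons_succ, path_append_left (by omega), St.x_E, St.y_E, zero_add]
  have hdx : dx v = x := by
    rw [hv, dx_cons, dx_append, dx_cons, dx_nil, h2]; simp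
  have hdy : dy v = y := by
    rw [hv, dy_cons, dy_append, dy_cons, dy_nil, h3]; simp
  refine ⟨v, mem_fs.2 ⟨⟨⟨hvm.saw, hdx, hdy⟩, ?_⟩, hvl⟩, ?_⟩
  · intro k hk hk2
    obtain ⟨l, rfl⟩ : ∃ l, k = l + 1 := ⟨k - 1, by omega⟩
    rw [hp l (by omega)]
    obtain ⟨b1, b2, b3, b4⟩ := hmon.path l
    rw [h2] at b2
    rw [h3] at b4
    have h6 := h4 l
    unfold hh at h6 ⊢
    simp only
    push_cast
    have c1 : (0 : ℝ) ≤ (H981.path w l).1 := by exact_mod_cast b1
    have c2 : ((H981.path w l).1 : ℝ) ≤ (x : ℝ) - 1 := by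
      have : ((H981.path w l).1 : ℝ) ≤ ((x - 1 : ℤ) : ℝ) := by exact_mod_cast b2
      push_cast at this; exact this
    have c3 : (0 : ℝ) ≤ (H981.path w l).2 := by exact_mod_cast b3
    have c4 : ((H981.path w l).2 : ℝ) ≤ (y : ℝ) - 1 := by
      have : ((H981.path w l).2 : ℝ) ≤ ((y - 1 : ℤ) : ℝ) := by exact_mod_cast b4
      push_cast at this; exact this
    nlinarith
  · rw [hv, List.drop_succ_cons, List.drop_zero, List.take_left' h5]

theorem base_mon : ∃ K : ℝ, 0 ≤ K ∧ ∀ n : ℕ, 2 ≤ n → ∀ m ≤ n, ∀ x y : ℤ, 1 ≤ x → 1 ≤ y →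
    x + y = m → (a m x y : ℝ) ≤ q n K * ssH (-(y : ℝ)) (x : ℝ) m x y := by
  obtain ⟨K, hK, h⟩ := a_le_laH
  refine ⟨K + 9, by positivity, ?_⟩
  intro n hn m hm x y hx hy hxy
  have g1 : (a m x y : ℝ) ≤ (m + 1) * (2 * a (m - 2) (x - 1) (y - 1)) := by
    exact_mod_cast a_del hx hy hxy
  have g2 : (a (m - 2) (x - 1) (y - 1) : ℝ) ≤
      q n K * laH (-((y : ℝ) - 1)) ((x : ℝ) - 1) (m - 2) (x - 1) (y - 1) := by
    by_cases hz : (x - 1, y - 1) = ((0, 0) : ℤ × ℤ)
    · obtain ⟨e1, e2⟩ := Prod.mk.inj hz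
      have hm2 : m - 2 = 0 := by omega
      rw [hm2, e1, e2]
      have h1 : a 0 0 0 ≤ laH (-((y : ℝ) - 1)) ((x : ℝ) - 1) 0 0 0 := by
        unfold a laH
        apply Finset.card_le_card
        intro w hw
        rw [mem_fs] at hw ⊢
        refine ⟨⟨hw.1, fun k => ?_⟩, hw.2⟩
        rw [path_ge (by omega : w.length ≤ k), hw.2, path_zero', hh_zero]
      have h2 : (a 0 0 0 : ℝ) ≤ laH (-((y : ℝ) - 1)) ((x : ℝ) - 1) 0 0 0 := by exact_mod_cast h1
      refine h2.trans ?_
      have h3 := one_le_q hn hK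
      have h4 : (0 : ℝ) ≤ laH (-((y : ℝ) - 1)) ((x : ℝ) - 1) 0 0 0 := Nat.cast_nonneg _
      nlinarith
    · apply h n hn (m - 2) (by omega) _ _ _ (x - 1) (y - 1) _ hz
      · by_contra hcon
        push Not at hcon
        apply hz
        have e1 : (x : ℝ) = 1 := by linarith [hcon.2]
        have e2 : (y : ℝ) = 1 := by linarith [hcon.1]
        have e1' : x = 1 := by exact_mod_cast e1
        have e2' : y = 1 := by exact_mod_cast e2
        rw [e1', e2']
        rfl
      · push_cast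
        apply le_of_eq
        ring
  have g3 : (laH (-((y : ℝ) - 1)) ((x : ℝ) - 1) (m - 2) (x - 1) (y - 1) : ℝ) ≤
      ssH (-(y : ℝ)) (x : ℝ) m x y := by exact_mod_cast la_le_ss_mon hx hy hxy
  have hn0 : (2 : ℝ) ≤ n := by exact_mod_cast hn
  have hmn : (m : ℝ) ≤ n := by exact_mod_cast hm
  have g4 : ((m : ℝ) + 1) * 2 ≤ q n 9 := by
    have h7 := pow_le_q hn 3
    norm_num at h7
    refine le_trans ?_ h7
    nlinarith [sq_nonneg ((n : ℝ) - 2), mul_nonneg (by linarith : (0 : ℝ) ≤ (n : ℝ) - 2)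
      (mul_nonneg (by positivity : (0 : ℝ) ≤ (n : ℝ)) (by positivity : (0 : ℝ) ≤ (n : ℝ)))]
  have p1 := q_pos n K
  have hA : (0 : ℝ) ≤ ssH (-(y : ℝ)) (x : ℝ) m x y := Nat.cast_nonneg _
  calc (a m x y : ℝ) ≤ (m + 1) * (2 * a (m - 2) (x - 1) (y - 1)) := g1
    _ ≤ (m + 1) * (2 * (q n K * ssH (-(y : ℝ)) (x : ℝ) m x y)) := by
        have := g2.trans (mul_le_mul_of_nonneg_left g3 p1.le)
        gcongr
    _ = (((m : ℝ) + 1) * 2) * (q n K * ssH (-(y : ℝ)) (x : ℝ) m x y) := by ring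
    _ ≤ q n 9 * (q n K * ssH (-(y : ℝ)) (x : ℝ) m x y) := by gcongr
    _ = (q n K * q n 9) * ssH (-(y : ℝ)) (x : ℝ) m x y := by ring
    _ = _ := by rw [q_mul]

/-! ### symmetries -/

theorem ssH_sg_le (m : ℕ) (x y : ℤ) : ssH α β m x y ≤ ssH (-α) β m (-x) y := by
  unfold ssH
  apply card_le_of_decode sg
  intro w hw
  rw [mem_fs] at hw
  obtain ⟨⟨⟨h1, h2, h3⟩, h4⟩, h5⟩ := hw
  refine ⟨sg w, mem_fs.2 ⟨⟨⟨h1.sg, by rw [dx_sg, h2], by rw [dy_sg, h3]⟩, fun k hk hk2 => ?_⟩,
    by rw [length_sg, h5]⟩, sg_sg w⟩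
  rw [path_sg']
  rw [length_sg] at hk2
  have := h4 k hk hk2
  unfold hh at this ⊢
  push_cast
  linarith

theorem ssH_ng_le (m : ℕ) (x y : ℤ) : ssH α β m x y ≤ ssH α (-β) m x (-y) := by
  unfold ssH
  apply card_le_of_decode ng
  intro w hw
  rw [mem_fs] at hw
  obtain ⟨⟨⟨h1, h2, h3⟩, h4⟩, h5⟩ := hw
  refine ⟨ng w, mem_fs.2 ⟨⟨⟨h1.ng, by rw [dx_ng, h2], by rw [dy_ng, h3]⟩, fun k hk hk2 => ?_⟩,
    by rw [length_ng, h5]⟩, ng_ng w⟩
  rw [path_ng']
  rw [length_ng] at hk2
  have := h4 k hk hk2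
  unfold hh at this ⊢
  push_cast
  linarith

theorem ssH_sw_le (m : ℕ) (x y : ℤ) : ssH α β m x y ≤ ssH β α m y x := by
  unfold ssH
  apply card_le_of_decode sw
  intro w hw
  rw [mem_fs] at hw
  obtain ⟨⟨⟨h1, h2, h3⟩, h4⟩, h5⟩ := hw
  refine ⟨sw w, mem_fs.2 ⟨⟨⟨saw_sw h1, by rw [dx_sw, h3], by rw [dy_sw, h2]⟩, fun k hk hk2 => ?_⟩,
    by rw [length_sw, h5]⟩, sw_sw w⟩
  rw [path_sw']
  rw [length_sw] at hk2
  have := h4 k hk hk2
  unfold hh at this ⊢
  push_cast
  linarith

/-- both sides of the chord -/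
def Two (K : ℝ) (n m : ℕ) (x y : ℤ) : Prop :=
  (a m x y : ℝ) ≤ q n K * ssH (-(y : ℝ)) (x : ℝ) m x y ∧
  (a m x y : ℝ) ≤ q n K * ssH (y : ℝ) (-(x : ℝ)) m x y

theorem Two.sg {K : ℝ} {n m : ℕ} {x y : ℤ} (h : Two K n m x y) : Two K n m (-x) y := by
  obtain ⟨h1, h2⟩ := h
  unfold Two
  rw [a_sg]
  have g1 := ssH_sg_le (α := -(y : ℝ)) (β := (x : ℝ)) m x y
  have g2 := ssH_sg_le (α := (y : ℝ)) (β := -(x : ℝ)) m x y
  rw [neg_neg] at g1
  constructor
  · refine h2.trans (mul_le_mul_of_nonneg_left ?_ (q_pos _ _).le)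
    push_cast
    exact_mod_cast g2
  · refine h1.trans (mul_le_mul_of_nonneg_left ?_ (q_pos _ _).le)
    push_cast
    rw [neg_neg]
    exact_mod_cast g1

theorem Two.ng {K : ℝ} {n m : ℕ} {x y : ℤ} (h : Two K n m x y) : Two K n m x (-y) := by
  obtain ⟨h1, h2⟩ := h
  unfold Two
  rw [a_ng]
  have g1 := ssH_ng_le (α := -(y : ℝ)) (β := (x : ℝ)) m x y
  have g2 := ssH_ng_le (α := (y : ℝ)) (β := -(x : ℝ)) m x y
  rw [neg_neg] at g2
  constructor
  · refine h2.trans (mul_le_mul_of_nonneg_left ?_ (q_pos _ _).le)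
    push_cast
    rw [neg_neg]
    exact_mod_cast g2
  · refine h1.trans (mul_le_mul_of_nonneg_left ?_ (q_pos _ _).le)
    push_cast
    exact_mod_cast g1

/-- **Strict arches over every chord that admits them.** -/
theorem a_le_two : ∃ K : ℝ, 0 ≤ K ∧ ∀ n : ℕ, 2 ≤ n → ∀ m ≤ n, ∀ x y : ℤ, (x, y) ≠ (0, 0) →
    (|x| + |y| < m ∨ (|x| + |y| = m ∧ x ≠ 0 ∧ y ≠ 0)) → Two K n m x y := by
  obtain ⟨K1, hK1, h1⟩ := base_mon
  obtain ⟨K2, hK2, h2⟩ := a_le_ssH
  refine ⟨K1 + K2, by positivity, ?_⟩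
  intro n hn m hm x y hz hc
  rcases hc with hc | ⟨hc, hx, hy⟩
  · have hq : q n K2 ≤ q n (K1 + K2) := q_mono hn (by linarith)
    have hne1 : -(y : ℝ) ≠ 0 ∨ (x : ℝ) ≠ 0 := by
      by_contra hcon
      push Not at hcon
      apply hz
      exact Prod.ext (by exact_mod_cast hcon.2) (by have := neg_eq_zero.1 hcon.1; exact_mod_cast this)
    have hne2 : (y : ℝ) ≠ 0 ∨ -(x : ℝ) ≠ 0 := by
      by_contra hcon
      push Not at hcon
      apply hz
      exact Prod.ext (by have := neg_eq_zero.1 hcon.2; exact_mod_cast this) (by exact_mod_cast hcon.1)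
    constructor
    · have := h2 n hn m hm _ _ hne1 x y (by unfold hh; ring) hz hc
      exact this.trans (mul_le_mul_of_nonneg_right hq (Nat.cast_nonneg _))
    · have := h2 n hn m hm _ _ hne2 x y (by unfold hh; ring) hz hc
      exact this.trans (mul_le_mul_of_nonneg_right hq (Nat.cast_nonneg _))
  · have hq : q n K1 ≤ q n (K1 + K2) := q_mono hn (by linarith)
    have pos : ∀ x y : ℤ, 1 ≤ x → 1 ≤ y → x + y = m → Two (K1 + K2) n m x y := by
      intro x y hx hy hxy
      constructor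
      · exact (h1 n hn m hm x y hx hy hxy).trans
          (mul_le_mul_of_nonneg_right hq (Nat.cast_nonneg _))
      · have g1 := h1 n hn m hm y x hy hx (by omega)
        rw [a_sw] at g1
        have g2 := ssH_sw_le (α := -(x : ℝ)) (β := (y : ℝ)) m y x
        refine g1.trans (mul_le_mul hq (by exact_mod_cast g2) (Nat.cast_nonneg _) (q_pos _ _).le)
    rcases lt_or_gt_of_ne hx with hx | hx <;> rcases lt_or_gt_of_ne hy with hy | hy
    · have := (pos (-x) (-y) (by omega) (by omega)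
        (by rw [abs_of_neg hx, abs_of_neg hy] at hc; exact hc)).sg.ng
      rwa [neg_neg, neg_neg] at this
    · have := (pos (-x) y (by omega) (by omega)
        (by rw [abs_of_neg hx, abs_of_pos hy] at hc; exact hc)).sg
      rwa [neg_neg] at this
    · have := (pos x (-y) (by omega) (by omega)
        (by rw [abs_of_pos hx, abs_of_neg hy] at hc; exact hc)).ng
      rwa [neg_neg] at this
    · exact pos x y (by omega) (by omega) (by rw [abs_of_pos hx, abs_of_pos hy] at hc; exact hc)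

end Pool.Agent.U262.SW
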