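import Pool.Agent.U262.SW.G
import Pool.Agent.Y981.L2.PolyE

/-!
Self-avoiding loops with a given chord.
-/

set_option autoImplicit false

namespace Pool.Agent.U262.SW

open Pool.Agent.TH795.EP Pool.Agent.TH795.EP2 Pool.Agent.TH795.SE2 Pool.Agent.TH262.SawL H981 Finset
open Pool.Agent.Y981.L2

/-- loops through `z` at the time `m` -/
def LM (M m : ℕ) (z : ℤ × ℤ) : Set (ZMod M → ℤ × ℤ) := {f | IsLoop M f ∧ f (m : ZMod M) = z}

theorem loops_fin {M : ℕ} (hM : 2 ≤ M) : {f : ZMod M → ℤ × ℤ | IsLoop M f}.Finite := by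
  have : NeZero M := ⟨by omega⟩
  apply Set.Finite.subset (Set.Finite.image (fun (w : List St) => fun i : ZMod M => H981.path w i.val)
    (fin_words Saw (M - 1)))
  intro f hf
  obtain ⟨w, h1, h2, h3⟩ := loop_word hM hf 0
  refine ⟨w, ⟨h1, h2⟩, ?_⟩
  funext i
  simp only
  rw [h3 _ (ZMod.val_lt i), ZMod.natCast_zmod_val, zero_add, hf.1]
  simp

theorem LM_fin {M : ℕ} (hM : 2 ≤ M) (m : ℕ) (z : ℤ × ℤ) : (LM M m z).Finite :=
  (loops_fin hM).subset fun _ hf => hf.1

theorem a_neg (m : ℕ) (x y : ℤ) : a m (-x) (-y) = a m x y := by rw [a_ng, a_sg]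

/-- the arcs of a loop -/
theorem arcs {M m : ℕ} (hm : 1 ≤ m) (hmM : m < M) {z : ℤ × ℤ} {f : ZMod M → ℤ × ℤ}
    (hf : f ∈ LM M m z) : ∃ u v : List St, Saw u ∧ Saw v ∧ u.length = m ∧ v.length = M - m ∧
      (dx u, dy u) = z ∧ (dx v, dy v) = (-z.1, -z.2) ∧
      (∀ k ≤ m, H981.path u k = f (k : ZMod M)) ∧
      (∀ k ≤ M - m, H981.path v k = ((f ((m + k : ℕ) : ZMod M)).1 - z.1,
        (f ((m + k : ℕ) : ZMod M)).2 - z.2)) := by
  obtain ⟨hl, hz⟩ := hf
  have : NeZero M := ⟨by omega⟩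
  obtain ⟨w0, h1, h2, h3⟩ := loop_word (by omega) hl 0
  obtain ⟨wm, g1, g2, g3⟩ := loop_word (by omega) hl (m : ZMod M)
  have hMc : ((M : ℕ) : ZMod M) = 0 := ZMod.natCast_self M
  have lu : (w0.take m).length = m := by rw [List.length_take]; omega
  have lv : (wm.take (M - m)).length = M - m := by rw [List.length_take]; omega
  have pu : ∀ k ≤ m, H981.path (w0.take m) k = f (k : ZMod M) := by
    intro k hk
    rw [path_take hk, h3 k (by omega), zero_add, hl.1]
    simp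
  have pv : ∀ k ≤ M - m, H981.path (wm.take (M - m)) k = ((f ((m + k : ℕ) : ZMod M)).1 - z.1,
        (f ((m + k : ℕ) : ZMod M)).2 - z.2) := by
    intro k hk
    rw [path_take hk, g3 k (by omega), hz]
    push_cast
    rfl
  refine ⟨w0.take m, wm.take (M - m), h1.subw (List.take_prefix _ _).isInfix,
    g1.subw (List.take_prefix _ _).isInfix, lu, lv, ?_, ?_, pu, pv⟩
  · rw [← path_len, lu, pu m le_rfl, hz]
  · rw [← path_len, lv, pv _ le_rfl]
    have e : m + (M - m) = M := by omega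
    rw [e, hMc, hl.1]
    simp

theorem chord_upper {M m : ℕ} (hm : 1 ≤ m) (hmM : m < M) (z : ℤ × ℤ) :
    (LM M m z).ncard ≤ a m z.1 z.2 * a (M - m) z.1 z.2 := by
  classical
  have : NeZero M := ⟨by omega⟩
  rw [← a_neg (M - m)]
  unfold a
  rw [← Finset.card_product]
  refine le_trans ?_ (Finset.card_image_le (f := fun q : List St × List St => fun k : ZMod M =>
    if k.val ≤ m then H981.path q.1 k.val else H981.path q.1 m + H981.path q.2 (k.val - m)))
  rw [← Set.ncard_coe_finset]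
  apply Set.ncard_le_ncard _ (Finset.finite_toSet _)
  intro f hf
  obtain ⟨u, v, hu, hv, hul, hvl, huz, hvz, pu, pv⟩ := arcs hm hmM hf
  rw [Finset.mem_coe, Finset.mem_image]
  refine ⟨(u, v), ?_, ?_⟩
  · rw [Finset.mem_product, mem_fs, mem_fs]
    exact ⟨⟨⟨hu, congrArg Prod.fst huz, congrArg Prod.snd huz⟩, hul⟩,
      ⟨⟨hv, congrArg Prod.fst hvz, congrArg Prod.snd hvz⟩, hvl⟩⟩
  · funext k
    simp only
    have hk := ZMod.val_lt k
    split_ifs with h
    · rw [pu _ h, ZMod.natCast_zmod_val]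
    · have h1 : H981.path u m = z := by rw [← hul, path_len]; exact huz
      rw [h1, pv _ (by omega)]
      have e : m + (k.val - m) = k.val := by omega
      rw [e, ZMod.natCast_zmod_val]
      ext <;> simp

/-- two arcs on the two sides of the chord make a loop -/
theorem chord_lower {α β : ℝ} {M m : ℕ} (hM : 2 ≤ M) (hmM : m < M) (z : ℤ × ℤ) :
    laH α β m z.1 z.2 * ssH (-α) (-β) (M - m) z.1 z.2 ≤ (LM M m z).ncard := by
  classical
  have : NeZero M := ⟨by omega⟩
  have hval : ∀ k : ℕ, k < M → ((k : ZMod M)).val = k := fun k hk => ZMod.val_cast_of_lt hk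
  obtain ⟨φ, hφ⟩ : ∃ φ : List St × List St → (ZMod M → ℤ × ℤ), ∀ q i,
      φ q i = H981.path (q.1 ++ rv q.2) i.val := ⟨_, fun _ _ => rfl⟩
  unfold laH ssH
  rw [← Finset.card_product]
  have p1 : ∀ u v : List St, u.length = m → ∀ k ≤ m, H981.path (u ++ rv v) k = H981.path u k :=
    fun u v hu k hk => path_append_left (by omega)
  have p2 : ∀ u v : List St, u.length = m → v.length = M - m → dx u = z.1 → dy u = z.2 →
      dx v = z.1 → dy v = z.2 → ∀ l, H981.path (u ++ rv v) (m + l) =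
        H981.path v (M - m - l) := by
    intro u v hu hv hux huy hvx hvy l
    have h1 := path_append_right u (rv v) l
    rw [hu] at h1
    rw [h1, path_rv, hv]
    ext
    · simp only; omega
    · simp only; omega
  have hcard : ((fs (fun w => (Saw w ∧ dx w = z.1 ∧ dy w = z.2) ∧ LoH α β w) m ×ˢ
      fs (fun w => (Saw w ∧ dx w = z.1 ∧ dy w = z.2) ∧ SsH (-α) (-β) w) (M - m)).image φ).card =
      (fs (fun w => (Saw w ∧ dx w = z.1 ∧ dy w = z.2) ∧ LoH α β w) m ×ˢ
      fs (fun w => (Saw w ∧ dx w = z.1 ∧ dy w = z.2) ∧ SsH (-α) (-β) w) (M - m)).card := by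
    apply Finset.card_image_of_injOn
    rintro ⟨u, v⟩ h1 ⟨u', v'⟩ h2 heq
    rw [Finset.mem_coe, Finset.mem_product, mem_fs, mem_fs] at h1 h2
    obtain ⟨⟨⟨⟨hu, hux, huy⟩, hulo⟩, hul⟩, ⟨⟨hv, hvx, hvy⟩, hvlo⟩, hvl⟩ := h1
    obtain ⟨⟨⟨⟨hu', hux', huy'⟩, hulo'⟩, hul'⟩, ⟨⟨hv', hvx', hvy'⟩, hvlo'⟩, hvl'⟩ := h2
    simp only at hu hux huy hulo hul hv hvx hvy hvlo hvl
    simp only at hu' hux' huy' hulo' hul' hv' hvx' hvy' hvlo' hvl'
    have hk : ∀ k, k < M → H981.path (u ++ rv v) k = H981.path (u' ++ rv v') k := by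
      intro k hk
      have := congrFun heq (k : ZMod M)
      rw [hφ, hφ, hval k hk] at this
      exact this
    have e1 : u = u' := by
      apply word_ext (by omega)
      intro k hk'
      have g1 := hk k (by omega)
      rw [p1 u v hul k (by omega), p1 u' v' hul' k (by omega)] at g1
      exact g1
    have e2 : v = v' := by
      apply word_ext (by omega)
      intro l hl'
      rcases Nat.eq_zero_or_pos l with h0 | h0
      · subst h0; rw [path_zero', path_zero']
      · have g1 := hk (m + (M - m - l)) (by omega)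
        rw [p2 u v hul hvl hux huy hvx hvy, p2 u' v' hul' hvl' hux' huy' hvx' hvy',
          show M - m - (M - m - l) = l by omega] at g1
        exact g1
    rw [e1, e2]
  rw [← hcard, ← Set.ncard_coe_finset]
  apply Set.ncard_le_ncard _ (LM_fin hM m z)
  intro f hf
  rw [Finset.mem_coe, Finset.mem_image] at hf
  obtain ⟨⟨u, v⟩, h1, rfl⟩ := hf
  rw [Finset.mem_product, mem_fs, mem_fs] at h1
  obtain ⟨⟨⟨⟨hu, hux, huy⟩, hulo⟩, hul⟩, ⟨⟨hv, hvx, hvy⟩, hvlo⟩, hvl⟩ := h1
  simp only at hu hux huy hulo hul hv hvx hvy hvlo hvl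
  obtain ⟨W, hW⟩ : ∃ W, W = u ++ rv v := ⟨_, rfl⟩
  have hWl : W.length = M := by
    rw [hW, List.length_append, length_rv]; omega
  have hfun : φ (u, v) = fun i : ZMod M => H981.path W i.val := by
    funext i
    rw [hφ, hW]
  have q1 := p1 u v hul
  have q2 := p2 u v hul hvl hux huy hvx hvy
  rw [← hW] at q1 q2
  refine ⟨?_, ?_⟩
  · rw [hfun]
    apply loop_of hM hWl
    · rw [hW, dx_append, dx_rv]; omega
    · rw [hW, dy_append, dy_rv]; omega
    · intro i j hij hj
      rcases Nat.lt_or_ge m j with h2 | h2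
      · obtain ⟨l, rfl⟩ : ∃ l, j = m + l := ⟨j - m, by omega⟩
        rw [q2 l]
        have hs := hvlo (M - m - l) (by omega) (by omega)
        have hs' : hh (-α) (-β) (H981.path v (M - m - l)) = -hh α β (H981.path v (M - m - l)) := by
          unfold hh; ring
        rw [hs'] at hs
        rcases Nat.lt_or_ge m i with h3 | h3
        · obtain ⟨l', rfl⟩ : ∃ l', i = m + l' := ⟨i - m, by omega⟩
          rw [q2 l']
          intro he
          exact saw_iff'.1 hv (M - m - l) (M - m - l') (by omega) (by omega) he.symm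
        · rw [q1 i h3]
          intro he
          have h4 := hulo i
          rw [he] at h4
          linarith
      · rw [q1 i (by omega), q1 j h2]
        exact saw_iff'.1 hu i j hij (by omega)
  · rw [hfun]
    simp only
    rw [hval m hmM, q1 m le_rfl, ← hul, path_len, hux, huy]

/-! ### reversal of loops -/

theorem loop_rev {M : ℕ} {f : ZMod M → ℤ × ℤ} (hf : IsLoop M f) : IsLoop M (fun i => f (-i)) := by
  obtain ⟨h0, h1, h2⟩ := hf
  refine ⟨by simpa using h0, ?_, ?_⟩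
  · intro i j hij
    exact neg_injective (h1 hij)
  · intro i
    have := h2 (-(i + 1))
    have e : -(i + 1) + 1 = -i := by ring
    rw [e] at this
    simp only
    rw [abs_sub_comm (f (-(i + 1))).1, abs_sub_comm (f (-(i + 1))).2]
    exact this

theorem LM_rev_le {M m : ℕ} (hM : 2 ≤ M) (hmM : m ≤ M) (z : ℤ × ℤ) :
    (LM M m z).ncard ≤ (LM M (M - m) z).ncard := by
  apply Set.ncard_le_ncard_of_injOn (fun f => fun i => f (-i)) _ _ (LM_fin hM _ z)
  · rintro f ⟨h1, h2⟩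
    refine ⟨loop_rev h1, ?_⟩
    simp only
    rw [Nat.cast_sub hmM, ZMod.natCast_self, zero_sub, neg_neg]
    exact h2
  · intro f _ g _ hfg
    funext i
    have := congrFun hfg (-i)
    simpa using this

/-! ### the chord law for counts -/

/-- the four points on the axes which need straight arcs -/
def Ext (n : ℕ) : Set (ℤ × ℤ) := {z | |z.1| + |z.2| = n ∧ (z.1 = 0 ∨ z.2 = 0)}

theorem chord_lo : ∃ K : ℝ, 0 ≤ K ∧ ∀ n : ℕ, 2 ≤ n → ∀ m : ℕ, 1 ≤ m → m < 2 * n →
    ∀ z : ℤ × ℤ, z ≠ (0, 0) → z ∉ Ext n →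
    (a m z.1 z.2 : ℝ) * a (2 * n - m) z.1 z.2 ≤ q (2 * n) K * (LM (2 * n) m z).ncard := by
  obtain ⟨K1, hK1, h1⟩ := a_le_laH
  obtain ⟨K2, hK2, h2⟩ := a_le_two
  refine ⟨K1 + K2, by positivity, ?_⟩
  intro n hn
  have hM : 2 ≤ 2 * n := by omega
  -- one case
  have key : ∀ m : ℕ, 1 ≤ m → m < 2 * n → ∀ z : ℤ × ℤ, z ≠ (0, 0) →
      (|z.1| + |z.2| < ((2 * n - m : ℕ) : ℤ) ∨
        (|z.1| + |z.2| = ((2 * n - m : ℕ) : ℤ) ∧ z.1 ≠ 0 ∧ z.2 ≠ 0)) →
      (a m z.1 z.2 : ℝ) * a (2 * n - m) z.1 z.2 ≤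
        q (2 * n) (K1 + K2) * (LM (2 * n) m z).ncard := by
    intro m hm hmM z hz hc
    have hne : (z.2 : ℝ) ≠ 0 ∨ -(z.1 : ℝ) ≠ 0 := by
      by_contra hcon
      push Not at hcon
      apply hz
      exact Prod.ext (by have := neg_eq_zero.1 hcon.2; exact_mod_cast this)
        (by exact_mod_cast hcon.1)
    have g1 := h1 (2 * n) hM m (by omega) (z.2 : ℝ) (-(z.1 : ℝ)) hne z.1 z.2
      (by apply le_of_eq; ring) hz
    have g2 := (h2 (2 * n) hM (2 * n - m) (by omega) z.1 z.2 hz hc).1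
    have g3 : (laH (z.2 : ℝ) (-(z.1 : ℝ)) m z.1 z.2 : ℝ) *
        ssH (-(z.2 : ℝ)) (z.1 : ℝ) (2 * n - m) z.1 z.2 ≤ (LM (2 * n) m z).ncard := by
      have := chord_lower (α := (z.2 : ℝ)) (β := -(z.1 : ℝ)) hM hmM z
      rw [neg_neg] at this
      exact_mod_cast this
    have p1 := q_pos (2 * n) K1
    have p2 := q_pos (2 * n) K2
    calc (a m z.1 z.2 : ℝ) * a (2 * n - m) z.1 z.2
        ≤ (q (2 * n) K1 * laH (z.2 : ℝ) (-(z.1 : ℝ)) m z.1 z.2) *
          (q (2 * n) K2 * ssH (-(z.2 : ℝ)) (z.1 : ℝ) (2 * n - m) z.1 z.2) := by gcongr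
      _ = (q (2 * n) K1 * q (2 * n) K2) * ((laH (z.2 : ℝ) (-(z.1 : ℝ)) m z.1 z.2 : ℝ) *
          ssH (-(z.2 : ℝ)) (z.1 : ℝ) (2 * n - m) z.1 z.2) := by ring
      _ ≤ (q (2 * n) K1 * q (2 * n) K2) * (LM (2 * n) m z).ncard := by gcongr
      _ = _ := by rw [q_mul]
  intro m hm hmM z hz hext
  by_cases hc : (|z.1| + |z.2| < ((2 * n - m : ℕ) : ℤ) ∨
        (|z.1| + |z.2| = ((2 * n - m : ℕ) : ℤ) ∧ z.1 ≠ 0 ∧ z.2 ≠ 0))
  · exact key m hm hmM z hz hc
  · rcases Nat.eq_zero_or_pos (a m z.1 z.2) with h0 | h0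
    · rw [h0, Nat.cast_zero, zero_mul]
      exact mul_nonneg (q_pos _ _).le (Nat.cast_nonneg _)
    rcases Nat.eq_zero_or_pos (a (2 * n - m) z.1 z.2) with h0' | h0'
    · rw [h0', Nat.cast_zero, mul_zero]
      exact mul_nonneg (q_pos _ _).le (Nat.cast_nonneg _)
    obtain ⟨w, -, hwx, hwy, hwl⟩ := exists_of_a h0
    obtain ⟨w', -, hwx', hwy', hwl'⟩ := exists_of_a h0'
    have b1 := abs_add_abs_le w
    have b2 := abs_add_abs_le w'
    rw [hwx, hwy, hwl] at b1
    rw [hwx', hwy', hwl'] at b2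
    have hz0 : z.1 = 0 ∨ z.2 = 0 := by
      by_contra hcon
      push Not at hcon
      apply hc
      rcases lt_or_eq_of_le b2 with h | h
      · exact Or.inl h
      · exact Or.inr ⟨h, hcon⟩
    have hlt : |z.1| + |z.2| < m := by
      have e2 : |z.1| + |z.2| = ((2 * n - m : ℕ) : ℤ) := by
        rcases lt_or_eq_of_le b2 with h | h
        · exact absurd (Or.inl h) hc
        · exact h
      rcases lt_or_eq_of_le b1 with h | h
      · exact h
      · exfalso
        apply hext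
        refine ⟨?_, hz0⟩
        have : m = n := by omega
        rw [h, this]
    have g := key (2 * n - m) (by omega) (by omega) z hz (Or.inl (by
      rw [show 2 * n - (2 * n - m) = m by omega]; exact hlt))
    rw [show 2 * n - (2 * n - m) = m by omega] at g
    rw [mul_comm]
    refine g.trans (mul_le_mul_of_nonneg_left ?_ (q_pos _ _).le)
    have := LM_rev_le (m := 2 * n - m) hM (by omega) z
    rw [show 2 * n - (2 * n - m) = m by omega] at this
    exact_mod_cast this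

end Pool.Agent.U262.SW
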