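import Pool.Agent.U262.SW.H

/-!
The chord law of the self-avoiding loops: normalised form.
-/

set_option autoImplicit false

namespace Pool.Agent.U262.SW

open Pool.Agent.TH795.EP Pool.Agent.TH795.EP2 Pool.Agent.TH795.SE2 Pool.Agent.TH262.SawL H981 Finset
open Pool.Agent.Y981.L2

theorem a_ext {n : ℕ} {z : ℤ × ℤ} (hz : z ∈ Ext n) : a n z.1 z.2 ≤ 1 := by
  have h0 : a n 0 (-n) ≤ 1 := by
    unfold a
    exact straight_card n
  have h1 : a n 0 n ≤ 1 := by rwa [a_ng] at h0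
  obtain ⟨hz1, hz2⟩ := hz
  rcases hz2 with h | h
  · rw [h] at hz1 ⊢
    rw [abs_zero, zero_add] at hz1
    rcases abs_choice z.2 with h3 | h3
    · rw [← h3, hz1]; exact h1
    · have : z.2 = -(n : ℤ) := by omega
      rw [this]; exact h0
  · rw [h] at hz1 ⊢
    rw [abs_zero, add_zero] at hz1
    rw [a_sw]
    rcases abs_choice z.1 with h3 | h3
    · rw [← h3, hz1]; exact h1
    · have : z.1 = -(n : ℤ) := by omega
      rw [this]; exact h0

theorem LM_ext {n m : ℕ} (hn : 2 ≤ n) (hm : 1 ≤ m) (hmn : m < 2 * n) {z : ℤ × ℤ}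
    (hz : z ∈ Ext n) : LM (2 * n) m z = ∅ := by
  classical
  rw [Set.eq_empty_iff_forall_notMem]
  intro f hf
  have : NeZero (2 * n) := ⟨by omega⟩
  obtain ⟨u, v, hu, hv, hul, hvl, huz, hvz, pu, pv⟩ := arcs hm hmn hf
  have b1 := abs_add_abs_le u
  have b2 := abs_add_abs_le v
  have e1 : dx u = z.1 := congrArg Prod.fst huz
  have e2 : dy u = z.2 := congrArg Prod.snd huz
  have e3 : dx v = -z.1 := congrArg Prod.fst hvz
  have e4 : dy v = -z.2 := congrArg Prod.snd hvz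
  rw [e1, e2, hul, hz.1] at b1
  rw [e3, e4, abs_neg, abs_neg, hvl, hz.1] at b2
  obtain rfl : m = n := by omega
  have h1 := a_ext hz
  unfold a at h1
  rw [Finset.card_le_one] at h1
  have h2 : u = rv v := by
    apply h1
    · exact mem_fs.2 ⟨⟨hu, e1, e2⟩, hul⟩
    · exact mem_fs.2 ⟨⟨saw_rv hv, by rw [dx_rv, e3, neg_neg], by rw [dy_rv, e4, neg_neg]⟩,
        by rw [length_rv, hvl]; omega⟩
  have h3 := pu 1 (by omega)
  rw [h2, path_rv, hvl, pv _ (by omega), e3, e4] at h3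
  have h4 : f ((m + (2 * m - m - 1) : ℕ) : ZMod (2 * m)) = f ((1 : ℕ) : ZMod (2 * m)) := by
    rw [← h3]
    ext
    · simp only; omega
    · simp only; omega
  have h5 := congrArg ZMod.val (hf.1.2.1 h4)
  rw [ZMod.val_cast_of_lt (by omega), ZMod.val_cast_of_lt (by omega)] at h5
  omega

/-! ### normalisation -/

theorem q_two {n : ℕ} (hn : 2 ≤ n) {A : ℝ} (hA : 0 ≤ A) : q (2 * n) A ≤ q n (4 * A) := by
  unfold q
  apply Real.exp_le_exp.2
  have h1 := log_two_mul hn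
  have h2 : 0 ≤ Real.log ((2 * n : ℕ) : ℝ) := Real.log_natCast_nonneg _
  have h3 := pow_le_pow_left₀ h2 h1 2
  have h4 : (2 * Real.log (n : ℝ)) ^ 2 = 4 * Real.log n ^ 2 := by ring
  rw [h4] at h3
  calc A * Real.log ((2 * n : ℕ) : ℝ) ^ 2 ≤ A * (4 * Real.log n ^ 2) :=
        mul_le_mul_of_nonneg_left h3 hA
    _ = _ := by ring

theorem norm_lo : ∃ K : ℝ, 0 ≤ K ∧ ∀ n : ℕ, 2 ≤ n → ∀ m ≤ 2 * n,
    (c m : ℝ) * c (2 * n - m) ≤ q n K * ln n := by
  obtain ⟨K3, hK3, hPP⟩ := Pool.Agent.TH508.LT.sq_PP2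
  obtain ⟨K4, hK4, hc, -⟩ := exists_K
  refine ⟨K3 + 8 * K4, by positivity, ?_⟩
  intro n hn m hm
  have hmu := mu_pos
  obtain ⟨p1, -⟩ := hPP n hn
  have h1 := hc (2 * n) (by omega) m hm
  have h2 := hc (2 * n) (by omega) (2 * n - m) (by omega)
  have hln := ln_eq (show 1 ≤ n by omega)
  have hP0 : 0 < PP n := lt_of_lt_of_le (by positivity) p1
  have h3 : mu ^ (2 * n) * q n (-K3) ≤ ln n := by
    have e : q n (-K3) = Real.exp (-(K3 * Real.log n ^ 2)) := by unfold q; congr 1; ring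
    rw [e]
    refine p1.trans ?_
    rw [hln]
    have : (1 : ℝ) ≤ 4 * n := by
      have : (2 : ℝ) ≤ n := by exact_mod_cast hn
      linarith
    nlinarith
  have hq := q_pos (2 * n) K4
  have hq2 : q (2 * n) K4 * q (2 * n) K4 ≤ q n (8 * K4) := by
    rw [q_mul]
    refine (q_two hn (by positivity)).trans (le_of_eq ?_)
    congr 1
    ring
  calc (c m : ℝ) * c (2 * n - m) ≤ (mu ^ m * q (2 * n) K4) * (mu ^ (2 * n - m) * q (2 * n) K4) := by
        gcongr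
    _ = mu ^ (2 * n) * (q (2 * n) K4 * q (2 * n) K4) := by
        have : mu ^ (2 * n) = mu ^ m * mu ^ (2 * n - m) := by
          rw [← pow_add]; congr 1; omega
        rw [this]; ring
    _ ≤ mu ^ (2 * n) * q n (8 * K4) := by gcongr
    _ = (mu ^ (2 * n) * q n (-K3)) * q n (K3 + 8 * K4) := by
        rw [mul_assoc, q_mul]; congr 2; ring
    _ ≤ ln n * q n (K3 + 8 * K4) := mul_le_mul_of_nonneg_right h3 (q_pos _ _).le
    _ = _ := by ring

theorem norm_up : ∃ K : ℝ, 0 ≤ K ∧ ∀ n : ℕ, 2 ≤ n → ∀ m ≤ 2 * n,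
    (ln n : ℝ) ≤ q n K * ((c m : ℝ) * c (2 * n - m)) := by
  obtain ⟨K3, hK3, hPP⟩ := Pool.Agent.TH508.LT.sq_PP2
  refine ⟨K3 + 9, by positivity, ?_⟩
  intro n hn m hm
  have hmu := mu_pos
  obtain ⟨-, p2⟩ := hPP n hn
  have hln := ln_eq (show 1 ≤ n by omega)
  have hn0 : (2 : ℝ) ≤ n := by exact_mod_cast hn
  have h1 : mu ^ m ≤ (c m : ℝ) := by rw [c_eq]; exact mu_pow_le _
  have h2 : mu ^ (2 * n - m) ≤ (c (2 * n - m) : ℝ) := by rw [c_eq]; exact mu_pow_le _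
  have h4 : (4 * n : ℝ) ≤ q n 9 := by
    have h7 := pow_le_q hn 3
    norm_num at h7
    refine le_trans ?_ h7
    nlinarith [mul_nonneg (mul_nonneg (by linarith : (0 : ℝ) ≤ (n : ℝ) - 2)
      (by linarith : (0 : ℝ) ≤ (n : ℝ) + 2)) (by linarith : (0 : ℝ) ≤ (n : ℝ))]
  rw [hln]
  have e : Real.exp (K3 * Real.log n ^ 2) = q n K3 := rfl
  rw [e] at p2
  calc (4 * n : ℝ) * PP n ≤ q n 9 * (mu ^ (2 * n) * q n K3) := by
        apply mul_le_mul h4 p2 _ (q_pos _ _).le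
        have : 0 < PP n := lt_of_lt_of_le (by positivity) (hPP n hn).1
        exact this.le
    _ = (q n K3 * q n 9) * (mu ^ m * mu ^ (2 * n - m)) := by
        have : mu ^ (2 * n) = mu ^ m * mu ^ (2 * n - m) := by
          rw [← pow_add]; congr 1; omega
        rw [this]; ring
    _ ≤ (q n K3 * q n 9) * ((c m : ℝ) * c (2 * n - m)) := by
        apply mul_le_mul_of_nonneg_left _ (mul_nonneg (q_pos _ _).le (q_pos _ _).le)
        exact mul_le_mul h1 h2 (by positivity) (Nat.cast_nonneg _)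
    _ = _ := by rw [q_mul]

theorem ln_pos {n : ℕ} (hn : 2 ≤ n) : (0 : ℝ) < ln n := by
  obtain ⟨K3, hK3, hPP⟩ := Pool.Agent.TH508.LT.sq_PP2
  have hmu := mu_pos
  have hP0 : 0 < PP n := lt_of_lt_of_le (by positivity) (hPP n hn).1
  rw [ln_eq (show 1 ≤ n by omega)]
  have : (0 : ℝ) < n := by exact_mod_cast (by omega : 0 < n)
  positivity

/-- **The chord law.** -/
theorem chord_law : ∃ K : ℝ, 0 ≤ K ∧ ∀ n : ℕ, 2 ≤ n → ∀ m : ℕ, 1 ≤ m → m < 2 * n →
    ∀ z : ℤ × ℤ, z ≠ (0, 0) →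
    ((LM (2 * n) m z).ncard : ℝ) / ln n ≤
      q n K * (((a m z.1 z.2 : ℝ) / c m) * ((a (2 * n - m) z.1 z.2 : ℝ) / c (2 * n - m))) ∧
    (z ∉ Ext n → ((a m z.1 z.2 : ℝ) / c m) * ((a (2 * n - m) z.1 z.2 : ℝ) / c (2 * n - m)) ≤
      q n K * (((LM (2 * n) m z).ncard : ℝ) / ln n)) := by
  obtain ⟨K1, hK1, h1⟩ := chord_lo
  obtain ⟨K2, hK2, h2⟩ := norm_lo
  obtain ⟨K3, hK3, h3⟩ := norm_up
  refine ⟨4 * K1 + K2 + K3, by positivity, ?_⟩
  intro n hn m hm hmn z hz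
  have hl := ln_pos hn
  have c1 := c_pos m
  have c2 := c_pos (2 * n - m)
  have e : ((a m z.1 z.2 : ℝ) / c m) * ((a (2 * n - m) z.1 z.2 : ℝ) / c (2 * n - m)) =
      ((a m z.1 z.2 : ℝ) * a (2 * n - m) z.1 z.2) / ((c m : ℝ) * c (2 * n - m)) := by
    field_simp
  have q1 := q_pos n K1
  constructor
  · rw [e, div_le_iff₀ hl]
    have g1 : ((LM (2 * n) m z).ncard : ℝ) ≤ (a m z.1 z.2 : ℝ) * a (2 * n - m) z.1 z.2 := by
      exact_mod_cast chord_upper hm hmn z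
    have g2 := h2 n hn m (by omega)
    have hA : (0 : ℝ) ≤ (a m z.1 z.2 : ℝ) * a (2 * n - m) z.1 z.2 := by positivity
    calc ((LM (2 * n) m z).ncard : ℝ) ≤ (a m z.1 z.2 : ℝ) * a (2 * n - m) z.1 z.2 := g1
      _ = (((a m z.1 z.2 : ℝ) * a (2 * n - m) z.1 z.2) / ((c m : ℝ) * c (2 * n - m))) *
          ((c m : ℝ) * c (2 * n - m)) := by field_simp
      _ ≤ (((a m z.1 z.2 : ℝ) * a (2 * n - m) z.1 z.2) / ((c m : ℝ) * c (2 * n - m))) *
          (q n K2 * ln n) := by gcongr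
      _ ≤ (((a m z.1 z.2 : ℝ) * a (2 * n - m) z.1 z.2) / ((c m : ℝ) * c (2 * n - m))) *
          (q n (4 * K1 + K2 + K3) * ln n) := by
          have : q n K2 ≤ q n (4 * K1 + K2 + K3) := q_mono hn (by linarith)
          gcongr
      _ = _ := by ring
  · intro hext
    rw [e, div_le_iff₀ (by positivity)]
    have g1 := h1 n hn m hm hmn z hz hext
    have g2 := h3 n hn m (by omega)
    have g3 := q_two hn hK1
    have hA : (0 : ℝ) ≤ (LM (2 * n) m z).ncard := Nat.cast_nonneg _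
    calc (a m z.1 z.2 : ℝ) * a (2 * n - m) z.1 z.2
        ≤ q (2 * n) K1 * (LM (2 * n) m z).ncard := g1
      _ ≤ q n (4 * K1) * (LM (2 * n) m z).ncard := by gcongr
      _ = q n (4 * K1) * (((LM (2 * n) m z).ncard : ℝ) / ln n) * ln n := by field_simp
      _ ≤ q n (4 * K1) * (((LM (2 * n) m z).ncard : ℝ) / ln n) *
          (q n K3 * ((c m : ℝ) * c (2 * n - m))) := by
          apply mul_le_mul_of_nonneg_left g2
          exact mul_nonneg (q_pos _ _).le (by positivity)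
      _ = (q n (4 * K1) * q n K3) * (((LM (2 * n) m z).ncard : ℝ) / ln n) *
          ((c m : ℝ) * c (2 * n - m)) := by ring
      _ ≤ q n (4 * K1 + K2 + K3) * (((LM (2 * n) m z).ncard : ℝ) / ln n) *
          ((c m : ℝ) * c (2 * n - m)) := by
          rw [q_mul]
          have : q n (4 * K1 + K3) ≤ q n (4 * K1 + K2 + K3) := q_mono hn (by linarith)
          gcongr

end Pool.Agent.U262.SW
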