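import Pool.Agent.U262.SW.I

/-!
The differences of the vertices of the self-avoiding loops.
-/

set_option autoImplicit false

namespace Pool.Agent.U262.SW

open Pool.Agent.TH795.EP Pool.Agent.TH795.EP2 Pool.Agent.TH795.SE2 Pool.Agent.TH262.SawL H981 Finset
open Pool.Agent.Y981.L2

/-- loops with a difference of vertices in `A` -/
def HA (n : ℕ) (A : Set (ℤ × ℤ)) : Set (ZMod (2 * n) → ℤ × ℤ) :=
  {f | IsLoop (2 * n) f ∧ ∃ i j, f i - f j ∈ A}

theorem HA_fin {n : ℕ} (hn : 1 ≤ n) (A : Set (ℤ × ℤ)) : (HA n A).Finite :=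
  (loops_fin (by omega)).subset fun _ hf => hf.1

/-- the loop started at the time `j` -/
theorem loop_shift {M : ℕ} {f : ZMod M → ℤ × ℤ} (hf : IsLoop M f) (j : ZMod M) :
    IsLoop M (fun k => f (k + j) - f j) := by
  obtain ⟨h0, h1, h2⟩ := hf
  refine ⟨by simp, ?_, ?_⟩
  · intro k l hkl
    have h3 : f (k + j) = f (l + j) := sub_left_injective hkl
    exact add_left_injective j (h1 h3)
  · intro i
    have h3 := h2 (i + j)
    have e : i + 1 + j = i + j + 1 := by ring
    simp only [Prod.fst_sub, Prod.snd_sub]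
    rw [e, sub_sub_sub_cancel_right, sub_sub_sub_cancel_right]
    exact h3

open Classical in
theorem HA_upper {n : ℕ} (hn : 2 ≤ n) (A : Set (ℤ × ℤ)) (hA : ((0, 0) : ℤ × ℤ) ∉ A) :
    (HA n A).ncard ≤ ∑ p ∈ range (2 * n) ×ˢ (Icc 1 (2 * n - 1) ×ˢ
      ((Icc (-(n : ℤ)) n ×ˢ Icc (-(n : ℤ)) n).filter (fun z => z ∈ A ∧ z ∉ Ext n))),
      (LM (2 * n) p.2.1 p.2.2).ncard := by
  have : NeZero (2 * n) := ⟨by omega⟩
  have hM : 2 ≤ 2 * n := by omega
  rw [Set.ncard_eq_toFinset_card _ (HA_fin (by omega) A)]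
  have e : ∀ p : ℕ × (ℕ × (ℤ × ℤ)), (LM (2 * n) p.2.1 p.2.2).ncard =
      ((LM_fin hM p.2.1 p.2.2).toFinset).card := fun p => Set.ncard_eq_toFinset_card _ _
  simp only [e]
  rw [← Finset.card_sigma]
  apply card_le_of_decode (fun q => fun k : ZMod (2 * n) =>
    q.2 (k - (q.1.1 : ZMod (2 * n))) - q.2 (0 - (q.1.1 : ZMod (2 * n))))
  intro f hf
  rw [Set.Finite.mem_toFinset] at hf
  obtain ⟨hl, i, j, hij⟩ := hf
  obtain ⟨z, hz⟩ : ∃ z, z = f i - f j := ⟨_, rfl⟩
  rw [← hz] at hij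
  have hz0 : z ≠ (0, 0) := fun h => hA (h ▸ hij)
  obtain ⟨m, hm⟩ : ∃ m, m = (i - j).val := ⟨_, rfl⟩
  have hmM : m < 2 * n := by rw [hm]; exact ZMod.val_lt _
  have hcast : ((m : ℕ) : ZMod (2 * n)) = i - j := by rw [hm, ZMod.natCast_zmod_val]
  have hm1 : 1 ≤ m := by
    by_contra hcon
    have h0 : m = 0 := by omega
    rw [h0, Nat.cast_zero] at hcast
    have : i = j := by rw [eq_comm, sub_eq_zero] at hcast; exact hcast
    rw [this, sub_self] at hz
    exact hz0 hz
  have hmem : (fun k => f (k + j) - f j) ∈ LM (2 * n) m z := by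
    refine ⟨loop_shift hl j, ?_⟩
    simp only
    rw [hcast, sub_add_cancel, hz]
  obtain ⟨u, v, hu, hv, hul, hvl, huz, hvz, -, -⟩ := arcs hm1 hmM hmem
  have b1 := abs_add_abs_le u
  have b2 := abs_add_abs_le v
  have e1 : dx u = z.1 := congrArg Prod.fst huz
  have e2 : dy u = z.2 := congrArg Prod.snd huz
  have e3 : dx v = -z.1 := congrArg Prod.fst hvz
  have e4 : dy v = -z.2 := congrArg Prod.snd hvz
  rw [e1, e2, hul] at b1
  rw [e3, e4, abs_neg, abs_neg, hvl] at b2
  have hext : z ∉ Ext n := by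
    intro h
    have := LM_ext hn hm1 hmM h
    rw [this] at hmem
    exact hmem
  have c1 := abs_nonneg z.1
  have c2 := abs_nonneg z.2
  refine ⟨⟨(j.val, (m, z)), fun k => f (k + j) - f j⟩, ?_, ?_⟩
  · rw [Finset.mem_sigma]
    simp only [Finset.mem_product, Finset.mem_range, Finset.mem_Icc, Finset.mem_filter,
      Set.Finite.mem_toFinset]
    refine ⟨⟨ZMod.val_lt _, ⟨hm1, by omega⟩, ⟨⟨abs_le.1 (by omega), abs_le.1 (by omega)⟩, hij,
      hext⟩⟩, hmem⟩
  · funext k
    simp only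
    rw [ZMod.natCast_zmod_val, sub_add_cancel, sub_add_cancel, hl.1, sub_sub_sub_cancel_right]
    rw [sub_zero]

theorem LM_sub {n m : ℕ} {A : Set (ℤ × ℤ)} {z : ℤ × ℤ} (hz : z ∈ A) :
    LM (2 * n) m z ⊆ HA n A := by
  rintro f ⟨h1, h2⟩
  refine ⟨h1, (m : ZMod (2 * n)), 0, ?_⟩
  rw [h2, h1.1, sub_zero]
  exact hz

theorem two_ne {z : ℤ × ℤ} (hz : z ≠ (0, 0)) : (2 * z.1, 2 * z.2) ≠ ((0, 0) : ℤ × ℤ) := by
  intro h
  obtain ⟨h1, h2⟩ := Prod.mk.inj h
  exact hz (Prod.ext (by simp only; omega) (by simp only; omega))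

/-- one chord against the walks to the double point: upper bound -/
theorem chord_le_double : ∃ K : ℝ, 0 ≤ K ∧ ∀ n : ℕ, 2 ≤ n → ∀ m : ℕ, 1 ≤ m → m < 2 * n →
    ∀ z : ℤ × ℤ, z ≠ (0, 0) →
    ((LM (2 * n) m z).ncard : ℝ) ≤ q n K * a (2 * n) (2 * z.1) (2 * z.2) := by
  obtain ⟨K, hK, hg⟩ := a_glue
  refine ⟨4 * K, by positivity, ?_⟩
  intro n hn m hm hmn z hz
  have g1 : ((LM (2 * n) m z).ncard : ℝ) ≤ (a m z.1 z.2 : ℝ) * a (2 * n - m) z.1 z.2 := by
    exact_mod_cast chord_upper hm hmn z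
  have g2 := hg (2 * n) (by omega) m (2 * n - m) (by omega) z.1 z.2 z.1 z.2 (by
    rw [← two_mul, ← two_mul]; exact two_ne hz)
  rw [show m + (2 * n - m) = 2 * n by omega, ← two_mul, ← two_mul] at g2
  exact (g1.trans g2).trans (mul_le_mul_of_nonneg_right (q_two hn hK) (Nat.cast_nonneg _))

/-- one chord against the walks to the double point: lower bound -/
theorem double_le_chord : ∃ K : ℝ, 0 ≤ K ∧ ∀ n : ℕ, 2 ≤ n →
    ∀ z : ℤ × ℤ, z ≠ (0, 0) → z ∉ Ext n → ∃ m : ℕ, 1 ≤ m ∧ m < 2 * n ∧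
    (a (2 * n) (2 * z.1) (2 * z.2) : ℝ) ≤ q n K * (LM (2 * n) m z).ncard := by
  obtain ⟨K1, hK1, h1⟩ := chord_lo
  obtain ⟨K2, hK2, h2⟩ := double
  obtain ⟨K3, hK3, h3⟩ := shorten
  obtain ⟨K4, hK4, hup, hlow⟩ := exists_K
  refine ⟨4 * K1 + 4 * K2 + 4 * K3 + 4 * K4 + 4 * 42, by positivity, ?_⟩
  intro n hn z hz hext
  have hM : 2 ≤ 2 * n := by omega
  have hmu := mu_pos
  rcases Nat.eq_zero_or_pos (a (2 * n) (2 * z.1) (2 * z.2)) with h0 | h0
  · refine ⟨1, le_rfl, by omega, ?_⟩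
    rw [h0, Nat.cast_zero]
    exact mul_nonneg (q_pos _ _).le (Nat.cast_nonneg _)
  obtain ⟨w, -, hwx, hwy, hwl⟩ := exists_of_a h0
  have b1 := abs_add_abs_le w
  rw [hwx, hwy, hwl, abs_mul, abs_mul] at b1
  have b2 : |z.1| + |z.2| ≤ n := by
    have : |(2 : ℤ)| = 2 := by norm_num
    rw [this] at b1
    push_cast at b1
    omega
  rcases Int.emod_two_eq_zero_or_one (z.1 + z.2 - n) with hpar | hpar
  · refine ⟨n, by omega, by omega, ?_⟩
    have g1 := h2 n hn z.1 z.2 hz hpar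
    rw [← two_mul] at g1
    have g2 := h1 n hn n (by omega) (by omega) z hz hext
    rw [show 2 * n - n = n by omega] at g2
    have g3 : q n K2 * q (2 * n) K1 ≤ q n (4 * K1 + 4 * K2 + 4 * K3 + 4 * K4 + 4 * 42) := by
      calc q n K2 * q (2 * n) K1 ≤ q n K2 * q n (4 * K1) :=
            mul_le_mul_of_nonneg_left (q_two hn hK1) (q_pos _ _).le
        _ = q n (K2 + 4 * K1) := q_mul _ _ _
        _ ≤ _ := q_mono hn (by linarith)
    have p2 := q_pos n K2
    calc (a (2 * n) (2 * z.1) (2 * z.2) : ℝ) ≤ q n K2 * (a n z.1 z.2 : ℝ) ^ 2 := g1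
      _ = q n K2 * ((a n z.1 z.2 : ℝ) * a n z.1 z.2) := by ring
      _ ≤ q n K2 * (q (2 * n) K1 * (LM (2 * n) n z).ncard) := by gcongr
      _ = (q n K2 * q (2 * n) K1) * (LM (2 * n) n z).ncard := by ring
      _ ≤ _ := mul_le_mul_of_nonneg_right g3 (Nat.cast_nonneg _)
  · have b3 : |z.1| + |z.2| < n := by
      rcases lt_or_eq_of_le b2 with h | h
      · exact h
      · exfalso
        rcases abs_choice z.1 with h4 | h4 <;> rcases abs_choice z.2 with h5 | h5 <;> omega
    rcases Nat.lt_or_ge n 3 with hn3 | hn3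
    · -- `n = 2`, `|z| = 1`: the arcs have one and three steps
      obtain rfl : n = 2 := by omega
      refine ⟨1, le_rfl, by omega, ?_⟩
      have hone : |z.1| + |z.2| = 1 := by
        have : 0 < |z.1| + |z.2| := by
          rcases lt_or_eq_of_le (add_nonneg (abs_nonneg z.1) (abs_nonneg z.2)) with h | h
          · exact h
          · exfalso
            apply hz
            have e1 := abs_nonneg z.1
            have e2 := abs_nonneg z.2
            exact Prod.ext (abs_eq_zero.1 (by omega)) (abs_eq_zero.1 (by omega))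
        push_cast at b3
        omega
      have hz' : (z.1, z.2) ≠ ((0, 0) : ℤ × ℤ) := hz
      have i1 : 1 ≤ a 1 z.1 z.2 := one_le_a hz' (by push_cast; push_cast at hpar; omega)
        (by rw [hone]; norm_num)
      have i2 : 1 ≤ a 3 z.1 z.2 := one_le_a hz' (by push_cast; push_cast at hpar; omega)
        (by rw [hone]; norm_num)
      have g2 := h1 2 le_rfl 1 le_rfl (by omega) z hz hext
      have e3 : 2 * 2 - 1 = 3 := rfl
      rw [e3] at g2
      have i3 : (1 : ℝ) ≤ (a 1 z.1 z.2 : ℝ) * a 3 z.1 z.2 := by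
        have : 1 ≤ a 1 z.1 z.2 * a 3 z.1 z.2 := Nat.mul_pos i1 i2
        exact_mod_cast this
      have g3 : (a (2 * 2) (2 * z.1) (2 * z.2) : ℝ) ≤ mu ^ 4 * q (2 * 2) K4 :=
        (a_le_c _ _ _).trans (hup (2 * 2) (by norm_num) (2 * 2) le_rfl)
      have g4 : mu ^ 4 ≤ 256 := by
        have := pow_le_pow_left₀ hmu.le mu_le_four 4
        norm_num at this
        exact this
      have g5 : (256 : ℝ) ≤ q 2 42 := by
        have h7 := pow_le_q (n := 2) le_rfl 14
        norm_num at h7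
        linarith
      have hL : (0 : ℝ) ≤ (LM (2 * 2) 1 z).ncard := Nat.cast_nonneg _
      calc (a (2 * 2) (2 * z.1) (2 * z.2) : ℝ) ≤ mu ^ 4 * q (2 * 2) K4 := g3
        _ ≤ q 2 42 * q 2 (4 * K4) :=
            mul_le_mul (g4.trans g5) (q_two le_rfl hK4) (q_pos _ _).le (q_pos _ _).le
        _ = q 2 (42 + 4 * K4) * 1 := by rw [q_mul, mul_one]
        _ ≤ q 2 (42 + 4 * K4) * (q 2 (4 * K1) * (LM (2 * 2) 1 z).ncard) := by
            apply mul_le_mul_of_nonneg_left _ (q_pos _ _).le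
            refine (i3.trans g2).trans ?_
            exact mul_le_mul_of_nonneg_right (q_two le_rfl hK1) hL
        _ = (q 2 (42 + 4 * K4) * q 2 (4 * K1)) * (LM (2 * 2) 1 z).ncard := by ring
        _ ≤ _ := by
            rw [q_mul]
            exact mul_le_mul_of_nonneg_right (q_mono le_rfl (by linarith)) hL
    · refine ⟨n - 1, by omega, by omega, ?_⟩
      have g1 := h3 (2 * n) hM (2 * n) le_rfl (2 * z.1) (2 * z.2) (two_ne hz) (by
        rw [abs_mul, abs_mul]
        have : |(2 : ℤ)| = 2 := by norm_num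
        rw [this]; push_cast; omega)
      have g2 := h2 (n - 1) (by omega) z.1 z.2 hz (by
        rw [Nat.cast_sub (by omega : 1 ≤ n)]; push_cast; omega)
      rw [← two_mul, show 2 * (n - 1) = 2 * n - 2 by omega] at g2
      have g3 := lengthen hM hK4 (hlow (2 * n) hM) (m := n - 1) (j := 1) (by omega) (by omega)
        z.1 z.2
      rw [mul_one, show n - 1 + 2 = n + 1 by omega] at g3
      have hmu1 : 1 ≤ mu ^ 2 := one_le_pow₀ H981.one_le_mu
      have hA : (0 : ℝ) ≤ a (n - 1) z.1 z.2 := Nat.cast_nonneg _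
      have g4 : (a (n - 1) z.1 z.2 : ℝ) ≤ q (2 * n) (K4 + 21) * a (n + 1) z.1 z.2 := by
        refine le_trans ?_ g3
        nlinarith
      have g5 := h1 n hn (n - 1) (by omega) (by omega) z hz hext
      rw [show 2 * n - (n - 1) = n + 1 by omega] at g5
      have hqn : q (n - 1) K2 ≤ q n K2 := by
        unfold q
        apply Real.exp_le_exp.2
        have l1 : Real.log ((n - 1 : ℕ) : ℝ) ≤ Real.log n := by
          apply Real.log_le_log
          · exact_mod_cast (by omega : 0 < n - 1)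
          · exact_mod_cast (by omega : n - 1 ≤ n)
        exact mul_le_mul_of_nonneg_left
          (pow_le_pow_left₀ (Real.log_natCast_nonneg _) l1 2) hK2
      have p2 := q_pos n K2
      have p3 := q_pos (2 * n) K3
      have p4 := q_pos (2 * n) (K4 + 21)
      have p1 := q_pos (2 * n) K1
      calc (a (2 * n) (2 * z.1) (2 * z.2) : ℝ)
          ≤ q (2 * n) K3 * a (2 * n - 2) (2 * z.1) (2 * z.2) := g1
        _ ≤ q (2 * n) K3 * (q n K2 * (a (n - 1) z.1 z.2 : ℝ) ^ 2) := by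
            apply mul_le_mul_of_nonneg_left _ p3.le
            exact g2.trans (mul_le_mul_of_nonneg_right hqn (by positivity))
        _ = q (2 * n) K3 * (q n K2 * ((a (n - 1) z.1 z.2 : ℝ) * a (n - 1) z.1 z.2)) := by ring
        _ ≤ q (2 * n) K3 * (q n K2 * ((a (n - 1) z.1 z.2 : ℝ) *
            (q (2 * n) (K4 + 21) * a (n + 1) z.1 z.2))) := by gcongr
        _ = (q (2 * n) K3 * q n K2 * q (2 * n) (K4 + 21)) *
            ((a (n - 1) z.1 z.2 : ℝ) * a (n + 1) z.1 z.2) := by ring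
        _ ≤ (q (2 * n) K3 * q n K2 * q (2 * n) (K4 + 21)) *
            (q (2 * n) K1 * (LM (2 * n) (n - 1) z).ncard) := by gcongr
        _ = (q (2 * n) K3 * q n K2 * q (2 * n) (K4 + 21) * q (2 * n) K1) *
            (LM (2 * n) (n - 1) z).ncard := by ring
        _ ≤ (q n (4 * K3) * q n K2 * q n (4 * (K4 + 21)) * q n (4 * K1)) *
            (LM (2 * n) (n - 1) z).ncard := by
            have r1 := q_two hn hK3
            have r2 := q_two hn (by linarith : (0 : ℝ) ≤ K4 + 21)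
            have r3 := q_two hn hK1
            have s1 := q_pos n (4 * K3)
            have s2 := q_pos n (4 * (K4 + 21))
            have s3 := q_pos n (4 * K1)
            gcongr
        _ ≤ _ := by
            rw [q_mul, q_mul, q_mul]
            exact mul_le_mul_of_nonneg_right (q_mono hn (by linarith)) (Nat.cast_nonneg _)

end Pool.Agent.U262.SW
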