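import Pool.Agent.U262.SW.J

/-!
The differences of the vertices of the self-avoiding loops and the end point of the walk.
-/

set_option autoImplicit false

namespace Pool.Agent.U262.SW

open Pool.Agent.TH795.EP Pool.Agent.TH795.EP2 Pool.Agent.TH795.SE2 Pool.Agent.TH262.SawL H981 Finset
open Pool.Agent.Y981.L2

open Classical in
/-- the relevant differences -/
noncomputable def SA (n : ℕ) (A : Set (ℤ × ℤ)) : Finset (ℤ × ℤ) :=
  (Icc (-(n : ℤ)) n ×ˢ Icc (-(n : ℤ)) n).filter (fun z => z ∈ A ∧ z ∉ Ext n)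

theorem mem_SA {n : ℕ} {A : Set (ℤ × ℤ)} {z : ℤ × ℤ} : z ∈ SA n A ↔
    (|z.1| ≤ n ∧ |z.2| ≤ n) ∧ z ∈ A ∧ z ∉ Ext n := by
  classical
  unfold SA
  rw [Finset.mem_filter, Finset.mem_product, Finset.mem_Icc, Finset.mem_Icc, abs_le, abs_le]

/-- the walks to the doubles of the points of `A` -/
noncomputable def wA (n : ℕ) (A : Set (ℤ × ℤ)) : ℕ :=
  ∑ z ∈ SA n A, a (2 * n) (2 * z.1) (2 * z.2)

theorem card_SA {n : ℕ} (hn : 2 ≤ n) (A : Set (ℤ × ℤ)) : ((SA n A).card : ℝ) ≤ q n 18 := by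
  classical
  have h3 := pow_le_q hn 6
  norm_num at h3
  refine le_trans ?_ h3
  have h1 : (SA n A).card ≤ (2 * n + 1) ^ 2 := by
    refine (Finset.card_filter_le _ _).trans ?_
    rw [Finset.card_product, Int.card_Icc]
    have : ((n : ℤ) + 1 - -(n : ℤ)).toNat = 2 * n + 1 := by omega
    rw [this, sq]
  have h4 : 2 * n + 1 ≤ n ^ 3 := by
    have : 4 ≤ n * n := by nlinarith
    calc 2 * n + 1 ≤ 4 * n := by omega
      _ ≤ (n * n) * n := Nat.mul_le_mul_right _ this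
      _ = n ^ 3 := by ring
  have h6 : (2 * n + 1) ^ 2 ≤ n ^ 6 := by
    calc (2 * n + 1) ^ 2 ≤ (n ^ 3) ^ 2 := Nat.pow_le_pow_left h4 2
      _ = n ^ 6 := by ring
  exact_mod_cast h1.trans h6

theorem HA_le : ∃ K : ℝ, 0 ≤ K ∧ ∀ n : ℕ, 2 ≤ n → ∀ A : Set (ℤ × ℤ), ((0, 0) : ℤ × ℤ) ∉ A →
    ((HA n A).ncard : ℝ) ≤ q n K * wA n A := by
  obtain ⟨K, hK, h⟩ := chord_le_double
  refine ⟨K + 12, by positivity, ?_⟩
  intro n hn A hA
  have h1 := HA_upper hn A hA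
  have h2 : ((HA n A).ncard : ℝ) ≤ ∑ p ∈ range (2 * n) ×ˢ (Icc 1 (2 * n - 1) ×ˢ SA n A),
      ((LM (2 * n) p.2.1 p.2.2).ncard : ℝ) := by exact_mod_cast h1
  refine h2.trans ?_
  have h3 : ∀ p ∈ range (2 * n) ×ˢ (Icc 1 (2 * n - 1) ×ˢ SA n A),
      ((LM (2 * n) p.2.1 p.2.2).ncard : ℝ) ≤ q n K * a (2 * n) (2 * p.2.2.1) (2 * p.2.2.2) := by
    intro p hp
    rw [Finset.mem_product, Finset.mem_product, Finset.mem_Icc, mem_SA] at hp
    have hz : p.2.2 ≠ (0, 0) := by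
      intro h0
      apply hA
      rw [← h0]
      exact hp.2.2.2.1
    exact h n hn p.2.1 hp.2.1.1 (by have := hp.2.1.2; omega) p.2.2 hz
  refine (Finset.sum_le_sum h3).trans ?_
  rw [Finset.sum_product]
  simp only
  rw [Finset.sum_const, Finset.card_range, nsmul_eq_mul, Finset.sum_product]
  simp only
  rw [Finset.sum_const, Nat.card_Icc, nsmul_eq_mul, ← Finset.mul_sum]
  have e : (∑ z ∈ SA n A, (a (2 * n) (2 * z.1) (2 * z.2) : ℝ)) = (wA n A : ℝ) := by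
    unfold wA; push_cast; rfl
  rw [e]
  have hn0 : (2 : ℝ) ≤ n := by exact_mod_cast hn
  have h4 : (((2 * n : ℕ) : ℝ)) * ((2 * n - 1 + 1 - 1 : ℕ) : ℝ) ≤ q n 12 := by
    have h7 := pow_le_q hn 4
    norm_num at h7
    refine le_trans ?_ h7
    have h8 : ((2 * n - 1 + 1 - 1 : ℕ) : ℝ) ≤ ((2 * n : ℕ) : ℝ) := by
      exact_mod_cast (by omega : 2 * n - 1 + 1 - 1 ≤ 2 * n)
    calc (((2 * n : ℕ) : ℝ)) * ((2 * n - 1 + 1 - 1 : ℕ) : ℝ)
        ≤ ((2 * n : ℕ) : ℝ) * ((2 * n : ℕ) : ℝ) := by gcongr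
      _ = 4 * (n : ℝ) ^ 2 := by push_cast; ring
      _ ≤ (n : ℝ) ^ 2 * (n : ℝ) ^ 2 := by
          apply mul_le_mul_of_nonneg_right _ (by positivity)
          nlinarith
      _ = (n : ℝ) ^ 4 := by ring
  have hw : (0 : ℝ) ≤ q n K * wA n A := mul_nonneg (q_pos _ _).le (Nat.cast_nonneg _)
  calc (((2 * n : ℕ) : ℝ)) * (((2 * n - 1 + 1 - 1 : ℕ) : ℝ) * (q n K * wA n A))
      = ((((2 * n : ℕ) : ℝ)) * ((2 * n - 1 + 1 - 1 : ℕ) : ℝ)) * (q n K * wA n A) := by ring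
    _ ≤ q n 12 * (q n K * wA n A) := by gcongr
    _ = (q n K * q n 12) * wA n A := by ring
    _ = _ := by rw [q_mul]

theorem le_HA : ∃ K : ℝ, 0 ≤ K ∧ ∀ n : ℕ, 2 ≤ n → ∀ A : Set (ℤ × ℤ), ((0, 0) : ℤ × ℤ) ∉ A →
    (wA n A : ℝ) ≤ q n K * (HA n A).ncard := by
  obtain ⟨K, hK, h⟩ := double_le_chord
  refine ⟨18 + K, by positivity, ?_⟩
  intro n hn A hA
  have h3 : ∀ z ∈ SA n A, (a (2 * n) (2 * z.1) (2 * z.2) : ℝ) ≤ q n K * (HA n A).ncard := by
    intro z hz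
    rw [mem_SA] at hz
    obtain ⟨m, hm, hmn, h1⟩ := h n hn z (by
      intro h0
      apply hA
      rw [← h0]
      exact hz.2.1) hz.2.2
    refine h1.trans (mul_le_mul_of_nonneg_left ?_ (q_pos _ _).le)
    exact_mod_cast Set.ncard_le_ncard (LM_sub hz.2.1) (HA_fin (by omega) A)
  have h4 := Finset.sum_le_card_nsmul _ _ _ h3
  rw [nsmul_eq_mul] at h4
  have e : (∑ z ∈ SA n A, (a (2 * n) (2 * z.1) (2 * z.2) : ℝ)) = (wA n A : ℝ) := by
    unfold wA; push_cast; rfl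
  rw [e] at h4
  have hw : (0 : ℝ) ≤ q n K * (HA n A).ncard := mul_nonneg (q_pos _ _).le (Nat.cast_nonneg _)
  calc (wA n A : ℝ) ≤ (SA n A).card * (q n K * (HA n A).ncard) := h4
    _ ≤ q n 18 * (q n K * (HA n A).ncard) := mul_le_mul_of_nonneg_right (card_SA hn A) hw
    _ = (q n 18 * q n K) * (HA n A).ncard := by ring
    _ = _ := by rw [q_mul]

/-- the law of the differences against the law of the end point -/
theorem diff_law : ∃ K : ℝ, 0 ≤ K ∧ ∀ n : ℕ, 2 ≤ n → ∀ A : Set (ℤ × ℤ), ((0, 0) : ℤ × ℤ) ∉ A →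
    ((HA n A).ncard : ℝ) / ln n ≤ q n K * ((wA n A : ℝ) / c (2 * n)) ∧
    (wA n A : ℝ) / c (2 * n) ≤ q n K * (((HA n A).ncard : ℝ) / ln n) := by
  obtain ⟨K1, hK1, h1⟩ := HA_le
  obtain ⟨K2, hK2, h2⟩ := le_HA
  obtain ⟨K3, hK3, h3⟩ := norm_lo
  obtain ⟨K4, hK4, h4⟩ := norm_up
  refine ⟨K1 + K2 + K3 + K4, by positivity, ?_⟩
  intro n hn A hA
  have hl := ln_pos hn
  have hc := c_pos (2 * n)
  have c0 : (1 : ℝ) ≤ c 0 := by
    have := H981.mu_pow_le 0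
    rw [pow_zero] at this
    rw [c_eq]
    exact this
  have c0' : (c 0 : ℝ) ≤ 1 := by
    have : c 0 ≤ 1 := by
      unfold c
      rw [Finset.card_le_one]
      intro u hu v hv
      rw [mem_fs] at hu hv
      rw [List.length_eq_zero_iff.1 hu.2, List.length_eq_zero_iff.1 hv.2]
    exact_mod_cast this
  have g3 := h3 n hn (2 * n) le_rfl
  have g4 := h4 n hn (2 * n) le_rfl
  rw [Nat.sub_self] at g3 g4
  have g3' : (c (2 * n) : ℝ) ≤ q n K3 * ln n := by nlinarith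
  have g4' : (ln n : ℝ) ≤ q n K4 * c (2 * n) := by
    refine g4.trans (mul_le_mul_of_nonneg_left ?_ (q_pos _ _).le)
    nlinarith
  have m1 : q n K1 * q n K3 ≤ q n (K1 + K2 + K3 + K4) := by
    rw [q_mul]; exact q_mono hn (by linarith)
  have m2 : q n K2 * q n K4 ≤ q n (K1 + K2 + K3 + K4) := by
    rw [q_mul]; exact q_mono hn (by linarith)
  have r1 := h1 n hn A hA
  have r2 := h2 n hn A hA
  have w0 : (0 : ℝ) ≤ wA n A := Nat.cast_nonneg _
  have w1 : (0 : ℝ) ≤ (HA n A).ncard := Nat.cast_nonneg _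
  have q1 := q_pos n K1
  have q2 := q_pos n K2
  constructor
  · rw [div_le_iff₀ hl]
    calc ((HA n A).ncard : ℝ) ≤ q n K1 * wA n A := r1
      _ = q n K1 * ((wA n A : ℝ) / c (2 * n)) * c (2 * n) := by field_simp
      _ ≤ q n K1 * ((wA n A : ℝ) / c (2 * n)) * (q n K3 * ln n) := by gcongr
      _ = (q n K1 * q n K3) * ((wA n A : ℝ) / c (2 * n)) * ln n := by ring
      _ ≤ _ := by gcongr
  · rw [div_le_iff₀ hc]
    calc (wA n A : ℝ) ≤ q n K2 * (HA n A).ncard := r2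
      _ = q n K2 * (((HA n A).ncard : ℝ) / ln n) * ln n := by field_simp
      _ ≤ q n K2 * (((HA n A).ncard : ℝ) / ln n) * (q n K4 * c (2 * n)) := by gcongr
      _ = (q n K2 * q n K4) * (((HA n A).ncard : ℝ) / ln n) * c (2 * n) := by ring
      _ ≤ _ := by gcongr

/-- the number of walks that end at the double of a point of `A` -/
theorem card_double (n : ℕ) (A : Set (ℤ × ℤ)) :
    Nat.card {ω : Fin (2 * n + 1) → ℤ × ℤ // H981.IsSAW (2 * n) ω ∧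
      ∃ z ∈ A, z ∉ Ext n ∧ ω (Fin.last (2 * n)) = (2 * z.1, 2 * z.2)} = wA n A := by
  classical
  have h1 := TH795.EP2.ncard_eq (2 * n)
    (fun w => ∃ z ∈ A, z ∉ Ext n ∧ dx w = 2 * z.1 ∧ dy w = 2 * z.2)
    (fun ω => ∃ z ∈ A, z ∉ Ext n ∧ ω (Fin.last (2 * n)) = (2 * z.1, 2 * z.2)) (by
      intro w hw
      rw [TH795.EP2.ew_last (2 * n) hw]
      constructor
      · rintro ⟨z, hz, he, h1, h2⟩; exact ⟨z, hz, he, Prod.ext h1 h2⟩
      · rintro ⟨z, hz, he, h1⟩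
        exact ⟨z, hz, he, congrArg Prod.fst h1, congrArg Prod.snd h1⟩)
  rw [h1]
  unfold wA a
  rw [← Finset.card_biUnion]
  · congr 1
    ext w
    rw [mem_fs, Finset.mem_biUnion]
    constructor
    · rintro ⟨⟨hw, z, hz, he, hx, hy⟩, hl⟩
      refine ⟨z, ?_, mem_fs.2 ⟨⟨hw, hx, hy⟩, hl⟩⟩
      rw [mem_SA]
      have hb := abs_add_abs_le w
      rw [hx, hy, hl, abs_mul, abs_mul] at hb
      have h2 : |(2 : ℤ)| = 2 := by norm_num
      rw [h2] at hb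
      push_cast at hb
      have i1 := abs_nonneg z.1
      have i2 := abs_nonneg z.2
      exact ⟨⟨by omega, by omega⟩, hz, he⟩
    · rintro ⟨z, hz, hw⟩
      rw [mem_SA] at hz
      rw [mem_fs] at hw
      exact ⟨⟨hw.1.1, z, hz.2.1, hz.2.2, hw.1.2.1, hw.1.2.2⟩, hw.2⟩
  · intro z _ z' _ hne
    rw [Function.onFun, Finset.disjoint_left]
    intro w hw hw'
    rw [mem_fs] at hw hw'
    apply hne
    have e1 := hw.1.2.1.symm.trans hw'.1.2.1
    have e2 := hw.1.2.2.symm.trans hw'.1.2.2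
    exact Prod.ext (by omega) (by omega)

end Pool.Agent.U262.SW
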