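import Pool.Agent.U262.SW.J

/-!
Bridges in any direction: definitions, concatenation, the bound by `μ^n`.
-/

set_option autoImplicit false

namespace Pool.Agent.U262.SW

open Pool.Agent.TH795.EP Pool.Agent.TH795.EP2 Pool.Agent.TH795.SE2 Pool.Agent.TH262.SawL H981 Finset
open Pool.Agent.Y981.L2

variable {α β : ℝ}

/-- the word is a bridge in the direction `(α, β)` -/
def BrH (α β : ℝ) (w : List St) : Prop :=
  ∀ k, 0 < k → k ≤ w.length → 0 < hh α β (H981.path w k) ∧
    hh α β (H981.path w k) ≤ hh α β (dx w, dy w)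

/-- the number of bridges in the direction `(α, β)` -/
noncomputable def brH (α β : ℝ) (n : ℕ) : ℕ := (fs (fun w => Saw w ∧ BrH α β w) n).card

theorem BrH.end_nonneg {w : List St} (h : BrH α β w) : 0 ≤ hh α β (dx w, dy w) := by
  rcases Nat.eq_zero_or_pos w.length with h0 | h0
  · have : w = [] := List.length_eq_zero_iff.1 h0
    subst this
    simp [hh]
  · have := (h w.length h0 le_rfl).1
    rw [path_len] at this
    exact this.le

theorem BrH.le_end {w : List St} (h : BrH α β w) {k : ℕ} (hk : k ≤ w.length) :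
    hh α β (H981.path w k) ≤ hh α β (dx w, dy w) := by
  rcases Nat.eq_zero_or_pos k with h0 | h0
  · subst h0
    rw [path_zero', hh_zero]
    exact h.end_nonneg
  · exact (h k h0 hk).2

theorem br_append {u v : List St} (hu : Saw u) (hu' : BrH α β u) (hv : Saw v) (hv' : BrH α β v) :
    Saw (u ++ v) ∧ BrH α β (u ++ v) := by
  have hright : ∀ k, 0 < k → k ≤ v.length → hh α β (dx u, dy u) <
      hh α β (H981.path (u ++ v) (u.length + k)) := by
    intro k h1 h2
    rw [hh_right]
    have := (hv' k h1 h2).1
    linarith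
  constructor
  · rw [saw_iff']
    intro i j hij hj
    rw [List.length_append] at hj
    rcases Nat.lt_or_ge u.length j with h1 | h1
    · obtain ⟨l, rfl⟩ : ∃ l, j = u.length + l := ⟨j - u.length, by omega⟩
      have h2 := hright l (by omega) (by omega)
      rcases Nat.lt_or_ge u.length i with h3 | h3
      · obtain ⟨l', rfl⟩ : ∃ l', i = u.length + l' := ⟨i - u.length, by omega⟩
        rw [path_append_right, path_append_right]
        intro he
        obtain ⟨e1, e2⟩ := Prod.mk.inj he
        exact saw_iff'.1 hv l' l (by omega) (by omega) (Prod.ext (by omega) (by omega))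
      · intro he
        have h4 := hu'.le_end h3
        rw [← path_append_left (v := v) h3, he] at h4
        linarith
    · rw [path_append_left (by omega), path_append_left h1]
      exact saw_iff'.1 hu i j hij h1
  · intro k hk hkl
    rw [List.length_append] at hkl
    rw [hh_disp_add]
    have h0 := hu'.end_nonneg
    have h0' := hv'.end_nonneg
    rcases Nat.lt_or_ge u.length k with h1 | h1
    · obtain ⟨l, rfl⟩ : ∃ l, k = u.length + l := ⟨k - u.length, by omega⟩
      have h2 := hright l (by omega) (by omega)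
      refine ⟨by linarith, ?_⟩
      rw [hh_right]
      have := (hv' l (by omega) (by omega)).2
      linarith
    · rw [path_append_left h1]
      have := hu' k hk h1
      exact ⟨this.1, by linarith [this.2]⟩

theorem br_mul (m n : ℕ) : brH α β m * brH α β n ≤ brH α β (m + n) := by
  classical
  unfold brH
  rw [← Finset.card_product]
  apply Finset.card_le_card_of_injOn (fun q => q.1 ++ q.2)
  · intro q hq
    rw [Finset.mem_coe, Finset.mem_product, mem_fs, mem_fs] at hq
    obtain ⟨⟨⟨h1, h2⟩, h3⟩, ⟨⟨h4, h5⟩, h6⟩⟩ := hq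
    rw [Finset.mem_coe, mem_fs]
    refine ⟨br_append h1 h2 h4 h5, ?_⟩
    rw [List.length_append, h3, h6]
  · intro q hq r hr hqr
    rw [Finset.mem_coe, Finset.mem_product, mem_fs, mem_fs] at hq hr
    have := List.append_inj hqr (by rw [hq.1.2, hr.1.2])
    exact Prod.ext this.1 this.2

theorem br_zero : brH α β 0 = 1 := by
  unfold brH
  rw [Finset.card_eq_one]
  refine ⟨[], ?_⟩
  ext w
  rw [mem_fs, Finset.mem_singleton]
  constructor
  · rintro ⟨-, h⟩
    exact List.length_eq_zero_iff.1 h
  · rintro rfl
    refine ⟨⟨?_, ?_⟩, rfl⟩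
    · rw [saw_iff']
      intro i j hij hj
      simp at hj
      omega
    · intro k hk hk'
      simp at hk'
      omega

theorem br_pow (n k : ℕ) : brH α β n ^ k ≤ brH α β (k * n) := by
  induction k with
  | zero => rw [pow_zero, Nat.zero_mul, br_zero]
  | succ k ih =>
    rw [pow_succ, Nat.add_one_mul]
    exact (Nat.mul_le_mul_right _ ih).trans (br_mul _ _)

theorem br_le_c (n : ℕ) : brH α β n ≤ c n := by
  unfold brH c
  apply Finset.card_le_card
  intro w hw
  rw [mem_fs] at hw ⊢
  exact ⟨hw.1.1, hw.2⟩

open Filter Topology in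
theorem br_le_mu (n : ℕ) : (brH α β n : ℝ) ≤ mu ^ n := by
  rcases Nat.eq_zero_or_pos n with h0 | h0
  · subst h0
    rw [br_zero]
    simp
  have hn : (0 : ℝ) < n := by exact_mod_cast h0
  have h1 := tendsto_root
  have h2 : Tendsto (fun k : ℕ => k * n) atTop atTop :=
    tendsto_id.atTop_mul_const' h0
  have h3 := h1.comp h2
  have h4 : (brH α β n : ℝ) ^ (1 / (n : ℝ)) ≤ mu := by
    apply ge_of_tendsto h3
    filter_upwards [eventually_ge_atTop 1] with k hk
    have hk' : (0 : ℝ) < k := by exact_mod_cast hk
    simp only [Function.comp]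
    rw [← c_eq]
    have g1 : ((brH α β n : ℝ) ^ k) ≤ c (k * n) := by
      exact_mod_cast (br_pow n k).trans (br_le_c _)
    have g2 : (brH α β n : ℝ) ^ (1 / (n : ℝ)) =
        ((brH α β n : ℝ) ^ k) ^ (1 / ((k * n : ℕ) : ℝ)) := by
      rw [← Real.rpow_natCast, ← Real.rpow_mul (Nat.cast_nonneg _)]
      congr 1
      push_cast
      field_simp
    rw [g2]
    exact Real.rpow_le_rpow (by positivity) g1 (by positivity)
  have h5 := pow_le_pow_left₀ (Real.rpow_nonneg (Nat.cast_nonneg _) _) h4 n
  rw [← Real.rpow_natCast, ← Real.rpow_mul (Nat.cast_nonneg _)] at h5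
  rw [one_div, inv_mul_cancel₀ hn.ne', Real.rpow_one] at h5
  exact h5

end Pool.Agent.U262.SW
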