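import Pool.Agent.U262.SW.L

/-!
Bridges in any direction: a loop is a pair of bridges with the same displacement.
-/

set_option autoImplicit false

namespace Pool.Agent.U262.SW

open Pool.Agent.TH795.EP Pool.Agent.TH795.EP2 Pool.Agent.TH795.SE2 Pool.Agent.TH262.SawL H981 Finset
open Pool.Agent.Y981.L2

variable {α β : ℝ}

/-- the direction is generic on the box of size `R` -/
def Gen (α β : ℝ) (R : ℕ) : Prop := ∀ p : ℤ × ℤ, |p.1| ≤ R → |p.2| ≤ R → hh α β p = 0 → p = (0, 0)

theorem hh_sub (p r : ℤ × ℤ) : hh α β (p - r) = hh α β p - hh α β r := by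
  unfold hh
  simp only [Prod.fst_sub, Prod.snd_sub]
  push_cast; ring

/-- differences of vertices of a loop are in the box -/
theorem loop_box {M : ℕ} (hM : 2 ≤ M) {f : ZMod M → ℤ × ℤ} (hf : IsLoop M f) (i j : ZMod M) :
    |(f i - f j).1| ≤ M ∧ |(f i - f j).2| ≤ M := by
  have : NeZero M := ⟨by omega⟩
  obtain ⟨w, h1, h2, h3⟩ := loop_word hM hf j
  have h4 := h3 (i - j).val (ZMod.val_lt _)
  rw [ZMod.natCast_zmod_val] at h4
  have e : j + (i - j) = i := by ring
  rw [e] at h4
  have h5 := path_box w (i - j).val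
  rw [h4] at h5
  simp only at h5
  simp only [Prod.fst_sub, Prod.snd_sub]
  omega

/-- **A loop is a pair of bridges.** -/
theorem loop_bridges {M : ℕ} (hM : 2 ≤ M) (hg : Gen α β M) {f : ZMod M → ℤ × ℤ}
    (hf : IsLoop M f) : ∃ s : ZMod M, ∃ m : ℕ, 1 ≤ m ∧ m < M ∧ ∃ u v : List St,
      (Saw u ∧ BrH α β u) ∧ (Saw v ∧ BrH α β v) ∧ u.length = m ∧ v.length = M - m ∧
      ∀ k : ZMod M, f (k + s) - f s = if k.val ≤ m then H981.path u k.val
        else H981.path v (M - k.val) := by
  have : NeZero M := ⟨by omega⟩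
  obtain ⟨s, -, hs⟩ := Finset.exists_min_image (univ : Finset (ZMod M)) (fun k => hh α β (f k))
    ⟨0, mem_univ _⟩
  obtain ⟨t, -, ht⟩ := Finset.exists_max_image (univ : Finset (ZMod M)) (fun k => hh α β (f k))
    ⟨0, mem_univ _⟩
  have hs' : ∀ k, hh α β (f s) ≤ hh α β (f k) := fun k => hs k (mem_univ _)
  have ht' : ∀ k, hh α β (f k) ≤ hh α β (f t) := fun k => ht k (mem_univ _)
  have hgen : ∀ i j, hh α β (f i) = hh α β (f j) → i = j := by
    intro i j h
    have h1 := loop_box hM hf i j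
    have h2 := hg (f i - f j) h1.1 h1.2 (by rw [hh_sub]; linarith)
    exact hf.2.1 (sub_eq_zero.1 h2)
  have hst : t ≠ s := by
    intro h
    have h1 : hh α β (f (s + 1)) = hh α β (f s) := by
      have g1 := hs' (s + 1)
      have g2 := ht' (s + 1)
      rw [h] at g2
      linarith
    have h2 := hgen _ _ h1
    have h3 : (1 : ZMod M) = 0 := by
      have := add_eq_left.1 h2
      exact this
    have : Fact (1 < M) := ⟨by omega⟩
    exact one_ne_zero h3
  obtain ⟨m, hm⟩ : ∃ m, m = (t - s).val := ⟨_, rfl⟩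
  have hmM : m < M := by rw [hm]; exact ZMod.val_lt _
  have hcast : ((m : ℕ) : ZMod M) = t - s := by rw [hm, ZMod.natCast_zmod_val]
  have hm1 : 1 ≤ m := by
    by_contra hcon
    have h0 : m = 0 := by omega
    rw [h0, Nat.cast_zero] at hcast
    exact hst (sub_eq_zero.1 hcast.symm)
  have hgm : f ((m : ZMod M) + s) = f t := by rw [hcast, sub_add_cancel]
  have hmem : (fun k => f (k + s) - f s) ∈ LM M m (f t - f s) := by
    refine ⟨loop_shift hf s, ?_⟩
    simp only
    rw [hgm]
  obtain ⟨u, v, hu, hv, hul, hvl, huz, hvz, pu, pv⟩ := arcs hm1 hmM hmem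
  have hMc : ((M : ℕ) : ZMod M) = 0 := ZMod.natCast_self M
  have hval : ∀ k : ℕ, k < M → ((k : ZMod M)).val = k := fun k hk => ZMod.val_cast_of_lt hk
  -- the path of the reversed second arc
  have pr : ∀ k ≤ M - m, H981.path (rv v) k = f (-(k : ZMod M) + s) - f s := by
    intro k hk
    rw [path_rv, hvl, pv _ (by omega)]
    have e1 : dx v = -(f t - f s).1 := congrArg Prod.fst hvz
    have e2 : dy v = -(f t - f s).2 := congrArg Prod.snd hvz
    rw [e1, e2]
    have e3 : ((m + (M - m - k) : ℕ) : ZMod M) = -(k : ZMod M) := by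
      rw [eq_neg_iff_add_eq_zero, ← Nat.cast_add, show m + (M - m - k) + k = M by omega, hMc]
    rw [e3]
    ext
    · simp only [Prod.fst_sub]; ring
    · simp only [Prod.snd_sub]; ring
  refine ⟨s, m, hm1, hmM, u, rv v, ⟨hu, ?_⟩, ⟨saw_rv hv, ?_⟩, hul, by rw [length_rv, hvl], ?_⟩
  · intro k hk hkl
    rw [hul] at hkl
    rw [pu k hkl, huz]
    rw [hh_sub, hh_sub]
    refine ⟨?_, by linarith [ht' ((k : ZMod M) + s)]⟩
    rcases lt_or_eq_of_le (hs' ((k : ZMod M) + s)) with h | h
    · linarith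
    · exfalso
      have h1 := hgen _ _ h
      have h2 : (k : ZMod M) = 0 := by
        have := h1.symm
        exact add_eq_right.1 this
      have h3 := hval k (by omega)
      rw [h2, ZMod.val_zero] at h3
      omega
  · intro k hk hkl
    rw [length_rv, hvl] at hkl
    have e1 : dx v = -(f t - f s).1 := congrArg Prod.fst hvz
    have e2 : dy v = -(f t - f s).2 := congrArg Prod.snd hvz
    rw [pr k hkl, dx_rv, dy_rv, e1, e2, neg_neg, neg_neg]
    have e3 : ((f t - f s).1, (f t - f s).2) = f t - f s := rfl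
    rw [e3, hh_sub, hh_sub]
    refine ⟨?_, by linarith [ht' (-(k : ZMod M) + s)]⟩
    rcases lt_or_eq_of_le (hs' (-(k : ZMod M) + s)) with h | h
    · linarith
    · exfalso
      have h1 := hgen _ _ h
      have h2 : (k : ZMod M) = 0 := by
        have := h1.symm
        have h4 := add_eq_right.1 this
        exact neg_eq_zero.1 h4
      have h3 := hval k (by omega)
      rw [h2, ZMod.val_zero] at h3
      omega
  · intro k
    have hk := ZMod.val_lt k
    split_ifs with h
    · rw [pu _ h, ZMod.natCast_zmod_val]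
    · rw [pr _ (by omega)]
      have e3 : -(((M - k.val : ℕ)) : ZMod M) = k := by
        rw [Nat.cast_sub hk.le, hMc, ZMod.natCast_zmod_val]
        ring
      rw [e3]

theorem loops_le {M : ℕ} (hM : 2 ≤ M) (hg : Gen α β M) :
    {f : ZMod M → ℤ × ℤ | IsLoop M f}.ncard ≤
      ∑ p ∈ range M ×ˢ Icc 1 (M - 1), brH α β p.2 * brH α β (M - p.2) := by
  classical
  have : NeZero M := ⟨by omega⟩
  rw [Set.ncard_eq_toFinset_card _ (loops_fin hM)]
  unfold brH
  simp only [← Finset.card_product]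
  rw [← Finset.card_sigma]
  apply card_le_of_decode (fun q : (_ : ℕ × ℕ) × (List St × List St) => fun k : ZMod M =>
    (if (k - (q.1.1 : ZMod M)).val ≤ q.1.2 then H981.path q.2.1 (k - (q.1.1 : ZMod M)).val
      else H981.path q.2.2 (M - (k - (q.1.1 : ZMod M)).val)) -
    (if (0 - (q.1.1 : ZMod M)).val ≤ q.1.2 then H981.path q.2.1 (0 - (q.1.1 : ZMod M)).val
      else H981.path q.2.2 (M - (0 - (q.1.1 : ZMod M)).val)))
  intro f hf
  rw [Set.Finite.mem_toFinset] at hf
  have hf' : IsLoop M f := hf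
  obtain ⟨s, m, hm1, hmM, u, v, hu, hv, hul, hvl, hk⟩ := loop_bridges hM hg hf'
  refine ⟨⟨(s.val, m), (u, v)⟩, ?_, ?_⟩
  · rw [Finset.mem_sigma]
    simp only [Finset.mem_product, Finset.mem_range, Finset.mem_Icc, mem_fs]
    exact ⟨⟨ZMod.val_lt _, hm1, by omega⟩, ⟨hu, hul⟩, ⟨hv, hvl⟩⟩
  · funext k
    simp only
    rw [ZMod.natCast_zmod_val, ← hk, ← hk, sub_add_cancel, sub_add_cancel, hf'.1,
      sub_sub_sub_cancel_right]
    exact sub_zero _

/-- **Loops are not more numerous than bridges in a generic direction.** -/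
theorem ln_le_br {N : ℕ} (hN : 1 ≤ N) (hg : Gen α β (2 * N)) :
    ln N ≤ (2 * N) ^ 2 * brH α β (2 * N) := by
  have h1 := loops_le (by omega) hg
  refine h1.trans ?_
  have h2 : ∀ p ∈ range (2 * N) ×ˢ Icc 1 (2 * N - 1),
      brH α β p.2 * brH α β (2 * N - p.2) ≤ brH α β (2 * N) := by
    intro p hp
    rw [Finset.mem_product, Finset.mem_Icc] at hp
    have := br_mul (α := α) (β := β) p.2 (2 * N - p.2)
    rwa [show p.2 + (2 * N - p.2) = 2 * N by omega] at this
  refine (Finset.sum_le_sum h2).trans ?_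
  rw [Finset.sum_const, smul_eq_mul, Finset.card_product, Finset.card_range, Nat.card_Icc]
  apply Nat.mul_le_mul_right
  rw [sq]
  exact Nat.mul_le_mul_left _ (by omega)

end Pool.Agent.U262.SW
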