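import Pool.Agent.U262.SW.J

/-!
Products of self-avoiding words with given total variations.
-/

set_option autoImplicit false

namespace Pool.Agent.U262.SW

open Pool.Agent.TH795.EP Pool.Agent.TH795.EP2 Pool.Agent.TH795.SE2 Pool.Agent.TH262.SawL H981 Finset
open Pool.Agent.Y981.L2

/-- the word is a product of `k` self-avoiding words, and `X`, `Y` are the sums of the absolute
values of the coordinates of their displacements -/
def Dec : ℕ → List St → ℤ → ℤ → Prop
  | 0, w, X, Y => w = [] ∧ X = 0 ∧ Y = 0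
  | k + 1, w, X, Y => ∃ u v, w = u ++ v ∧ Saw u ∧ Dec k v (X - |dx u|) (Y - |dy u|)

theorem dec_nonneg : ∀ (k : ℕ) (w : List St) (X Y : ℤ), Dec k w X Y →
    0 ≤ X ∧ 0 ≤ Y ∧ X + Y ≤ w.length
  | 0, w, X, Y, h => by
    obtain ⟨h1, h2, h3⟩ := h
    subst h1 h2 h3
    simp
  | k + 1, w, X, Y, h => by
    obtain ⟨u, v, h1, h2, h3⟩ := h
    have h4 := dec_nonneg k v _ _ h3
    have h5 := abs_nonneg (dx u)
    have h6 := abs_nonneg (dy u)
    have h7 := abs_add_abs_le u
    rw [h1, List.length_append]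
    push_cast
    refine ⟨by omega, by omega, by omega⟩

theorem saw_nil_of {u : List St} (hu : Saw u) (hx : dx u = 0) (hy : dy u = 0) : u = [] := by
  by_contra hne
  have hl : 0 < u.length := List.length_pos_iff.2 hne
  have h1 := saw_iff'.1 hu 0 u.length hl le_rfl
  rw [path_zero', path_len, hx, hy] at h1
  exact h1 rfl

theorem dec_zero : ∀ (k : ℕ) (w : List St), Dec k w 0 0 → w = []
  | 0, w, h => h.1
  | k + 1, w, h => by
    obtain ⟨u, v, h1, h2, h3⟩ := h
    have h4 := dec_nonneg k v _ _ h3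
    have h5 := abs_nonneg (dx u)
    have h6 := abs_nonneg (dy u)
    have h7 : dx u = 0 := abs_eq_zero.1 (by omega)
    have h8 : dy u = 0 := abs_eq_zero.1 (by omega)
    rw [h7, h8, abs_zero, sub_zero] at h3
    rw [h1, saw_nil_of h2 h7 h8, dec_zero k v h3]
    rfl

/-- the number of the products of `k` self-avoiding words -/
noncomputable def gk (k n : ℕ) (X Y : ℤ) : ℕ := (fs (fun w => Dec k w X Y) n).card

theorem gk_neg (k n : ℕ) {X Y : ℤ} (h : X < 0 ∨ Y < 0) : gk k n X Y = 0 := by
  unfold gk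
  rw [Finset.card_eq_zero]
  by_contra hne
  obtain ⟨w, hw⟩ := Finset.nonempty_iff_ne_empty.2 hne
  rw [mem_fs] at hw
  have := dec_nonneg k w _ _ hw.1
  omega

theorem a_zero_zero : a 0 0 0 = 1 := by
  unfold a
  rw [Finset.card_eq_one]
  refine ⟨[], ?_⟩
  ext w
  rw [mem_fs, Finset.mem_singleton]
  constructor
  · rintro ⟨-, h⟩
    exact List.length_eq_zero_iff.1 h
  · rintro rfl
    refine ⟨⟨?_, by simp, by simp⟩, rfl⟩
    rw [saw_iff']
    intro i j hij hj
    simp at hj
    omega

theorem gk_zero (k n : ℕ) : gk k n 0 0 ≤ a n 0 0 := by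
  rcases Nat.eq_zero_or_pos n with h0 | h0
  · subst h0
    rw [a_zero_zero]
    unfold gk
    rw [Finset.card_le_one]
    intro u hu v hv
    rw [mem_fs] at hu hv
    rw [List.length_eq_zero_iff.1 hu.2, List.length_eq_zero_iff.1 hv.2]
  · have : gk k n 0 0 = 0 := by
      unfold gk
      rw [Finset.card_eq_zero]
      by_contra hne
      obtain ⟨w, hw⟩ := Finset.nonempty_iff_ne_empty.2 hne
      rw [mem_fs] at hw
      have h1 := dec_zero k w hw.1
      rw [h1] at hw
      simp at hw
      omega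
    omega

theorem gk_succ (k n : ℕ) (X Y : ℤ) : gk (k + 1) n X Y ≤
    ∑ p ∈ range (n + 1) ×ˢ (Icc (-(n : ℤ)) n ×ˢ Icc (-(n : ℤ)) n),
      a p.1 p.2.1 p.2.2 * gk k (n - p.1) (X - |p.2.1|) (Y - |p.2.2|) := by
  classical
  unfold gk a
  simp only [← Finset.card_product]
  rw [← Finset.card_sigma]
  apply card_le_of_decode (fun q : (_ : ℕ × (ℤ × ℤ)) × (List St × List St) => q.2.1 ++ q.2.2)
  intro w hw
  rw [mem_fs] at hw
  obtain ⟨⟨u, v, h1, h2, h3⟩, h4⟩ := hw
  refine ⟨⟨(u.length, (dx u, dy u)), (u, v)⟩, ?_, h1.symm⟩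
  have b1 := abs_add_abs_le u
  have b2 := abs_nonneg (dx u)
  have b3 := abs_nonneg (dy u)
  have hl : u.length + v.length = n := by rw [← h4, h1, List.length_append]
  rw [Finset.mem_sigma]
  simp only [Finset.mem_product, Finset.mem_range, Finset.mem_Icc, mem_fs]
  exact ⟨⟨by omega, abs_le.1 (by omega), abs_le.1 (by omega)⟩, by simp [h2], ⟨h3, by omega⟩⟩

theorem gk_le : ∃ K : ℝ, 0 ≤ K ∧ ∀ N : ℕ, 2 ≤ N → ∀ k n : ℕ, n ≤ N → ∀ X Y : ℤ,
    (gk k n X Y : ℝ) ≤ q N (K * k) * a n X Y := by
  obtain ⟨K, hK, hg⟩ := a_glue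
  refine ⟨K + 24, by positivity, ?_⟩
  intro N hN k
  induction k with
  | zero =>
    intro n hn X Y
    rw [Nat.cast_zero, mul_zero, q_zero, one_mul]
    by_cases hXY : X = 0 ∧ Y = 0
    · rw [hXY.1, hXY.2]
      exact_mod_cast gk_zero 0 n
    · have : gk 0 n X Y = 0 := by
        unfold gk
        rw [Finset.card_eq_zero]
        by_contra hne
        obtain ⟨w, hw⟩ := Finset.nonempty_iff_ne_empty.2 hne
        rw [mem_fs] at hw
        exact hXY hw.1.2
      rw [this, Nat.cast_zero]
      exact Nat.cast_nonneg _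
  | succ k ih =>
    intro n hn X Y
    have hK' : 0 ≤ (K + 24) * ((k + 1 : ℕ) : ℝ) := by positivity
    by_cases hXY : X = 0 ∧ Y = 0
    · rw [hXY.1, hXY.2]
      have h1 : (gk (k + 1) n 0 0 : ℝ) ≤ a n 0 0 := by exact_mod_cast gk_zero (k + 1) n
      have h2 : 1 ≤ q N ((K + 24) * ((k + 1 : ℕ) : ℝ)) := one_le_q hN hK'
      calc (gk (k + 1) n 0 0 : ℝ) ≤ 1 * a n 0 0 := by rw [one_mul]; exact h1
        _ ≤ _ := mul_le_mul_of_nonneg_right h2 (Nat.cast_nonneg _)
    · have hne : (X, Y) ≠ ((0, 0) : ℤ × ℤ) := by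
        intro h
        obtain ⟨h1, h2⟩ := Prod.mk.inj h
        exact hXY ⟨h1, h2⟩
      have h1 : (gk (k + 1) n X Y : ℝ) ≤
          ∑ p ∈ range (n + 1) ×ˢ (Icc (-(n : ℤ)) n ×ˢ Icc (-(n : ℤ)) n),
            (a p.1 p.2.1 p.2.2 : ℝ) * gk k (n - p.1) (X - |p.2.1|) (Y - |p.2.2|) := by
        exact_mod_cast gk_succ k n X Y
      have h2 : ∀ p ∈ range (n + 1) ×ˢ (Icc (-(n : ℤ)) n ×ˢ Icc (-(n : ℤ)) n),
          (a p.1 p.2.1 p.2.2 : ℝ) * gk k (n - p.1) (X - |p.2.1|) (Y - |p.2.2|) ≤
            q N ((K + 24) * k + K) * a n X Y := by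
        intro p hp
        rw [Finset.mem_product, Finset.mem_range] at hp
        have g1 := ih (n - p.1) (by omega) (X - |p.2.1|) (Y - |p.2.2|)
        have g2 := hg N hN p.1 (n - p.1) (by omega) |p.2.1| |p.2.2| (X - |p.2.1|) (Y - |p.2.2|)
          (by rw [add_sub_cancel, add_sub_cancel]; exact hne)
        rw [add_sub_cancel, add_sub_cancel, show p.1 + (n - p.1) = n by omega, a_abs] at g2
        have q1 := q_pos N ((K + 24) * k)
        calc (a p.1 p.2.1 p.2.2 : ℝ) * gk k (n - p.1) (X - |p.2.1|) (Y - |p.2.2|)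
            ≤ (a p.1 p.2.1 p.2.2 : ℝ) *
              (q N ((K + 24) * k) * a (n - p.1) (X - |p.2.1|) (Y - |p.2.2|)) := by gcongr
          _ = q N ((K + 24) * k) *
              ((a p.1 p.2.1 p.2.2 : ℝ) * a (n - p.1) (X - |p.2.1|) (Y - |p.2.2|)) := by ring
          _ ≤ q N ((K + 24) * k) * (q N K * a n X Y) := by gcongr
          _ = _ := by rw [← mul_assoc, q_mul]
      refine (h1.trans (Finset.sum_le_sum h2)).trans ?_
      rw [Finset.sum_const, nsmul_eq_mul, Finset.card_product, Finset.card_product,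
        Finset.card_range, Int.card_Icc]
      have h3 : ((n : ℤ) + 1 - -(n : ℤ)).toNat = 2 * n + 1 := by omega
      rw [h3]
      have h4 : (((n + 1) * ((2 * n + 1) * (2 * n + 1)) : ℕ) : ℝ) ≤ q N 24 := by
        have h5 := pow_le_q hN 8
        have h6 : q N (3 * (8 : ℕ)) = q N 24 := by norm_num
        rw [h6] at h5
        refine le_trans ?_ h5
        have a1 : n + 1 ≤ N ^ 2 := by nlinarith
        have a2 : 2 * n + 1 ≤ N ^ 3 := by
          have : 4 ≤ N * N := by nlinarith
          calc 2 * n + 1 ≤ 4 * N := by omega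
            _ ≤ (N * N) * N := Nat.mul_le_mul_right _ this
            _ = N ^ 3 := by ring
        have a3 : (n + 1) * ((2 * n + 1) * (2 * n + 1)) ≤ N ^ 8 := by
          calc (n + 1) * ((2 * n + 1) * (2 * n + 1)) ≤ N ^ 2 * (N ^ 3 * N ^ 3) := by gcongr
            _ = N ^ 8 := by ring
        exact_mod_cast a3
      have q2 := q_pos N ((K + 24) * k + K)
      calc (((n + 1) * ((2 * n + 1) * (2 * n + 1)) : ℕ) : ℝ) * (q N ((K + 24) * k + K) * a n X Y)
          ≤ q N 24 * (q N ((K + 24) * k + K) * a n X Y) := by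
            apply mul_le_mul_of_nonneg_right h4
            exact mul_nonneg q2.le (Nat.cast_nonneg _)
        _ = q N ((K + 24) * ((k + 1 : ℕ) : ℝ)) * a n X Y := by
            rw [← mul_assoc, q_mul]
            congr 2
            push_cast
            ring

/-- a word with times: it is a product of self-avoiding words -/
theorem dec_of : ∀ (k : ℕ) (w : List St) (t : ℕ → ℕ), Monotone t → t 0 = 0 → t k = w.length →
    (∀ i < k, Saw ((w.drop (t i)).take (t (i + 1) - t i))) →
    Dec k w (∑ i ∈ range k, |(H981.path w (t (i + 1))).1 - (H981.path w (t i)).1|)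
      (∑ i ∈ range k, |(H981.path w (t (i + 1))).2 - (H981.path w (t i)).2|)
  | 0, w, t, ht, h0, hk, hs => by
    rw [h0] at hk
    refine ⟨List.length_eq_zero_iff.1 hk.symm, by simp, by simp⟩
  | k + 1, w, t, ht, h0, hk, hs => by
    have h1 : t 1 ≤ w.length := by rw [← hk]; exact ht (by omega)
    have hp : ∀ j, t 1 ≤ j → H981.path (w.drop (t 1)) (j - t 1) =
        ((H981.path w j).1 - (H981.path w (t 1)).1, (H981.path w j).2 - (H981.path w (t 1)).2) := by
      intro j hj
      have h2 := path_drop w (t 1) (j - t 1)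
      rw [show t 1 + (j - t 1) = j by omega] at h2
      rw [h2]
      ext <;> simp
    have hu : dx (w.take (t 1)) = (H981.path w (t 1)).1 ∧ dy (w.take (t 1)) = (H981.path w (t 1)).2 :=
      ⟨rfl, rfl⟩
    refine ⟨w.take (t 1), w.drop (t 1), (List.take_append_drop _ _).symm, ?_, ?_⟩
    · have := hs 0 (by omega)
      rw [h0, List.drop_zero, Nat.sub_zero] at this
      exact this
    · have ih := dec_of k (w.drop (t 1)) (fun i => t (i + 1) - t 1)
        (fun i j hij => Nat.sub_le_sub_right (ht (by omega)) _) (by simp)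
        (by rw [List.length_drop, hk]) (by
          intro i hi
          rw [List.drop_drop]
          have e1 : t 1 + (t (i + 1) - t 1) = t (i + 1) := by
            have := ht (show 1 ≤ i + 1 by omega)
            omega
          have e2 : t (i + 1 + 1) - t 1 - (t (i + 1) - t 1) = t (i + 1 + 1) - t (i + 1) := by
            have := ht (show 1 ≤ i + 1 by omega)
            have := ht (show i + 1 ≤ i + 1 + 1 by omega)
            omega
          rw [e1, e2]
          exact hs (i + 1) (by omega))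
      have e1 : ∀ i, H981.path (w.drop (t 1)) (t (i + 1) - t 1) = ((H981.path w (t (i + 1))).1 -
          (H981.path w (t 1)).1, (H981.path w (t (i + 1))).2 - (H981.path w (t 1)).2) :=
        fun i => hp _ (ht (by omega))
      simp only [e1, sub_sub_sub_cancel_right] at ih
      rw [Finset.sum_range_succ', Finset.sum_range_succ']
      rw [h0, hu.1, hu.2, zero_add, path_zero', sub_zero, sub_zero]
      rw [add_sub_cancel_right, add_sub_cancel_right]
      exact ih

end Pool.Agent.U262.SW
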