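import Pool.Agent.U262.SW.O

/-!
The variation of a walk along few times, and the law of the end point.
-/

set_option autoImplicit false

namespace Pool.Agent.U262.SW

open Pool.Agent.TH795.EP Pool.Agent.TH795.EP2 Pool.Agent.TH795.SE2 Pool.Agent.TH262.SawL H981 Finset
open Pool.Agent.Y981.L2

/-- finitely many times in their order -/
theorem sort_times (n : ℕ) (T : List ℕ) (hT : ∀ a ∈ T, a ≤ n) : ∃ t : ℕ → ℕ, Monotone t ∧
    (∀ i, t i ≤ n) ∧ ∀ a ∈ T, ∃ i < T.length, t i = a := by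
  obtain ⟨L, hL⟩ : ∃ L, L = T.insertionSort (· ≤ ·) := ⟨_, rfl⟩
  have h1 : L.Pairwise (· ≤ ·) := hL ▸ List.pairwise_insertionSort _ _
  have h2 : ∀ a, a ∈ L ↔ a ∈ T := fun a => hL ▸ List.mem_insertionSort _
  have h3 : L.length = T.length := hL ▸ List.length_insertionSort _ _
  have hval : ∀ i (hi : i < L.length), L.getD i n = L[i] := fun i hi => by
    rw [List.getD_eq_getElem?_getD, List.getElem?_eq_getElem hi, Option.getD_some]
  have hval' : ∀ i, L.length ≤ i → L.getD i n = n := fun i hi => by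
    rw [List.getD_eq_getElem?_getD, List.getElem?_eq_none hi, Option.getD_none]
  have hle : ∀ i, L.getD i n ≤ n := by
    intro i
    rcases Nat.lt_or_ge i L.length with hi | hi
    · rw [hval i hi]
      exact hT _ ((h2 _).1 (List.getElem_mem hi))
    · rw [hval' i hi]
  refine ⟨fun i => L.getD i n, ?_, hle, ?_⟩
  · intro i j hij
    simp only
    rcases Nat.lt_or_ge j L.length with hj | hj
    · rw [hval j hj, hval i (by omega)]
      rcases Nat.lt_or_ge i j with h4 | h4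
      · exact List.pairwise_iff_getElem.1 h1 i j (by omega) hj h4
      · have : i = j := by omega
        subst this
        exact le_rfl
    · rw [hval' j hj]
      exact hle i
  · intro b hb
    obtain ⟨i, hi, h4⟩ := List.getElem_of_mem ((h2 b).2 hb)
    exact ⟨i, by omega, by simp only; rw [hval i hi, h4]⟩

/-- the increments between two of the times -/
theorem abs_sub_le_sum (g : ℕ → ℤ) (t : ℕ → ℕ) {k i j : ℕ} (hij : i ≤ j) (hj : j ≤ k) :
    |g (t j) - g (t i)| ≤ ∑ l ∈ range k, |g (t (l + 1)) - g (t l)| := by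
  have h1 : ∀ m, i + m ≤ k → |g (t (i + m)) - g (t i)| ≤
      ∑ l ∈ Ico i (i + m), |g (t (l + 1)) - g (t l)| := by
    intro m
    induction m with
    | zero => intro _; simp
    | succ m ih =>
      intro hm
      have h2 := ih (by omega)
      have h3 : Ico i (i + (m + 1)) = insert (i + m) (Ico i (i + m)) := by
        ext x
        simp only [Finset.mem_Ico, Finset.mem_insert]
        omega
      rw [h3, Finset.sum_insert (by simp)]
      have h4 := abs_add_le (g (t (i + m + 1)) - g (t (i + m))) (g (t (i + m)) - g (t i))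
      rw [sub_add_sub_cancel] at h4
      rw [← add_assoc]
      linarith
  have h2 := h1 (j - i) (by omega)
  rw [show i + (j - i) = j by omega] at h2
  refine h2.trans ?_
  apply Finset.sum_le_sum_of_subset_of_nonneg
  · intro x hx
    rw [Finset.mem_Ico] at hx
    rw [Finset.mem_range]
    omega
  · intro x _ _
    exact abs_nonneg _

/-- the variation of the word along `k + 1` times is at least `(X, Y)` -/
def Var (k : ℕ) (X Y : ℤ) (w : List St) : Prop := ∃ t : ℕ → ℕ, Monotone t ∧ (∀ i, t i ≤ w.length) ∧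
  X ≤ ∑ i ∈ range k, |(H981.path w (t (i + 1))).1 - (H981.path w (t i)).1| ∧
  Y ≤ ∑ i ∈ range k, |(H981.path w (t (i + 1))).2 - (H981.path w (t i)).2|

theorem var_dec {k : ℕ} {X Y : ℤ} {w : List St} (hw : Saw w) (h : Var k X Y w) :
    ∃ X' Y', X ≤ X' ∧ Y ≤ Y' ∧ Dec (k + 2) w X' Y' := by
  obtain ⟨t, ht, htl, hX, hY⟩ := h
  obtain ⟨s, hs⟩ : ∃ s : ℕ → ℕ, ∀ j, s j = if j = 0 then 0 else if j ≤ k + 1 then t (j - 1)
      else w.length := ⟨_, fun _ => rfl⟩
  have s0 : s 0 = 0 := by rw [hs]; simp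
  have s1 : ∀ i ≤ k, s (i + 1) = t i := by
    intro i hi
    rw [hs, if_neg (by omega), if_pos (by omega), Nat.add_sub_cancel]
  have s2 : ∀ j, k + 2 ≤ j → s j = w.length := by
    intro j hj
    rw [hs, if_neg (by omega), if_neg (by omega)]
  have smono : Monotone s := by
    intro i j hij
    rcases Nat.eq_zero_or_pos i with h0 | h0
    · subst h0; rw [s0]; exact Nat.zero_le _
    · rcases Nat.lt_or_ge j (k + 2) with h1 | h1
      · obtain ⟨i, rfl⟩ : ∃ i', i = i' + 1 := ⟨i - 1, by omega⟩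
        obtain ⟨j, rfl⟩ : ∃ j', j = j' + 1 := ⟨j - 1, by omega⟩
        rw [s1 i (by omega), s1 j (by omega)]
        exact ht (by omega)
      · rw [s2 j h1, hs]
        split_ifs
        · exact Nat.zero_le _
        · exact htl _
        · exact le_rfl
  have hd := dec_of (k + 2) w s smono s0 (s2 _ le_rfl) (fun i _ =>
    hw.subw ((List.take_prefix _ _).isInfix.trans (List.drop_suffix _ _).isInfix))
  have key : ∀ g : ℕ → ℤ, ∑ i ∈ range k, |g (t (i + 1)) - g (t i)| ≤
      ∑ i ∈ range (k + 2), |g (s (i + 1)) - g (s i)| := by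
    intro g
    rw [Finset.sum_range_succ, Finset.sum_range_succ']
    have h1 : ∑ i ∈ range k, |g (s (i + 1 + 1)) - g (s (i + 1))| =
        ∑ i ∈ range k, |g (t (i + 1)) - g (t i)| := by
      apply Finset.sum_congr rfl
      intro i hi
      rw [Finset.mem_range] at hi
      rw [s1 i (by omega), s1 (i + 1) (by omega)]
    rw [h1]
    have h2 := abs_nonneg (g (s (0 + 1)) - g (s 0))
    have h3 := abs_nonneg (g (s (k + 1 + 1)) - g (s (k + 1)))
    linarith
  exact ⟨_, _, hX.trans (key fun i => (H981.path w i).1), hY.trans (key fun i => (H981.path w i).2), hd⟩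

/-- self-avoiding words with the end point in a quadrant -/
noncomputable def ge (n : ℕ) (X Y : ℤ) : ℕ :=
  (fs (fun w => Saw w ∧ X ≤ dx w ∧ Y ≤ dy w) n).card

/-- self-avoiding words with a large variation -/
noncomputable def vr (k n : ℕ) (X Y : ℤ) : ℕ := (fs (fun w => Saw w ∧ Var k X Y w) n).card

theorem sum_a_le_ge (n : ℕ) (X Y : ℤ) : ∑ p ∈ Icc X n ×ˢ Icc Y n, a n p.1 p.2 ≤ ge n X Y := by
  classical
  unfold a ge
  rw [← Finset.card_sigma]
  apply Finset.card_le_card_of_injOn (fun q => q.2)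
  · intro q hq
    rw [Finset.mem_coe, Finset.mem_sigma, Finset.mem_product, Finset.mem_Icc, Finset.mem_Icc,
      mem_fs] at hq
    obtain ⟨h1, ⟨h2, h3, h4⟩, h5⟩ := hq
    rw [Finset.mem_coe, mem_fs]
    simp only
    exact ⟨⟨h2, by omega, by omega⟩, h5⟩
  · rintro ⟨⟨x, y⟩, w⟩ hq ⟨⟨x', y'⟩, w'⟩ hq' h
    rw [Finset.mem_coe, Finset.mem_sigma, mem_fs] at hq hq'
    simp only at hq hq' h
    subst h
    have h1 : x = x' := by rw [← hq.2.1.2.1, ← hq'.2.1.2.1]
    have h2 : y = y' := by rw [← hq.2.1.2.2, ← hq'.2.1.2.2]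
    subst h1 h2
    rfl

theorem vr_le_sum (k n : ℕ) (X Y : ℤ) : vr k n X Y ≤
    ∑ p ∈ Icc X n ×ˢ Icc Y n, gk (k + 2) n p.1 p.2 := by
  classical
  unfold vr gk
  rw [← Finset.card_sigma]
  apply card_le_of_decode (fun q => q.2)
  intro w hw
  rw [mem_fs] at hw
  obtain ⟨⟨h1, h2⟩, h3⟩ := hw
  obtain ⟨X', Y', h4, h5, h6⟩ := var_dec h1 h2
  have h7 := dec_nonneg _ _ _ _ h6
  rw [h3] at h7
  refine ⟨⟨(X', Y'), w⟩, ?_, rfl⟩
  rw [Finset.mem_sigma, Finset.mem_product, Finset.mem_Icc, Finset.mem_Icc, mem_fs]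
  exact ⟨⟨⟨h4, by simp only; omega⟩, h5, by simp only; omega⟩, h6, h3⟩

theorem vr_le : ∃ K : ℝ, 0 ≤ K ∧ ∀ n : ℕ, 2 ≤ n → ∀ k : ℕ, ∀ X Y : ℤ,
    (vr k n X Y : ℝ) ≤ q n (K * (k + 2)) * ∑ p ∈ Icc X n ×ˢ Icc Y n, (a n p.1 p.2 : ℝ) := by
  obtain ⟨K, hK, h⟩ := gk_le
  refine ⟨K, hK, ?_⟩
  intro n hn k X Y
  have h1 : (vr k n X Y : ℝ) ≤ ∑ p ∈ Icc X n ×ˢ Icc Y n, (gk (k + 2) n p.1 p.2 : ℝ) := by
    exact_mod_cast vr_le_sum k n X Y
  refine h1.trans ?_
  rw [Finset.mul_sum]
  apply Finset.sum_le_sum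
  intro p _
  have := h n hn (k + 2) n le_rfl p.1 p.2
  push_cast at this
  exact this

theorem ge_le_vr {k n : ℕ} (hk : 1 ≤ k) (X Y : ℤ) : ge n X Y ≤ vr k n X Y := by
  unfold ge vr
  apply Finset.card_le_card
  intro w hw
  rw [mem_fs] at hw ⊢
  obtain ⟨⟨h1, h2, h3⟩, h4⟩ := hw
  refine ⟨⟨h1, ?_⟩, h4⟩
  have hl : H981.path w w.length = (dx w, dy w) := path_len w
  refine ⟨fun i => if i = 0 then 0 else w.length, ?_, ?_, ?_, ?_⟩
  · intro i j hij
    simp only
    split_ifs with g1 g2 g2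
    · exact le_rfl
    · exact Nat.zero_le _
    · omega
    · exact le_rfl
  · intro i
    simp only
    split_ifs
    · exact Nat.zero_le _
    · exact le_rfl
  · have h5 : ∀ i ∈ range k, 0 ≤ |(H981.path w (if i + 1 = 0 then 0 else w.length)).1 -
        (H981.path w (if i = 0 then 0 else w.length)).1| := fun i _ => abs_nonneg _
    refine le_trans ?_ (Finset.single_le_sum h5 (Finset.mem_range.2 hk))
    rw [if_neg (by omega), if_pos rfl, hl, path_zero']
    simp only [sub_zero]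
    exact h2.trans (le_abs_self _)
  · have h5 : ∀ i ∈ range k, 0 ≤ |(H981.path w (if i + 1 = 0 then 0 else w.length)).2 -
        (H981.path w (if i = 0 then 0 else w.length)).2| := fun i _ => abs_nonneg _
    refine le_trans ?_ (Finset.single_le_sum h5 (Finset.mem_range.2 hk))
    rw [if_neg (by omega), if_pos rfl, hl, path_zero']
    simp only [sub_zero]
    exact h3.trans (le_abs_self _)

/-- the rate function is increasing in the positive quadrant -/
theorem rate_mono {v v' : ℝ × ℝ} (h1 : 0 ≤ v.1) (h2 : v.1 ≤ v'.1) (h3 : 0 ≤ v.2) (h4 : v.2 ≤ v'.2)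
    (h5 : v' ∈ Dia) : Rate v ≤ Rate v' := by
  apply ciSup_le
  intro h
  have g1 := le_rate h5 (|h.1|, |h.2|)
  simp only at g1
  have e1 : Lam (|h.1|, |h.2|) = Lam h := by
    have e2 : Lam (|h.1|, |h.2|) = Lam (h.1, |h.2|) := by
      rcases abs_cases h.1 with ⟨h1, _⟩ | ⟨h1, _⟩
      · rw [h1]
      · have := Lam_sg (h.1, |h.2|)
        simp only at this
        rw [h1, this]
    rw [e2]
    rcases abs_cases h.2 with ⟨h1, _⟩ | ⟨h1, _⟩
    · rw [h1]
    · have := Lam_ng h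
      rw [h1, this]
  rw [e1] at g1
  have g2 : h.1 * v.1 ≤ |h.1| * v'.1 := by
    calc h.1 * v.1 ≤ |h.1| * v.1 := mul_le_mul_of_nonneg_right (le_abs_self _) h1
      _ ≤ _ := mul_le_mul_of_nonneg_left h2 (abs_nonneg _)
  have g3 : h.2 * v.2 ≤ |h.2| * v'.2 := by
    calc h.2 * v.2 ≤ |h.2| * v.2 := mul_le_mul_of_nonneg_right (le_abs_self _) h3
      _ ≤ _ := mul_le_mul_of_nonneg_left h4 (abs_nonneg _)
  linarith

/-- the number of the walks to a farther point -/
theorem a_le_rate : ∃ K : ℝ, 0 ≤ K ∧ ∀ n : ℕ, 2 ≤ n → ∀ x y X Y : ℤ, 0 ≤ x → 0 ≤ y →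
    (x, y) ≠ (0, 0) → x ≤ X → y ≤ Y →
    (a n X Y : ℝ) ≤ q n K * (c n * Real.exp (-(n * Rate ((x : ℝ) / n, (y : ℝ) / n)))) := by
  obtain ⟨K, hK, h⟩ := ldp_words
  refine ⟨K, hK, ?_⟩
  intro n hn x y X Y hx hy hxy hX hY
  have hc := c_pos n
  have hn0 : (0 : ℝ) < n := by exact_mod_cast (by omega : 0 < n)
  rcases Nat.eq_zero_or_pos (a n X Y) with h0 | h0
  · rw [h0, Nat.cast_zero]
    exact mul_nonneg (q_pos _ _).le (mul_nonneg hc.le (Real.exp_pos _).le)
  obtain ⟨w, -, hwx, hwy, hwl⟩ := exists_of_a h0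
  have b1 := abs_add_abs_le w
  have b2 := parity w
  rw [hwx, hwy, hwl] at b1 b2
  have hne : (X, Y) ≠ ((0, 0) : ℤ × ℤ) := by
    intro h
    obtain ⟨h1, h2⟩ := Prod.mk.inj h
    exact hxy (Prod.ext (by simp only; omega) (by simp only; omega))
  have g1 := (abs_le.1 (h n hn X Y hne b2 b1)).2
  have ha : (0 : ℝ) < a n X Y := by exact_mod_cast h0
  have g2 : Rate ((x : ℝ) / n, (y : ℝ) / n) ≤ Rate ((X : ℝ) / n, (Y : ℝ) / n) := by
    have hxr : (0 : ℝ) ≤ x := by exact_mod_cast hx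
    have hyr : (0 : ℝ) ≤ y := by exact_mod_cast hy
    have hXr : (x : ℝ) ≤ X := by exact_mod_cast hX
    have hYr : (y : ℝ) ≤ Y := by exact_mod_cast hY
    apply rate_mono
    · exact div_nonneg hxr hn0.le
    · exact div_le_div_of_nonneg_right hXr hn0.le
    · exact div_nonneg hyr hn0.le
    · exact div_le_div_of_nonneg_right hYr hn0.le
    · show |(X : ℝ) / n| + |(Y : ℝ) / n| ≤ 1
      rw [abs_div, abs_div, abs_of_pos hn0, ← add_div, div_le_one hn0]
      exact_mod_cast b1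
  have g3 := mul_le_mul_of_nonneg_left g2 hn0.le
  have g4 : Real.log ((a n X Y : ℝ) / c n) ≤
      K * Real.log n ^ 2 + -(n * Rate ((x : ℝ) / n, (y : ℝ) / n)) := by linarith
  have g5 := Real.exp_le_exp.2 g4
  rw [Real.exp_log (by positivity), Real.exp_add, div_le_iff₀ hc] at g5
  unfold q
  linarith

end Pool.Agent.U262.SW
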