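import Pool.Agent.U262.SW.P

/-!
The variation of a self-avoiding loop along few times.
-/

set_option autoImplicit false

namespace Pool.Agent.U262.SW

open Pool.Agent.TH795.EP Pool.Agent.TH795.EP2 Pool.Agent.TH795.SE2 Pool.Agent.TH262.SawL H981 Finset
open Pool.Agent.Y981.L2

/-- the closed word of a loop -/
theorem closed_word {M : ℕ} (hM : 2 ≤ M) {g : ZMod M → ℤ × ℤ} (hg : IsLoop M g) :
    ∃ W : List St, W.length = M ∧ (∀ k ≤ M, H981.path W k = g (k : ZMod M)) ∧
      ∀ i l, l ≤ M - 1 → Saw ((W.drop i).take l) := by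
  have : NeZero M := ⟨by omega⟩
  have hval : ∀ k : ℕ, k < M → ((k : ZMod M)).val = k := fun k hk => ZMod.val_cast_of_lt hk
  have hMc : ((M : ℕ) : ZMod M) = 0 := ZMod.natCast_self M
  have hmem : g ∈ LM M (M - 1) (g ((M - 1 : ℕ) : ZMod M)) := ⟨hg, rfl⟩
  obtain ⟨u, v, hu, hv, hul, hvl, huz, hvz, pu, pv⟩ := arcs (by omega) (by omega) hmem
  have hWl : (u ++ v).length = M := by rw [List.length_append, hul, hvl]; omega
  have hpath : ∀ k ≤ M, H981.path (u ++ v) k = g (k : ZMod M) := by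
    intro k hk
    rcases Nat.lt_or_ge k M with h1 | h1
    · rw [path_append_left (by omega), pu k (by omega)]
    · have hkM : k = u.length + 1 := by omega
      rw [hkM, path_append_right]
      have h2 := pv 1 (by omega)
      have e1 : dx u = (g ((M - 1 : ℕ) : ZMod M)).1 := congrArg Prod.fst huz
      have e2 : dy u = (g ((M - 1 : ℕ) : ZMod M)).2 := congrArg Prod.snd huz
      rw [h2, e1, e2, hul]
      ext <;> simp
  refine ⟨u ++ v, hWl, hpath, ?_⟩
  intro i l hl
  rw [saw_iff']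
  intro p r hpr hr he
  rw [List.length_take, List.length_drop, hWl] at hr
  rw [path_take (by omega), path_take (by omega)] at he
  have f1 := path_drop (u ++ v) i p
  have f2 := path_drop (u ++ v) i r
  have h3 : H981.path (u ++ v) (i + p) = H981.path (u ++ v) (i + r) := by
    rw [f1, f2, he]
  rw [hpath _ (by omega), hpath _ (by omega)] at h3
  have h4 := hg.2.1 h3
  have h5 : (((r - p : ℕ)) : ZMod M) = 0 := by
    have h6 : ((i + r : ℕ) : ZMod M) = ((i + p : ℕ) : ZMod M) + ((r - p : ℕ) : ZMod M) := by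
      rw [← Nat.cast_add]; congr 1; omega
    rw [← h4] at h6
    exact (add_eq_left.1 h6.symm)
  have h6 := hval (r - p) (by omega)
  rw [h5, ZMod.val_zero] at h6
  omega

/-- the increments between two of the times -/
theorem abs_sub_le_Ico (g : ℕ → ℤ) (t : ℕ → ℕ) {i j : ℕ} (hij : i ≤ j) :
    |g (t j) - g (t i)| ≤ ∑ l ∈ Ico i j, |g (t (l + 1)) - g (t l)| := by
  have h1 : ∀ m, |g (t (i + m)) - g (t i)| ≤
      ∑ l ∈ Ico i (i + m), |g (t (l + 1)) - g (t l)| := by
    intro m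
    induction m with
    | zero => simp
    | succ m ih =>
      have h3 : Ico i (i + (m + 1)) = insert (i + m) (Ico i (i + m)) := by
        ext x
        simp only [Finset.mem_Ico, Finset.mem_insert]
        omega
      rw [h3, Finset.sum_insert (by simp)]
      have h4 := abs_add_le (g (t (i + m + 1)) - g (t (i + m))) (g (t (i + m)) - g (t i))
      rw [sub_add_sub_cancel] at h4
      rw [← add_assoc]
      linarith
  have h2 := h1 (j - i)
  rwa [show i + (j - i) = j by omega] at h2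

/-- the cyclic variation is at least twice the difference -/
theorem two_abs_sub_le (g : ℕ → ℤ) (t : ℕ → ℕ) {k i j : ℕ} (hi : i ≤ k) (hj : j ≤ k) :
    2 * |g (t j) - g (t i)| ≤ ∑ l ∈ range k, |g (t (l + 1)) - g (t l)| + |g (t k) - g (t 0)| := by
  wlog hij : i ≤ j generalizing i j with H
  · rw [abs_sub_comm]
    exact H hj hi (by omega)
  have h1 := abs_sub_le_Ico g t hij
  have h2 := abs_sub_le_Ico g t (Nat.zero_le i)
  have h3 := abs_sub_le_Ico g t hj
  have h4 : ∑ l ∈ range k, |g (t (l + 1)) - g (t l)| =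
      ∑ l ∈ Ico 0 i, |g (t (l + 1)) - g (t l)| + ∑ l ∈ Ico i j, |g (t (l + 1)) - g (t l)| +
        ∑ l ∈ Ico j k, |g (t (l + 1)) - g (t l)| := by
    rw [Finset.range_eq_Ico, Finset.sum_Ico_consecutive _ (Nat.zero_le i) hij,
      Finset.sum_Ico_consecutive _ (Nat.zero_le j) hj]
  have h5 := abs_add_le (g (t j) - g (t k)) (g (t k) - g (t 0))
  have h6 := abs_add_le (g (t j) - g (t k) + (g (t k) - g (t 0))) (g (t 0) - g (t i))
  rw [sub_add_sub_cancel, sub_add_sub_cancel] at h6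
  rw [sub_add_sub_cancel] at h5
  rw [abs_sub_comm (g (t j)) (g (t k))] at h5
  rw [abs_sub_comm (g (t 0)) (g (t i))] at h6
  linarith

/-- loops with a large cyclic variation along `k + 1` times -/
def CV (n k : ℕ) (X Y : ℤ) : Set (ZMod (2 * n) → ℤ × ℤ) :=
  {f | IsLoop (2 * n) f ∧ ∃ (j : ZMod (2 * n)) (t : ℕ → ℕ), Monotone t ∧ (∀ i, t i < 2 * n) ∧
    2 * X ≤ ∑ i ∈ range k, |(f (j + t (i + 1))).1 - (f (j + t i)).1| +
      |(f (j + t k)).1 - (f (j + t 0)).1| ∧
    2 * Y ≤ ∑ i ∈ range k, |(f (j + t (i + 1))).2 - (f (j + t i)).2| +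
      |(f (j + t k)).2 - (f (j + t 0)).2|}

/-- loops with a large width and a large height -/
def BX (n : ℕ) (X Y : ℤ) : Set (ZMod (2 * n) → ℤ × ℤ) :=
  {f | IsLoop (2 * n) f ∧ (∃ i j, X ≤ (f i).1 - (f j).1) ∧ ∃ i j, Y ≤ (f i).2 - (f j).2}

theorem CV_fin {n : ℕ} (hn : 1 ≤ n) (k : ℕ) (X Y : ℤ) : (CV n k X Y).Finite :=
  (loops_fin (by omega)).subset fun _ hf => hf.1

theorem BX_fin {n : ℕ} (hn : 1 ≤ n) (X Y : ℤ) : (BX n X Y).Finite :=
  (loops_fin (by omega)).subset fun _ hf => hf.1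

theorem BX_sub {n : ℕ} (hn : 1 ≤ n) (X Y : ℤ) : BX n X Y ⊆ CV n 3 X Y := by
  rintro f ⟨hf, ⟨i1, i2, hi⟩, j1, j2, hj⟩
  have : NeZero (2 * n) := ⟨by omega⟩
  refine ⟨hf, 0, ?_⟩
  obtain ⟨t, h1, h2, h3⟩ := sort_times (2 * n - 1) [i1.val, i2.val, j1.val, j2.val] (by
    intro a ha
    simp only [List.mem_cons, List.not_mem_nil, or_false] at ha
    have b1 := ZMod.val_lt i1
    have b2 := ZMod.val_lt i2
    have b3 := ZMod.val_lt j1
    have b4 := ZMod.val_lt j2
    omega)
  obtain ⟨a1, ha1, ta1⟩ := h3 i1.val (by simp)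
  obtain ⟨a2, ha2, ta2⟩ := h3 i2.val (by simp)
  obtain ⟨b1, hb1, tb1⟩ := h3 j1.val (by simp)
  obtain ⟨b2, hb2, tb2⟩ := h3 j2.val (by simp)
  simp only [List.length_cons, List.length_nil] at ha1 ha2 hb1 hb2
  have g1 := two_abs_sub_le (fun m => (f (0 + (m : ZMod (2 * n)))).1) t (k := 3) (i := a2) (j := a1)
    (by omega) (by omega)
  have g2 := two_abs_sub_le (fun m => (f (0 + (m : ZMod (2 * n)))).2) t (k := 3) (i := b2) (j := b1)
    (by omega) (by omega)
  rw [ta1, ta2, ZMod.natCast_zmod_val, ZMod.natCast_zmod_val, zero_add, zero_add] at g1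
  rw [tb1, tb2, ZMod.natCast_zmod_val, ZMod.natCast_zmod_val, zero_add, zero_add] at g2
  refine ⟨t, h1, fun i => by have := h2 i; omega, ?_, ?_⟩
  · refine le_trans ?_ g1
    have := le_abs_self ((f i1).1 - (f i2).1)
    linarith
  · refine le_trans ?_ g2
    have := le_abs_self ((f j1).2 - (f j2).2)
    linarith

/-- a loop with a large cyclic variation is a product of arcs -/
theorem CV_dec {n k : ℕ} (hn : 1 ≤ n) {X Y : ℤ} (hX : 0 ≤ X) (hY : 0 ≤ Y) (hXY : (X, Y) ≠ (0, 0))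
    {f : ZMod (2 * n) → ℤ × ℤ} (hf : f ∈ CV n k X Y) : ∃ (j : ZMod (2 * n)) (W : List St),
      W.length = 2 * n ∧ (∀ i ≤ 2 * n, H981.path W i = f ((i : ZMod (2 * n)) + j) - f j) ∧
      ∃ X' Y', 2 * X ≤ X' ∧ 2 * Y ≤ Y' ∧ Dec (k + 2) W X' Y' := by
  obtain ⟨hf, j, t, ht, htl, h1, h2⟩ := hf
  have : NeZero (2 * n) := ⟨by omega⟩
  obtain ⟨W, hWl, hp, hs⟩ := closed_word (by omega) (loop_shift hf j)
  have hpos : 0 < t k := by
    by_contra hcon
    have h0 : ∀ i ≤ k, t i = 0 := fun i hi => by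
      have := ht hi
      omega
    have g1 : ∑ i ∈ range k, |(f (j + t (i + 1))).1 - (f (j + t i)).1| = 0 := by
      apply Finset.sum_eq_zero
      intro i hi
      rw [Finset.mem_range] at hi
      rw [h0 (i + 1) (by omega), h0 i (by omega), sub_self, abs_zero]
    have g2 : ∑ i ∈ range k, |(f (j + t (i + 1))).2 - (f (j + t i)).2| = 0 := by
      apply Finset.sum_eq_zero
      intro i hi
      rw [Finset.mem_range] at hi
      rw [h0 (i + 1) (by omega), h0 i (by omega), sub_self, abs_zero]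
    rw [g1, h0 k le_rfl, h0 0 (by omega), sub_self, abs_zero] at h1
    rw [g2, h0 k le_rfl, h0 0 (by omega), sub_self, abs_zero] at h2
    apply hXY
    exact Prod.ext (by simp only; omega) (by simp only; omega)
  refine ⟨j, W, hWl, hp, ?_⟩
  obtain ⟨s, hs'⟩ : ∃ s : ℕ → ℕ, ∀ l, s l = if l = 0 then 0 else if l ≤ k + 1 then t (l - 1)
      else 2 * n := ⟨_, fun _ => rfl⟩
  have s0 : s 0 = 0 := by rw [hs']; simp
  have s1 : ∀ i ≤ k, s (i + 1) = t i := by
    intro i hi
    rw [hs', if_neg (by omega), if_pos (by omega), Nat.add_sub_cancel]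
  have s2 : ∀ l, k + 2 ≤ l → s l = 2 * n := by
    intro l hl
    rw [hs', if_neg (by omega), if_neg (by omega)]
  have smono : Monotone s := by
    intro i l hil
    rcases Nat.eq_zero_or_pos i with h0 | h0
    · subst h0; rw [s0]; exact Nat.zero_le _
    · rcases Nat.lt_or_ge l (k + 2) with h3 | h3
      · obtain ⟨i, rfl⟩ : ∃ i', i = i' + 1 := ⟨i - 1, by omega⟩
        obtain ⟨l, rfl⟩ : ∃ l', l = l' + 1 := ⟨l - 1, by omega⟩
        rw [s1 i (by omega), s1 l (by omega)]
        exact ht (by omega)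
      · rw [s2 l h3, hs']
        split_ifs
        · exact Nat.zero_le _
        · exact (htl _).le
        · exact le_rfl
  have hd := dec_of (k + 2) W s smono s0 (by rw [s2 _ le_rfl, hWl]) (fun i hi => by
    apply hs
    rcases Nat.lt_or_ge i (k + 1) with h3 | h3
    · rcases Nat.eq_zero_or_pos i with h0 | h0
      · subst h0
        rw [s0, s1 0 (by omega)]
        have := htl 0
        omega
      · rw [s1 i (by omega)]
        have := htl i
        omega
    · have : i = k + 1 := by omega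
      subst this
      rw [s1 k le_rfl, s2 _ le_rfl]
      omega)
  have hle : ∀ l, s l ≤ 2 * n := by
    intro l
    have h3 := smono (show l ≤ max l (k + 2) from le_max_left _ _)
    rw [s2 _ (le_max_right _ _)] at h3
    exact h3
  have key : ∀ g : ℕ → ℤ, g 0 = g (2 * n) →
      ∑ i ∈ range k, |g (t (i + 1)) - g (t i)| + |g (t k) - g (t 0)| ≤
      ∑ i ∈ range (k + 2), |g (s (i + 1)) - g (s i)| := by
    intro g hg
    rw [Finset.sum_range_succ, Finset.sum_range_succ']
    have h3 : ∑ i ∈ range k, |g (s (i + 1 + 1)) - g (s (i + 1))| =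
        ∑ i ∈ range k, |g (t (i + 1)) - g (t i)| := by
      apply Finset.sum_congr rfl
      intro i hi
      rw [Finset.mem_range] at hi
      rw [s1 i (by omega), s1 (i + 1) (by omega)]
    rw [h3, zero_add, s0, s1 0 (by omega), s1 k le_rfl, s2 (k + 1 + 1) le_rfl, ← hg]
    have h4 := abs_add_le (g 0 - g (t k)) (g (t 0) - g 0)
    rw [show g 0 - g (t k) + (g (t 0) - g 0) = -(g (t k) - g (t 0)) by ring, abs_neg] at h4
    linarith
  have hg1 : ∀ i, i ≤ 2 * n → (H981.path W i).1 = (f (j + i)).1 - (f j).1 := by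
    intro i hi
    rw [hp i hi, add_comm]
    rfl
  have hg2 : ∀ i, i ≤ 2 * n → (H981.path W i).2 = (f (j + i)).2 - (f j).2 := by
    intro i hi
    rw [hp i hi, add_comm]
    rfl
  have hend : H981.path W 0 = H981.path W (2 * n) := by
    rw [hp 0 (Nat.zero_le _), hp (2 * n) le_rfl, Nat.cast_zero, ZMod.natCast_self]
  refine ⟨_, _, ?_, ?_, hd⟩
  · refine le_trans ?_ (key (fun i => (H981.path W i).1) (congrArg Prod.fst hend))
    rw [hg1 _ (htl k).le, hg1 _ (htl 0).le, sub_sub_sub_cancel_right]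
    refine h1.trans (le_of_eq ?_)
    congr 1
    apply Finset.sum_congr rfl
    intro i _
    rw [hg1 _ (htl _).le, hg1 _ (htl _).le, sub_sub_sub_cancel_right]
  · refine le_trans ?_ (key (fun i => (H981.path W i).2) (congrArg Prod.snd hend))
    rw [hg2 _ (htl k).le, hg2 _ (htl 0).le, sub_sub_sub_cancel_right]
    refine h2.trans (le_of_eq ?_)
    congr 1
    apply Finset.sum_congr rfl
    intro i _
    rw [hg2 _ (htl _).le, hg2 _ (htl _).le, sub_sub_sub_cancel_right]

theorem CV_le_sum {n k : ℕ} (hn : 1 ≤ n) {X Y : ℤ} (hX : 0 ≤ X) (hY : 0 ≤ Y)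
    (hXY : (X, Y) ≠ (0, 0)) : (CV n k X Y).ncard ≤
      ∑ p ∈ range (2 * n) ×ˢ (Icc (2 * X) ((2 * n : ℕ) : ℤ) ×ˢ Icc (2 * Y) ((2 * n : ℕ) : ℤ)),
        gk (k + 2) (2 * n) p.2.1 p.2.2 := by
  classical
  have : NeZero (2 * n) := ⟨by omega⟩
  rw [Set.ncard_eq_toFinset_card _ (CV_fin hn k X Y)]
  unfold gk
  rw [← Finset.card_sigma]
  apply card_le_of_decode (fun q : (_ : ℕ × (ℤ × ℤ)) × List St => fun k : ZMod (2 * n) =>
    H981.path q.2 (k - (q.1.1 : ZMod (2 * n))).val - H981.path q.2 (0 - (q.1.1 : ZMod (2 * n))).val)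
  intro f hf
  rw [Set.Finite.mem_toFinset] at hf
  obtain ⟨j, W, hWl, hp, X', Y', h1, h2, h3⟩ := CV_dec hn hX hY hXY hf
  have h4 := dec_nonneg _ _ _ _ h3
  rw [hWl] at h4
  refine ⟨⟨(j.val, (X', Y')), W⟩, ?_, ?_⟩
  · rw [Finset.mem_sigma]
    simp only [Finset.mem_product, Finset.mem_range, Finset.mem_Icc, mem_fs]
    exact ⟨⟨ZMod.val_lt _, ⟨h1, by omega⟩, h2, by omega⟩, h3, hWl⟩
  · funext i
    simp only
    rw [ZMod.natCast_zmod_val, hp _ (ZMod.val_lt _).le, hp _ (ZMod.val_lt _).le,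
      ZMod.natCast_zmod_val, ZMod.natCast_zmod_val, sub_add_cancel, sub_add_cancel, hf.1.1,
      sub_sub_sub_cancel_right]
    exact sub_zero _

end Pool.Agent.U262.SW
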