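import Pool.Agent.U262.SW.Q

/-!
The laws of the variations of walks and of loops.
-/

set_option autoImplicit false

namespace Pool.Agent.U262.SW

open Pool.Agent.TH795.EP Pool.Agent.TH795.EP2 Pool.Agent.TH795.SE2 Pool.Agent.TH262.SawL H981 Finset
open Pool.Agent.Y981.L2

theorem log_bound {T R A L : ℝ} (hT : 0 < T) (h1 : T ≤ Real.exp (A * L) * Real.exp (-R))
    (h2 : Real.exp (-R) ≤ Real.exp (A * L) * T) : |Real.log T + R| ≤ A * L := by
  have g1 := Real.log_le_log hT h1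
  rw [← Real.exp_add, Real.log_exp] at g1
  have g2 := Real.log_le_log (Real.exp_pos _) h2
  rw [Real.log_exp, Real.log_mul (Real.exp_pos _).ne' hT.ne', Real.log_exp] at g2
  rw [abs_le]
  constructor <;> linarith

theorem a_ne_zero {n : ℕ} {x y : ℤ} (hxy : (x, y) ≠ (0, 0)) (hpar : (x + y - n) % 2 = 0)
    (hn : |x| + |y| ≤ n) : a n x y ≠ 0 := by
  have := one_le_a hxy hpar hn
  omega

theorem c_zero : c 0 = 1 := by
  unfold c
  rw [Finset.card_eq_one]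
  refine ⟨[], ?_⟩
  ext w
  rw [mem_fs, Finset.mem_singleton]
  constructor
  · rintro ⟨-, h⟩
    exact List.length_eq_zero_iff.1 h
  · rintro rfl
    refine ⟨?_, rfl⟩
    rw [saw_iff']
    intro i j hij hj
    simp at hj
    omega

theorem sum_a_le_rate : ∃ K : ℝ, 0 ≤ K ∧ ∀ n : ℕ, 2 ≤ n → ∀ X Y : ℤ, 0 ≤ X → 0 ≤ Y →
    (X, Y) ≠ (0, 0) → ∑ p ∈ Icc X n ×ˢ Icc Y n, (a n p.1 p.2 : ℝ) ≤
      q n K * (c n * Real.exp (-(n * Rate ((X : ℝ) / n, (Y : ℝ) / n)))) := by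
  obtain ⟨K, hK, h⟩ := a_le_rate
  refine ⟨K + 12, by positivity, ?_⟩
  intro n hn X Y hX hY hXY
  have h1 : ∀ p ∈ Icc X n ×ˢ Icc Y n, (a n p.1 p.2 : ℝ) ≤
      q n K * (c n * Real.exp (-(n * Rate ((X : ℝ) / n, (Y : ℝ) / n)))) := by
    intro p hp
    rw [Finset.mem_product, Finset.mem_Icc, Finset.mem_Icc] at hp
    exact h n hn X Y p.1 p.2 hX hY hXY hp.1.1 hp.2.1
  refine (Finset.sum_le_sum h1).trans ?_
  rw [Finset.sum_const, nsmul_eq_mul, Finset.card_product, Int.card_Icc, Int.card_Icc]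
  have h2 : ((((n : ℤ) + 1 - X).toNat * ((n : ℤ) + 1 - Y).toNat : ℕ) : ℝ) ≤ q n 12 := by
    have h5 := pow_le_q hn 4
    have h6 : q n (3 * (4 : ℕ)) = q n 12 := by norm_num
    rw [h6] at h5
    refine le_trans ?_ h5
    have a1 : ((n : ℤ) + 1 - X).toNat ≤ n + 1 := by omega
    have a2 : ((n : ℤ) + 1 - Y).toNat ≤ n + 1 := by omega
    have a3 : n + 1 ≤ n ^ 2 := by nlinarith
    have a4 : ((n : ℤ) + 1 - X).toNat * ((n : ℤ) + 1 - Y).toNat ≤ n ^ 4 := by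
      calc ((n : ℤ) + 1 - X).toNat * ((n : ℤ) + 1 - Y).toNat ≤ n ^ 2 * n ^ 2 := by
            exact Nat.mul_le_mul (a1.trans a3) (a2.trans a3)
        _ = n ^ 4 := by ring
    exact_mod_cast a4
  have hc := c_pos n
  have q1 := q_pos n K
  calc ((((n : ℤ) + 1 - X).toNat * ((n : ℤ) + 1 - Y).toNat : ℕ) : ℝ) *
        (q n K * (c n * Real.exp (-(n * Rate ((X : ℝ) / n, (Y : ℝ) / n)))))
      ≤ q n 12 * (q n K * (c n * Real.exp (-(n * Rate ((X : ℝ) / n, (Y : ℝ) / n))))) := by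
        apply mul_le_mul_of_nonneg_right h2
        positivity
    _ = _ := by rw [← mul_assoc, q_mul]; congr 2; ring

/-- **The law of the variation of a walk.** -/
theorem var_law : ∃ K : ℝ, 0 ≤ K ∧ ∀ n : ℕ, 2 ≤ n → ∀ k : ℕ, 1 ≤ k →
    (∀ X Y : ℤ, ge n X Y ≤ vr k n X Y ∧ (vr k n X Y : ℝ) ≤ q n (K * k) * ge n X Y) ∧
    ∀ X Y : ℤ, 0 ≤ X → 0 ≤ Y → (X, Y) ≠ (0, 0) → (X + Y - n) % 2 = 0 → X + Y ≤ n →
      |Real.log ((vr k n X Y : ℝ) / c n) + n * Rate ((X : ℝ) / n, (Y : ℝ) / n)| ≤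
        K * k * Real.log n ^ 2 := by
  obtain ⟨K1, hK1, h1⟩ := vr_le
  obtain ⟨K2, hK2, h2⟩ := sum_a_le_rate
  obtain ⟨K3, hK3, h3⟩ := ldp_words
  refine ⟨3 * K1 + K2 + K3, by positivity, ?_⟩
  intro n hn k hk
  have hk1 : (1 : ℝ) ≤ k := by exact_mod_cast hk
  have e1 : K1 * ((k : ℝ) + 2) ≤ (3 * K1) * k := by nlinarith
  have hc := c_pos n
  constructor
  · intro X Y
    refine ⟨ge_le_vr hk X Y, (h1 n hn k X Y).trans ?_⟩
    have g1 : ∑ p ∈ Icc X n ×ˢ Icc Y n, (a n p.1 p.2 : ℝ) ≤ ge n X Y := by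
      exact_mod_cast sum_a_le_ge n X Y
    have g2 : q n (K1 * (k + 2)) ≤ q n ((3 * K1 + K2 + K3) * k) := q_mono hn (by nlinarith)
    exact mul_le_mul g2 g1 (Finset.sum_nonneg fun _ _ => Nat.cast_nonneg _) (q_pos _ _).le
  · intro X Y hX hY hXY hpar hle
    have hle' : |X| + |Y| ≤ (n : ℤ) := by rw [abs_of_nonneg hX, abs_of_nonneg hY]; exact hle
    have g1 := h3 n hn X Y hXY hpar hle'
    have g2 : a n X Y ≤ vr k n X Y := by
      refine le_trans ?_ (ge_le_vr hk X Y)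
      unfold a ge
      apply Finset.card_le_card
      intro w hw
      rw [mem_fs] at hw ⊢
      exact ⟨⟨hw.1.1, hw.1.2.1.ge, hw.1.2.2.ge⟩, hw.2⟩
    have ha : (0 : ℝ) < a n X Y := by
      by_contra hcon
      have h0 : (a n X Y : ℝ) = 0 := le_antisymm (not_lt.1 hcon) (Nat.cast_nonneg _)
      have h0' : a n X Y = 0 := by exact_mod_cast h0
      exact (a_ne_zero hXY hpar hle') h0'
    have g2' : (a n X Y : ℝ) ≤ vr k n X Y := by exact_mod_cast g2
    have hT : 0 < (vr k n X Y : ℝ) / c n := div_pos (ha.trans_le g2') hc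
    apply log_bound hT
    · have g3 := (h1 n hn k X Y).trans (mul_le_mul_of_nonneg_left (h2 n hn X Y hX hY hXY)
        (q_pos _ _).le)
      rw [div_le_iff₀ hc]
      have g4 : q n (K1 * (k + 2)) * q n K2 ≤ Real.exp ((3 * K1 + K2 + K3) * k * Real.log n ^ 2) := by
        rw [q_mul]
        exact q_mono hn (by nlinarith)
      calc (vr k n X Y : ℝ) ≤ q n (K1 * (k + 2)) *
            (q n K2 * (c n * Real.exp (-(n * Rate ((X : ℝ) / n, (Y : ℝ) / n))))) := g3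
        _ = (q n (K1 * (k + 2)) * q n K2) *
            (c n * Real.exp (-(n * Rate ((X : ℝ) / n, (Y : ℝ) / n)))) := by ring
        _ ≤ Real.exp ((3 * K1 + K2 + K3) * k * Real.log n ^ 2) *
            (c n * Real.exp (-(n * Rate ((X : ℝ) / n, (Y : ℝ) / n)))) := by gcongr
        _ = _ := by ring
    · have g3 : -(n * Rate ((X : ℝ) / n, (Y : ℝ) / n)) ≤
          K3 * Real.log n ^ 2 + Real.log ((a n X Y : ℝ) / c n) := by
        have := (abs_le.1 g1).1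
        linarith
      have g4 := Real.exp_le_exp.2 g3
      rw [Real.exp_add, Real.exp_log (div_pos ha hc)] at g4
      refine g4.trans ?_
      have g5 : Real.exp (K3 * Real.log n ^ 2) ≤
          Real.exp ((3 * K1 + K2 + K3) * k * Real.log n ^ 2) := q_mono hn (by nlinarith)
      have g6 : (a n X Y : ℝ) / c n ≤ (vr k n X Y : ℝ) / c n :=
        div_le_div_of_nonneg_right g2' hc.le
      exact mul_le_mul g5 g6 (div_pos ha hc).le (Real.exp_pos _).le

theorem LM_sub_BX {n m : ℕ} {z : ℤ × ℤ} : LM (2 * n) m z ⊆ BX n z.1 z.2 := by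
  rintro f ⟨hf, hz⟩
  refine ⟨hf, ⟨(m : ZMod (2 * n)), 0, ?_⟩, (m : ZMod (2 * n)), 0, ?_⟩
  · rw [hz, hf.1]; simp
  · rw [hz, hf.1]; simp

theorem LM_sub_CV {n m k : ℕ} (hk : 1 ≤ k) (hm : m < 2 * n) {z : ℤ × ℤ} :
    LM (2 * n) m z ⊆ CV n k z.1 z.2 := by
  rintro f ⟨hf, hz⟩
  refine ⟨hf, 0, fun i => if i = 0 then 0 else m, ?_, ?_, ?_, ?_⟩
  · intro i j hij
    simp only
    split_ifs with g1 g2 g2
    · exact le_rfl
    · exact Nat.zero_le _
    · omega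
    · exact le_rfl
  · intro i
    simp only
    split_ifs
    · omega
    · exact hm
  · have h5 := Finset.single_le_sum (f := fun i : ℕ =>
      |(f (0 + ((if i + 1 = 0 then 0 else m : ℕ) : ZMod (2 * n)))).1 -
        (f (0 + ((if i = 0 then 0 else m : ℕ) : ZMod (2 * n)))).1|) (s := range k)
      (fun i _ => abs_nonneg _) (Finset.mem_range.2 hk)
    simp only [Nat.add_eq_zero_iff, one_ne_zero, and_false, if_false, if_true, zero_add,
      Nat.cast_zero, hf.1, hz, sub_zero, Prod.fst_zero] at h5 ⊢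
    rw [if_neg (by omega), hz]
    have := le_abs_self z.1
    linarith
  · have h5 := Finset.single_le_sum (f := fun i : ℕ =>
      |(f (0 + ((if i + 1 = 0 then 0 else m : ℕ) : ZMod (2 * n)))).2 -
        (f (0 + ((if i = 0 then 0 else m : ℕ) : ZMod (2 * n)))).2|) (s := range k)
      (fun i _ => abs_nonneg _) (Finset.mem_range.2 hk)
    simp only [Nat.add_eq_zero_iff, one_ne_zero, and_false, if_false, if_true, zero_add,
      Nat.cast_zero, hf.1, hz, sub_zero, Prod.snd_zero] at h5 ⊢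
    rw [if_neg (by omega), hz]
    have := le_abs_self z.2
    linarith

/-- **The law of the cyclic variation of a loop.** -/
theorem loop_law : ∃ K : ℝ, 0 ≤ K ∧ ∀ n : ℕ, 2 ≤ n → ∀ X Y : ℤ, 0 ≤ X → 0 ≤ Y →
    (X, Y) ≠ (0, 0) → X + Y ≤ n → (X, Y) ∉ Ext n →
    (∀ k : ℕ, 1 ≤ k → 0 < ((CV n k X Y).ncard : ℝ) / ln n ∧
      |Real.log (((CV n k X Y).ncard : ℝ) / ln n) +
      2 * n * Rate ((X : ℝ) / n, (Y : ℝ) / n)| ≤ K * k * Real.log n ^ 2) ∧
    0 < ((BX n X Y).ncard : ℝ) / ln n ∧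
    |Real.log (((BX n X Y).ncard : ℝ) / ln n) + 2 * n * Rate ((X : ℝ) / n, (Y : ℝ) / n)| ≤
      K * Real.log n ^ 2 := by
  obtain ⟨K1, hK1, h1⟩ := gk_le
  obtain ⟨K2, hK2, h2⟩ := sum_a_le_rate
  obtain ⟨K3, hK3, h3⟩ := ldp_words
  obtain ⟨K4, hK4, h4⟩ := double_le_chord
  obtain ⟨K5, hK5, h5⟩ := norm_lo
  obtain ⟨K6, hK6, h6⟩ := norm_up
  refine ⟨3 * (12 * K1 + 4 * K2 + 12 + K5) + 4 * K3 + K4 + K6, by positivity, ?_⟩
  intro n hn X Y hX hY hXY hle hext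
  have hn0 : (0 : ℝ) < n := by exact_mod_cast (by omega : 0 < n)
  have hln := ln_pos hn
  have hc := c_pos (2 * n)
  obtain ⟨R, hR⟩ : ∃ R, R = 2 * n * Rate ((X : ℝ) / n, (Y : ℝ) / n) := ⟨_, rfl⟩
  rw [← hR]
  have eR : ((2 * n : ℕ) : ℝ) * Rate (((2 * X : ℤ) : ℝ) / ((2 * n : ℕ) : ℝ),
      ((2 * Y : ℤ) : ℝ) / ((2 * n : ℕ) : ℝ)) = R := by
    rw [hR]
    push_cast
    rw [mul_div_mul_left _ _ (two_ne_zero), mul_div_mul_left _ _ (two_ne_zero)]
  have h2XY : (2 * X, 2 * Y) ≠ ((0, 0) : ℤ × ℤ) := two_ne (z := (X, Y)) hXY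
  have n5 := h5 n hn 0 (Nat.zero_le _)
  have n6 := h6 n hn 0 (Nat.zero_le _)
  rw [c_zero, Nat.cast_one, one_mul, Nat.sub_zero] at n5 n6
  -- upper bound
  have upper : ∀ k : ℕ, 1 ≤ k → ((CV n k X Y).ncard : ℝ) / ln n ≤
      q n ((12 * K1 + 4 * K2 + 12 + K5) * k) * Real.exp (-R) := by
    intro k hk
    have hk1 : (1 : ℝ) ≤ k := by exact_mod_cast hk
    rw [div_le_iff₀ hln]
    have g1 : ((CV n k X Y).ncard : ℝ) ≤
        ∑ p ∈ range (2 * n) ×ˢ (Icc (2 * X) ((2 * n : ℕ) : ℤ) ×ˢ Icc (2 * Y) ((2 * n : ℕ) : ℤ)),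
          (gk (k + 2) (2 * n) p.2.1 p.2.2 : ℝ) := by
      exact_mod_cast CV_le_sum (by omega) hX hY hXY
    rw [Finset.sum_product] at g1
    simp only [Finset.sum_const, Finset.card_range, nsmul_eq_mul] at g1
    have g2 : ∑ p ∈ Icc (2 * X) ((2 * n : ℕ) : ℤ) ×ˢ Icc (2 * Y) ((2 * n : ℕ) : ℤ),
        (gk (k + 2) (2 * n) p.1 p.2 : ℝ) ≤ q (2 * n) (K1 * (k + 2)) *
          ∑ p ∈ Icc (2 * X) ((2 * n : ℕ) : ℤ) ×ˢ Icc (2 * Y) ((2 * n : ℕ) : ℤ),
            (a (2 * n) p.1 p.2 : ℝ) := by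
      rw [Finset.mul_sum]
      apply Finset.sum_le_sum
      intro p _
      have := h1 (2 * n) (by omega) (k + 2) (2 * n) le_rfl p.1 p.2
      push_cast at this
      exact this
    have g3 := h2 (2 * n) (by omega) (2 * X) (2 * Y) (by omega) (by omega) h2XY
    rw [eR] at g3
    have g4 : ((2 * n : ℕ) : ℝ) ≤ q n 12 := by
      have h7 := pow_le_q hn 2
      have h8 : q n (3 * (2 : ℕ)) ≤ q n 12 := q_mono hn (by norm_num)
      have hn2 : (2 : ℝ) ≤ n := by exact_mod_cast hn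
      have h9 : ((2 * n : ℕ) : ℝ) ≤ (n : ℝ) ^ 2 := by push_cast; nlinarith
      exact (h9.trans h7).trans h8
    have g5 := q_two hn (mul_nonneg hK1 (by positivity : (0 : ℝ) ≤ (k : ℝ) + 2))
    have g6 := q_two hn hK2
    have g7 : q n 12 * (q n (4 * (K1 * (k + 2))) * (q n (4 * K2) * q n K5)) ≤
        q n ((12 * K1 + 4 * K2 + 12 + K5) * k) := by
      rw [q_mul, q_mul, q_mul]
      apply q_mono hn
      have e1 : 4 * (K1 * ((k : ℝ) + 2)) ≤ 12 * K1 * k := by nlinarith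
      have e2 : 4 * K2 ≤ 4 * K2 * k := by nlinarith
      have e3 : K5 ≤ K5 * k := by nlinarith
      nlinarith
    have s0 : (0 : ℝ) ≤ ∑ p ∈ Icc (2 * X) ((2 * n : ℕ) : ℤ) ×ˢ Icc (2 * Y) ((2 * n : ℕ) : ℤ),
            (a (2 * n) p.1 p.2 : ℝ) := Finset.sum_nonneg fun _ _ => Nat.cast_nonneg _
    have s1 : (0 : ℝ) ≤ ∑ p ∈ Icc (2 * X) ((2 * n : ℕ) : ℤ) ×ˢ Icc (2 * Y) ((2 * n : ℕ) : ℤ),
        (gk (k + 2) (2 * n) p.1 p.2 : ℝ) := Finset.sum_nonneg fun _ _ => Nat.cast_nonneg _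
    have r0 := Real.exp_pos (-R)
    have r1 := q_pos n 12
    have r2 := q_pos n (4 * (K1 * ((k : ℝ) + 2)))
    have r3 := q_pos n (4 * K2)
    have r4 := q_pos n K5
    have r5 := q_pos (2 * n) K2
    calc ((CV n k X Y).ncard : ℝ) ≤ ((2 * n : ℕ) : ℝ) *
          ∑ p ∈ Icc (2 * X) ((2 * n : ℕ) : ℤ) ×ˢ Icc (2 * Y) ((2 * n : ℕ) : ℤ),
            (gk (k + 2) (2 * n) p.1 p.2 : ℝ) := g1
      _ ≤ q n 12 * ∑ p ∈ Icc (2 * X) ((2 * n : ℕ) : ℤ) ×ˢ Icc (2 * Y) ((2 * n : ℕ) : ℤ),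
            (gk (k + 2) (2 * n) p.1 p.2 : ℝ) := mul_le_mul_of_nonneg_right g4 s1
      _ ≤ q n 12 * (q (2 * n) (K1 * (k + 2)) *
          ∑ p ∈ Icc (2 * X) ((2 * n : ℕ) : ℤ) ×ˢ Icc (2 * Y) ((2 * n : ℕ) : ℤ),
            (a (2 * n) p.1 p.2 : ℝ)) := mul_le_mul_of_nonneg_left g2 r1.le
      _ ≤ q n 12 * (q n (4 * (K1 * (k + 2))) *
          (q (2 * n) K2 * (c (2 * n) * Real.exp (-R)))) := by
          apply mul_le_mul_of_nonneg_left _ r1.le
          exact mul_le_mul g5 g3 s0 r2.le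
      _ ≤ q n 12 * (q n (4 * (K1 * (k + 2))) *
          (q n (4 * K2) * ((q n K5 * ln n) * Real.exp (-R)))) := by
          apply mul_le_mul_of_nonneg_left _ r1.le
          apply mul_le_mul_of_nonneg_left _ r2.le
          apply mul_le_mul g6 (mul_le_mul_of_nonneg_right n5 r0.le) (by positivity) r3.le
      _ = (q n 12 * (q n (4 * (K1 * (k + 2))) * (q n (4 * K2) * q n K5))) *
          (Real.exp (-R) * ln n) := by ring
      _ ≤ q n ((12 * K1 + 4 * K2 + 12 + K5) * k) * (Real.exp (-R) * ln n) := by gcongr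
      _ = _ := by ring
  -- lower bound
  obtain ⟨m, hm1, hmn, hLM⟩ := h4 n hn (X, Y) hXY hext
  simp only at hLM
  have hle' : |2 * X| + |2 * Y| ≤ ((2 * n : ℕ) : ℤ) := by
    rw [abs_of_nonneg (by omega), abs_of_nonneg (by omega)]
    push_cast
    omega
  have hpar' : (2 * X + 2 * Y - ((2 * n : ℕ) : ℤ)) % 2 = 0 := by push_cast; omega
  have l1 := h3 (2 * n) (by omega) (2 * X) (2 * Y) h2XY hpar' hle'
  rw [eR] at l1
  have ha : (0 : ℝ) < a (2 * n) (2 * X) (2 * Y) := by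
    by_contra hcon
    have h0 : (a (2 * n) (2 * X) (2 * Y) : ℝ) = 0 := le_antisymm (not_lt.1 hcon) (Nat.cast_nonneg _)
    have h0' : a (2 * n) (2 * X) (2 * Y) = 0 := by exact_mod_cast h0
    exact (a_ne_zero h2XY hpar' hle') h0'
  have l2 : -R ≤ 4 * K3 * Real.log n ^ 2 +
      Real.log ((a (2 * n) (2 * X) (2 * Y) : ℝ) / c (2 * n)) := by
    have e1 := (abs_le.1 l1).1
    have e2 : K3 * Real.log ((2 * n : ℕ) : ℝ) ^ 2 ≤ 4 * K3 * Real.log n ^ 2 := by
      have h7 := pow_le_pow_left₀ (Real.log_natCast_nonneg _) (log_two_mul hn) 2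
      have h8 := mul_le_mul_of_nonneg_left h7 hK3
      linarith
    linarith
  have l3 := Real.exp_le_exp.2 l2
  rw [Real.exp_add, Real.exp_log (div_pos ha hc)] at l3
  have lower : ∀ N : ℝ, ((LM (2 * n) m (X, Y)).ncard : ℝ) ≤ N →
      Real.exp (-R) ≤ q n (4 * K3 + K4 + K6) * (N / ln n) := by
    intro N hN
    refine l3.trans ?_
    have r1 := q_pos n (4 * K3)
    have r2 := q_pos n K4
    have r3 := q_pos n K6
    have hN0 : 0 ≤ N := (Nat.cast_nonneg _).trans hN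
    have e1 : (a (2 * n) (2 * X) (2 * Y) : ℝ) / c (2 * n) ≤ (q n K4 * q n K6) * (N / ln n) := by
      rw [div_le_iff₀ hc]
      calc (a (2 * n) (2 * X) (2 * Y) : ℝ) ≤ q n K4 * (LM (2 * n) m (X, Y)).ncard := hLM
        _ ≤ q n K4 * N := by gcongr
        _ = q n K4 * (N / ln n) * ln n := by field_simp
        _ ≤ q n K4 * (N / ln n) * (q n K6 * c (2 * n)) := by
            apply mul_le_mul_of_nonneg_left n6
            exact mul_nonneg r2.le (div_nonneg hN0 hln.le)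
        _ = _ := by ring
    calc Real.exp (4 * K3 * Real.log n ^ 2) * ((a (2 * n) (2 * X) (2 * Y) : ℝ) / c (2 * n))
        ≤ q n (4 * K3) * ((q n K4 * q n K6) * (N / ln n)) := by
          apply mul_le_mul_of_nonneg_left e1
          exact (Real.exp_pos _).le
      _ = (q n (4 * K3) * (q n K4 * q n K6)) * (N / ln n) := by ring
      _ = _ := by rw [q_mul, q_mul]; congr 2; ring
  have hLMpos : (0 : ℝ) < (LM (2 * n) m (X, Y)).ncard := by
    by_contra hcon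
    have h0 : ((LM (2 * n) m (X, Y)).ncard : ℝ) = 0 :=
      le_antisymm (not_lt.1 hcon) (Nat.cast_nonneg _)
    rw [h0, mul_zero] at hLM
    linarith
  constructor
  · intro k hk
    have hk1 : (1 : ℝ) ≤ k := by exact_mod_cast hk
    have g1 : ((LM (2 * n) m (X, Y)).ncard : ℝ) ≤ (CV n k X Y).ncard := by
      exact_mod_cast Set.ncard_le_ncard (LM_sub_CV (z := (X, Y)) hk hmn) (CV_fin (by omega) k X Y)
    refine ⟨div_pos (hLMpos.trans_le g1) hln, ?_⟩
    apply log_bound (div_pos (hLMpos.trans_le g1) hln)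
    · refine (upper k hk).trans ?_
      apply mul_le_mul_of_nonneg_right _ (Real.exp_pos _).le
      exact q_mono hn (by nlinarith)
    · refine (lower _ g1).trans ?_
      apply mul_le_mul_of_nonneg_right _ (div_nonneg (Nat.cast_nonneg _) hln.le)
      exact q_mono hn (by nlinarith)
  · have g1 : ((LM (2 * n) m (X, Y)).ncard : ℝ) ≤ (BX n X Y).ncard := by
      exact_mod_cast Set.ncard_le_ncard (LM_sub_BX (z := (X, Y))) (BX_fin (by omega) X Y)
    have g2 : ((BX n X Y).ncard : ℝ) ≤ (CV n 3 X Y).ncard := by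
      exact_mod_cast Set.ncard_le_ncard (BX_sub (by omega) X Y) (CV_fin (by omega) 3 X Y)
    refine ⟨div_pos (hLMpos.trans_le g1) hln, ?_⟩
    apply log_bound (div_pos (hLMpos.trans_le g1) hln)
    · refine ((div_le_div_of_nonneg_right g2 hln.le).trans (upper 3 (by norm_num))).trans ?_
      apply mul_le_mul_of_nonneg_right _ (Real.exp_pos _).le
      exact q_mono hn (by push_cast; nlinarith)
    · refine (lower _ g1).trans ?_
      apply mul_le_mul_of_nonneg_right _ (div_nonneg (Nat.cast_nonneg _) hln.le)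
      exact q_mono hn (by nlinarith)

end Pool.Agent.U262.SW
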