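import Pool.Agent.U262.SW.R

/-!
Pairs of disjoint self-avoiding words in a half plane, and four mutually avoiding words.
-/

set_option autoImplicit false

namespace Pool.Agent.U262.SW

open Pool.Agent.TH795.EP Pool.Agent.TH795.EP2 Pool.Agent.TH795.SE2 Pool.Agent.TH262.SawL H981 Finset
open Pool.Agent.Y981.L2

/-- two words which start at `(0, 0)` and `(1, 0)`, in the lower half plane, with no common vertex -/
def Pr (p : List St × List St) : Prop :=
  (Saw p.1 ∧ Saw p.2) ∧ ((∀ k, (H981.path p.1 k).2 ≤ 0) ∧ ∀ k, (H981.path p.2 k).2 ≤ 0) ∧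
  ∀ i j, H981.path p.1 i ≠ ((H981.path p.2 j).1 + 1, (H981.path p.2 j).2)

open Classical in
/-- the pairs with given lengths -/
noncomputable def prF (a b : ℕ) : Finset (List St × List St) :=
  (fs Saw a ×ˢ fs Saw b).filter Pr

theorem mem_prF {a b : ℕ} {p : List St × List St} :
    p ∈ prF a b ↔ (p.1.length = a ∧ p.2.length = b) ∧ Pr p := by
  classical
  unfold prF
  rw [Finset.mem_filter, Finset.mem_product, mem_fs, mem_fs]
  constructor
  · rintro ⟨⟨⟨-, h1⟩, -, h2⟩, h3⟩
    exact ⟨⟨h1, h2⟩, h3⟩
  · rintro ⟨⟨h1, h2⟩, h3⟩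
    exact ⟨⟨⟨h3.1.1, h1⟩, h3.1.2, h2⟩, h3⟩

theorem rv_take (t : List St) (k : ℕ) : (rv t).take k = rv (t.drop (t.length - k)) := by
  unfold rv ng sg
  rw [← List.map_take, ← List.map_take, List.take_reverse]

theorem path_take_min (w : List St) (a k : ℕ) :
    H981.path (w.take a) k = H981.path w (min a k) := by
  unfold H981.path
  rw [List.take_take, min_comm]

theorem ar_le_pr {a b L : ℕ} (h : a + b < L) : ar L ≤ (prF a b).card * c (L - a - b) := by
  classical
  unfold ar c
  rw [← Finset.card_product]
  apply card_le_of_decode (fun q : (List St × List St) × List St => (q.1.1 ++ q.2) ++ rv q.1.2)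
  intro t ht
  rw [mem_fs] at ht
  obtain ⟨⟨hs, hx, hy, hlow⟩, hl⟩ := ht
  have e1 : rv ((rv t).take b) = t.drop (L - b) := by rw [rv_take, rv_rv, hl]
  have e2 : t.take a ++ (t.drop a).take (L - a - b) = t.take (L - b) := by
    rw [show L - b = a + (L - a - b) by omega, List.take_add]
  have hrl : (rv t).length = L := by rw [length_rv, hl]
  refine ⟨((t.take a, (rv t).take b), (t.drop a).take (L - a - b)), ?_, ?_⟩
  · rw [Finset.mem_product, mem_prF, mem_fs]
    refine ⟨⟨⟨?_, ?_⟩, ⟨?_, ?_⟩, ⟨?_, ?_⟩, ?_⟩, ?_, ?_⟩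
    · rw [List.length_take]; omega
    · rw [List.length_take]; omega
    · exact hs.subw (List.take_prefix _ _).isInfix
    · exact (saw_rv hs).subw (List.take_prefix _ _).isInfix
    · intro k
      rw [path_take_min]
      exact hlow _
    · intro k
      rw [path_take_min, path_rv, hy]
      have := hlow (t.length - min b k)
      simp only
      omega
    · intro i j he
      rw [path_take_min, path_take_min, path_rv, hx, hy] at he
      have h1 : H981.path t (min a i) = H981.path t (t.length - min b j) := by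
        rw [he]
        ext
        · simp only; ring
        · simp only; ring
      exact saw_iff'.1 hs (min a i) (t.length - min b j) (by omega) (by omega) h1
    · exact hs.subw ((List.take_prefix _ _).isInfix.trans (List.drop_suffix _ _).isInfix)
    · rw [List.length_take, List.length_drop]; omega
  · simp only
    rw [e1, e2, List.take_append_drop]

theorem pr_lower : ∃ K : ℝ, 0 ≤ K ∧ ∀ N : ℕ, 2 ≤ N → ∀ a b : ℕ, a + b + 4 ≤ N →
    mu ^ (a + b) * q N (-K) ≤ (prF a b).card := by
  obtain ⟨K, hK, hup, hlow⟩ := exists_K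
  refine ⟨2 * K, by positivity, ?_⟩
  intro N hN a b hab
  have hmu := mu_pos
  have hmu1 := one_le_mu
  obtain ⟨j, hj⟩ : ∃ j, j = (a + b) / 2 + 2 := ⟨_, rfl⟩
  have h1 := hlow N hN j (by omega) (by omega)
  have h2 : (ar (2 * j - 1) : ℝ) ≤ (prF a b).card * c (2 * j - 1 - a - b) := by
    exact_mod_cast ar_le_pr (by omega)
  have h3 := hup N hN (2 * j - 1 - a - b) (by omega)
  have hp : (0 : ℝ) ≤ (prF a b).card := Nat.cast_nonneg _
  have h4 : mu ^ (2 * j) * q N (-K) ≤ (prF a b).card * (mu ^ (2 * j - 1 - a - b) * q N K) :=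
    (h1.trans h2).trans (mul_le_mul_of_nonneg_left h3 hp)
  have e1 : mu ^ (2 * j) = mu ^ (a + b) * mu * mu ^ (2 * j - 1 - a - b) := by
    rw [← pow_succ, ← pow_add]; congr 1; omega
  have hm0 : 0 < mu ^ (2 * j - 1 - a - b) := pow_pos hmu _
  have q1 := q_pos N K
  have q2 := q_pos N (-(2 * K))
  have e2 : q N (-(2 * K)) * q N K = q N (-K) := by rw [q_mul]; congr 1; ring
  have h5 : (mu ^ (a + b) * mu * q N (-(2 * K))) * (mu ^ (2 * j - 1 - a - b) * q N K) ≤
      (prF a b).card * (mu ^ (2 * j - 1 - a - b) * q N K) := by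
    refine le_trans (le_of_eq ?_) h4
    rw [e1, ← e2]
    ring
  have h6 := le_of_mul_le_mul_right h5 (mul_pos hm0 q1)
  refine le_trans ?_ h6
  have h7 : mu ^ (a + b) ≤ mu ^ (a + b) * mu := le_mul_of_one_le_right (pow_pos hmu _).le hmu1
  exact mul_le_mul_of_nonneg_right h7 q2.le

/-! ### the arms -/

/-- the first arm -/
def ar1 (u : List St) : List St := [St.S, St.S] ++ u
/-- the second arm -/
def ar2 (v : List St) : List St := [St.E, St.S, St.S] ++ v
/-- rotation -/
def rt (w : List St) : List St := ng (sg w)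

theorem path_rt (w : List St) (k : ℕ) :
    H981.path (rt w) k = (-(H981.path w k).1, -(H981.path w k).2) := by
  unfold rt
  rw [path_ng', path_sg']

theorem length_rt (w : List St) : (rt w).length = w.length := by simp [rt]

theorem rt_rt (w : List St) : rt (rt w) = w := by
  unfold rt
  induction w with
  | nil => rfl
  | cons s w ih =>
    rw [sg_cons, ng_cons, sg_cons, ng_cons, ih]
    cases s <;> rfl

theorem saw_rt {w : List St} (h : Saw w) : Saw (rt w) := h.sg.ng

theorem path_ar1 (u : List St) : H981.path (ar1 u) 0 = (0, 0) ∧ H981.path (ar1 u) 1 = (0, -1) ∧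
    ∀ k, H981.path (ar1 u) (k + 2) = ((H981.path u k).1, (H981.path u k).2 - 2) := by
  refine ⟨path_zero' _, ?_, ?_⟩
  · unfold ar1 H981.path
    simp [dx_cons, dy_cons]
  · intro k
    have := path_append_right [St.S, St.S] u k
    rw [show ([St.S, St.S] : List St).length + k = k + 2 by simp; omega] at this
    unfold ar1
    rw [this]
    ext
    · simp [dx_cons]
    · simp [dy_cons]; ring

theorem path_ar2 (v : List St) : H981.path (ar2 v) 0 = (0, 0) ∧ H981.path (ar2 v) 1 = (1, 0) ∧
    H981.path (ar2 v) 2 = (1, -1) ∧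
    ∀ k, H981.path (ar2 v) (k + 3) = ((H981.path v k).1 + 1, (H981.path v k).2 - 2) := by
  refine ⟨path_zero' _, ?_, ?_, ?_⟩
  · unfold ar2 H981.path
    simp [dx_cons, dy_cons]
  · unfold ar2 H981.path
    simp [dx_cons, dy_cons]
  · intro k
    have := path_append_right [St.E, St.S, St.S] v k
    rw [show ([St.E, St.S, St.S] : List St).length + k = k + 3 by simp; omega] at this
    unfold ar2
    rw [this]
    ext
    · simp [dx_cons]; ring
    · simp [dy_cons]; ring

/-- the region of the two arms -/
def Rg (p : ℤ × ℤ) : Prop := p.2 ≤ -1 ∨ p = (1, 0)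

theorem ar1_region {u : List St} (hu : ∀ k, (H981.path u k).2 ≤ 0) {s : ℕ} (hs : 0 < s) :
    (H981.path (ar1 u) s).2 ≤ -1 := by
  obtain ⟨-, h1, h2⟩ := path_ar1 u
  rcases Nat.lt_or_ge s 2 with h | h
  · have : s = 1 := by omega
    rw [this, h1]
  · obtain ⟨k, rfl⟩ : ∃ k, s = k + 2 := ⟨s - 2, by omega⟩
    rw [h2]
    have := hu k
    simp only
    omega

theorem ar2_region {v : List St} (hv : ∀ k, (H981.path v k).2 ≤ 0) {s : ℕ} (hs : 0 < s) :
    Rg (H981.path (ar2 v) s) := by
  obtain ⟨-, h1, h2, h3⟩ := path_ar2 v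
  rcases Nat.lt_or_ge s 2 with h | h
  · have : s = 1 := by omega
    rw [this, h1]
    exact Or.inr rfl
  · rcases Nat.lt_or_ge s 3 with h' | h'
    · have : s = 2 := by omega
      rw [this, h2]
      exact Or.inl le_rfl
    · obtain ⟨k, rfl⟩ : ∃ k, s = k + 3 := ⟨s - 3, by omega⟩
      rw [h3]
      have := hv k
      left
      simp only
      omega

theorem ar1_saw {u : List St} (hs : Saw u) (hu : ∀ k, (H981.path u k).2 ≤ 0) : Saw (ar1 u) := by
  obtain ⟨h0, h1, h2⟩ := path_ar1 u
  have hl : (ar1 u).length = u.length + 2 := by simp [ar1]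
  rw [saw_iff']
  intro i j hij hj he
  rw [hl] at hj
  rcases Nat.eq_zero_or_pos i with hi | hi
  · subst hi
    have := ar1_region hu (show 0 < j by omega)
    rw [← he, h0] at this
    simp only at this
    omega
  · obtain ⟨j, rfl⟩ : ∃ k, j = k + 2 := ⟨j - 2, by omega⟩
    rw [h2] at he
    rcases Nat.lt_or_ge i 2 with h | h
    · have : i = 1 := by omega
      rw [this, h1] at he
      have h3 := congrArg Prod.snd he
      simp only at h3
      have := hu j
      omega
    · obtain ⟨i, rfl⟩ : ∃ k, i = k + 2 := ⟨i - 2, by omega⟩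
      rw [h2] at he
      obtain ⟨e1, e2⟩ := Prod.mk.inj he
      exact saw_iff'.1 hs i j (by omega) (by omega) (Prod.ext e1 (by omega))

theorem ar2_saw {v : List St} (hs : Saw v) (hv : ∀ k, (H981.path v k).2 ≤ 0) : Saw (ar2 v) := by
  obtain ⟨h0, h1, h2, h3⟩ := path_ar2 v
  have hl : (ar2 v).length = v.length + 3 := by simp [ar2]
  rw [saw_iff']
  intro i j hij hj he
  rw [hl] at hj
  rcases Nat.eq_zero_or_pos i with hi | hi
  · subst hi
    have := ar2_region hv (show 0 < j by omega)
    rw [← he, h0] at this
    rcases this with h | h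
    · simp only at h; omega
    · have := congrArg Prod.fst h
      simp only at this
      omega
  · rcases Nat.lt_or_ge j 3 with h | h
    · have e1 : i = 1 := by omega
      have e2 : j = 2 := by omega
      rw [e1, e2, h1, h2] at he
      have := congrArg Prod.snd he
      simp only at this
      omega
    · obtain ⟨j, rfl⟩ : ∃ k, j = k + 3 := ⟨j - 3, by omega⟩
      rw [h3] at he
      have hj' := hv j
      rcases Nat.lt_or_ge i 2 with h' | h'
      · have e1 : i = 1 := by omega
        rw [e1, h1] at he
        have := congrArg Prod.snd he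
        simp only at this
        omega
      · rcases Nat.lt_or_ge i 3 with h'' | h''
        · have e1 : i = 2 := by omega
          rw [e1, h2] at he
          have := congrArg Prod.snd he
          simp only at this
          omega
        · obtain ⟨i, rfl⟩ : ∃ k, i = k + 3 := ⟨i - 3, by omega⟩
          rw [h3] at he
          obtain ⟨e1, e2⟩ := Prod.mk.inj he
          exact saw_iff'.1 hs i j (by omega) (by omega) (Prod.ext (by omega) (by omega))

theorem ar12_avoid {p : List St × List St} (hp : Pr p) {s t : ℕ}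
    (h : H981.path (ar1 p.1) s = H981.path (ar2 p.2) t) : s = 0 ∧ t = 0 := by
  obtain ⟨-, ⟨hu, hv⟩, hd⟩ := hp
  obtain ⟨a0, a1, a2⟩ := path_ar1 p.1
  obtain ⟨b0, b1, b2, b3⟩ := path_ar2 p.2
  rcases Nat.eq_zero_or_pos s with hs | hs
  · subst hs
    refine ⟨rfl, ?_⟩
    by_contra ht
    have := ar2_region hv (show 0 < t by omega)
    rw [← h, a0] at this
    rcases this with h | h
    · simp only at h; omega
    · have := congrArg Prod.fst h
      simp only at this
      omega
  · exfalso
    have hs1 := ar1_region hu hs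
    rw [h] at hs1
    rcases Nat.lt_or_ge t 3 with ht | ht
    · rcases Nat.lt_or_ge t 2 with ht' | ht'
      · rcases Nat.eq_zero_or_pos t with h0 | h0
        · rw [h0, b0] at hs1; simp only at hs1; omega
        · have : t = 1 := by omega
          rw [this, b1] at hs1; simp only at hs1; omega
      · have : t = 2 := by omega
        rw [this, b2] at h
        rcases Nat.lt_or_ge s 2 with h' | h'
        · have : s = 1 := by omega
          rw [this, a1] at h
          have := congrArg Prod.fst h
          simp only at this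
          omega
        · obtain ⟨s, rfl⟩ : ∃ k, s = k + 2 := ⟨s - 2, by omega⟩
          rw [a2] at h
          have := congrArg Prod.snd h
          have := hu s
          simp only at *
          omega
    · obtain ⟨t, rfl⟩ : ∃ k, t = k + 3 := ⟨t - 3, by omega⟩
      rw [b3] at h
      rcases Nat.lt_or_ge s 2 with h' | h'
      · have : s = 1 := by omega
        rw [this, a1] at h
        have := congrArg Prod.snd h
        have := hv t
        simp only at *
        omega
      · obtain ⟨s, rfl⟩ : ∃ k, s = k + 2 := ⟨s - 2, by omega⟩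
        rw [a2] at h
        obtain ⟨e1, e2⟩ := Prod.mk.inj h
        exact hd s t (Prod.ext e1 (by simp only; omega))

theorem region_disj {p r : ℤ × ℤ} (hp : Rg p) (hr : Rg r) : p ≠ (-r.1, -r.2) := by
  intro h
  rcases hp with hp | hp <;> rcases hr with hr | hr
  · rw [h] at hp; simp only at hp; omega
  · rw [h, hr] at hp; simp only at hp; omega
  · rw [hp] at h
    have := congrArg Prod.snd h
    simp only at this
    omega
  · rw [hp, hr] at h
    have := congrArg Prod.fst h
    simp only at this
    omega

end Pool.Agent.U262.SW
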