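import Pool.Agent.U262.SW.S

/-!
Four mutually avoiding words: the count.
-/

set_option autoImplicit false

namespace Pool.Agent.U262.SW

open Pool.Agent.TH795.EP Pool.Agent.TH795.EP2 Pool.Agent.TH795.SE2 Pool.Agent.TH262.SawL H981 Finset
open Pool.Agent.Y981.L2

/-- four self-avoiding words with given lengths, which meet at the origin only -/
def IsStar (n : Fin 4 → ℕ) (W : Fin 4 → List St) : Prop :=
  (∀ i, Saw (W i) ∧ (W i).length = n i) ∧
  ∀ i j, i ≠ j → ∀ s ≤ n i, ∀ t ≤ n j, H981.path (W i) s = H981.path (W j) t → s = 0 ∧ t = 0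

open Classical in
/-- the stars -/
noncomputable def stF (n : Fin 4 → ℕ) : Finset (Fin 4 → List St) :=
  (Fintype.piFinset fun i => fs Saw (n i)).filter (IsStar n)

theorem mem_stF {n : Fin 4 → ℕ} {W : Fin 4 → List St} : W ∈ stF n ↔ IsStar n W := by
  classical
  unfold stF
  rw [Finset.mem_filter, Fintype.mem_piFinset]
  constructor
  · rintro ⟨-, h⟩; exact h
  · intro h
    refine ⟨fun i => ?_, h⟩
    rw [mem_fs]
    exact h.1 i

/-- the star of two pairs -/
def mkW (n : Fin 4 → ℕ) (p r : List St × List St) : Fin 4 → List St :=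
  ![(ar1 p.1).take (n 0), (ar2 p.2).take (n 1), rt ((ar1 r.1).take (n 2)),
    rt ((ar2 r.2).take (n 3))]

theorem region_ne {p : ℤ × ℤ} (hp : Rg p) : p ≠ (0, 0) := by
  intro h
  rcases hp with hp | hp
  · rw [h] at hp; simp only at hp; omega
  · rw [hp] at h
    have := congrArg Prod.fst h
    simp only at this
    omega

theorem length_ar1 (u : List St) : (ar1 u).length = u.length + 2 := by simp [ar1]

theorem length_ar2 (u : List St) : (ar2 u).length = u.length + 3 := by simp [ar2]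

theorem mkW_star {n : Fin 4 → ℕ} {p r : List St × List St} (hp : p ∈ prF (n 0) (n 1))
    (hr : r ∈ prF (n 2) (n 3)) : IsStar n (mkW n p r) := by
  rw [mem_prF] at hp hr
  obtain ⟨⟨hp1, hp2⟩, hP⟩ := hp
  obtain ⟨⟨hr1, hr2⟩, hR⟩ := hr
  have w0 : mkW n p r 0 = (ar1 p.1).take (n 0) := rfl
  have w1 : mkW n p r 1 = (ar2 p.2).take (n 1) := rfl
  have w2 : mkW n p r 2 = rt ((ar1 r.1).take (n 2)) := rfl
  have w3 : mkW n p r 3 = rt ((ar2 r.2).take (n 3)) := rfl
  have q0 : ∀ s ≤ n 0, H981.path (mkW n p r 0) s = H981.path (ar1 p.1) s := by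
    intro s hs; rw [w0, path_take_min, min_eq_right hs]
  have q1 : ∀ s ≤ n 1, H981.path (mkW n p r 1) s = H981.path (ar2 p.2) s := by
    intro s hs; rw [w1, path_take_min, min_eq_right hs]
  have q2 : ∀ s ≤ n 2, H981.path (mkW n p r 2) s =
      (-(H981.path (ar1 r.1) s).1, -(H981.path (ar1 r.1) s).2) := by
    intro s hs; rw [w2, path_rt, path_take_min, min_eq_right hs]
  have q3 : ∀ s ≤ n 3, H981.path (mkW n p r 3) s =
      (-(H981.path (ar2 r.2) s).1, -(H981.path (ar2 r.2) s).2) := by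
    intro s hs; rw [w3, path_rt, path_take_min, min_eq_right hs]
  have z0 : ∀ i, H981.path (mkW n p r i) 0 = (0, 0) := fun i => path_zero' _
  have r0 : ∀ s ≤ n 0, 0 < s → Rg (H981.path (mkW n p r 0) s) := by
    intro s hs h; rw [q0 s hs]; exact Or.inl (ar1_region hP.2.1.1 h)
  have r1 : ∀ s ≤ n 1, 0 < s → Rg (H981.path (mkW n p r 1) s) := by
    intro s hs h; rw [q1 s hs]; exact ar2_region hP.2.1.2 h
  have r2 : ∀ s ≤ n 2, 0 < s → ∃ y, Rg y ∧ H981.path (mkW n p r 2) s = (-y.1, -y.2) := by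
    intro s hs h; exact ⟨_, Or.inl (ar1_region hR.2.1.1 h), q2 s hs⟩
  have r3 : ∀ s ≤ n 3, 0 < s → ∃ y, Rg y ∧ H981.path (mkW n p r 3) s = (-y.1, -y.2) := by
    intro s hs h; exact ⟨_, ar2_region hR.2.1.2 h, q3 s hs⟩
  have low : ∀ i : Fin 4, i = 0 ∨ i = 1 → ∀ s ≤ n i, 0 < s → Rg (H981.path (mkW n p r i) s) := by
    rintro i (rfl | rfl)
    · exact r0
    · exact r1
  have upp : ∀ i : Fin 4, i = 2 ∨ i = 3 → ∀ s ≤ n i, 0 < s →
      ∃ y, Rg y ∧ H981.path (mkW n p r i) s = (-y.1, -y.2) := by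
    rintro i (rfl | rfl)
    · exact r2
    · exact r3
  have cross : ∀ i j : Fin 4, (i = 0 ∨ i = 1) → (j = 2 ∨ j = 3) → ∀ s ≤ n i, ∀ t ≤ n j,
      H981.path (mkW n p r i) s = H981.path (mkW n p r j) t → s = 0 ∧ t = 0 := by
    intro i j hi hj s hs t ht he
    rcases Nat.eq_zero_or_pos s with h | h
    · subst h
      refine ⟨rfl, ?_⟩
      by_contra hcon
      obtain ⟨y, hy, h2⟩ := upp j hj t ht (by omega)
      rw [z0, h2] at he
      obtain ⟨e1, e2⟩ := Prod.mk.inj he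
      exact region_ne hy (Prod.ext (by simp only; omega) (by simp only; omega))
    · exfalso
      have h1 := low i hi s hs h
      rcases Nat.eq_zero_or_pos t with h' | h'
      · subst h'
        rw [he, z0] at h1
        exact region_ne h1 rfl
      · obtain ⟨y, hy, h2⟩ := upp j hj t ht h'
        exact region_disj h1 hy (he.trans h2)
  have a01 : ∀ s ≤ n 0, ∀ t ≤ n 1,
      H981.path (mkW n p r 0) s = H981.path (mkW n p r 1) t → s = 0 ∧ t = 0 := by
    intro s hs t ht he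
    rw [q0 s hs, q1 t ht] at he
    exact ar12_avoid hP he
  have a23 : ∀ s ≤ n 2, ∀ t ≤ n 3,
      H981.path (mkW n p r 2) s = H981.path (mkW n p r 3) t → s = 0 ∧ t = 0 := by
    intro s hs t ht he
    rw [q2 s hs, q3 t ht] at he
    obtain ⟨e1, e2⟩ := Prod.mk.inj he
    exact ar12_avoid hR (Prod.ext (by omega) (by omega))
  have key : ∀ i j : Fin 4, i < j → ∀ s ≤ n i, ∀ t ≤ n j,
      H981.path (mkW n p r i) s = H981.path (mkW n p r j) t → s = 0 ∧ t = 0 := by
    intro i j hij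
    fin_cases i <;> fin_cases j
    all_goals first
      | exact absurd hij (by decide)
      | exact a01
      | exact a23
      | exact cross _ _ (by simp) (by simp)
  refine ⟨?_, ?_⟩
  · intro i
    fin_cases i
    · refine ⟨(ar1_saw hP.1.1 hP.2.1.1).subw (List.take_prefix _ _).isInfix, ?_⟩
      show ((ar1 p.1).take (n 0)).length = n 0
      rw [List.length_take, length_ar1, hp1]; omega
    · refine ⟨(ar2_saw hP.1.2 hP.2.1.2).subw (List.take_prefix _ _).isInfix, ?_⟩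
      show ((ar2 p.2).take (n 1)).length = n 1
      rw [List.length_take, length_ar2, hp2]; omega
    · refine ⟨saw_rt ((ar1_saw hR.1.1 hR.2.1.1).subw (List.take_prefix _ _).isInfix), ?_⟩
      show (rt ((ar1 r.1).take (n 2))).length = n 2
      rw [length_rt, List.length_take, length_ar1, hr1]; omega
    · refine ⟨saw_rt ((ar2_saw hR.1.2 hR.2.1.2).subw (List.take_prefix _ _).isInfix), ?_⟩
      show (rt ((ar2 r.2).take (n 3))).length = n 3
      rw [length_rt, List.length_take, length_ar2, hr2]; omega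
  · intro i j hij s hs t ht he
    rcases lt_or_gt_of_ne hij with h | h
    · exact key i j h s hs t ht he
    · exact (key j i h t ht s hs he.symm).symm

theorem eq_of_arm {A u u' : List St} {n : ℕ} (h1 : (A ++ u).take n = (A ++ u').take n)
    (h2 : u.drop (n - A.length) = u'.drop (n - A.length)) : u = u' := by
  have h3 := congrArg (List.drop A.length) h1
  rw [List.drop_take, List.drop_take, List.drop_left, List.drop_left] at h3
  rw [← List.take_append_drop (n - A.length) u, h3, h2, List.take_append_drop]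

theorem pr_pr_le (n : Fin 4 → ℕ) : (prF (n 0) (n 1)).card * (prF (n 2) (n 3)).card ≤
    (stF n).card * ((c (n 0 - (n 0 - 2)) * c (n 1 - (n 1 - 3))) *
      (c (n 2 - (n 2 - 2)) * c (n 3 - (n 3 - 3)))) := by
  classical
  unfold c
  simp only [← Finset.card_product]
  apply Finset.card_le_card_of_injOn (fun q : (List St × List St) × (List St × List St) =>
    (mkW n q.1 q.2, ((q.1.1.drop (n 0 - 2), q.1.2.drop (n 1 - 3)),
      (q.2.1.drop (n 2 - 2), q.2.2.drop (n 3 - 3)))))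
  · intro q hq
    rw [Finset.mem_coe, Finset.mem_product] at hq
    have h1 := mkW_star hq.1 hq.2
    have hp := mem_prF.1 hq.1
    have hr := mem_prF.1 hq.2
    rw [Finset.mem_coe]
    simp only [Finset.mem_product, mem_stF, mem_fs]
    refine ⟨h1, ⟨⟨hp.2.1.1.subw (List.drop_suffix _ _).isInfix, ?_⟩,
      hp.2.1.2.subw (List.drop_suffix _ _).isInfix, ?_⟩,
      ⟨hr.2.1.1.subw (List.drop_suffix _ _).isInfix, ?_⟩,
      hr.2.1.2.subw (List.drop_suffix _ _).isInfix, ?_⟩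
    · rw [List.length_drop, hp.1.1]
    · rw [List.length_drop, hp.1.2]
    · rw [List.length_drop, hr.1.1]
    · rw [List.length_drop, hr.1.2]
  · rintro ⟨⟨u, v⟩, ⟨u', v'⟩⟩ hq ⟨⟨x, y⟩, ⟨x', y'⟩⟩ hq' h
    simp only [Prod.mk.injEq] at h
    obtain ⟨hW, ⟨h1, h2⟩, h3, h4⟩ := h
    have e0 : (ar1 u).take (n 0) = (ar1 x).take (n 0) := congrFun hW 0
    have e1 : (ar2 v).take (n 1) = (ar2 y).take (n 1) := congrFun hW 1
    have e2 : rt ((ar1 u').take (n 2)) = rt ((ar1 x').take (n 2)) := congrFun hW 2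
    have e3 : rt ((ar2 v').take (n 3)) = rt ((ar2 y').take (n 3)) := congrFun hW 3
    have e2' := congrArg rt e2
    have e3' := congrArg rt e3
    rw [rt_rt, rt_rt] at e2' e3'
    have f0 : u = x := eq_of_arm e0 h1
    have f1 : v = y := eq_of_arm e1 h2
    have f2 : u' = x' := eq_of_arm e2' h3
    have f3 : v' = y' := eq_of_arm e3' h4
    rw [f0, f1, f2, f3]

/-- **Stars.** -/
theorem star_lower : ∃ K : ℝ, 0 ≤ K ∧ ∀ n : Fin 4 → ℕ,
    ((∏ i, c (n i) : ℕ) : ℝ) ≤ q (n 0 + n 1 + n 2 + n 3 + 2) K * (stF n).card := by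
  obtain ⟨K1, hK1, h1⟩ := pr_lower
  obtain ⟨K2, hK2, h2, -⟩ := exists_K
  refine ⟨4 * (2 * K1 + 8 * K2 + 72), by positivity, ?_⟩
  intro n
  obtain ⟨M, hM⟩ : ∃ M, M = n 0 + n 1 + n 2 + n 3 + 2 := ⟨_, rfl⟩
  obtain ⟨N, hN⟩ : ∃ N, N = n 0 + n 1 + n 2 + n 3 + 4 := ⟨_, rfl⟩
  rw [← hM]
  have hM2 : 2 ≤ M := by omega
  have hN2 : 2 ≤ N := by omega
  have hmu := mu_pos
  have hmu4 := mu_le_four
  have hmu1 := one_le_mu
  have hqq : ∀ A : ℝ, 0 ≤ A → q N A ≤ q M (4 * A) := by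
    intro A hA
    refine le_trans ?_ (q_two hM2 hA)
    unfold q
    apply Real.exp_le_exp.2
    apply mul_le_mul_of_nonneg_left _ hA
    apply pow_le_pow_left₀ (Real.log_natCast_nonneg _)
    exact Real.log_le_log (by exact_mod_cast (by omega : 0 < N)) (by exact_mod_cast (by omega))
  have g1 := h1 N hN2 (n 0) (n 1) (by omega)
  have g2 := h1 N hN2 (n 2) (n 3) (by omega)
  have g3 : (((prF (n 0) (n 1)).card * (prF (n 2) (n 3)).card : ℕ) : ℝ) ≤
      ((stF n).card * ((c (n 0 - (n 0 - 2)) * c (n 1 - (n 1 - 3))) *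
      (c (n 2 - (n 2 - 2)) * c (n 3 - (n 3 - 3)))) : ℕ) := by exact_mod_cast pr_pr_le n
  have hsm : ∀ m ≤ 3, (c m : ℝ) ≤ q N (K2 + 18) := by
    intro m hm
    have e1 := h2 N hN2 m (by omega)
    have e2 : mu ^ m ≤ 2 ^ 6 := by
      calc mu ^ m ≤ mu ^ 3 := pow_le_pow_right₀ hmu1 hm
        _ ≤ 4 ^ 3 := pow_le_pow_left₀ hmu.le hmu4 3
        _ = 2 ^ 6 := by norm_num
    have e3 : (2 : ℝ) ^ 6 ≤ q N 18 := by
      have e4 := pow_le_q hN2 6
      have e5 : (2 : ℝ) ^ 6 ≤ (N : ℝ) ^ 6 := by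
        apply pow_le_pow_left₀ (by norm_num)
        exact_mod_cast hN2
      have e6 : q N (3 * (6 : ℕ)) = q N 18 := by norm_num
      rw [e6] at e4
      exact e5.trans e4
    calc (c m : ℝ) ≤ mu ^ m * q N K2 := e1
      _ ≤ q N 18 * q N K2 := mul_le_mul_of_nonneg_right (e2.trans e3) (q_pos _ _).le
      _ = _ := by rw [q_mul]; congr 1; ring
  have s0 := hsm (n 0 - (n 0 - 2)) (by omega)
  have s1 := hsm (n 1 - (n 1 - 3)) (by omega)
  have s2 := hsm (n 2 - (n 2 - 2)) (by omega)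
  have s3 := hsm (n 3 - (n 3 - 3)) (by omega)
  have hup : ∀ i, (c (n i) : ℝ) ≤ mu ^ (n i) * q N K2 := by
    intro i
    apply h2 N hN2
    have : n i ≤ n 0 + n 1 + n 2 + n 3 := by fin_cases i <;> simp <;> omega
    omega
  have qs := q_pos N (K2 + 18)
  have qk := q_pos N K2
  have q1 := q_pos N (-K1)
  have hst : (0 : ℝ) ≤ (stF n).card := Nat.cast_nonneg _
  -- the product of the counts
  have p1 : ((∏ i, c (n i) : ℕ) : ℝ) ≤ mu ^ (n 0 + n 1) * mu ^ (n 2 + n 3) * q N (4 * K2) := by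
    rw [Fin.prod_univ_four]
    push_cast
    have e1 : (c (n 0) : ℝ) * c (n 1) ≤ (mu ^ (n 0) * q N K2) * (mu ^ (n 1) * q N K2) :=
      mul_le_mul (hup 0) (hup 1) (Nat.cast_nonneg _) (by positivity)
    have e2 : (c (n 0) : ℝ) * c (n 1) * c (n 2) ≤
        (mu ^ (n 0) * q N K2) * (mu ^ (n 1) * q N K2) * (mu ^ (n 2) * q N K2) :=
      mul_le_mul e1 (hup 2) (Nat.cast_nonneg _) (by positivity)
    have e3 : (c (n 0) : ℝ) * c (n 1) * c (n 2) * c (n 3) ≤
        (mu ^ (n 0) * q N K2) * (mu ^ (n 1) * q N K2) * (mu ^ (n 2) * q N K2) *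
          (mu ^ (n 3) * q N K2) :=
      mul_le_mul e2 (hup 3) (Nat.cast_nonneg _) (by positivity)
    refine e3.trans (le_of_eq ?_)
    have e4 : q N (4 * K2) = q N K2 * q N K2 * (q N K2 * q N K2) := by
      rw [q_mul, q_mul]; congr 1; ring
    rw [e4, pow_add, pow_add]
    ring
  have p2 : (mu ^ (n 0 + n 1) * q N (-K1)) * (mu ^ (n 2 + n 3) * q N (-K1)) ≤
      (stF n).card * q N (4 * (K2 + 18)) := by
    have e1 := mul_le_mul g1 g2 (by positivity) (Nat.cast_nonneg _)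
    refine e1.trans ?_
    push_cast at g3
    refine g3.trans ?_
    apply mul_le_mul_of_nonneg_left _ hst
    have e2 := mul_le_mul s0 s1 (Nat.cast_nonneg _) qs.le
    have e3 := mul_le_mul s2 s3 (Nat.cast_nonneg _) qs.le
    have e4 := mul_le_mul e2 e3 (by positivity) (by positivity)
    refine e4.trans (le_of_eq ?_)
    rw [q_mul, q_mul]
    congr 1
    ring
  have e5 : q N (2 * K1) * (q N (-K1) * q N (-K1)) = 1 := by
    rw [q_mul, q_mul, show 2 * K1 + (-K1 + -K1) = 0 by ring, q_zero]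
  have e6 : q N (2 * K1 + 4 * (K2 + 18) + 4 * K2) ≤ q M (4 * (2 * K1 + 8 * K2 + 72)) := by
    refine le_trans (le_of_eq ?_) (hqq (2 * K1 + 8 * K2 + 72) (by positivity))
    congr 1
    ring
  calc ((∏ i, c (n i) : ℕ) : ℝ) ≤ mu ^ (n 0 + n 1) * mu ^ (n 2 + n 3) * q N (4 * K2) := p1
    _ = q N (2 * K1) * ((mu ^ (n 0 + n 1) * q N (-K1)) * (mu ^ (n 2 + n 3) * q N (-K1))) *
        q N (4 * K2) := by
        rw [show q N (2 * K1) * ((mu ^ (n 0 + n 1) * q N (-K1)) *
          (mu ^ (n 2 + n 3) * q N (-K1))) = (q N (2 * K1) * (q N (-K1) * q N (-K1))) *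
          (mu ^ (n 0 + n 1) * mu ^ (n 2 + n 3)) by ring, e5, one_mul]
    _ ≤ q N (2 * K1) * ((stF n).card * q N (4 * (K2 + 18))) * q N (4 * K2) := by
        apply mul_le_mul_of_nonneg_right _ (q_pos _ _).le
        exact mul_le_mul_of_nonneg_left p2 (q_pos _ _).le
    _ = q N (2 * K1 + 4 * (K2 + 18) + 4 * K2) * (stF n).card := by
        rw [← q_mul, ← q_mul]; ring
    _ ≤ _ := mul_le_mul_of_nonneg_right e6 hst

end Pool.Agent.U262.SW
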