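import Pool.Agent.U262.SW.T

/-!
Symmetric self-avoiding loops: the upper bound.
-/

set_option autoImplicit false

namespace Pool.Agent.U262.SW

open Pool.Agent.TH795.EP Pool.Agent.TH795.EP2 Pool.Agent.TH795.SE2 Pool.Agent.TH262.SawL H981 Finset
open Pool.Agent.Y981.L2

/-- the loops which are mapped to themselves by a map `p ↦ σ p + v` -/
def Sym (σ : ℤ × ℤ → ℤ × ℤ) (n : ℕ) : Set (ZMod (2 * n) → ℤ × ℤ) :=
  {f | IsLoop (2 * n) f ∧ ∃ (v : ℤ × ℤ) (s : ZMod (2 * n)),
    (∀ i, f (s + i) = σ (f i) + v) ∨ ∀ i, f (s - i) = σ (f i) + v}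

theorem Sym_fin (σ : ℤ × ℤ → ℤ × ℤ) {n : ℕ} (hn : 1 ≤ n) : (Sym σ n).Finite :=
  (loops_fin (by omega)).subset fun _ hf => hf.1

/-- involutions -/
structure Inv2 (σ : ℤ × ℤ → ℤ × ℤ) (n : ℕ) : Prop where
  add : ∀ p r, σ (p + r) = σ p + σ r
  inv : ∀ p, σ (σ p) = p
  fix : ∀ f : ZMod (2 * n) → ℤ × ℤ, IsLoop (2 * n) f → ¬ ∀ i, σ (f i) = f i

theorem Inv2.zero {σ : ℤ × ℤ → ℤ × ℤ} {n : ℕ} (h : Inv2 σ n) : σ 0 = 0 := by
  have := h.add 0 0
  rw [add_zero] at this
  exact left_eq_add.1 this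

theorem Inv2.neg {σ : ℤ × ℤ → ℤ × ℤ} {n : ℕ} (h : Inv2 σ n) (p : ℤ × ℤ) : σ (-p) = -σ p := by
  have := h.add p (-p)
  rw [add_neg_cancel, h.zero] at this
  exact (neg_eq_of_add_eq_zero_right this.symm).symm

theorem Inv2.sub {σ : ℤ × ℤ → ℤ × ℤ} {n : ℕ} (h : Inv2 σ n) (p r : ℤ × ℤ) :
    σ (p - r) = σ p - σ r := by
  rw [sub_eq_add_neg, h.add, h.neg, ← sub_eq_add_neg]

theorem val_half {n : ℕ} (hn : 1 ≤ n) (s : ZMod (2 * n)) (h : s + s = 0) :
    s = 0 ∨ s = (n : ZMod (2 * n)) := by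
  have : NeZero (2 * n) := ⟨by omega⟩
  have h1 : ((s.val + s.val : ℕ) : ZMod (2 * n)) = 0 := by
    push_cast
    rw [ZMod.natCast_zmod_val]
    exact h
  rw [ZMod.natCast_eq_zero_iff] at h1
  have h2 := ZMod.val_lt s
  obtain ⟨k, hk⟩ := h1
  have h3 : s.val = n * k := by nlinarith
  have hk2 : k < 2 := by
    by_contra hcon
    push Not at hcon
    have : n * 2 ≤ n * k := Nat.mul_le_mul_left n hcon
    omega
  have e : s = ((s.val : ℕ) : ZMod (2 * n)) := (ZMod.natCast_zmod_val s).symm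
  interval_cases k
  · left
    rw [e, h3]
    simp
  · right
    rw [e, h3, mul_one]

/-- the first half of a shifted loop -/
theorem half_word {n : ℕ} (hn : 2 ≤ n) {g : ZMod (2 * n) → ℤ × ℤ} (hg : IsLoop (2 * n) g) :
    ∃ u : List St, Saw u ∧ u.length = n ∧ ∀ k ≤ n, H981.path u k = g (k : ZMod (2 * n)) := by
  have hmem : g ∈ LM (2 * n) n (g (n : ZMod (2 * n))) := ⟨hg, rfl⟩
  obtain ⟨u, v, hu, hv, hul, hvl, huz, hvz, pu, pv⟩ := arcs (by omega) (by omega) hmem
  exact ⟨u, hu, hul, pu⟩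

/-- decoding -/
noncomputable def GG (σ : ℤ × ℤ → ℤ × ℤ) (n tag : ℕ) (e : ℤ × ℤ) (u : List St)
    (k : ZMod (2 * n)) : ℤ × ℤ :=
  if tag = 0 then (if k.val ≤ n then H981.path u k.val
    else σ (H981.path u (k.val - n)) + H981.path u n)
  else if tag = 1 then (if k.val ≤ n then H981.path u k.val
    else σ (H981.path u (2 * n - k.val)))
  else (if k.val < n then H981.path u k.val else σ (H981.path u (2 * n - 1 - k.val)) + e)

theorem sym_decode {σ : ℤ × ℤ → ℤ × ℤ} {n : ℕ} (hn : 2 ≤ n) (hσ : Inv2 σ n)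
    {f : ZMod (2 * n) → ℤ × ℤ} (hf : f ∈ Sym σ n) :
    ∃ (tag : ℕ) (a : ZMod (2 * n)) (e : ℤ × ℤ) (u : List St), tag < 3 ∧
      (e.1 ∈ Icc (-1 : ℤ) 1 ∧ e.2 ∈ Icc (-1 : ℤ) 1) ∧ (Saw u ∧ u.length = n) ∧
      ∀ k, f (k + a) - f a = GG σ n tag e u k := by
  have : NeZero (2 * n) := ⟨by omega⟩
  have hM : ((2 * n : ℕ) : ZMod (2 * n)) = 0 := ZMod.natCast_self _
  obtain ⟨hl, v, s, hs | hs⟩ := hf
  · -- rotation of the indices
    have h1 : ∀ i, f (s + s + i) = f i + (σ v + v) := by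
      intro i
      rw [add_assoc, hs, hs, hσ.add, hσ.inv, add_assoc]
    have h2 : ∀ m : ℕ, f (m • (s + s)) = m • (σ v + v) := by
      intro m
      induction m with
      | zero => rw [zero_smul, zero_smul]; exact hl.1
      | succ m ih => rw [succ_nsmul', h1, ih, succ_nsmul]
    have h3 := h2 (2 * n)
    have h4 : (2 * n) • (s + s) = 0 := by
      rw [nsmul_eq_mul, hM, zero_mul]
    rw [h4, hl.1] at h3
    have h5 : σ v + v = 0 := by
      have e1 := congrArg Prod.fst h3
      have e2 := congrArg Prod.snd h3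
      rw [Prod.smul_fst, nsmul_eq_mul] at e1
      rw [Prod.smul_snd, nsmul_eq_mul] at e2
      have hne : ((2 * n : ℕ) : ℤ) ≠ 0 := by exact_mod_cast (by omega : 2 * n ≠ 0)
      have e1' : ((2 * n : ℕ) : ℤ) * (σ v + v).1 = 0 := e1.symm
      have e2' : ((2 * n : ℕ) : ℤ) * (σ v + v).2 = 0 := e2.symm
      have e3 := (mul_eq_zero.1 e1').resolve_left hne
      have e4 := (mul_eq_zero.1 e2').resolve_left hne
      exact Prod.ext e3 e4
    have h6 : s + s = 0 := by
      have := h1 0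
      rw [h5, add_zero, add_zero] at this
      exact hl.2.1 this
    rcases val_half (by omega) s h6 with h7 | h7
    · exfalso
      apply hσ.fix f hl
      intro i
      have h8 := hs 0
      rw [h7, add_zero, hl.1] at h8
      have h9 : v = 0 := by
        have e0 : σ (0 : ℤ × ℤ) = 0 := hσ.zero
        rw [e0, zero_add] at h8
        exact h8.symm
      have h10 := hs i
      rw [h7, zero_add, h9, add_zero] at h10
      exact h10.symm
    · obtain ⟨u, hu, hul, pu⟩ := half_word hn hl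
      refine ⟨0, 0, 0, u, by omega, by simp, ⟨hu, hul⟩, ?_⟩
      intro k
      have hk := ZMod.val_lt k
      have hv : v = f (n : ZMod (2 * n)) := by
        have h8 := hs 0
        rw [h7, add_zero, hl.1] at h8
        have e0 : σ (0 : ℤ × ℤ) = 0 := hσ.zero
        rw [e0, zero_add] at h8
        exact h8.symm
      unfold GG
      rw [if_pos rfl, add_zero, hl.1]
      have e0 : f k - (0 : ℤ × ℤ) = f k := sub_zero _
      rw [e0]
      split_ifs with h
      · rw [pu _ h, ZMod.natCast_zmod_val]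
      · rw [pu _ (by omega), pu n le_rfl, ← hv]
        have h9 := hs ((k.val - n : ℕ) : ZMod (2 * n))
        rw [h7, ← Nat.cast_add, show n + (k.val - n) = k.val by omega, ZMod.natCast_zmod_val] at h9
        exact h9
  · -- reflection of the indices
    rcases Nat.even_or_odd s.val with ⟨t, ht⟩ | ⟨t, ht⟩
    · -- even
      obtain ⟨a, ha⟩ : ∃ a : ZMod (2 * n), a = (t : ZMod (2 * n)) := ⟨_, rfl⟩
      have hsa : s = a + a := by
        rw [← ZMod.natCast_zmod_val s, ht, ha]
        push_cast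
        ring
      obtain ⟨u, hu, hul, pu⟩ := half_word hn (loop_shift hl a)
      refine ⟨1, a, 0, u, by omega, by simp, ⟨hu, hul⟩, ?_⟩
      have h1 : ∀ k, f (a - k) = σ (f (a + k)) + v := by
        intro k
        rw [← hs, hsa]
        congr 1
        ring
      have h2 : f a = σ (f a) + v := by
        have := h1 0
        rwa [sub_zero, add_zero] at this
      have h3 : ∀ k, f (-k + a) - f a = σ (f (k + a) - f a) := by
        intro k
        rw [hσ.sub, show -k + a = a - k by ring, h1, add_comm a k]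
        have h5 : σ (f (k + a)) + v - f a = σ (f (k + a)) + v - (σ (f a) + v) := by rw [← h2]
        rw [h5]
        abel
      intro k
      have hk := ZMod.val_lt k
      unfold GG
      rw [if_neg one_ne_zero, if_pos rfl]
      split_ifs with h
      · rw [pu _ h, ZMod.natCast_zmod_val]
      · rw [pu _ (by omega), ← h3]
        have e1 : -((2 * n - k.val : ℕ) : ZMod (2 * n)) = k := by
          rw [Nat.cast_sub hk.le, hM, ZMod.natCast_zmod_val]
          ring
        rw [e1]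
    · -- odd
      obtain ⟨a, ha⟩ : ∃ a : ZMod (2 * n), a = ((t + 1 : ℕ) : ZMod (2 * n)) := ⟨_, rfl⟩
      have hsa : s = a + a - 1 := by
        rw [← ZMod.natCast_zmod_val s, ht, ha]
        push_cast
        ring
      obtain ⟨u, hu, hul, pu⟩ := half_word hn (loop_shift hl a)
      have hb := hl.2.2 (a - 1)
      rw [sub_add_cancel] at hb
      have hb1 := abs_nonneg ((f a).1 - (f (a - 1)).1)
      have hb2 := abs_nonneg ((f a).2 - (f (a - 1)).2)
      have hb3 : |(f a).1 - (f (a - 1)).1| ≤ 1 := by omega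
      have hb4 : |(f a).2 - (f (a - 1)).2| ≤ 1 := by omega
      rw [abs_le] at hb3 hb4
      refine ⟨2, a, f (a - 1) - f a, u, by omega, ?_, ⟨hu, hul⟩, ?_⟩
      · rw [Finset.mem_Icc, Finset.mem_Icc]
        simp only [Prod.fst_sub, Prod.snd_sub]
        omega
      have h1 : ∀ k, f (a - 1 - k) = σ (f (a + k)) + v := by
        intro k
        rw [← hs, hsa]
        congr 1
        ring
      have h2 : f (a - 1) = σ (f a) + v := by
        have := h1 0
        rwa [sub_zero, add_zero] at this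
      have h3 : ∀ k, f (-1 - k + a) - f a = σ (f (k + a) - f a) + (f (a - 1) - f a) := by
        intro k
        rw [hσ.sub, show -1 - k + a = a - 1 - k by ring, h1, add_comm a k, h2]
        abel
      intro k
      have hk := ZMod.val_lt k
      unfold GG
      rw [if_neg (by norm_num), if_neg (by norm_num)]
      split_ifs with h
      · rw [pu _ h.le, ZMod.natCast_zmod_val]
      · rw [pu _ (by omega), ← h3]
        have e1 : -1 - ((2 * n - 1 - k.val : ℕ) : ZMod (2 * n)) = k := by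
          rw [Nat.cast_sub (by omega), Nat.cast_sub (by omega), hM, ZMod.natCast_zmod_val]
          push_cast
          ring
        rw [e1]

theorem sym_upper {σ : ℤ × ℤ → ℤ × ℤ} {n : ℕ} (hn : 2 ≤ n) (hσ : Inv2 σ n) :
    (Sym σ n).ncard ≤ (3 * (2 * n * 9)) * c n := by
  classical
  have : NeZero (2 * n) := ⟨by omega⟩
  rw [Set.ncard_eq_toFinset_card _ (Sym_fin σ (by omega))]
  have e : (3 * (2 * n * 9)) * c n = ((range 3 ×ˢ (range (2 * n) ×ˢ (Icc (-1 : ℤ) 1 ×ˢ
      Icc (-1 : ℤ) 1))) ×ˢ fs Saw n).card := by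
    simp only [Finset.card_product, Finset.card_range, Int.card_Icc]
    norm_num
    rfl
  rw [e]
  apply card_le_of_decode (fun q => fun k : ZMod (2 * n) =>
    GG σ n q.1.1 q.1.2.2 q.2 (k - (q.1.2.1 : ZMod (2 * n))) -
      GG σ n q.1.1 q.1.2.2 q.2 (0 - (q.1.2.1 : ZMod (2 * n))))
  intro f hf
  rw [Set.Finite.mem_toFinset] at hf
  obtain ⟨tag, a, e, u, h1, h2, h3, h4⟩ := sym_decode hn hσ hf
  refine ⟨((tag, (a.val, e)), u), ?_, ?_⟩
  · simp only [Finset.mem_product, Finset.mem_range, mem_fs]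
    exact ⟨⟨h1, ZMod.val_lt _, h2⟩, h3⟩
  · funext k
    simp only
    rw [ZMod.natCast_zmod_val, ← h4, ← h4, sub_add_cancel, sub_add_cancel, hf.1.1,
      sub_sub_sub_cancel_right]
    exact sub_zero _

end Pool.Agent.U262.SW
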