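import Pool.Agent.U262.SW.U

/-!
Symmetric self-avoiding loops: the lower bounds.
-/

set_option autoImplicit false

namespace Pool.Agent.U262.SW

open Pool.Agent.TH795.EP Pool.Agent.TH795.EP2 Pool.Agent.TH795.SE2 Pool.Agent.TH262.SawL H981 Finset
open Pool.Agent.Y981.L2

theorem build {σ : ℤ × ℤ → ℤ × ℤ} {n m : ℕ} (hn : 2 ≤ n) (hm : m < 2 * n) (S : Finset (List St))
    (Wf : List St → List St)
    (h : ∀ w ∈ S, w.length = m ∧ (Wf w).length = 2 * n ∧ (dx (Wf w) = 0 ∧ dy (Wf w) = 0) ∧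
      (∀ i j, i < j → j < 2 * n → H981.path (Wf w) i ≠ H981.path (Wf w) j) ∧
      (∀ k ≤ m, H981.path (Wf w) k = H981.path w k) ∧
      ∃ (v : ℤ × ℤ) (s : ZMod (2 * n)),
        (∀ i : ZMod (2 * n), H981.path (Wf w) (s + i).val = σ (H981.path (Wf w) i.val) + v) ∨
        ∀ i : ZMod (2 * n), H981.path (Wf w) (s - i).val = σ (H981.path (Wf w) i.val) + v) :
    S.card ≤ (Sym σ n).ncard := by
  classical
  have : NeZero (2 * n) := ⟨by omega⟩
  rw [Set.ncard_eq_toFinset_card _ (Sym_fin σ (by omega))]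
  apply Finset.card_le_card_of_injOn (fun w => fun i : ZMod (2 * n) => H981.path (Wf w) i.val)
  · intro w hw
    obtain ⟨h1, h2, ⟨h3, h4⟩, h5, h6, h7⟩ := h w hw
    rw [Finset.mem_coe, Set.Finite.mem_toFinset]
    exact ⟨loop_of (by omega) h2 h3 h4 h5, h7⟩
  · intro w hw w' hw' he
    obtain ⟨h1, h2, -, -, h6, -⟩ := h w hw
    obtain ⟨h1', h2', -, -, h6', -⟩ := h w' hw'
    apply word_ext (by rw [h1, h1'])
    intro k hk
    rw [h1] at hk
    rw [← h6 k hk, ← h6' k hk]
    have := congrFun he (k : ZMod (2 * n))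
    simp only at this
    rwa [ZMod.val_natCast_of_lt (by omega)] at this

theorem rel_rot {g : ℕ → ℤ × ℤ} {σ : ℤ × ℤ → ℤ × ℤ} {n : ℕ} (hn : 2 ≤ n)
    (ha : ∀ p r, σ (p + r) = σ p + σ r) (hi : ∀ p, σ (σ p) = p) {v : ℤ × ℤ} (hv : σ v + v = 0)
    (h : ∀ k < n, g (n + k) = σ (g k) + v) (i : ZMod (2 * n)) :
    g ((n : ZMod (2 * n)) + i).val = σ (g i.val) + v := by
  have : NeZero (2 * n) := ⟨by omega⟩
  have hM : ((2 * n : ℕ) : ZMod (2 * n)) = 0 := ZMod.natCast_self _
  have hlt := ZMod.val_lt i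
  by_cases hc : i.val < n
  · have e : ((n : ZMod (2 * n)) + i).val = n + i.val := by
      nth_rw 1 [← ZMod.natCast_zmod_val i]
      rw [← Nat.cast_add, ZMod.val_natCast_of_lt (by omega)]
    rw [e, h _ hc]
  · obtain ⟨j, hj⟩ : ∃ j, i.val = n + j := ⟨i.val - n, by omega⟩
    have e : ((n : ZMod (2 * n)) + i).val = j := by
      rw [← ZMod.natCast_zmod_val i, hj, ← Nat.cast_add, show n + (n + j) = 2 * n + j by ring,
        Nat.cast_add, hM, zero_add, ZMod.val_natCast_of_lt (by omega)]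
    rw [e, hj, h j (by omega), ha, hi, add_assoc, hv, add_zero]

theorem rel_ref {g : ℕ → ℤ × ℤ} {σ : ℤ × ℤ → ℤ × ℤ} {n : ℕ} (hn : 2 ≤ n)
    (ha : ∀ p r, σ (p + r) = σ p + σ r) (hi : ∀ p, σ (σ p) = p) {v : ℤ × ℤ} (hv : σ v + v = 0)
    (h : ∀ k < n, g (2 * n - 1 - k) = σ (g k) + v) (i : ZMod (2 * n)) :
    g (-1 - i).val = σ (g i.val) + v := by
  have : NeZero (2 * n) := ⟨by omega⟩
  have hM : ((2 * n : ℕ) : ZMod (2 * n)) = 0 := ZMod.natCast_self _
  have hlt := ZMod.val_lt i
  have e : (-1 - i).val = 2 * n - 1 - i.val := by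
    have e1 : -1 - i = ((2 * n - 1 - i.val : ℕ) : ZMod (2 * n)) := by
      rw [Nat.cast_sub (by omega), Nat.cast_sub (by omega), hM, ZMod.natCast_zmod_val]
      push_cast
      ring
    rw [e1, ZMod.val_natCast_of_lt (by omega)]
  rw [e]
  by_cases hc : i.val < n
  · exact h _ hc
  · have h1 := h (2 * n - 1 - i.val) (by omega)
    rw [show 2 * n - 1 - (2 * n - 1 - i.val) = i.val by omega] at h1
    rw [h1, ha, hi, add_assoc, hv, add_zero]

theorem rel_ref0 {g : ℕ → ℤ × ℤ} {σ : ℤ × ℤ → ℤ × ℤ} {n : ℕ} (hn : 2 ≤ n)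
    (hi : ∀ p, σ (σ p) = p) (hg : g (2 * n) = g 0)
    (h : ∀ k ≤ n, g (2 * n - k) = σ (g k)) (i : ZMod (2 * n)) :
    g (0 - i).val = σ (g i.val) + 0 := by
  have : NeZero (2 * n) := ⟨by omega⟩
  have hM : ((2 * n : ℕ) : ZMod (2 * n)) = 0 := ZMod.natCast_self _
  have hlt := ZMod.val_lt i
  rw [add_zero]
  rcases Nat.eq_zero_or_pos i.val with h0 | h0
  · have e0 : i = 0 := (ZMod.val_eq_zero i).1 h0
    subst e0
    rw [sub_zero, h0]
    have := h 0 (by omega)
    rw [Nat.sub_zero, hg] at this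
    exact this
  · have e : (0 - i).val = 2 * n - i.val := by
      have e1 : 0 - i = ((2 * n - i.val : ℕ) : ZMod (2 * n)) := by
        rw [Nat.cast_sub (by omega), hM, ZMod.natCast_zmod_val]
      rw [e1, ZMod.val_natCast_of_lt (by omega)]
    rw [e]
    by_cases hc : i.val ≤ n
    · exact h _ hc
    · have h1 := h (2 * n - i.val) (by omega)
      rw [show 2 * n - (2 * n - i.val) = i.val by omega] at h1
      rw [h1, hi]

/-! ### words which end near their start -/

theorem ar_one : 1 ≤ ar 1 := by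
  unfold ar
  rw [Nat.one_le_iff_ne_zero, ← Nat.pos_iff_ne_zero, Finset.card_pos]
  refine ⟨[St.E], ?_⟩
  rw [mem_fs]
  refine ⟨⟨?_, rfl, rfl, ?_⟩, rfl⟩
  · rw [saw_iff']
    intro i j hij hj he
    have e1 : i = 0 := by simp at hj; omega
    have e2 : j = 1 := by simp at hj; omega
    rw [e1, e2] at he
    exact absurd he (by decide)
  · intro k
    rcases Nat.eq_zero_or_pos k with h | h
    · rw [h]; decide
    · rw [path_ge (show ([St.E] : List St).length ≤ k from h)]
      decide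

theorem ar_low : ∃ K : ℝ, 0 ≤ K ∧ ∀ N : ℕ, 2 ≤ N → ∀ m : ℕ, m ≤ N → Odd m →
    mu ^ m * q N (-K) ≤ ar m := by
  obtain ⟨K, hK, -, hlow⟩ := exists_K
  refine ⟨K + 6, by positivity, ?_⟩
  intro N hN m hm ho
  obtain ⟨j, hj⟩ := ho
  have hmu := mu_pos
  have hmu1 := one_le_mu
  rcases Nat.eq_zero_or_pos j with h0 | h0
  · have e : m = 1 := by omega
    rw [e, pow_one]
    have h1 : (1 : ℝ) ≤ ar 1 := by exact_mod_cast ar_one
    refine le_trans ?_ h1
    have h2 := pow_le_q hN 2
    have h3 : (4 : ℝ) ≤ (N : ℝ) ^ 2 := by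
      have : (2 : ℝ) ≤ N := by exact_mod_cast hN
      nlinarith
    have h4 : mu ≤ q N 6 := by
      have : (3 : ℝ) * (2 : ℕ) = 6 := by norm_num
      rw [this] at h2
      exact mu_le_four.trans (h3.trans h2)
    have h5 : q N (-(K + 6)) ≤ q N (-6) := q_mono hN (by linarith)
    calc mu * q N (-(K + 6)) ≤ q N 6 * q N (-6) :=
          mul_le_mul h4 h5 (q_pos _ _).le (q_pos _ _).le
      _ = 1 := by rw [q_mul, add_neg_cancel, q_zero]
  · have h1 := hlow N hN (j + 1) (by omega) (by omega)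
    rw [show 2 * (j + 1) - 1 = m by omega] at h1
    refine le_trans ?_ h1
    apply mul_le_mul
    · exact pow_le_pow_right₀ hmu1 (by omega)
    · exact q_mono hN (by linarith)
    · exact (q_pos _ _).le
    · positivity

theorem ar_le_a_one (m : ℕ) : ar m ≤ a m 1 0 := by
  unfold ar a
  apply card_le_of_decode id
  intro t ht
  rw [mem_fs] at ht
  refine ⟨t, ?_, rfl⟩
  rw [mem_fs]
  exact ⟨⟨ht.1.1, ht.1.2.1, ht.1.2.2.1⟩, ht.2⟩

theorem ar_le_a_diag (m : ℕ) : ar m ≤ a (m + 1) 1 1 := by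
  unfold ar a
  apply card_le_of_decode (fun w => w.take m)
  intro t ht
  rw [mem_fs] at ht
  obtain ⟨⟨hs, hx, hy, hlow⟩, hl⟩ := ht
  refine ⟨t ++ [St.N], ?_, ?_⟩
  · rw [mem_fs]
    refine ⟨⟨?_, ?_, ?_⟩, by simp [hl]⟩
    · rw [saw_iff']
      intro i j hij hj
      rw [List.length_append] at hj
      have hj' : j ≤ t.length + 1 := by simpa using hj
      rcases Nat.lt_or_ge j (t.length + 1) with h | h
      · rw [path_append_left (by omega), path_append_left (by omega)]
        exact saw_iff'.1 hs i j hij (by omega)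
      · have e : j = t.length + 1 := by omega
        rw [path_append_left (by omega), e, path_append_right]
        intro he
        have h1 := congrArg Prod.snd he
        have h2 := hlow i
        rw [h1, hy] at h2
        have h3 : (H981.path [St.N] 1).2 = 1 := by decide
        simp only at h2
        omega
    · rw [dx_append, hx]; simp [dx_cons]
    · rw [dy_append, hy]; simp [dy_cons]
  · simp [← hl]

/-- words in the lower half plane which end on the horizontal axis, to the right -/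
def Hw (w : List St) : Prop :=
  Saw w ∧ (∀ k, (H981.path w k).2 ≤ 0) ∧ dy w = 0 ∧ 1 ≤ dx w

theorem hw_odd (m : ℕ) : ar m ≤ (fs Hw m).card := by
  unfold ar
  apply card_le_of_decode id
  intro t ht
  rw [mem_fs] at ht
  refine ⟨t, ?_, rfl⟩
  rw [mem_fs]
  exact ⟨⟨ht.1.1, ht.1.2.2.2, ht.1.2.2.1, ht.1.2.1.ge⟩, ht.2⟩

theorem hw_two : 1 ≤ (fs Hw 2).card := by
  rw [Nat.one_le_iff_ne_zero, ← Nat.pos_iff_ne_zero, Finset.card_pos]
  refine ⟨[St.E, St.E], ?_⟩
  rw [mem_fs]
  have h2 : ∀ k, (H981.path [St.E, St.E] k).2 ≤ 0 := by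
    intro k
    rcases Nat.lt_or_ge k 2 with h | h
    · interval_cases k <;> decide
    · rw [path_ge (show ([St.E, St.E] : List St).length ≤ k from h)]
      decide
  refine ⟨⟨?_, h2, rfl, by decide⟩, rfl⟩
  rw [saw_iff']
  intro i j hij hj he
  have hj' : j ≤ 2 := hj
  interval_cases j
  · omega
  · interval_cases i
    exact absurd he (by decide)
  · interval_cases i
    · exact absurd he (by decide)
    · exact absurd he (by decide)

theorem hw_even (m : ℕ) : ar m ≤ (fs Hw (m + 3)).card := by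
  unfold ar
  apply card_le_of_decode (fun w => (w.drop 1).take m)
  intro t ht
  rw [mem_fs] at ht
  obtain ⟨⟨hs, hx, hy, hlow⟩, hl⟩ := ht
  obtain ⟨W, hW⟩ : ∃ W, W = [St.S] ++ (t ++ [St.N, St.E]) := ⟨_, rfl⟩
  have hWl : W.length = m + 3 := by rw [hW, ← hl]; simp only [List.length_append, List.length_cons, List.length_nil]; omega
  have p0 : H981.path W 0 = (0, 0) := path_zero' _
  have p1 : ∀ k ≤ m, H981.path W (k + 1) = ((H981.path t k).1, (H981.path t k).2 - 1) := by
    intro k hk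
    have := path_append_right [St.S] (t ++ [St.N, St.E]) k
    rw [path_append_left (u := t) (by omega),
      show ([St.S] : List St).length + k = k + 1 from Nat.add_comm 1 k] at this
    rw [hW, this]
    ext
    · simp [dx_cons]
    · simp [dy_cons]; ring
  have p2 : H981.path W (m + 2) = (1, 0) := by
    have := path_append_right [St.S] (t ++ [St.N, St.E]) (t.length + 1)
    rw [path_append_right t] at this
    have e : ([St.S] : List St).length + (t.length + 1) = m + 2 := by
      rw [hl]; exact Nat.add_comm 1 (m + 1)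
    rw [e] at this
    rw [hW, this, hx, hy]
    decide
  have p3 : H981.path W (m + 3) = (2, 0) := by
    have := path_append_right [St.S] (t ++ [St.N, St.E]) (t.length + 2)
    rw [path_append_right t] at this
    have e : ([St.S] : List St).length + (t.length + 2) = m + 3 := by
      rw [hl]; exact Nat.add_comm 1 (m + 2)
    rw [e] at this
    rw [hW, this, hx, hy]
    decide
  have hlo : ∀ k ≤ m, (H981.path W (k + 1)).2 ≤ -1 := by
    intro k hk
    rw [p1 k hk]
    have := hlow k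
    simp only
    omega
  have key : ∀ k ≤ m + 3, k = 0 ∨ (∃ j ≤ m, k = j + 1) ∨ k = m + 2 ∨ k = m + 3 := by
    intro k hk
    by_cases h0 : k = 0
    · exact Or.inl h0
    · by_cases h1 : k ≤ m + 1
      · exact Or.inr (Or.inl ⟨k - 1, by omega, by omega⟩)
      · omega
  have hend := path_len W
  rw [hWl, p3] at hend
  obtain ⟨e1, e2⟩ := Prod.mk.inj hend
  refine ⟨W, ?_, ?_⟩
  · rw [mem_fs]
    refine ⟨⟨?_, ?_, e2.symm, by rw [← e1]; norm_num⟩, hWl⟩
    · rw [saw_iff']
      intro i j hij hj he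
      rw [hWl] at hj
      rcases key i (by omega) with rfl | ⟨i', hi', rfl⟩ | rfl | rfl
      · rcases key j hj with rfl | ⟨j', hj', rfl⟩ | rfl | rfl
        · omega
        · have := hlo j' hj'
          rw [← he, p0] at this
          simp only at this
          omega
        · rw [p0, p2] at he; exact absurd he (by decide)
        · rw [p0, p3] at he; exact absurd he (by decide)
      · have h1 := hlo i' hi'
        rcases key j hj with rfl | ⟨j', hj', rfl⟩ | rfl | rfl
        · omega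
        · rw [p1 _ hi', p1 _ hj'] at he
          obtain ⟨e3, e4⟩ := Prod.mk.inj he
          exact saw_iff'.1 hs i' j' (by omega) (by omega) (Prod.ext e3 (by omega))
        · rw [he, p2] at h1; simp only at h1; omega
        · rw [he, p3] at h1; simp only at h1; omega
      · have : j = m + 3 := by omega
        rw [this, p2, p3] at he
        exact absurd he (by decide)
      · omega
    · intro k
      rcases Nat.lt_or_ge (m + 3) k with h | h
      · rw [path_ge (by omega), hWl, p3]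
      · rcases key k h with rfl | ⟨i', hi', rfl⟩ | rfl | rfl
        · rw [p0]
        · have := hlo i' hi'; omega
        · rw [p2]
        · rw [p3]
  · simp only [hW]
    rw [← hl]
    simp

theorem hw_low : ∃ K : ℝ, 0 ≤ K ∧ ∀ N : ℕ, 2 ≤ N → ∀ m : ℕ, 1 ≤ m → m ≤ N →
    mu ^ m * q N (-K) ≤ (fs Hw m).card := by
  obtain ⟨K, hK, h⟩ := ar_low
  refine ⟨K + 18, by positivity, ?_⟩
  intro N hN m hm1 hm
  have hmu := mu_pos
  have hmu1 := one_le_mu
  have hmu4 := mu_le_four
  have hN2 : (2 : ℝ) ≤ N := by exact_mod_cast hN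
  have h64 : (64 : ℝ) ≤ q N 18 := by
    have h2 := pow_le_q hN 6
    have : (3 : ℝ) * (6 : ℕ) = 18 := by norm_num
    rw [this] at h2
    have h3 : (2 : ℝ) ^ 6 ≤ (N : ℝ) ^ 6 := pow_le_pow_left₀ (by norm_num) hN2 6
    have h4 : (2 : ℝ) ^ 6 = 64 := by norm_num
    rw [h4] at h3
    exact h3.trans h2
  have hmu3 : mu ^ 3 ≤ q N 18 := by
    refine le_trans ?_ h64
    calc mu ^ 3 ≤ 4 ^ 3 := pow_le_pow_left₀ hmu.le hmu4 3
      _ = 64 := by norm_num
  rcases Nat.even_or_odd m with he | ho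
  · rcases Nat.lt_or_ge m 3 with h3 | h3
    · have e : m = 2 := by obtain ⟨t, ht⟩ := he; omega
      subst e
      have h1 : (1 : ℝ) ≤ (fs Hw 2).card := by exact_mod_cast hw_two
      refine le_trans ?_ h1
      have h5 : q N (-(K + 18)) ≤ q N (-18) := q_mono hN (by linarith)
      have h6 : mu ^ 2 ≤ q N 18 := by
        refine le_trans ?_ hmu3
        exact pow_le_pow_right₀ hmu1 (by omega)
      calc mu ^ 2 * q N (-(K + 18)) ≤ q N 18 * q N (-18) :=
            mul_le_mul h6 h5 (q_pos _ _).le (q_pos _ _).le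
        _ = 1 := by rw [q_mul, add_neg_cancel, q_zero]
    · obtain ⟨j, rfl⟩ : ∃ j, m = j + 3 := ⟨m - 3, by omega⟩
      have ho : Odd j := by
        obtain ⟨t, ht⟩ := he
        exact ⟨t - 2, by omega⟩
      have h1 := h N hN j (by omega) ho
      have h2 : (ar j : ℝ) ≤ (fs Hw (j + 3)).card := by exact_mod_cast hw_even j
      refine le_trans ?_ (h1.trans h2)
      rw [pow_add, mul_assoc]
      apply mul_le_mul_of_nonneg_left _ (by positivity)
      calc mu ^ 3 * q N (-(K + 18)) ≤ q N 18 * q N (-(K + 18)) :=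
            mul_le_mul_of_nonneg_right hmu3 (q_pos _ _).le
        _ = q N (-K) := by rw [q_mul]; congr 1; ring
  · have h1 := h N hN m hm ho
    have h2 : (ar m : ℝ) ≤ (fs Hw m).card := by exact_mod_cast hw_odd m
    refine le_trans ?_ (h1.trans h2)
    apply mul_le_mul_of_nonneg_left _ (by positivity)
    exact q_mono hN (by linarith)

/-- the number of words from the origin to a vertex nearby -/
theorem near_low : ∃ K : ℝ, 0 ≤ K ∧ ∀ N : ℕ, 2 ≤ N → ∀ m : ℕ, 1 ≤ m → m ≤ N →
    (Odd m → mu ^ m * q N (-K) ≤ a m 1 0) ∧ (Even m → mu ^ m * q N (-K) ≤ a m 1 1) := by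
  obtain ⟨K, hK, h⟩ := ar_low
  refine ⟨K + 6, by positivity, ?_⟩
  intro N hN m hm1 hm
  have hmu := mu_pos
  have hN2 : (2 : ℝ) ≤ N := by exact_mod_cast hN
  constructor
  · intro ho
    have h1 := h N hN m hm ho
    have h2 : (ar m : ℝ) ≤ a m 1 0 := by exact_mod_cast ar_le_a_one m
    refine le_trans ?_ (h1.trans h2)
    apply mul_le_mul_of_nonneg_left _ (by positivity)
    exact q_mono hN (by linarith)
  · intro he
    obtain ⟨j, rfl⟩ : ∃ j, m = j + 1 := ⟨m - 1, by omega⟩
    have ho : Odd j := by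
      obtain ⟨t, ht⟩ := he
      exact ⟨t - 1, by omega⟩
    have h1 := h N hN j (by omega) ho
    have h2 : (ar j : ℝ) ≤ a (j + 1) 1 1 := by exact_mod_cast ar_le_a_diag j
    refine le_trans ?_ (h1.trans h2)
    rw [pow_succ, mul_assoc]
    apply mul_le_mul_of_nonneg_left _ (by positivity)
    have h3 : mu ≤ q N 6 := by
      have h2 := pow_le_q hN 2
      have : (3 : ℝ) * (2 : ℕ) = 6 := by norm_num
      rw [this] at h2
      have h3 : (4 : ℝ) ≤ (N : ℝ) ^ 2 := by nlinarith
      exact mu_le_four.trans (h3.trans h2)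
    calc mu * q N (-(K + 6)) ≤ q N 6 * q N (-(K + 6)) :=
          mul_le_mul_of_nonneg_right h3 (q_pos _ _).le
      _ = q N (-K) := by rw [q_mul]; congr 1; ring

end Pool.Agent.U262.SW
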