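import Pool.Agent.U262.SW.V

/-!
Symmetric self-avoiding loops: the three kinds.
-/

set_option autoImplicit false

namespace Pool.Agent.U262.SW

open Pool.Agent.TH795.EP Pool.Agent.TH795.EP2 Pool.Agent.TH795.SE2 Pool.Agent.TH262.SawL H981 Finset
open Pool.Agent.Y981.L2

/-! ### the three maps -/

theorem inv_rot {n : ℕ} : Inv2 (fun p => (-p.1, -p.2)) n where
  add p r := by ext <;> simp <;> ring
  inv p := by simp
  fix f hf h := by
    have h0 : ∀ i, f i = (0, 0) := by
      intro i
      have := h i
      obtain ⟨e1, e2⟩ := Prod.mk.inj this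
      exact Prod.ext (by simp only; omega) (by simp only; omega)
    have := hf.2.2 0
    rw [h0, h0] at this
    simp at this

theorem inv_diag {n : ℕ} : Inv2 (fun p => (p.2, p.1)) n where
  add p r := by ext <;> simp
  inv p := by simp
  fix f hf h := by
    have h0 : ∀ i, (f i).2 = (f i).1 := by
      intro i
      have := h i
      exact congrArg Prod.fst this
    have := hf.2.2 0
    rw [h0, h0] at this
    omega

theorem inv_axis {n : ℕ} (hn : 2 ≤ n) : Inv2 (fun p => (p.1, -p.2)) n where
  add p r := by ext <;> simp; ring
  inv p := by simp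
  fix f hf h := by
    have : NeZero (2 * n) := ⟨by omega⟩
    have h0 : ∀ i, (f i).2 = 0 := by
      intro i
      have := congrArg Prod.snd (h i)
      simp only at this
      omega
    obtain ⟨i, hi⟩ := Finite.exists_max fun i => (f i).1
    have h1 := hf.2.2 i
    have h2 := hf.2.2 (i - 1)
    rw [sub_add_cancel] at h2
    rw [h0, h0, sub_zero, abs_zero, add_zero] at h1 h2
    have h3 := hi (i + 1)
    have h4 := hi (i - 1)
    have h5 : f (i + 1) = f (i - 1) := by
      apply Prod.ext
      · rw [abs_of_nonpos (by omega)] at h1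
        rw [abs_of_nonneg (by omega)] at h2
        omega
      · rw [h0, h0]
    have h6 := hf.2.1 h5
    have h7 : ((2 : ℕ) : ZMod (2 * n)) = 0 := by
      push_cast
      linear_combination h6
    rw [ZMod.natCast_eq_zero_iff] at h7
    have := Nat.le_of_dvd (by norm_num) h7
    omega

/-! ### point reflections -/

theorem rot_build {n : ℕ} (hn : 2 ≤ n) {α β : ℝ} {x y : ℤ} (hz : hh α β (x, y) = 0)
    (hxy : (x, y) ≠ (0, 0)) : ssH α β n x y ≤ (Sym (fun p => (-p.1, -p.2)) n).ncard := by
  apply build hn (show n < 2 * n by omega) _ (fun w => w ++ rt w)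
  intro w hw
  rw [mem_fs] at hw
  obtain ⟨⟨⟨hs, hx, hy⟩, hss⟩, hl⟩ := hw
  have hlr : (rt w).length = n := by rw [length_rt, hl]
  have p1 : ∀ k ≤ n, H981.path (w ++ rt w) k = H981.path w k := fun k hk =>
    path_append_left (by omega)
  have p2 : ∀ k, H981.path (w ++ rt w) (n + k) =
      (-(H981.path w k).1 + x, -(H981.path w k).2 + y) := by
    intro k
    have := path_append_right w (rt w) k
    rw [hl] at this
    rw [this, path_rt, hx, hy]
    ext
    · simp only; ring
    · simp only; ring
  have p0 := path_zero' w
  have pn : H981.path w n = (x, y) := by rw [← hl, path_len, hx, hy]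
  have hh1 : ∀ k, 0 < k → k < n → hh α β (H981.path w k) < 0 := fun k h1 h2 => hss k h1 (by omega)
  have hh2 : ∀ k, 0 < k → k < n → 0 < hh α β (-(H981.path w k).1 + x, -(H981.path w k).2 + y) := by
    intro k h1 h2
    have h3 := hh1 k h1 h2
    unfold hh at h3 hz ⊢
    simp only at hz ⊢
    push_cast
    nlinarith
  refine ⟨hl, by rw [List.length_append, hl, hlr]; ring, ⟨?_, ?_⟩, ?_, p1, (x, y),
    (n : ZMod (2 * n)), Or.inl ?_⟩
  · have h1 := path_len (w ++ rt w)
    rw [show (w ++ rt w).length = n + n by rw [List.length_append, hl, hlr], p2, pn] at h1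
    have := congrArg Prod.fst h1
    simp only at this
    omega
  · have h1 := path_len (w ++ rt w)
    rw [show (w ++ rt w).length = n + n by rw [List.length_append, hl, hlr], p2, pn] at h1
    have := congrArg Prod.snd h1
    simp only at this
    omega
  · intro i j hij hj he
    rcases Nat.lt_or_ge n j with h | h
    · obtain ⟨k, rfl⟩ : ∃ k, j = n + k := ⟨j - n, by omega⟩
      have hk1 : 0 < k := by omega
      have hk2 : k < n := by omega
      have h3 := hh2 k hk1 hk2
      rw [p2] at he
      rcases Nat.lt_or_ge n i with h' | h'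
      · obtain ⟨l, rfl⟩ : ∃ k, i = n + k := ⟨i - n, by omega⟩
        rw [p2] at he
        obtain ⟨e1, e2⟩ := Prod.mk.inj he
        exact saw_iff'.1 hs l k (by omega) (by omega) (Prod.ext (by omega) (by omega))
      · rw [p1 _ h'] at he
        rw [← he] at h3
        rcases Nat.eq_zero_or_pos i with h0 | h0
        · rw [h0, p0] at h3
          unfold hh at h3
          simp at h3
        · rcases Nat.lt_or_ge i n with h4 | h4
          · have := hh1 i h0 h4
            linarith
          · have : i = n := by omega
            rw [this, pn, hz] at h3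
            exact lt_irrefl _ h3
    · rw [p1 _ h, p1 _ (by omega)] at he
      exact saw_iff'.1 hs i j hij (by omega) he
  · intro i
    apply rel_rot (g := fun k => H981.path (w ++ rt w) k) hn (σ := fun p => (-p.1, -p.2))
    · exact inv_rot (n := n) |>.add
    · exact inv_rot (n := n) |>.inv
    · simp
    · intro k hk
      rw [p2, p1 k hk.le]
      rfl

/-! ### diagonal reflections -/

theorem diag_build {n : ℕ} (hn : 2 ≤ n) :
    ssH (-1) 1 n 1 1 ≤ (Sym (fun p => (p.2, p.1)) n).ncard := by
  apply build hn (show n < 2 * n by omega) _ (fun w => w ++ rv (sw w))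
  intro w hw
  rw [mem_fs] at hw
  obtain ⟨⟨⟨hs, hx, hy⟩, hss⟩, hl⟩ := hw
  have hlr : (rv (sw w)).length = n := by rw [length_rv, length_sw, hl]
  have psw : ∀ k, H981.path (sw w) k = ((H981.path w k).2, (H981.path w k).1) := by
    intro k
    unfold H981.path
    have : (sw w).take k = sw (w.take k) := by unfold sw; rw [List.map_take]
    rw [this, dx_sw, dy_sw]
  have p1 : ∀ k ≤ n, H981.path (w ++ rv (sw w)) k = H981.path w k := fun k hk =>
    path_append_left (by omega)
  have p2 : ∀ k, H981.path (w ++ rv (sw w)) (n + k) =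
      ((H981.path w (n - k)).2, (H981.path w (n - k)).1) := by
    intro k
    have := path_append_right w (rv (sw w)) k
    rw [hl] at this
    rw [this, path_rv, psw, dx_sw, dy_sw, hx, hy, length_sw, hl]
    ext
    · simp only; ring
    · simp only; ring
  have p0 := path_zero' w
  have pn : H981.path w n = (1, 1) := by rw [← hl, path_len, hx, hy]
  have hh1 : ∀ k, 0 < k → k < n → (H981.path w k).2 < (H981.path w k).1 := by
    intro k h1 h2
    have h3 := hss k h1 (by omega)
    unfold hh at h3
    have h4 : ((H981.path w k).2 : ℝ) < ((H981.path w k).1 : ℝ) := by linarith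
    exact_mod_cast h4
  refine ⟨hl, by rw [List.length_append, hl, hlr]; ring, ⟨?_, ?_⟩, ?_, p1, 0, 0, Or.inr ?_⟩
  · have h1 := path_len (w ++ rv (sw w))
    rw [show (w ++ rv (sw w)).length = n + n by rw [List.length_append, hl, hlr], p2, Nat.sub_self,
      p0] at h1
    exact (congrArg Prod.fst h1).symm
  · have h1 := path_len (w ++ rv (sw w))
    rw [show (w ++ rv (sw w)).length = n + n by rw [List.length_append, hl, hlr], p2, Nat.sub_self,
      p0] at h1
    exact (congrArg Prod.snd h1).symm
  · intro i j hij hj he
    rcases Nat.lt_or_ge n j with h | h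
    · obtain ⟨k, rfl⟩ : ∃ k, j = n + k := ⟨j - n, by omega⟩
      have hk1 : 0 < k := by omega
      have hk2 : k < n := by omega
      have h3 := hh1 (n - k) (by omega) (by omega)
      rw [p2] at he
      rcases Nat.lt_or_ge n i with h' | h'
      · obtain ⟨l, rfl⟩ : ∃ k, i = n + k := ⟨i - n, by omega⟩
        rw [p2] at he
        obtain ⟨e1, e2⟩ := Prod.mk.inj he
        exact saw_iff'.1 hs (n - k) (n - l) (by omega) (by omega)
          (Prod.ext (by omega) (by omega))
      · rw [p1 _ h'] at he
        have e1 := congrArg Prod.fst he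
        have e2 := congrArg Prod.snd he
        simp only at e1 e2
        rcases Nat.eq_zero_or_pos i with h0 | h0
        · rw [h0, p0] at e1 e2
          simp only at e1 e2
          omega
        · rcases Nat.lt_or_ge i n with h4 | h4
          · have := hh1 i h0 h4
            omega
          · have : i = n := by omega
            rw [this, pn] at e1 e2
            simp only at e1 e2
            omega
    · rw [p1 _ h, p1 _ (by omega)] at he
      exact saw_iff'.1 hs i j hij (by omega) he
  · intro i
    apply rel_ref0 (g := fun k => H981.path (w ++ rv (sw w)) k) hn (σ := fun p => (p.2, p.1))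
    · exact inv_diag (n := n) |>.inv
    · rw [show 2 * n = n + n by ring, p2, Nat.sub_self, p1 0 (by omega), p0]
    · intro k hk
      rw [show 2 * n - k = n + (n - k) by omega, p2, p1 k hk, show n - (n - k) = k by omega]

/-! ### reflections in a line parallel to an axis -/

theorem axis_build {n : ℕ} (hn : 2 ≤ n) :
    (fs Hw (n - 1)).card ≤ (Sym (fun p => (p.1, -p.2)) n).ncard := by
  apply build hn (show n - 1 < 2 * n by omega) _ (fun w => (w ++ [St.N]) ++ (rv (ng w) ++ [St.S]))
  intro w hw
  rw [mem_fs] at hw
  obtain ⟨⟨hs, hlo, hy, hx⟩, hl⟩ := hw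
  obtain ⟨W, hW⟩ : ∃ W, W = (w ++ [St.N]) ++ (rv (ng w) ++ [St.S]) := ⟨_, rfl⟩
  rw [← hW]
  have hl1 : (w ++ [St.N]).length = n := by rw [List.length_append, hl]; exact Nat.sub_add_cancel (by omega)
  have hlr : (rv (ng w)).length = n - 1 := by rw [length_rv, length_ng, hl]
  have hWl : W.length = 2 * n := by
    rw [hW, List.length_append, hl1, List.length_append, hlr]
    simp only [List.length_cons, List.length_nil]
    omega
  have p1 : ∀ k < n, H981.path W k = H981.path w k := by
    intro k hk
    rw [hW, path_append_left (by omega), path_append_left (by omega)]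
  have p2 : ∀ k < n, H981.path W (n + k) =
      ((H981.path w (n - 1 - k)).1, -(H981.path w (n - 1 - k)).2 + 1) := by
    intro k hk
    have := path_append_right (w ++ [St.N]) (rv (ng w) ++ [St.S]) k
    rw [hl1, path_append_left (u := rv (ng w)) (by omega), dx_append, dy_append] at this
    rw [hW, this, path_rv, path_ng', dx_ng, dy_ng, length_ng, hl, hy]
    ext
    · simp [dx_cons]
    · simp [dy_cons]; ring
  have p0 := path_zero' w
  refine ⟨hl, hWl, ⟨?_, ?_⟩, ?_, fun k hk => p1 k (by omega), (0, 1), -1, Or.inr ?_⟩
  · rw [hW, dx_append, dx_append, dx_append, dx_rv, dx_ng]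
    simp [dx_cons]
  · rw [hW, dy_append, dy_append, dy_append, dy_rv, dy_ng, hy]
    simp [dy_cons]
  · intro i j hij hj he
    rcases Nat.lt_or_ge j n with h | h
    · rw [p1 _ h, p1 _ (by omega)] at he
      exact saw_iff'.1 hs i j hij (by omega) he
    · obtain ⟨k, rfl⟩ : ∃ k, j = n + k := ⟨j - n, by omega⟩
      rw [p2 _ (by omega)] at he
      rcases Nat.lt_or_ge i n with h' | h'
      · rw [p1 _ h'] at he
        have h1 := hlo i
        have h2 := hlo (n - 1 - k)
        have h3 := congrArg Prod.snd he
        simp only at h3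
        omega
      · obtain ⟨l, rfl⟩ : ∃ k, i = n + k := ⟨i - n, by omega⟩
        rw [p2 _ (by omega)] at he
        obtain ⟨e1, e2⟩ := Prod.mk.inj he
        exact saw_iff'.1 hs (n - 1 - k) (n - 1 - l) (by omega) (by omega)
          (Prod.ext (by omega) (by omega))
  · intro i
    apply rel_ref (g := fun k => H981.path W k) hn (σ := fun p => (p.1, -p.2))
    · exact inv_axis hn |>.add
    · exact inv_axis hn |>.inv
    · simp
    · intro k hk
      rw [show 2 * n - 1 - k = n + (n - 1 - k) by omega, p2 _ (by omega), p1 k hk,
        show n - 1 - (n - 1 - k) = k by omega]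
      simp

end Pool.Agent.U262.SW
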