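import Pool.Agent.U262.SW.X

/-!
Symmetric self-avoiding loops: the theorem.
-/

set_option autoImplicit false

namespace Pool.Agent.U262.SW

open Pool.Agent.TH795.EP Pool.Agent.TH795.EP2 Pool.Agent.TH795.SE2 Pool.Agent.TH262.SawL H981 Finset
open Pool.Agent.Y981.L2

/-- the linear isometries of the square lattice -/
def Isom (σ : ℤ × ℤ → ℤ × ℤ) : Prop :=
  (∀ p r, σ (p + r) = σ p + σ r) ∧ ∀ p, |(σ p).1| + |(σ p).2| = |p.1| + |p.2|

theorem Isom.lin {σ : ℤ × ℤ → ℤ × ℤ} (h : Isom σ) (p : ℤ × ℤ) :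
    σ p = (p.1 * (σ (1, 0)).1 + p.2 * (σ (0, 1)).1, p.1 * (σ (1, 0)).2 + p.2 * (σ (0, 1)).2) := by
  let g : (ℤ × ℤ) →+ (ℤ × ℤ) := AddMonoidHom.mk' σ h.1
  have h1 : ∀ (k : ℤ) (r : ℤ × ℤ), σ (k • r) = k • σ r := fun k r => map_zsmul g k r
  have h2 : p = p.1 • ((1, 0) : ℤ × ℤ) + p.2 • ((0, 1) : ℤ × ℤ) := by
    ext <;> simp
  have h3 : σ p = p.1 • σ (1, 0) + p.2 • σ (0, 1) := by
    conv_lhs => rw [h2]
    rw [h.1, h1, h1]
  rw [h3]
  ext <;> simp

theorem isom_cases {σ : ℤ × ℤ → ℤ × ℤ} (h : Isom σ) :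
    σ = (fun p => p) ∨ σ = (fun p => (-p.1, -p.2)) ∨ σ = (fun p => (p.1, -p.2)) ∨
    σ = (fun p => (-p.1, p.2)) ∨ σ = (fun p => (p.2, p.1)) ∨ σ = (fun p => (-p.2, -p.1)) ∨
    σ = (fun p => (-p.2, p.1)) ∨ σ = (fun p => (p.2, -p.1)) := by
  have h1 := h.2 (1, 0)
  have h2 := h.2 (0, 1)
  have h3 := h.2 (1, 1)
  have h4 := h.2 (1, -1)
  rw [h.lin (1, 1)] at h3
  rw [h.lin (1, -1)] at h4
  have hl := h.lin
  obtain ⟨a1, ha1⟩ : ∃ a, a = (σ (1, 0)).1 := ⟨_, rfl⟩
  obtain ⟨a2, ha2⟩ : ∃ a, a = (σ (1, 0)).2 := ⟨_, rfl⟩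
  obtain ⟨b1, hb1⟩ : ∃ a, a = (σ (0, 1)).1 := ⟨_, rfl⟩
  obtain ⟨b2, hb2⟩ : ∃ a, a = (σ (0, 1)).2 := ⟨_, rfl⟩
  rw [← ha1, ← ha2] at h1
  rw [← hb1, ← hb2] at h2
  simp only [← ha1, ← ha2, ← hb1, ← hb2] at h3 h4 hl
  norm_num at h1 h2 h3 h4
  have c1 : (a1 = 1 ∧ a2 = 0) ∨ (a1 = -1 ∧ a2 = 0) ∨ (a1 = 0 ∧ a2 = 1) ∨ (a1 = 0 ∧ a2 = -1) := by
    rcases abs_cases a1 with ⟨u, _⟩ | ⟨u, _⟩ <;> rcases abs_cases a2 with ⟨v, _⟩ | ⟨v, _⟩ <;>
      rw [u, v] at h1 <;> omega
  have c2 : (b1 = 1 ∧ b2 = 0) ∨ (b1 = -1 ∧ b2 = 0) ∨ (b1 = 0 ∧ b2 = 1) ∨ (b1 = 0 ∧ b2 = -1) := by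
    rcases abs_cases b1 with ⟨u, _⟩ | ⟨u, _⟩ <;> rcases abs_cases b2 with ⟨v, _⟩ | ⟨v, _⟩ <;>
      rw [u, v] at h2 <;> omega
  have key : ∀ τ : ℤ × ℤ → ℤ × ℤ, (∀ p : ℤ × ℤ, (p.1 * a1 + p.2 * b1, p.1 * a2 + p.2 * b2) = τ p) →
      σ = τ := by
    intro τ hτ
    funext p
    rw [hl p, hτ p]
  rcases c1 with ⟨e1, e2⟩ | ⟨e1, e2⟩ | ⟨e1, e2⟩ | ⟨e1, e2⟩ <;>
    rcases c2 with ⟨e3, e4⟩ | ⟨e3, e4⟩ | ⟨e3, e4⟩ | ⟨e3, e4⟩ <;>
    subst e1 e2 e3 e4
  · exfalso; first | (norm_num at h3; done) | (norm_num at h4; done)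
  · exfalso; first | (norm_num at h3; done) | (norm_num at h4; done)
  · exact Or.inl (key _ fun p => by ext <;> simp)
  · exact Or.inr (Or.inr (Or.inl (key _ fun p => by ext <;> simp)))
  · exfalso; first | (norm_num at h3; done) | (norm_num at h4; done)
  · exfalso; first | (norm_num at h3; done) | (norm_num at h4; done)
  · exact Or.inr (Or.inr (Or.inr (Or.inl (key _ fun p => by ext <;> simp))))
  · exact Or.inr (Or.inl (key _ fun p => by ext <;> simp))
  · exact Or.inr (Or.inr (Or.inr (Or.inr (Or.inl (key _ fun p => by ext <;> simp)))))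
  · exact Or.inr (Or.inr (Or.inr (Or.inr (Or.inr (Or.inr (Or.inl
      (key _ fun p => by ext <;> simp)))))))
  · exfalso; first | (norm_num at h3; done) | (norm_num at h4; done)
  · exfalso; first | (norm_num at h3; done) | (norm_num at h4; done)
  · exact Or.inr (Or.inr (Or.inr (Or.inr (Or.inr (Or.inr (Or.inr
      (key _ fun p => by ext <;> simp)))))))
  · exact Or.inr (Or.inr (Or.inr (Or.inr (Or.inr (Or.inl (key _ fun p => by ext <;> simp))))))
  · exfalso; first | (norm_num at h3; done) | (norm_num at h4; done)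
  · exfalso; first | (norm_num at h3; done) | (norm_num at h4; done)

/-- conjugation -/
theorem Sym_conj {σ τ : ℤ × ℤ → ℤ × ℤ} (hτ : Isom τ) (hi : ∀ p, τ (τ p) = p) {n : ℕ} (hn : 1 ≤ n) :
    (Sym σ n).ncard ≤ (Sym (fun p => τ (σ (τ p))) n).ncard := by
  have h0 : τ 0 = 0 := by
    have := hτ.1 0 0
    rw [add_zero] at this
    exact left_eq_add.1 this
  have hsub : ∀ p r, τ (p - r) = τ p - τ r := by
    intro p r
    have := hτ.1 (p - r) r
    rw [sub_add_cancel] at this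
    rw [this, add_sub_cancel_right]
  apply Set.ncard_le_ncard_of_injOn (fun f i => τ (f i)) _ _ (Sym_fin _ hn)
  · rintro f ⟨hl, v, s, hs⟩
    refine ⟨⟨?_, ?_, ?_⟩, τ v, s, ?_⟩
    · show τ (f 0) = 0
      rw [hl.1]
      exact h0
    · intro i j hij
      simp only at hij
      apply hl.2.1
      rw [← hi (f i), hij, hi]
    · intro i
      have h1 := hτ.2 (f (i + 1) - f i)
      rw [hsub] at h1
      exact h1.trans (hl.2.2 i)
    · rcases hs with hs | hs
      · left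
        intro i
        simp only
        rw [hs, hτ.1, hi]
      · right
        intro i
        simp only
        rw [hs, hτ.1, hi]
  · intro f _ g _ hfg
    funext i
    have := congrFun hfg i
    simp only at this
    rw [← hi (f i), this, hi]

/-- squares -/
theorem Sym_sq {σ : ℤ × ℤ → ℤ × ℤ} (hσ : Isom σ) {n : ℕ} :
    Sym σ n ⊆ Sym (fun p => σ (σ p)) n := by
  rintro f ⟨hl, v, s, hs⟩
  rcases hs with hs | hs
  · refine ⟨hl, σ v + v, s + s, Or.inl ?_⟩
    intro i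
    rw [add_assoc s s i, hs, hs, hσ.1, add_assoc]
  · refine ⟨hl, σ v + v, 0, Or.inl ?_⟩
    intro i
    have h1 := hs (s - i)
    rw [sub_sub_cancel, hs i, hσ.1, add_assoc] at h1
    rw [zero_add]
    exact h1

theorem isom_rot : Isom fun p => (-p.1, -p.2) :=
  ⟨fun p r => by ext <;> simp <;> ring, fun p => by simp⟩
theorem isom_axis : Isom fun p => (p.1, -p.2) :=
  ⟨fun p r => by ext <;> simp; ring, fun p => by simp⟩
theorem isom_axis' : Isom fun p => (-p.1, p.2) :=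
  ⟨fun p r => by ext <;> simp; ring, fun p => by simp⟩
theorem isom_diag : Isom fun p => (p.2, p.1) :=
  ⟨fun p r => by ext <;> simp, fun p => by simp only; ring⟩
theorem isom_quarter : Isom fun p => (-p.2, p.1) :=
  ⟨fun p r => by ext <;> simp; ring, fun p => by simp only [abs_neg]; ring⟩
theorem isom_quarter' : Isom fun p => (p.2, -p.1) :=
  ⟨fun p r => by ext <;> simp; ring, fun p => by simp only [abs_neg]; ring⟩

theorem axis_eq {n : ℕ} (hn : 1 ≤ n) :
    (Sym (fun p => (-p.1, p.2)) n).ncard = (Sym (fun p => (p.1, -p.2)) n).ncard := by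
  apply le_antisymm
  · exact Sym_conj (σ := fun p => (-p.1, p.2)) isom_diag (fun p => rfl) hn
  · exact Sym_conj (σ := fun p => (p.1, -p.2)) isom_diag (fun p => rfl) hn

theorem diag_eq {n : ℕ} (hn : 1 ≤ n) :
    (Sym (fun p => (-p.2, -p.1)) n).ncard = (Sym (fun p => (p.2, p.1)) n).ncard := by
  apply le_antisymm
  · have := Sym_conj (σ := fun p => (-p.2, -p.1)) isom_axis (fun p => by simp) hn
    simpa using this
  · have := Sym_conj (σ := fun p => (p.2, p.1)) isom_axis (fun p => by simp) hn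
    simpa using this

/-- the union of the symmetric loops -/
def AllSym (n : ℕ) : Set (ZMod (2 * n) → ℤ × ℤ) :=
  {f | ∃ σ, Isom σ ∧ σ ≠ (fun p => p) ∧ f ∈ Sym σ n}

theorem AllSym_sub (n : ℕ) : AllSym n ⊆ Sym (fun p => (-p.1, -p.2)) n ∪
    (Sym (fun p => (p.1, -p.2)) n ∪ (Sym (fun p => (-p.1, p.2)) n ∪
    (Sym (fun p => (p.2, p.1)) n ∪ Sym (fun p => (-p.2, -p.1)) n))) := by
  rintro f ⟨σ, hσ, hne, hf⟩
  rcases isom_cases hσ with h | h | h | h | h | h | h | h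
  · exact absurd h hne
  · subst h; exact Or.inl hf
  · subst h; exact Or.inr (Or.inl hf)
  · subst h; exact Or.inr (Or.inr (Or.inl hf))
  · subst h; exact Or.inr (Or.inr (Or.inr (Or.inl hf)))
  · subst h; exact Or.inr (Or.inr (Or.inr (Or.inr hf)))
  · subst h; exact Or.inl (Sym_sq hσ hf)
  · subst h
    left
    exact Sym_sq hσ hf

theorem AllSym_fin {n : ℕ} (hn : 1 ≤ n) : (AllSym n).Finite :=
  (loops_fin (by omega)).subset fun _ hf => by obtain ⟨σ, -, -, h⟩ := hf; exact h.1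

theorem AllSym_le {n : ℕ} (hn : 2 ≤ n) : (AllSym n).ncard ≤ (5 * (3 * (2 * n * 9))) * c n := by
  have h1 := sym_upper hn inv_rot
  have h2 := sym_upper hn (inv_axis hn)
  have h3 := sym_upper hn inv_diag
  have h4 := axis_eq (show 1 ≤ n by omega)
  have h5 := diag_eq (show 1 ≤ n by omega)
  have h6 := Set.ncard_le_ncard (AllSym_sub n) (by
    apply Set.Finite.union (Sym_fin _ (by omega))
    apply Set.Finite.union (Sym_fin _ (by omega))
    apply Set.Finite.union (Sym_fin _ (by omega))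
    exact Set.Finite.union (Sym_fin _ (by omega)) (Sym_fin _ (by omega)))
  have g1 := Set.ncard_union_le (Sym (fun p => (-p.1, -p.2)) n)
    (Sym (fun p => (p.1, -p.2)) n ∪ (Sym (fun p => (-p.1, p.2)) n ∪
    (Sym (fun p => (p.2, p.1)) n ∪ Sym (fun p => (-p.2, -p.1)) n)))
  have g2 := Set.ncard_union_le (Sym (fun p => (p.1, -p.2)) n) (Sym (fun p => (-p.1, p.2)) n ∪
    (Sym (fun p => (p.2, p.1)) n ∪ Sym (fun p => (-p.2, -p.1)) n))
  have g3 := Set.ncard_union_le (Sym (fun p => (-p.1, p.2)) n)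
    (Sym (fun p => (p.2, p.1)) n ∪ Sym (fun p => (-p.2, -p.1)) n)
  have g4 := Set.ncard_union_le (Sym (fun p => (p.2, p.1)) n) (Sym (fun p => (-p.2, -p.1)) n)
  have e : (5 * (3 * (2 * n * 9))) * c n = 5 * ((3 * (2 * n * 9)) * c n) := by ring
  rw [e]
  omega

/-- **Symmetric loops.** -/
theorem sym_law : ∃ K : ℝ, 0 ≤ K ∧ ∀ n : ℕ, 2 ≤ n →
    (mu ^ n * q n (-K) ≤ (Sym (fun p => (-p.1, -p.2)) n).ncard ∧
    mu ^ n * q n (-K) ≤ (Sym (fun p => (p.1, -p.2)) n).ncard ∧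
    mu ^ n * q n (-K) ≤ (Sym (fun p => (-p.1, p.2)) n).ncard ∧
    (Even n → mu ^ n * q n (-K) ≤ (Sym (fun p => (p.2, p.1)) n).ncard ∧
      mu ^ n * q n (-K) ≤ (Sym (fun p => (-p.2, -p.1)) n).ncard)) ∧
    ((AllSym n).ncard : ℝ) ≤ mu ^ n * q n K := by
  obtain ⟨K1, hK1, h1⟩ := a_le_two
  obtain ⟨K2, hK2, h2⟩ := near_low
  obtain ⟨K3, hK3, h3⟩ := hw_low
  obtain ⟨K4, hK4, h4, -⟩ := exists_K
  refine ⟨K1 + K2 + K3 + K4 + 48, by positivity, ?_⟩
  intro n hn
  have hmu := mu_pos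
  have hmu1 := one_le_mu
  have hn2 : (2 : ℝ) ≤ n := by exact_mod_cast hn
  -- from a count of words
  have step : ∀ (x y : ℤ) (A B : ℝ), Two K1 n n x y → hh A B (x, y) = 0 →
      (A = -y ∧ B = x) → mu ^ n * q n (-K2) ≤ a n x y →
      mu ^ n * q n (-(K1 + K2 + K3 + K4 + 48)) ≤ (ssH A B n x y : ℝ) := by
    intro x y A B ht _ hAB ha
    have g1 := ht.1
    rw [← hAB.1, ← hAB.2] at g1
    have g2 : mu ^ n * q n (-K2) ≤ q n K1 * ssH A B n x y := ha.trans g1
    have g3 : mu ^ n * q n (-(K1 + K2)) * q n K1 ≤ ssH A B n x y * q n K1 := by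
      rw [mul_assoc, q_mul, show -(K1 + K2) + K1 = -K2 by ring]
      linarith
    have g4 := le_of_mul_le_mul_right g3 (q_pos _ _)
    refine le_trans ?_ g4
    apply mul_le_mul_of_nonneg_left _ (by positivity)
    exact q_mono hn (by linarith)
  obtain ⟨na, nb⟩ := h2 n hn n (by omega) le_rfl
  have haxis : mu ^ n * q n (-(K1 + K2 + K3 + K4 + 48)) ≤
      ((Sym (fun p => (p.1, -p.2)) n).ncard : ℝ) := by
    have g1 := h3 n hn (n - 1) (by omega) (by omega)
    have g2 : ((fs Hw (n - 1)).card : ℝ) ≤ (Sym (fun p => (p.1, -p.2)) n).ncard := by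
      exact_mod_cast axis_build hn
    refine le_trans ?_ (g1.trans g2)
    have e : mu ^ n = mu ^ (n - 1) * mu := by rw [← pow_succ]; congr 1; omega
    rw [e, mul_assoc]
    apply mul_le_mul_of_nonneg_left _ (by positivity)
    have h3 : mu ≤ q n 6 := by
      have h2 := pow_le_q hn 2
      have : (3 : ℝ) * (2 : ℕ) = 6 := by norm_num
      rw [this] at h2
      have h3 : (4 : ℝ) ≤ (n : ℝ) ^ 2 := by nlinarith
      exact mu_le_four.trans (h3.trans h2)
    calc mu * q n (-(K1 + K2 + K3 + K4 + 48)) ≤ q n 6 * q n (-(K1 + K2 + K3 + K4 + 48)) :=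
          mul_le_mul_of_nonneg_right h3 (q_pos _ _).le
      _ = q n (6 + -(K1 + K2 + K3 + K4 + 48)) := by rw [q_mul]
      _ ≤ q n (-K3) := q_mono hn (by linarith)
  refine ⟨⟨?_, ?_, ?_, ?_⟩, ?_⟩
  · rcases Nat.even_or_odd n with he | ho
    · have t := h1 n hn n le_rfl 1 1 (by decide) (by
        rcases Nat.lt_or_ge 2 n with h | h
        · left; norm_num; exact_mod_cast h
        · right
          have : n = 2 := by omega
          subst this
          norm_num)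
      have g := step 1 1 (-1) 1 t (by unfold hh; norm_num) (by norm_num) (nb he)
      refine g.trans ?_
      exact_mod_cast rot_build hn (α := -1) (β := 1) (x := 1) (y := 1)
        (by unfold hh; norm_num) (by decide)
    · have h3' : 3 ≤ n := by obtain ⟨t, ht⟩ := ho; omega
      have t := h1 n hn n le_rfl 1 0 (by decide) (by
        left; norm_num; exact_mod_cast (by omega : 1 < n))
      have g := step 1 0 0 1 t (by unfold hh; norm_num) (by norm_num) (na ho)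
      refine g.trans ?_
      exact_mod_cast rot_build hn (α := 0) (β := 1) (x := 1) (y := 0)
        (by unfold hh; norm_num) (by decide)
  · exact haxis
  · rw [axis_eq (by omega)]
    exact haxis
  · intro he
    have t := h1 n hn n le_rfl 1 1 (by decide) (by
      rcases Nat.lt_or_ge 2 n with h | h
      · left; norm_num; exact_mod_cast h
      · right
        have : n = 2 := by omega
        subst this
        norm_num)
    have g := step 1 1 (-1) 1 t (by unfold hh; norm_num) (by norm_num) (nb he)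
    have g2 : (ssH (-1) 1 n 1 1 : ℝ) ≤ (Sym (fun p => (p.2, p.1)) n).ncard := by
      exact_mod_cast diag_build hn
    refine ⟨g.trans g2, ?_⟩
    rw [diag_eq (by omega)]
    exact g.trans g2
  · have g1 : ((AllSym n).ncard : ℝ) ≤ (5 * (3 * (2 * n * 9))) * c n := by
      exact_mod_cast AllSym_le hn
    have g2 := h4 n hn n le_rfl
    have g3 : (5 * (3 * (2 * n * 9)) : ℝ) ≤ q n 30 := by
      have h2 := pow_le_q hn 10
      have : (3 : ℝ) * (10 : ℕ) = 30 := by norm_num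
      rw [this] at h2
      refine le_trans ?_ h2
      have h5 : (512 : ℝ) ≤ (n : ℝ) ^ 9 := by
        have := pow_le_pow_left₀ (by norm_num) hn2 9
        norm_num at this
        exact this
      have h6 : (n : ℝ) ^ 10 = n ^ 9 * n := by ring
      rw [h6]
      nlinarith
    calc ((AllSym n).ncard : ℝ) ≤ (5 * (3 * (2 * n * 9))) * c n := g1
      _ ≤ q n 30 * (mu ^ n * q n K4) := by
          apply mul_le_mul g3 g2 (Nat.cast_nonneg _) (q_pos _ _).le
      _ = mu ^ n * q n (30 + K4) := by rw [← q_mul]; ring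
      _ ≤ mu ^ n * q n (K1 + K2 + K3 + K4 + 48) := by
          apply mul_le_mul_of_nonneg_left _ (by positivity)
          exact q_mono hn (by linarith)

/-- the number of loops -/
theorem ln_law : ∃ K : ℝ, 0 ≤ K ∧ ∀ n : ℕ, 2 ≤ n →
    mu ^ (2 * n) * q n (-K) ≤ ln n ∧ (ln n : ℝ) ≤ mu ^ (2 * n) * q n K := by
  obtain ⟨K3, hK3, hPP⟩ := Pool.Agent.TH508.LT.sq_PP2
  refine ⟨K3 + 9, by positivity, ?_⟩
  intro n hn
  have hmu := mu_pos
  obtain ⟨p1, p2⟩ := hPP n hn
  have hln := ln_eq (show 1 ≤ n by omega)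
  have hn0 : (2 : ℝ) ≤ n := by exact_mod_cast hn
  have hP0 : 0 < PP n := lt_of_lt_of_le (by positivity) p1
  have h4 : (4 * n : ℝ) ≤ q n 9 := by
    have h7 := pow_le_q hn 3
    norm_num at h7
    refine le_trans ?_ h7
    nlinarith [mul_nonneg (mul_nonneg (by linarith : (0 : ℝ) ≤ (n : ℝ) - 2)
      (by linarith : (0 : ℝ) ≤ (n : ℝ) + 2)) (by linarith : (0 : ℝ) ≤ (n : ℝ))]
  constructor
  · have e : q n (-K3) = Real.exp (-(K3 * Real.log n ^ 2)) := by unfold q; congr 1; ring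
    have h5 : mu ^ (2 * n) * q n (-(K3 + 9)) ≤ mu ^ (2 * n) * q n (-K3) := by
      apply mul_le_mul_of_nonneg_left _ (by positivity)
      exact q_mono hn (by linarith)
    refine h5.trans ?_
    rw [e]
    refine p1.trans ?_
    rw [hln]
    nlinarith
  · rw [hln]
    have e : Real.exp (K3 * Real.log n ^ 2) = q n K3 := rfl
    rw [e] at p2
    calc (4 * n : ℝ) * PP n ≤ q n 9 * (mu ^ (2 * n) * q n K3) :=
          mul_le_mul h4 p2 hP0.le (q_pos _ _).le
      _ = mu ^ (2 * n) * q n (K3 + 9) := by rw [← q_mul]; ring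

end Pool.Agent.U262.SW
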