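import Pool.Agent.U262.SW.Z

/-!
Visited sites and differences of visited sites, for sets.
-/

set_option autoImplicit false

namespace Pool.Agent.U262.SW

open Pool.Agent.TH795.EP Pool.Agent.TH795.EP2 Pool.Agent.TH795.SE2 Pool.Agent.TH262.SawL H981 Finset
open Pool.Agent.Y981.L2

/-- the words which visit `A` -/
noncomputable def vA (n : ℕ) (A : Set (ℤ × ℤ)) : ℕ :=
  (fs (fun w => Saw w ∧ ∃ z ∈ A, Vs z.1 z.2 w) n).card

/-- the words with a difference in `A` -/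
noncomputable def dA (n : ℕ) (A : Set (ℤ × ℤ)) : ℕ :=
  (fs (fun w => Saw w ∧ ∃ z ∈ A, Ds z.1 z.2 w) n).card

/-- the values of the rate -/
def rA (n : ℕ) (A : Set (ℤ × ℤ)) : Set ℝ :=
  {t | ∃ z ∈ A, |z.1| + |z.2| ≤ n ∧ t = n * Rate ((z.1 : ℝ) / n, (z.2 : ℝ) / n)}

theorem rA_bdd {n : ℕ} (hn : 1 ≤ n) (A : Set (ℤ × ℤ)) : BddBelow (rA n A) := by
  refine ⟨0, ?_⟩
  rintro t ⟨z, -, hz, rfl⟩
  exact mul_nonneg (Nat.cast_nonneg _) (rate_nonneg hn hz)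

theorem vA_le_dA (n : ℕ) (A : Set (ℤ × ℤ)) : vA n A ≤ dA n A := by
  unfold vA dA
  apply Finset.card_le_card
  intro w hw
  rw [mem_fs] at hw ⊢
  obtain ⟨⟨h1, z, hz, h2⟩, h3⟩ := hw
  exact ⟨⟨h1, z, hz, vs_ds h2⟩, h3⟩

theorem vs_le_vA (n : ℕ) {A : Set (ℤ × ℤ)} {z : ℤ × ℤ} (hz : z ∈ A) : vs n z.1 z.2 ≤ vA n A := by
  unfold vs vA
  apply Finset.card_le_card
  intro w hw
  rw [mem_fs] at hw ⊢
  exact ⟨⟨hw.1.1, z, hz, hw.1.2⟩, hw.2⟩

open Classical in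
/-- the points of `A` in the ball -/
noncomputable def bA (n : ℕ) (A : Set (ℤ × ℤ)) : Finset (ℤ × ℤ) :=
  (Icc (-(n : ℤ)) n ×ˢ Icc (-(n : ℤ)) n).filter fun z => z ∈ A ∧ |z.1| + |z.2| ≤ n

theorem mem_bA {n : ℕ} {A : Set (ℤ × ℤ)} {z : ℤ × ℤ} :
    z ∈ bA n A ↔ z ∈ A ∧ |z.1| + |z.2| ≤ n := by
  classical
  unfold bA
  rw [Finset.mem_filter]
  constructor
  · exact fun h => h.2
  · intro h
    refine ⟨?_, h⟩
    have h1 := abs_nonneg z.1
    have h2 := abs_nonneg z.2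
    have h3 : |z.1| ≤ n := by omega
    have h4 : |z.2| ≤ n := by omega
    rw [abs_le] at h3 h4
    rw [Finset.mem_product, Finset.mem_Icc, Finset.mem_Icc]
    exact ⟨h3, h4⟩

theorem card_bA {n : ℕ} (hn : 2 ≤ n) (A : Set (ℤ × ℤ)) : ((bA n A).card : ℝ) ≤ q n 18 := by
  classical
  have h1 : (bA n A).card ≤ (Icc (-(n : ℤ)) n ×ˢ Icc (-(n : ℤ)) n).card :=
    Finset.card_filter_le _ _
  rw [Finset.card_product, Int.card_Icc] at h1
  have h2 : ((n : ℤ) + 1 - -(n : ℤ)).toNat = 2 * n + 1 := by omega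
  rw [h2] at h1
  have h3 : ((bA n A).card : ℝ) ≤ (2 * n + 1) * (2 * n + 1) := by exact_mod_cast h1
  have h4 := pow_le_q hn 6
  have h5 : (3 : ℝ) * (6 : ℕ) = 18 := by norm_num
  rw [h5] at h4
  have hn2 : (2 : ℝ) ≤ n := by exact_mod_cast hn
  have h6 : (2 * n + 1 : ℝ) ≤ (n : ℝ) ^ 3 := by nlinarith [mul_nonneg (by linarith : (0 : ℝ) ≤ (n : ℝ) - 2) (by linarith : (0 : ℝ) ≤ (n : ℝ)), sq_nonneg ((n : ℝ) - 2)]
  calc ((bA n A).card : ℝ) ≤ (2 * n + 1) * (2 * n + 1) := h3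
    _ ≤ (n : ℝ) ^ 3 * (n : ℝ) ^ 3 := mul_le_mul h6 h6 (by positivity) (by positivity)
    _ = (n : ℝ) ^ 6 := by ring
    _ ≤ _ := h4

theorem path_dist {w : List St} {i j : ℕ} (hij : i ≤ j) (hj : j ≤ w.length) :
    |(H981.path w j).1 - (H981.path w i).1| + |(H981.path w j).2 - (H981.path w i).2| ≤ j - i := by
  have h1 := abs_add_abs_le ((w.drop i).take (j - i))
  have h2 : H981.path (w.drop i) (j - i) = ((H981.path w (i + (j - i))).1 - (H981.path w i).1,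
      (H981.path w (i + (j - i))).2 - (H981.path w i).2) := by
    have := path_drop w i (j - i)
    rw [this]
    ext
    · simp only; ring
    · simp only; ring
  rw [show i + (j - i) = j by omega] at h2
  have h3 : ((w.drop i).take (j - i)).length = j - i := by
    rw [List.length_take, List.length_drop]; omega
  have h4 : H981.path (w.drop i) (j - i) =
      (dx ((w.drop i).take (j - i)), dy ((w.drop i).take (j - i))) := rfl
  rw [h4] at h2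
  obtain ⟨e1, e2⟩ := Prod.mk.inj h2
  rw [e1, e2, h3] at h1
  have h5 : (((j - i : ℕ) : ℕ) : ℤ) = (j : ℤ) - i := by omega
  rw [← h5]
  exact h1

theorem dA_le_sum (n : ℕ) (A : Set (ℤ × ℤ)) : dA n A ≤ ∑ z ∈ bA n A, ds n z.1 z.2 := by
  classical
  unfold dA ds
  rw [← Finset.card_sigma]
  apply card_le_of_decode (fun q => q.2)
  intro w hw
  rw [mem_fs] at hw
  obtain ⟨⟨h1, z, hz, h2⟩, h3⟩ := hw
  refine ⟨⟨z, w⟩, ?_, rfl⟩
  rw [Finset.mem_sigma, mem_bA, mem_fs]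
  refine ⟨⟨hz, ?_⟩, ⟨h1, h2⟩, h3⟩
  obtain ⟨i, j, hij, hj, e1, e2⟩ := h2
  have := path_dist hij hj
  rw [e1, e2] at this
  have hi : (0 : ℤ) ≤ i := Int.natCast_nonneg _
  have hj' : (j : ℤ) ≤ n := by exact_mod_cast (by omega : j ≤ n)
  show |z.1| + |z.2| ≤ (n : ℤ)
  omega

/-- **Visited sites and differences.** -/
theorem visit_law : ∃ K : ℝ, 0 ≤ K ∧ ∀ n : ℕ, 2 ≤ n → ∀ A : Set (ℤ × ℤ), ((0, 0) : ℤ × ℤ) ∉ A →
    (∃ z ∈ A, |z.1| + |z.2| ≤ (n : ℤ)) → ∀ N : ℕ, vA n A ≤ N → N ≤ dA n A →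
    0 < (N : ℝ) / c n ∧ |Real.log ((N : ℝ) / c n) + sInf (rA n A)| ≤ K * Real.log n ^ 2 := by
  obtain ⟨K1, hK1, h1⟩ := ds_up
  obtain ⟨K2, hK2, h2⟩ := vs_low
  refine ⟨K1 + K2 + 18, by positivity, ?_⟩
  intro n hn A hA hne N hN1 hN2
  have hc : (0 : ℝ) < c n := c_pos n
  have hL : 0 ≤ Real.log (n : ℝ) ^ 2 := by positivity
  have hbdd := rA_bdd (show 1 ≤ n by omega) A
  have hz0 : ∀ z ∈ A, (z.1, z.2) ≠ ((0, 0) : ℤ × ℤ) := by
    intro z hz h
    apply hA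
    rw [← h]
    exact hz
  -- the lower bound for one point
  have low : ∀ z ∈ A, |z.1| + |z.2| ≤ (n : ℤ) →
      Real.exp (-(n * Rate ((z.1 : ℝ) / n, (z.2 : ℝ) / n))) ≤ q n K2 * ((N : ℝ) / c n) := by
    intro z hz hzn
    have g1 := h2 n hn z.1 z.2 (hz0 z hz) hzn
    have g2 : (vs n z.1 z.2 : ℝ) ≤ N := by exact_mod_cast (vs_le_vA n hz).trans hN1
    have g3 : c n * Real.exp (-(n * Rate ((z.1 : ℝ) / n, (z.2 : ℝ) / n))) ≤ q n K2 * N :=
      g1.trans (mul_le_mul_of_nonneg_left g2 (q_pos _ _).le)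
    rw [mul_comm] at g3
    have := (le_div_iff₀ hc).2 g3
    rwa [mul_div_assoc] at this
  obtain ⟨z0, hz0A, hz0n⟩ := hne
  have hpos : 0 < (N : ℝ) / c n := by
    have g1 := low z0 hz0A hz0n
    by_contra hcon
    push Not at hcon
    have g2 := Real.exp_pos (-(n * Rate ((z0.1 : ℝ) / n, (z0.2 : ℝ) / n)))
    have g3 := mul_nonpos_of_nonneg_of_nonpos (q_pos n K2).le hcon
    linarith
  refine ⟨hpos, ?_⟩
  have hq : ∀ B : ℝ, Real.log (q n B) = B * Real.log n ^ 2 := fun B => Real.log_exp _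
  rw [abs_le]
  constructor
  · -- from below
    have key : -(Real.log ((N : ℝ) / c n)) - K2 * Real.log n ^ 2 ≤ sInf (rA n A) := by
      have hmem : n * Rate ((z0.1 : ℝ) / n, (z0.2 : ℝ) / n) ∈ rA n A := ⟨z0, hz0A, hz0n, rfl⟩
      apply le_csInf ⟨_, hmem⟩
      rintro t ⟨z, hz, hzn, rfl⟩
      have g1 := Real.log_le_log (Real.exp_pos _) (low z hz hzn)
      rw [Real.log_exp, Real.log_mul (q_pos _ _).ne' hpos.ne', hq] at g1
      linarith
    have : K2 * Real.log (n : ℝ) ^ 2 ≤ (K1 + K2 + 18) * Real.log n ^ 2 := by nlinarith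
    linarith
  · -- from above
    have g1 : (N : ℝ) ≤ ∑ z ∈ bA n A, (ds n z.1 z.2 : ℝ) := by
      exact_mod_cast hN2.trans (dA_le_sum n A)
    have g2 : ∑ z ∈ bA n A, (ds n z.1 z.2 : ℝ) ≤
        ∑ z ∈ bA n A, q n K1 * (c n * Real.exp (-sInf (rA n A))) := by
      apply Finset.sum_le_sum
      intro z hz
      rw [mem_bA] at hz
      refine (h1 n hn z.1 z.2 (hz0 z hz.1) hz.2).trans ?_
      apply mul_le_mul_of_nonneg_left _ (q_pos _ _).le
      apply mul_le_mul_of_nonneg_left _ hc.le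
      apply Real.exp_le_exp.2
      apply neg_le_neg
      exact csInf_le hbdd ⟨z, hz.1, hz.2, rfl⟩
    rw [Finset.sum_const, nsmul_eq_mul] at g2
    have g3 : (N : ℝ) / c n ≤ q n (18 + K1) * Real.exp (-sInf (rA n A)) := by
      rw [div_le_iff₀ hc]
      calc (N : ℝ) ≤ _ := g1.trans g2
        _ ≤ q n 18 * (q n K1 * (c n * Real.exp (-sInf (rA n A)))) := by
            apply mul_le_mul_of_nonneg_right (card_bA hn A)
            exact mul_nonneg (q_pos _ _).le (mul_nonneg hc.le (Real.exp_pos _).le)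
        _ = _ := by rw [← q_mul]; ring
    have g4 := Real.log_le_log hpos g3
    rw [Real.log_mul (q_pos _ _).ne' (Real.exp_pos _).ne', hq, Real.log_exp] at g4
    have : (18 + K1) * Real.log (n : ℝ) ^ 2 ≤ (K1 + K2 + 18) * Real.log n ^ 2 := by nlinarith
    linarith

end Pool.Agent.U262.SW
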